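import Pool.Agent.LandauR.RRad

/-!
# LandauR, module RHMin: the second derivative at a local minimum is nonnegative

Proof.  `φ(s) = F(v + s y)` is smooth with a local minimum at `0`, `φ'(s) = ∑ⱼ yⱼ ∂ⱼF(v + s y)` and
`φ''(0) = ∑ᵢⱼ ∂ᵢ∂ⱼF(v) yᵢ yⱼ` (`fderiv` applied to `y = ∑ yᵢ eᵢ`; chain rule).  In one variable: if
`φ''(0) < 0` then `φ'(0) = 0` (`IsLocalMin.deriv_eq_zero`) and `φ' < 0` on some `(0, ε)`, so `φ` is
strictly decreasing there (`strictAntiOn_of_deriv_neg`), contradiction with the minimum.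
-/

set_option autoImplicit false

namespace Pool.Agent.LandauR

open MeasureTheory Set Filter Topology Pool.Agent.Landau

theorem rhmin_line (G : V → ℝ) (hG : ContDiff ℝ (⊤ : ℕ∞) G) (v y : V) (s : ℝ) :
    HasDerivAt (fun s : ℝ => G (v + s • y)) (∑ j : Fin 3, y j * pd j G (v + s • y)) s := by
  have hy : y = ∑ j : Fin 3, y j • (EuclideanSpace.single j (1 : ℝ) : V) := by
    ext i
    rw [Fin.sum_univ_three]
    fin_cases i <;> simp
  have h1 : HasDerivAt (fun s : ℝ => v + s • y) y s := by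
    have := ((hasDerivAt_id s).smul_const y).const_add v
    simpa using this
  have h2 : HasFDerivAt G (fderiv ℝ G (v + s • y)) (v + s • y) :=
    (hG.differentiable (by simp) _).hasFDerivAt
  have h3 := h2.comp_hasDerivAt s h1
  have h4 : (fderiv ℝ G (v + s • y)) y = ∑ j : Fin 3, y j * pd j G (v + s • y) := by
    conv_lhs => rw [hy]
    rw [map_sum]
    apply Finset.sum_congr rfl
    intro j _
    rw [map_smul, smul_eq_mul]
    rw [← hy]
    rfl
  rw [← h4]
  exact h3

theorem rhmin_pd_smooth (G : V → ℝ) (hG : ContDiff ℝ (⊤ : ℕ∞) G) (j : Fin 3) :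
    ContDiff ℝ (⊤ : ℕ∞) (pd j G) := by
  have h1 : ContDiff ℝ (⊤ : ℕ∞) (fderiv ℝ G) := hG.fderiv_right (by simp)
  exact h1.clm_apply contDiff_const

theorem hess_min (F : V → ℝ) (hF : ContDiff ℝ (⊤ : ℕ∞) F) (v : V) (hm : IsLocalMin F v) (y : V) :
    0 ≤ ∑ i : Fin 3, ∑ j : Fin 3, pd i (pd j F) v * (y i * y j) := by
  obtain ⟨φ, hφ⟩ : ∃ φ : ℝ → ℝ, φ = fun s : ℝ => F (v + s • y) := ⟨_, rfl⟩
  obtain ⟨ψ, hψ⟩ : ∃ ψ : ℝ → ℝ, ψ = fun s : ℝ => ∑ j : Fin 3, y j * pd j F (v + s • y) := ⟨_, rfl⟩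
  have hd : ∀ s, HasDerivAt φ (ψ s) s := by
    intro s
    rw [hφ, hψ]
    exact rhmin_line F hF v y s
  have hdφ : deriv φ = ψ := funext fun s => (hd s).deriv
  have hdd : HasDerivAt ψ (∑ i : Fin 3, ∑ j : Fin 3, pd i (pd j F) v * (y i * y j)) 0 := by
    have h1 : HasDerivAt ψ (∑ j : Fin 3, y j * (∑ i : Fin 3, y i * pd i (pd j F) (v + (0 : ℝ) • y))) 0 := by
      rw [hψ]
      apply HasDerivAt.fun_sum
      intro j _
      exact (rhmin_line (pd j F) (rhmin_pd_smooth F hF j) v y 0).const_mul (y j)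
    convert h1 using 1
    rw [Finset.sum_comm]
    apply Finset.sum_congr rfl
    intro j _
    rw [Finset.mul_sum]
    apply Finset.sum_congr rfl
    intro i _
    rw [zero_smul, add_zero]
    ring
  have hmin : IsLocalMin φ 0 := by
    have hc : Tendsto (fun s : ℝ => v + s • y) (𝓝 0) (𝓝 v) := by
      have : Continuous (fun s : ℝ => v + s • y) := by fun_prop
      have h := this.tendsto 0
      simpa using h
    have h1 := hc.eventually hm
    rw [hφ]
    filter_upwards [h1] with s hs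
    simpa using hs
  by_contra hneg
  rw [not_le] at hneg
  have hmax : IsLocalMax φ 0 := by
    apply isLocalMax_of_deriv_deriv_neg
    · rw [hdφ, hdd.deriv]
      exact hneg
    · exact hmin.deriv_eq_zero
    · exact (hd 0).continuousAt
  have hc : φ =ᶠ[𝓝 0] fun _ => φ 0 := by
    filter_upwards [hmin, hmax] with s h1 h2
    exact le_antisymm h2 h1
  have h2 := hc.deriv.deriv_eq
  rw [hdφ, hdd.deriv] at h2
  simp at h2
  linarith

end Pool.Agent.LandauR
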