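import Pool.Agent.LandauR.RPsd
import Pool.Agent.LandauR.RHMin

/-!
# LandauR, module RBar: spreading of positivity

`f` a solution of class `SolW`, `[a, b] ⊂ (-∞, 0)`, `f a > 0` on the closed ball of radius `ρ` about
`v₀`, and on `[a, b] × {‖v‖ ≤ R}` the coefficients satisfy `lam ≤ abar` and `tr abar ≤ Lam`.  If
`‖v₀‖ + ‖v₁‖ + ρ ≤ R` then `f b v₁ > 0`.

Proof.  `c(t) = v₀ + ((t - a)/(b - a)) (v₁ - v₀)`, `y = v - c(t)`, `q = ρ² - ‖y‖²`,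
`w(t, v) = δ e^{-α (t - a)} q²`, `ℓ = ‖v₁ - v₀‖ / (b - a)`, `M = Lam + ρ ℓ + 1`,
`α = M² / (lam ρ²) + 8 M / ρ² + 1`, `δ = (min of f a on the ball) / ρ⁴ > 0`.
`∂ₜ w = -α w + 4 δ e^{..} q ⟨y, c'⟩`, `∂ᵢ∂ⱼ w = δ e^{..} (8 yᵢ yⱼ - 4 q δᵢⱼ)`, so on `q ≥ 0`
`∑ abar ∂ᵢ∂ⱼ w ≥ δ e^{..} (8 lam ‖y‖² - 4 q Lam)`, and
`∑ abar ∂ᵢ∂ⱼ w - ∂ₜ w ≥ δ e^{..} (8 lam ‖y‖² + α q² - 4 q (Lam + ρ ℓ)) > 0` when `q > 0`:
if `‖y‖² ≥ ρ²/2` then `4 lam ρ² + α q² ≥ 4 q M` (AM-GM, `α lam ρ² ≥ M²`) and `q > 0`; if `‖y‖² < ρ²/2`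
then `q ≥ ρ²/2`, `α q² ≥ α q ρ²/2 ≥ 4 q M`; and `4 q M > 4 q (Lam + ρ ℓ)`.
`F = f - w` on the compact set `Ω = {(t, v) | t ∈ [a, b], ‖v - c(t)‖ ≤ ρ}` (continuous there).
Claim `F ≥ 0` on `Ω`.  Otherwise the minimum of `F` over `Ω` is negative, attained at `(t*, v*)`.
`t* > a` because at `t = a`: `w ≤ δ ρ⁴ ≤ f a v`.  `‖v* - c(t*)‖ < ρ` because `w = 0` on the lateral
boundary and `f ≥ 0`.  So `v*` is a local minimum of `F(t*, ·)` (all `c(t*)`-near points are in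
`Ω`), hence `∑ abar ∂ᵢ∂ⱼ F ≥ 0` (`hess_min`, `abar_psd`), and `F(t, v*) ≥ F(t*, v*)` for `t < t*`
close to `t*`, so `∂ₜ F(t*, v*) ≤ 0`.  But `∂ₜ F = ∑ abar ∂ᵢ∂ⱼ f + f² - ∂ₜ w
 = ∑ abar ∂ᵢ∂ⱼ F + f² + (∑ abar ∂ᵢ∂ⱼ w - ∂ₜ w) > 0`: contradiction.
At `(b, v₁)`: `f b v₁ ≥ δ e^{-α (b - a)} ρ⁴ > 0`.
(The points of `Ω` satisfy `‖v‖ ≤ ‖v₀‖ + ‖v₁‖ + ρ ≤ R` since `c(t)` is a convex combination.)
-/

set_option autoImplicit false

namespace Pool.Agent.LandauR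

open MeasureTheory Set Filter Topology Pool.Agent.Landau

theorem RBar_q (c v : V) (r : ℝ) :
    HasFDerivAt (fun v : V => r - ‖v - c‖ ^ 2)
      (-((2 : ℝ) • (innerSL ℝ (v - c)))) v := by
  have h1 : HasFDerivAt (fun v : V => v - c) (ContinuousLinearMap.id ℝ V) v :=
    (hasFDerivAt_id v).sub_const c
  have h2 := h1.norm_sq
  have h3 := h2.const_sub r
  refine h3.congr_fderiv ?_
  ext x
  simp

theorem RBar_inner (y : V) (i : Fin 3) :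
    inner ℝ y (EuclideanSpace.single i (1 : ℝ) : V) = y i := by
  simp [EuclideanSpace.inner_single_right]

theorem RBar_pdW (c v : V) (r K : ℝ) (j : Fin 3) :
    pd j (fun v : V => K * (r - ‖v - c‖ ^ 2) ^ 2) v =
      -(4 * K) * ((r - ‖v - c‖ ^ 2) * (v j - c j)) := by
  unfold pd
  have h1 := ((RBar_q c v r).pow 2).const_mul K
  have h2 := h1.fderiv
  rw [h2]
  simp only [smul_apply, neg_apply, innerSL_apply_apply,
    RBar_inner, smul_eq_mul]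
  simp
  ring

theorem RBar_pdW2 (c v : V) (r K : ℝ) (i j : Fin 3) :
    pd i (pd j (fun v : V => K * (r - ‖v - c‖ ^ 2) ^ 2)) v =
      K * (8 * ((v i - c i) * (v j - c j)) -
        4 * (r - ‖v - c‖ ^ 2) * (if i = j then (1 : ℝ) else 0)) := by
  have h0 : pd j (fun v : V => K * (r - ‖v - c‖ ^ 2) ^ 2) = fun v : V =>
      -(4 * K) * ((r - ‖v - c‖ ^ 2) * (v j - c j)) := by
    funext w
    exact RBar_pdW c w r K j
  rw [h0]
  unfold pd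
  have hj : HasFDerivAt (fun v : V => v j - c j)
      (EuclideanSpace.proj j : V →L[ℝ] ℝ) v := by
    have := (EuclideanSpace.proj j : V →L[ℝ] ℝ).hasFDerivAt (x := v)
    exact this.sub_const (c j)
  have h1 := ((RBar_q c v r).mul hj).const_mul (-(4 * K))
  have h2 := h1.fderiv
  rw [show (fun v : V => -(4 * K) * ((r - ‖v - c‖ ^ 2) * (v j - c j))) =
      fun y => -(4 * K) * ((fun v : V => r - ‖v - c‖ ^ 2) * (fun v : V => v j - c j)) y from rfl]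
  rw [h2]
  simp only [smul_apply, neg_apply,
    add_apply, innerSL_apply_apply,
    RBar_inner, smul_eq_mul]
  by_cases hij : i = j
  · subst hij
    simp
    ring
  · have hji : ¬ j = i := fun h => hij h.symm
    simp [hij, hji]
    ring

theorem RBar_time (v v₀ d : V) (a r α δ : ℝ) (t : ℝ) :
    HasDerivAt (fun t : ℝ => δ * Real.exp (-α * (t - a)) * (r - ‖v - (v₀ + (t - a) • d)‖ ^ 2) ^ 2)
      (δ * Real.exp (-α * (t - a)) * (-α * (r - ‖v - (v₀ + (t - a) • d)‖ ^ 2) ^ 2 +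
        4 * (r - ‖v - (v₀ + (t - a) • d)‖ ^ 2) * inner ℝ (v - (v₀ + (t - a) • d)) d)) t := by
  have h0 : HasDerivAt (fun t : ℝ => t - a) 1 t := (hasDerivAt_id t).sub_const a
  have h1 : HasDerivAt (fun t : ℝ => δ * Real.exp (-α * (t - a)))
      (δ * (Real.exp (-α * (t - a)) * (-α * 1))) t := ((h0.const_mul (-α)).exp).const_mul δ
  have h2 : HasDerivAt (fun t : ℝ => v - (v₀ + (t - a) • d)) (-d) t := by
    have := ((h0.smul_const d).const_add v₀).const_sub v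
    simpa using this
  have h3 := (h2.norm_sq.const_sub r).pow 2
  have h4 := h1.mul h3
  refine (h4.congr_deriv ?_)
  rw [inner_neg_right]
  simp
  ring

theorem RBar_left (g : ℝ → ℝ) (g' t : ℝ) (hg : HasDerivAt g g' t)
    (hmin : ∀ᶠ s in 𝓝[<] t, g t ≤ g s) : g' ≤ 0 := by
  have h1 := (hasDerivWithinAt_iff_tendsto_slope' (s := Iio t) (by simp)).1
    (hg.hasDerivWithinAt (s := Iio t))
  refine le_of_tendsto h1 ?_
  filter_upwards [hmin, self_mem_nhdsWithin] with s hs hs2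
  rw [slope_def_field]
  have : s - t < 0 := sub_neg.2 hs2
  exact div_nonpos_of_nonneg_of_nonpos (by linarith) this.le

/-- the algebraic inequality -/
theorem RBar_alg (lam Lam ρ ℓ M α q y2 AY T ip : ℝ) (hl : 0 < lam) (hρ : 0 < ρ)
    (hM : M = Lam + ρ * ℓ + 1) (hMp : 0 < M)
    (hα : α = M ^ 2 / (lam * ρ ^ 2) + 8 * M / ρ ^ 2 + 1)
    (hq : q = ρ ^ 2 - y2) (hq0 : 0 < q) (hy2 : 0 ≤ y2) (hAY : lam * y2 ≤ AY) (hT : T ≤ Lam)
    (hip : ip ≤ ρ * ℓ) :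
    0 < 8 * AY - 4 * q * T + α * q ^ 2 - 4 * q * ip := by
  have h1 : 4 * q * T ≤ 4 * q * Lam := by nlinarith
  have h2 : 4 * q * ip ≤ 4 * q * (ρ * ℓ) := by nlinarith
  have hL : 0 < lam * ρ ^ 2 := by positivity
  have hr : 0 < ρ ^ 2 := by positivity
  suffices h : 4 * q * M ≤ 8 * (lam * y2) + α * q ^ 2 by
    have h3 : 4 * q * M = 4 * q * Lam + 4 * q * (ρ * ℓ) + 4 * q := by rw [hM]; ring
    linarith
  rcases le_or_gt (ρ ^ 2 / 2) y2 with hy | hy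
  · have h4 : 4 * (lam * ρ ^ 2) ≤ 8 * (lam * y2) := by nlinarith
    have h5 : M ^ 2 / (lam * ρ ^ 2) * q ^ 2 ≤ α * q ^ 2 := by
      refine mul_le_mul_of_nonneg_right ?_ (sq_nonneg q)
      rw [hα]
      have : 0 ≤ 8 * M / ρ ^ 2 := by positivity
      linarith
    have h6 : 4 * q * M ≤ 4 * (lam * ρ ^ 2) + M ^ 2 / (lam * ρ ^ 2) * q ^ 2 := by
      have h7 : 4 * (lam * ρ ^ 2) + M ^ 2 / (lam * ρ ^ 2) * q ^ 2 - 4 * q * M =
          (2 * (lam * ρ ^ 2) - M * q) ^ 2 / (lam * ρ ^ 2) := by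
        field_simp
        ring
      have h8 : 0 ≤ (2 * (lam * ρ ^ 2) - M * q) ^ 2 / (lam * ρ ^ 2) := by positivity
      linarith
    linarith
  · have h4 : ρ ^ 2 / 2 < q := by rw [hq]; linarith
    have h5 : 8 * M / ρ ^ 2 ≤ α := by
      rw [hα]
      have : 0 ≤ M ^ 2 / (lam * ρ ^ 2) := by positivity
      linarith
    have h6 : 8 * M / ρ ^ 2 * q ^ 2 ≤ α * q ^ 2 := mul_le_mul_of_nonneg_right h5 (sq_nonneg q)
    have h7 : 4 * q * M ≤ 8 * M / ρ ^ 2 * q ^ 2 := by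
      rw [div_mul_eq_mul_div, le_div_iff₀ hr]
      nlinarith [mul_pos hq0 hMp]
    have h8 : 0 ≤ 8 * (lam * y2) := by positivity
    linarith

theorem RBar_key (f : ℝ → V → ℝ) (hf : SolW f) (t : ℝ) (ht : t < 0) (a : ℝ) (v₀ d v : V)
    (ρ ℓ lam Lam M α δ : ℝ) (hρ : 0 < ρ) (hl : 0 < lam) (hδ : 0 < δ)
    (hM : M = Lam + ρ * ℓ + 1) (hMp : 0 < M)
    (hα : α = M ^ 2 / (lam * ρ ^ 2) + 8 * M / ρ ^ 2 + 1) (hd : ‖d‖ ≤ ℓ)
    (hell : ∀ y : V, lam * ‖y‖ ^ 2 ≤ ∑ i : Fin 3, ∑ j : Fin 3, abar (f t) i j v * (y i * y j))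
    (hup : ∑ i : Fin 3, abar (f t) i i v ≤ Lam)
    (hin : ‖v - (v₀ + (t - a) • d)‖ < ρ)
    (hmin : IsLocalMin (fun w : V => f t w - δ * Real.exp (-α * (t - a)) *
      (ρ ^ 2 - ‖w - (v₀ + (t - a) • d)‖ ^ 2) ^ 2) v)
    (htm : ∀ᶠ s in 𝓝[<] t, f t v - δ * Real.exp (-α * (t - a)) *
      (ρ ^ 2 - ‖v - (v₀ + (t - a) • d)‖ ^ 2) ^ 2 ≤ f s v - δ * Real.exp (-α * (s - a)) *
      (ρ ^ 2 - ‖v - (v₀ + (s - a) • d)‖ ^ 2) ^ 2) : False := by
  obtain ⟨c, hc⟩ : ∃ c : V, c = v₀ + (t - a) • d := ⟨_, rfl⟩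
  obtain ⟨K, hK⟩ : ∃ K : ℝ, K = δ * Real.exp (-α * (t - a)) := ⟨_, rfl⟩
  have hKp : 0 < K := by rw [hK]; positivity
  obtain ⟨q, hq⟩ : ∃ q : ℝ, q = ρ ^ 2 - ‖v - c‖ ^ 2 := ⟨_, rfl⟩
  have h1 := RBar_left (fun s => f s v - δ * Real.exp (-α * (s - a)) *
      (ρ ^ 2 - ‖v - (v₀ + (s - a) • d)‖ ^ 2) ^ 2) _ t
      ((hf.pde t ht v).sub (RBar_time v v₀ d a (ρ ^ 2) α δ t)) htm
  rw [← hc, ← hK] at h1 hmin
  rw [← hc] at hin
  rw [← hq] at h1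
  have hsm : ContDiff ℝ (⊤ : ℕ∞) (f t) := (hf.cls t ht.le).smooth
  have hsW : ContDiff ℝ (⊤ : ℕ∞) (fun w : V => K * (ρ ^ 2 - ‖w - c‖ ^ 2) ^ 2) := by
    have : ContDiff ℝ (⊤ : ℕ∞) (fun w : V => ‖w - c‖ ^ 2) :=
      (contDiff_id.sub contDiff_const).norm_sq ℝ
    exact contDiff_const.mul ((contDiff_const.sub this).pow 2)
  have hpd1 : ∀ j : Fin 3, pd j (fun w : V => f t w - K * (ρ ^ 2 - ‖w - c‖ ^ 2) ^ 2) =
      fun w => pd j (f t) w - pd j (fun w : V => K * (ρ ^ 2 - ‖w - c‖ ^ 2) ^ 2) w := by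
    intro j
    funext w
    unfold pd
    rw [fderiv_fun_sub (hsm.differentiable (by simp) _) (hsW.differentiable (by simp) _)]
    rfl
  have hpd2 : ∀ i j : Fin 3, pd i (pd j (fun w : V => f t w - K * (ρ ^ 2 - ‖w - c‖ ^ 2) ^ 2)) v =
      pd i (pd j (f t)) v - K * (8 * ((v i - c i) * (v j - c j)) -
        4 * q * (if i = j then (1 : ℝ) else 0)) := by
    intro i j
    rw [hpd1 j, hq, ← RBar_pdW2 c v (ρ ^ 2) K i j]
    have e1 : Differentiable ℝ (pd j (f t)) :=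
      (rhmin_pd_smooth _ hsm j).differentiable (by simp)
    have e2 : Differentiable ℝ (pd j (fun w : V => K * (ρ ^ 2 - ‖w - c‖ ^ 2) ^ 2)) :=
      (rhmin_pd_smooth _ hsW j).differentiable (by simp)
    show fderiv ℝ (fun w => pd j (f t) w - pd j (fun w : V => K * (ρ ^ 2 - ‖w - c‖ ^ 2) ^ 2) w) v _
      = _
    rw [fderiv_fun_sub (e1 _) (e2 _)]
    rfl
  have hsF : ContDiff ℝ (⊤ : ℕ∞) (fun w : V => f t w - K * (ρ ^ 2 - ‖w - c‖ ^ 2) ^ 2) :=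
    hsm.sub hsW
  have h2 := abar_psd (f t) (hf.cls t ht.le) v
    (fun i j => pd i (pd j (fun w : V => f t w - K * (ρ ^ 2 - ‖w - c‖ ^ 2) ^ 2)) v)
    (hess_min _ hsF v hmin)
  simp only [hpd2] at h2
  have h3 := hell (v - c)
  have hin2 : (inner ℝ (v - c) d : ℝ) ≤ ρ * ℓ := by
    refine (real_inner_le_norm _ _).trans ?_
    exact mul_le_mul hin.le hd (norm_nonneg _) hρ.le
  have hq0 : 0 < q := by
    rw [hq]
    have := norm_nonneg (v - c)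
    nlinarith
  have h4 := RBar_alg lam Lam ρ ℓ M α q (‖v - c‖ ^ 2) _ _ (inner ℝ (v - c) d) hl hρ hM hMp hα hq
    hq0 (sq_nonneg _) h3 hup hin2
  have h5 := mul_pos hKp h4
  unfold QL at h1
  simp only [Fin.sum_univ_three, Fin.isValue, PiLp.sub_apply, if_true, Fin.reduceEq, if_false] at h1 h2 h5
  nlinarith [sq_nonneg (f t v)]

theorem pos_spread (f : ℝ → V → ℝ) (hf : SolW f) (a b : ℝ) (hab : a < b) (hb : b < 0)
    (v₀ v₁ : V) (ρ R lam Lam : ℝ) (hρ : 0 < ρ) (hR : ‖v₀‖ + ‖v₁‖ + ρ ≤ R) (hl : 0 < lam)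
    (hell : ∀ t ∈ Icc a b, ∀ v : V, ‖v‖ ≤ R → ∀ y : V,
      lam * ‖y‖ ^ 2 ≤ ∑ i : Fin 3, ∑ j : Fin 3, abar (f t) i j v * (y i * y j))
    (hup : ∀ t ∈ Icc a b, ∀ v : V, ‖v‖ ≤ R → ∑ i : Fin 3, abar (f t) i i v ≤ Lam)
    (hpos : ∀ v : V, ‖v - v₀‖ ≤ ρ → 0 < f a v) : 0 < f b v₁ := by
  have hba : 0 < b - a := sub_pos.2 hab
  obtain ⟨d, hd⟩ : ∃ d : V, d = (1 / (b - a)) • (v₁ - v₀) := ⟨_, rfl⟩
  obtain ⟨ℓ, hℓ⟩ : ∃ ℓ : ℝ, ℓ = ‖d‖ := ⟨_, rfl⟩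
  have hℓ0 : 0 ≤ ℓ := by rw [hℓ]; exact norm_nonneg d
  obtain ⟨M, hM⟩ : ∃ M : ℝ, M = Lam + ρ * ℓ + 1 := ⟨_, rfl⟩
  -- the moving centre
  have hc : ∀ t ∈ Icc a b, ‖v₀ + (t - a) • d‖ ≤ ‖v₀‖ + ‖v₁‖ := by
    intro t ht
    have h1 : v₀ + (t - a) • d = (1 - (t - a) / (b - a)) • v₀ + ((t - a) / (b - a)) • v₁ := by
      rw [hd, smul_smul, smul_sub, sub_smul, one_smul]
      have : (t - a) * (1 / (b - a)) = (t - a) / (b - a) := by ring
      rw [this]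
      abel
    have h2 : 0 ≤ (t - a) / (b - a) := div_nonneg (by linarith [ht.1]) hba.le
    have h3 : (t - a) / (b - a) ≤ 1 := by rw [div_le_one hba]; linarith [ht.2]
    rw [h1]
    refine (norm_add_le _ _).trans ?_
    rw [norm_smul, norm_smul, Real.norm_eq_abs, Real.norm_eq_abs, abs_of_nonneg h2,
      abs_of_nonneg (by linarith : (0 : ℝ) ≤ 1 - (t - a) / (b - a))]
    nlinarith [norm_nonneg v₀, norm_nonneg v₁]
  have hball : ∀ t ∈ Icc a b, ∀ v : V, ‖v - (v₀ + (t - a) • d)‖ ≤ ρ → ‖v‖ ≤ R := by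
    intro t ht v hv
    have h1 : v = (v - (v₀ + (t - a) • d)) + (v₀ + (t - a) • d) := by abel
    have h2 := norm_add_le (v - (v₀ + (t - a) • d)) (v₀ + (t - a) • d)
    rw [← h1] at h2
    have h3 := hc t ht
    linarith
  have hLam : 0 ≤ Lam := by
    have ha : a ∈ Icc a b := ⟨le_rfl, hab.le⟩
    have h0 : ‖v₀‖ ≤ R := by
      refine hball a ha v₀ ?_
      simp [hρ.le]
    have h1 := hup a ha v₀ h0
    have h2 : ∀ i : Fin 3, 0 ≤ abar (f a) i i v₀ := by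
      intro i
      have h3 := hell a ha v₀ h0 (EuclideanSpace.single i (1 : ℝ))
      have h4 : ∑ k : Fin 3, ∑ j : Fin 3, abar (f a) k j v₀ *
          ((EuclideanSpace.single i (1 : ℝ) : V) k * (EuclideanSpace.single i (1 : ℝ) : V) j) =
          abar (f a) i i v₀ := by
        fin_cases i <;> simp
      rw [h4] at h3
      refine le_trans ?_ h3
      positivity
    exact (Finset.sum_nonneg fun i _ => h2 i).trans h1
  have hMp : 0 < M := by rw [hM]; positivity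
  obtain ⟨α, hα⟩ : ∃ α : ℝ, α = M ^ 2 / (lam * ρ ^ 2) + 8 * M / ρ ^ 2 + 1 := ⟨_, rfl⟩
  have hα0 : 0 ≤ α := by rw [hα]; positivity
  -- the minimum of `f a` on the ball
  obtain ⟨m, hm, hmb⟩ : ∃ m : ℝ, 0 < m ∧ ∀ v : V, ‖v - v₀‖ ≤ ρ → m ≤ f a v := by
    have hcont : ContinuousOn (f a) (Metric.closedBall v₀ ρ) :=
      (hf.cls a (by linarith)).smooth.continuous.continuousOn
    obtain ⟨x, hx, hxm⟩ := (isCompact_closedBall v₀ ρ).exists_isMinOn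
      ⟨v₀, Metric.mem_closedBall_self hρ.le⟩ hcont
    refine ⟨f a x, hpos x (by rwa [Metric.mem_closedBall, dist_eq_norm] at hx), fun v hv => ?_⟩
    exact hxm (show v ∈ Metric.closedBall v₀ ρ by rwa [Metric.mem_closedBall, dist_eq_norm])
  obtain ⟨δ, hδ⟩ : ∃ δ : ℝ, δ = m / ρ ^ 4 := ⟨_, rfl⟩
  have hδ0 : 0 < δ := by rw [hδ]; positivity
  have hδρ : δ * ρ ^ 4 = m := by rw [hδ]; field_simp
  -- the difference on the fixed cylinder
  obtain ⟨G, hG⟩ : ∃ G : ℝ × V → ℝ, G = fun p => f p.1 (p.2 + (v₀ + (p.1 - a) • d)) -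
      δ * Real.exp (-α * (p.1 - a)) * (ρ ^ 2 - ‖p.2‖ ^ 2) ^ 2 := ⟨_, rfl⟩
  have hGc : ContinuousOn G (Icc a b ×ˢ Metric.closedBall (0 : V) ρ) := by
    rw [hG]
    refine ContinuousOn.sub ?_ (by fun_prop)
    have h1 : ContinuousOn (fun p : ℝ × V => f p.1 p.2) (Iio (0 : ℝ) ×ˢ univ) :=
      hf.smooth.continuousOn
    have h2 : Continuous (fun p : ℝ × V => ((p.1, p.2 + (v₀ + (p.1 - a) • d)) : ℝ × V)) := by
      fun_prop
    refine h1.comp h2.continuousOn ?_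
    intro p hp
    exact ⟨lt_of_le_of_lt hp.1.2 hb, mem_univ _⟩
  obtain ⟨p, hp, hpm⟩ := (isCompact_Icc.prod (isCompact_closedBall (0 : V) ρ)).exists_isMinOn
    ⟨(a, 0), ⟨⟨le_rfl, hab.le⟩, Metric.mem_closedBall_self hρ.le⟩⟩ hGc
  have hmin : ∀ t ∈ Icc a b, ∀ y : V, ‖y‖ ≤ ρ → G p ≤ G (t, y) := by
    intro t ht y hy
    exact hpm (show (t, y) ∈ Icc a b ×ˢ Metric.closedBall (0 : V) ρ from
      ⟨ht, by rwa [mem_closedBall_zero_iff]⟩)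
  obtain ⟨t, y⟩ := p
  have ht : t ∈ Icc a b := hp.1
  have hy : ‖y‖ ≤ ρ := by
    have := hp.2
    rwa [mem_closedBall_zero_iff] at this
  have hG0 : 0 ≤ G (t, y) := by
    by_contra hneg
    rw [not_le] at hneg
    -- interior in space
    have hy2 : ‖y‖ < ρ := by
      refine lt_of_le_of_ne hy fun h => ?_
      have h1 : G (t, y) = f t (y + (v₀ + (t - a) • d)) := by
        rw [hG]
        simp [h]
      rw [h1] at hneg
      exact absurd ((hf.cls t (by linarith [ht.2])).nonneg (y + (v₀ + (t - a) • d)))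
        (not_le.2 hneg)
    have hat : a < t := by
      refine lt_of_le_of_ne ht.1 fun h => ?_
      subst h
      have h1 : G (a, y) = f a (y + v₀) - δ * (ρ ^ 2 - ‖y‖ ^ 2) ^ 2 := by
        rw [hG]
        simp
      rw [h1] at hneg
      have h2 := hmb (y + v₀) (by simpa using hy)
      have h3 : δ * (ρ ^ 2 - ‖y‖ ^ 2) ^ 2 ≤ δ * ρ ^ 4 := by
        refine mul_le_mul_of_nonneg_left ?_ hδ0.le
        have h4 : 0 ≤ ‖y‖ := norm_nonneg y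
        have h5 : 0 ≤ ρ ^ 2 - ‖y‖ ^ 2 := by nlinarith
        have h6 : ρ ^ 2 - ‖y‖ ^ 2 ≤ ρ ^ 2 := by nlinarith [sq_nonneg ‖y‖]
        calc (ρ ^ 2 - ‖y‖ ^ 2) ^ 2 ≤ (ρ ^ 2) ^ 2 := pow_le_pow_left₀ h5 h6 2
          _ = ρ ^ 4 := by ring
      linarith
    obtain ⟨v, hv⟩ : ∃ v : V, v = y + (v₀ + (t - a) • d) := ⟨_, rfl⟩
    have hvy : v - (v₀ + (t - a) • d) = y := by rw [hv]; abel
    have hGv : ∀ s : ℝ, ∀ w : V, G (s, w - (v₀ + (s - a) • d)) = f s w -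
        δ * Real.exp (-α * (s - a)) * (ρ ^ 2 - ‖w - (v₀ + (s - a) • d)‖ ^ 2) ^ 2 := by
      intro s w
      rw [hG]
      simp only [sub_add_cancel]
    have hGt : G (t, y) = f t v - δ * Real.exp (-α * (t - a)) *
        (ρ ^ 2 - ‖v - (v₀ + (t - a) • d)‖ ^ 2) ^ 2 := by
      rw [← hGv t v, hvy]
    refine RBar_key f hf t (lt_of_le_of_lt ht.2 hb) a v₀ d v ρ ℓ lam Lam M α δ hρ hl hδ0 hM hMp hα
      hℓ.ge (hell t ht v (hball t ht v (by rw [hvy]; exact hy)))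
      (hup t ht v (hball t ht v (by rw [hvy]; exact hy))) (by rw [hvy]; exact hy2) ?_ ?_
    · have h1 : Continuous (fun w : V => ‖w - (v₀ + (t - a) • d)‖) := by fun_prop
      have h2 : ∀ᶠ w in 𝓝 v, ‖w - (v₀ + (t - a) • d)‖ < ρ :=
        h1.continuousAt.eventually_lt continuousAt_const (by rw [hvy]; exact hy2)
      filter_upwards [h2] with w hw
      have h3 := hmin t ht (w - (v₀ + (t - a) • d)) hw.le
      rw [hGv, hGt] at h3
      exact h3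
    · have h1 : Continuous (fun s : ℝ => ‖v - (v₀ + (s - a) • d)‖) := by fun_prop
      have h2 : ∀ᶠ s in 𝓝 t, ‖v - (v₀ + (s - a) • d)‖ < ρ :=
        h1.continuousAt.eventually_lt continuousAt_const (by rw [hvy]; exact hy2)
      have h3 : ∀ᶠ s in 𝓝 t, a < s := eventually_gt_nhds hat
      filter_upwards [h2.filter_mono nhdsWithin_le_nhds, h3.filter_mono nhdsWithin_le_nhds,
        self_mem_nhdsWithin] with s hs hs2 hs3
      have hs4 : s < t := hs3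
      have h4 := hmin s ⟨hs2.le, (hs4.le.trans ht.2)⟩ (v - (v₀ + (s - a) • d)) hs.le
      rw [hGv, hGt] at h4
      exact h4
  have hfin := hmin b ⟨hab.le, le_rfl⟩ 0 (by simp [hρ.le])
  have hcb : v₀ + (b - a) • d = v₁ := by
    rw [hd, smul_smul, mul_one_div_cancel hba.ne', one_smul]
    abel
  have hGb : G (b, 0) = f b v₁ - δ * Real.exp (-α * (b - a)) * ρ ^ 4 := by
    rw [hG]
    simp only [zero_add, hcb, norm_zero]
    ring
  rw [hGb] at hfin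
  have : 0 < δ * Real.exp (-α * (b - a)) * ρ ^ 4 := by positivity
  linarith

end Pool.Agent.LandauR
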