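import Pool.Agent.LandauR.REll
import Pool.Agent.LandauR.RBar

/-!
# LandauR, module RPos: strong maximum principle

A solution of class `SolW` which is not identically zero is positive for all negative times.

Proof.  First `f t` is not identically zero for any `t ≤ 0`: if `f t₁ = 0` then `f t₁` is integrable
with integral `0`, so by `mass_at` (`LandauG/WCons.lean`) `f t` is integrable with `∫ f t = 0` for
every `t ≤ 0`, and it is continuous and nonnegative, so `f t = 0` for all `t ≤ 0`.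
Let `b < 0`, `v₁ ∈ V`, `a = b - 1`; choose `v₀` with `f a v₀ > 0` and by continuity `ρ > 0` with
`f a > 0` on the closed ball.  `R = ‖v₀‖ + ‖v₁‖ + ρ`, `ell_low`, `abar_tr_le` together with `Kw_bdd`
(`LandauG/WBaire.lean`) and `pos_spread`.
-/

set_option linter.all false

set_option autoImplicit false

namespace Pool.Agent.LandauR

open MeasureTheory Set Filter Topology Pool.Agent.Landau

theorem ne_all (f : ℝ → V → ℝ) (hf : SolW f) (hne : ∃ t ≤ (0 : ℝ), ∃ v, f t v ≠ 0) :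
    ∀ t ≤ 0, ∃ v, f t v ≠ 0 := by
  intro t1 ht1
  by_contra hc
  push Not at hc
  obtain ⟨t0, ht0, v, hv⟩ := hne
  have h1 : f t1 = fun _ => 0 := funext hc
  have hi : Integrable (f t1) := by
    rw [h1]
    exact integrable_zero _ _ _
  obtain ⟨h2, h3⟩ := mass_at f hf t1 t0 ht1 ht0 hi
  rw [h1, integral_zero] at h3
  have h4 : 0 ≤ᵐ[volume] f t0 := Eventually.of_forall (hf.cls t0 ht0).nonneg
  rw [integral_eq_zero_iff_of_nonneg_ae h4 h2] at h3
  have h5 : f t0 = fun _ => 0 := by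
    refine (Continuous.ae_eq_iff_eq (volume : Measure V) (hf.cls t0 ht0).cont continuous_const).1 ?_
    exact h3
  apply hv
  rw [h5]

theorem pos_all (f : ℝ → V → ℝ) (hf : SolW f) (hne : ∃ t ≤ (0 : ℝ), ∃ v, f t v ≠ 0) :
    ∀ t < 0, ∀ v, 0 < f t v := by
  intro b hb v₁
  have hne' := ne_all f hf hne
  have ha : b - 1 ≤ 0 := by linarith
  obtain ⟨v₀, hv₀⟩ := hne' (b - 1) ha
  have hpos : 0 < f (b - 1) v₀ := lt_of_le_of_ne ((hf.cls _ ha).nonneg v₀) (Ne.symm hv₀)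
  have hopen : IsOpen {v | 0 < f (b - 1) v} := isOpen_lt continuous_const (hf.cls _ ha).cont
  obtain ⟨ρ, hρ, hball⟩ := Metric.isOpen_iff.1 hopen v₀ hpos
  obtain ⟨lam, hlam, hell⟩ := ell_low f hf hne' (b - 1) b (‖v₀‖ + ‖v₁‖ + ρ / 2) hb.le
  obtain ⟨B, hB⟩ := Kw_bdd f hf (b - 1)
  have hR0 : 0 ≤ ‖v₀‖ + ‖v₁‖ + ρ / 2 := by positivity
  refine pos_spread f hf (b - 1) b (by linarith) hb v₀ v₁ (ρ / 2) (‖v₀‖ + ‖v₁‖ + ρ / 2) lam
    (7 + 3 * (2 + (‖v₀‖ + ‖v₁‖ + ρ / 2)) * B) (by positivity) le_rfl hlam hell ?_ ?_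
  · intro t ht v hv
    have ht0 : t ≤ 0 := ht.2.trans hb.le
    refine (abar_tr_le (f t) (hf.cls t ht0) _ hR0 v hv).trans ?_
    have h1 := hB t ⟨ht.1, ht0⟩
    have h2 : 0 ≤ 3 * (2 + (‖v₀‖ + ‖v₁‖ + ρ / 2)) := by positivity
    have h3 := mul_le_mul_of_nonneg_left h1 h2
    linarith
  · intro v hv
    apply hball
    rw [Metric.mem_ball, dist_eq_norm]
    linarith

end Pool.Agent.LandauR
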