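import Mathlib

/-!
# LandauR, module FishId: the pointwise form of the localised Fisher identity

All functions are arbitrary functions of one variable with the stated derivatives at the point `r`.
-/

set_option autoImplicit false

namespace Pool.Agent.LandauR

open MeasureTheory Set Filter Topology

/-- the boundary term -/
noncomputable def Btot (f ω a θ θ1 N K P V C1 C3 S2 PT : ℝ → ℝ) (x : ℝ) : ℝ :=
  2 * θ x * x * a x * f x * ((K x + x ^ 3 * P x) / 3 * ω x + N x)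
    + 2 * θ1 x * x * ω x * f x * ((K x + x ^ 3 * P x) / 3 * ω x + N x)
    - θ1 x * (x * (K x + x ^ 3 * P x) / 3) * ω x ^ 2 * f x
    - θ1 x * x ^ 2 * f x ^ 2 + 6 * (θ1 x / x) * f x * N x
    + 2 * θ x * ((K x + x ^ 3 * P x) / 3) * ω x ^ 2 * f x
    - 4 / 3 * (θ x * f x * ω x * (x ^ 3 * f x - 3 * N x))
    + 4 / 3 * (θ x * f x * V x)
    - 2 / 3 * (C1 x * PT x) - 4 / 3 * (C3 x * PT x) - 2 * (S2 x * PT x)

theorem fish_id (f ω a θ θ1 N K P V C1 C3 S2 PT : ℝ → ℝ) (r e θ2 : ℝ) (hr : 0 < r)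
    (hf : HasDerivAt f (r * ω r * f r) r) (hω : HasDerivAt ω (a r) r) (ha : HasDerivAt a e r)
    (hθ : HasDerivAt θ (θ1 r) r) (hθ1 : HasDerivAt θ1 θ2 r)
    (hN : HasDerivAt N (r ^ 2 * f r) r) (hK : HasDerivAt K (r ^ 4 * f r) r)
    (hP : HasDerivAt P (-(r * f r)) r) (hV : HasDerivAt V (r ^ 4 * ω r ^ 2 * f r) r)
    (hC1 : HasDerivAt C1 (r ^ 4 * f r * a r ^ 2) r)
    (hC3 : HasDerivAt C3 (r ^ 3 * f r * a r * ω r) r)
    (hS2 : HasDerivAt S2 (r ^ 2 * ω r ^ 2 * f r) r)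
    (hPT : HasDerivAt PT (-(θ r * r * f r)) r) :
    HasDerivAt (Btot f ω a θ θ1 N K P V C1 C3 S2 PT)
      ((2 * θ2 * r * ω r + 8 * θ1 r * ω r + 4 * θ1 r * r * a r + θ r * (8 * a r + 2 * r * e)
          + θ1 r * r ^ 2 * ω r ^ 2 + 2 * θ r * r * ω r ^ 2 + 2 * θ r * r ^ 2 * ω r * a r)
          * (f r * ((K r + r ^ 3 * P r) / 3 * ω r + N r))
        + 2 / 3 * (θ r * r * f r * (a r ^ 2 * K r
            - a r / r * (ω r * K r - (r ^ 3 * f r - 3 * N r)) + C1 r + 2 * C3 r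
            - 2 * r ^ 3 * f r * ω r ^ 2 + 2 * ω r * V r + 3 * ω r ^ 2 * N r + 3 * S2 r))
        + 2 / 3 * (r ^ 2 * f r * ((r * a r + ω r) ^ 2 + 2 * ω r ^ 2) * (θ r * P r - PT r))
        - (r ^ 4 * f r * ω r ^ 2 * (θ2 * ((K r / r ^ 3 + P r) / 3)
              + θ1 r / r * (5 * ((K r / r ^ 3 + P r) / 3) - (N r / r + P r)))
            + 4 / 3 * (θ1 r * f r * (ω r * (r ^ 3 * f r - 3 * N r) - V r))
            + f r ^ 2 * (r ^ 2 * θ2 - 4 * r * θ1 r)
            - 6 * f r * (θ2 / r - θ1 r / r ^ 2) * N r)) r := by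
  have hid : HasDerivAt (fun x : ℝ => x) 1 r := hasDerivAt_id r
  have hx2 : HasDerivAt (fun x : ℝ => x ^ 2) (2 * r) r := by simpa using hasDerivAt_pow 2 r
  have hx3 : HasDerivAt (fun x : ℝ => x ^ 3) (3 * r ^ 2) r := by simpa using hasDerivAt_pow 3 r
  have hKP : HasDerivAt (fun x => (K x + x ^ 3 * P x) / 3) (r ^ 2 * P r) r := by
    refine ((hK.add (hx3.mul hP)).div_const 3).congr_deriv ?_
    ring
  have hX : HasDerivAt (fun x => (K x + x ^ 3 * P x) / 3 * ω x + N x)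
      (r ^ 2 * P r * ω r + (K r + r ^ 3 * P r) / 3 * a r + r ^ 2 * f r) r :=
    (hKP.mul hω).add hN
  have hω2 : HasDerivAt (fun x => ω x ^ 2) (2 * ω r * a r) r := by
    refine (hω.pow 2).congr_deriv ?_
    ring
  have hf2 : HasDerivAt (fun x => f x ^ 2) (2 * f r * (r * ω r * f r)) r := by
    refine (hf.pow 2).congr_deriv ?_
    ring
  have hW : HasDerivAt (fun x => x ^ 3 * f x - 3 * N x) (r ^ 4 * ω r * f r) r := by
    refine ((hx3.mul hf).sub (hN.const_mul 3)).congr_deriv ?_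
    ring
  have hxKP : HasDerivAt (fun x => x * (K x + x ^ 3 * P x) / 3)
      ((K r + r ^ 3 * P r) / 3 + r * (r ^ 2 * P r)) r := by
    have h := hid.mul hKP
    refine (h.congr_of_eventuallyEq (Eventually.of_forall fun x => ?_)).congr_deriv ?_
    · simp only [Pi.mul_apply]
      ring
    · ring
  have h1 := ((((hθ.const_mul 2).mul hid).mul ha).mul hf).mul hX
  have h2 := ((((hθ1.const_mul 2).mul hid).mul hω).mul hf).mul hX
  have h3 := ((hθ1.mul hxKP).mul hω2).mul hf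
  have h4 := (hθ1.mul hx2).mul hf2
  have h5 := (((hθ1.div hid hr.ne').const_mul 6).mul hf).mul hN
  have h6 := (((hθ.const_mul 2).mul hKP).mul hω2).mul hf
  have h7 := (((hθ.mul hf).mul hω).mul hW).const_mul (4 / 3)
  have h8 := ((hθ.mul hf).mul hV).const_mul (4 / 3)
  have h9 := (hC1.mul hPT).const_mul (2 / 3)
  have h10 := (hC3.mul hPT).const_mul (4 / 3)
  have h11 := (hS2.mul hPT).const_mul 2
  have hall := (((((((((h1.add h2).sub h3).sub h4).add h5).add h6).sub h7).add h8).sub h9).sub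
    h10).sub h11
  refine (hall.congr_of_eventuallyEq (Eventually.of_forall fun x => ?_)).congr_deriv ?_
  · simp only [Btot, Pi.mul_apply, Pi.add_apply, Pi.sub_apply, Pi.div_apply]
  · simp only [Pi.mul_apply, Pi.add_apply, Pi.sub_apply, Pi.div_apply]
    field_simp
    ring

end Pool.Agent.LandauR
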