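import Pool.Agent.LandauR.RDefs

/-!
# LandauR, module ROm: `uu g` is smooth and odd, `om g` extends to a smooth function

`g` is smooth, positive and even, so `uu g = g' / g` is smooth and odd, `uu g 0 = 0`.  For `r ≠ 0`,
`om g r = uu g r / r = ∫_0^1 (uu g)'(r x) dx`, and the right hand side is smooth in `r`
(for instance by `contDiff_parametric_intervalIntegral` style lemmas or by iterating the
differentiation under the integral sign; it is enough to prove it is `C^n` for every `n` by
induction on the statement for all smooth functions in place of `(uu g)'`, with an additional factor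
`x^k`).
-/

set_option autoImplicit false

namespace Pool.Agent.LandauR

open MeasureTheory Set Filter Topology

theorem uu_smooth {g : ℝ → ℝ} (hg : Prof g) : ContDiff ℝ (⊤ : ℕ∞) (uu g) := by
  have h1 : ContDiff ℝ (⊤ : ℕ∞) (deriv g) := (contDiff_infty_iff_deriv.1 hg.smooth).2
  exact h1.div hg.smooth fun r => (hg.pos r).ne'

theorem uu_odd {g : ℝ → ℝ} (hg : Prof g) (r : ℝ) : uu g (-r) = -uu g r := by
  have h1 : (fun x => g (-x)) = g := funext hg.even
  have h2 : deriv g r = -deriv g (-r) := by
    have := deriv_comp_neg g r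
    rwa [h1] at this
  unfold uu
  rw [hg.even, h2]
  ring

theorem uu_zero {g : ℝ → ℝ} (hg : Prof g) : uu g 0 = 0 := by
  have h := uu_odd hg 0
  rw [neg_zero] at h
  linarith

theorem rom_deriv (F : ℝ → ℝ) (hF : ContDiff ℝ (⊤ : ℕ∞) F) (k : ℕ) (r₀ : ℝ) :
    HasDerivAt (fun r => ∫ x in (0 : ℝ)..1, x ^ k * F (r * x))
      (∫ x in (0 : ℝ)..1, x ^ (k + 1) * deriv F (r₀ * x)) r₀ := by
  have hF' : Continuous (deriv F) := (contDiff_infty_iff_deriv.1 hF).2.continuous
  have hFd : Differentiable ℝ F := (contDiff_infty_iff_deriv.1 hF).1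
  have hFc : Continuous F := hF.continuous
  have hK : IsCompact (Icc (r₀ - 1) (r₀ + 1) ×ˢ Icc (0 : ℝ) 1) := isCompact_Icc.prod isCompact_Icc
  have hcont : Continuous (fun p : ℝ × ℝ => p.2 ^ (k + 1) * deriv F (p.1 * p.2)) := by
    fun_prop
  obtain ⟨C, hC⟩ := hK.exists_bound_of_continuousOn hcont.continuousOn
  have key := intervalIntegral.hasDerivAt_integral_of_dominated_loc_of_deriv_le
    (F := fun r x => x ^ k * F (r * x)) (F' := fun r x => x ^ (k + 1) * deriv F (r * x))
    (s := Icc (r₀ - 1) (r₀ + 1)) (bound := fun _ => C) (x₀ := r₀) (a := 0) (b := 1)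
    (μ := volume) ?_ ?_ ?_ ?_ ?_ ?_ ?_
  · exact key.2
  · exact Icc_mem_nhds (by linarith) (by linarith)
  · apply Eventually.of_forall
    intro r
    have : Continuous (fun x : ℝ => x ^ k * F (r * x)) := by fun_prop
    exact this.aestronglyMeasurable
  · have : Continuous (fun x : ℝ => x ^ k * F (r₀ * x)) := by fun_prop
    exact this.intervalIntegrable _ _
  · have : Continuous (fun x : ℝ => x ^ (k + 1) * deriv F (r₀ * x)) := by fun_prop
    exact this.aestronglyMeasurable
  · apply Eventually.of_forall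
    intro t ht r hr
    rw [uIoc_of_le zero_le_one] at ht
    exact hC (r, t) ⟨hr, ht.1.le, ht.2⟩
  · exact intervalIntegrable_const
  · apply Eventually.of_forall
    intro t _ r _
    have h1 : HasDerivAt (fun r : ℝ => r * t) t r := by
      simpa using (hasDerivAt_id r).mul_const t
    have h2 := ((hFd (r * t)).hasDerivAt.comp r h1).const_mul (t ^ k)
    exact h2.congr_deriv (by simp only [pow_succ]; ring)

theorem rom_contDiff (n : ℕ) : ∀ (k : ℕ) (F : ℝ → ℝ), ContDiff ℝ (⊤ : ℕ∞) F →
    ContDiff ℝ n (fun r => ∫ x in (0 : ℝ)..1, x ^ k * F (r * x)) := by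
  induction n with
  | zero =>
    intro k F hF
    rw [Nat.cast_zero, contDiff_zero]
    exact continuous_iff_continuousAt.2 fun r => (rom_deriv F hF k r).continuousAt
  | succ n ih =>
    intro k F hF
    rw [Nat.cast_add, Nat.cast_one, contDiff_succ_iff_deriv]
    refine ⟨fun r => (rom_deriv F hF k r).differentiableAt, by simp, ?_⟩
    have : deriv (fun r => ∫ x in (0 : ℝ)..1, x ^ k * F (r * x)) =
        fun r => ∫ x in (0 : ℝ)..1, x ^ (k + 1) * deriv F (r * x) :=
      funext fun r => (rom_deriv F hF k r).deriv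
    rw [this]
    exact ih (k + 1) (deriv F) (contDiff_infty_iff_deriv.1 hF).2

theorem om_smooth {g : ℝ → ℝ} (hg : Prof g) :
    ∃ W : ℝ → ℝ, ContDiff ℝ (⊤ : ℕ∞) W ∧ (∀ r, r ≠ 0 → om g r = W r) ∧
      ∀ r, r ≠ 0 → deriv (om g) r = deriv W r := by
  have hu := uu_smooth hg
  have hu' := contDiff_infty_iff_deriv.1 hu
  have hW : ContDiff ℝ (⊤ : ℕ∞) (fun r => ∫ x in (0 : ℝ)..1, x ^ 0 * deriv (uu g) (r * x)) :=
    contDiff_infty.2 fun n => rom_contDiff n 0 _ hu'.2
  have heq : ∀ r, r ≠ 0 → om g r = ∫ x in (0 : ℝ)..1, x ^ 0 * deriv (uu g) (r * x) := by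
    intro r hr
    simp only [pow_zero, one_mul]
    rw [intervalIntegral.integral_comp_mul_left (fun x => deriv (uu g) x) hr, mul_zero, mul_one]
    rw [intervalIntegral.integral_deriv_eq_sub (fun x _ => hu'.1 x)
      (hu'.2.continuous.intervalIntegrable _ _), uu_zero hg, sub_zero, smul_eq_mul]
    unfold om
    field_simp
  refine ⟨_, hW, heq, ?_⟩
  intro r hr
  apply Filter.EventuallyEq.deriv_eq
  filter_upwards [isOpen_ne.mem_nhds hr] with s hs
  exact heq s hs

end Pool.Agent.LandauR
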