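import Pool.Agent.LandauR.RCalc
import Pool.Agent.LandauR.ROm

/-!
# LandauR, module RAnnA: the direct form of the Fisher identity, cutoff vanishing near the origin

For `r > 0` put `u = uu g`, `A = AA g`, `E = EE g`, `N = NN g` and
`G = g (2 θ r² A u u' + θ r² A u³ - 2 θ (E / r²) u² + θ N u² - θ' r² A u²)`.
Then (checked exactly with a computer) for `r > 0`
`G' = [integrand of dFI] - [integrand of RF]`,
where `g' = u g`, `g'' = (u' + u²) g`, ..., `N' = r² g`, `E' = r⁴ g`, `A' = -E / r⁴`, `aa' = -N / r²`, and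
`deriv (QQ g) r = A' g'' + A g''' + ((aa - A)/r)' g' + ((aa - A)/r) g'' + 2 g g'`
(first compute `HasDerivAt (QQ g) _ r`).  The pointwise identity is then `field_simp; ring` with
`3 r³ A = E + r³ P`, `r aa = N + r P`.
As `θ = 0` for `r ≤ δ` and for `r ≥ K`, all integrands and `G` are smooth with support in `[δ, K]`, and
the integral of `G'` over `(0, ∞)` is `0`.
-/

set_option autoImplicit false

namespace Pool.Agent.LandauR

open MeasureTheory Set Filter Topology

theorem deriv_eq_uu {g : ℝ → ℝ} (hg : Prof g) : deriv g = fun r => uu g r * g r := by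
  funext r
  have := (hg.pos r).ne'
  unfold uu
  field_simp

theorem ann_g {g : ℝ → ℝ} (hg : Prof g) (r : ℝ) : HasDerivAt g (uu g r * g r) r := by
  have h1 : HasDerivAt g (deriv g r) r :=
    ((contDiff_infty_iff_deriv.1 hg.smooth).1 r).hasDerivAt
  rwa [deriv_eq_uu hg] at h1

theorem ann_u {g : ℝ → ℝ} (hg : Prof g) (r : ℝ) : HasDerivAt (uu g) (deriv (uu g) r) r :=
  ((contDiff_infty_iff_deriv.1 (uu_smooth hg)).1 r).hasDerivAt

theorem ann_u1 {g : ℝ → ℝ} (hg : Prof g) (r : ℝ) :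
    HasDerivAt (deriv (uu g)) (deriv (deriv (uu g)) r) r :=
  ((contDiff_infty_iff_deriv.1 (contDiff_infty_iff_deriv.1 (uu_smooth hg)).2).1 r).hasDerivAt

theorem deriv2_eq_uu {g : ℝ → ℝ} (hg : Prof g) :
    deriv (deriv g) = fun r => (deriv (uu g) r + uu g r ^ 2) * g r := by
  funext r
  rw [deriv_eq_uu hg]
  have h := (ann_u hg r).fun_mul (ann_g hg r)
  rw [h.deriv]
  ring

theorem QQ_eq_uu {g : ℝ → ℝ} (hg : Prof g) : QQ g = fun r =>
    AA g r * ((deriv (uu g) r + uu g r ^ 2) * g r) + (aa g r - AA g r) / r * (uu g r * g r)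
      + g r ^ 2 := by
  funext r
  unfold QQ
  rw [deriv2_eq_uu hg, deriv_eq_uu hg]

/-- the derivative of `QQ g` -/
noncomputable def QQd (g : ℝ → ℝ) (r : ℝ) : ℝ :=
  -(EE g r / r ^ 4) * ((deriv (uu g) r + uu g r ^ 2) * g r)
    + AA g r * ((deriv (deriv (uu g)) r + 2 * uu g r * deriv (uu g) r) * g r
      + (deriv (uu g) r + uu g r ^ 2) * (uu g r * g r))
    + (((-(NN g r / r ^ 2) - -(EE g r / r ^ 4)) * r - (aa g r - AA g r)) / r ^ 2
        * (uu g r * g r)
      + (aa g r - AA g r) / r * (deriv (uu g) r * g r + uu g r * (uu g r * g r)))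
    + 2 * g r * (uu g r * g r)

theorem hasDerivAt_QQ {g : ℝ → ℝ} (hg : Prof g) {r : ℝ} (hr : 0 < r) :
    HasDerivAt (QQ g) (QQd g r) r := by
  rw [QQ_eq_uu hg]
  have hA := hasDerivAt_AA hg hr
  have ha := hasDerivAt_aa hg hr
  have h1 := ((ann_u1 hg r).fun_add ((ann_u hg r).fun_pow 2)).fun_mul (ann_g hg r)
  have h2 := hA.fun_mul h1
  have h3 := ((ha.fun_sub hA).fun_div (hasDerivAt_id' r) hr.ne').fun_mul
    ((ann_u hg r).fun_mul (ann_g hg r))
  have h4 := (ann_g hg r).fun_pow 2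
  refine ((h2.fun_add h3).fun_add h4).congr_deriv ?_
  unfold QQd
  have : r ≠ 0 := hr.ne'
  field_simp
  ring

/-- the primitive -/
noncomputable def GG (θ g : ℝ → ℝ) (r : ℝ) : ℝ :=
  g r * (2 * θ r * r ^ 2 * AA g r * uu g r * deriv (uu g) r + θ r * r ^ 2 * AA g r * uu g r ^ 3
    - 2 * θ r * (EE g r / r ^ 2) * uu g r ^ 2 + θ r * NN g r * uu g r ^ 2
    - deriv θ r * r ^ 2 * AA g r * uu g r ^ 2)

/-- the integrand of `dFI` -/
noncomputable def iF (θ g : ℝ → ℝ) (r : ℝ) : ℝ :=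
  θ r * (2 * r ^ 2 * uu g r * deriv (QQ g) r - r ^ 2 * uu g r ^ 2 * QQ g r)

/-- the integrand of `RF` -/
noncomputable def iR (θ g : ℝ → ℝ) (r : ℝ) : ℝ :=
  (-2 * (θ r * r ^ 2 * g r * AA g r * (deriv (uu g) r ^ 2 + 2 * uu g r ^ 2 / r ^ 2))
      + 2 * (θ r * (EE g r / r ^ 2) * g r * uu g r * deriv (uu g) r)
      - 4 * (θ r * (NN g r / r) * g r * uu g r ^ 2)
      + 4 * (θ r * r ^ 2 * g r ^ 2 * uu g r ^ 2)
      + g r * uu g r ^ 2 * (r ^ 2 * deriv (deriv θ) r * AA g r
          + r * deriv θ r * (5 * AA g r - aa g r)))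

theorem hasDerivAt_GG {g θ : ℝ → ℝ} (hg : Prof g) (hθ : ContDiff ℝ (⊤ : ℕ∞) θ) {r : ℝ}
    (hr : 0 < r) : HasDerivAt (GG θ g) (iF θ g r - iR θ g r) r := by
  have hA := hasDerivAt_AA hg hr
  have hN := hasDerivAt_NN hg r
  have hE := hasDerivAt_EE hg r
  have hG := ann_g hg r
  have hu := ann_u hg r
  have hu1 := ann_u1 hg r
  have hθ1 := contDiff_infty_iff_deriv.1 hθ
  have hT : HasDerivAt θ (deriv θ r) r := (hθ1.1 r).hasDerivAt
  have hT1 : HasDerivAt (deriv θ) (deriv (deriv θ) r) r :=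
    ((contDiff_infty_iff_deriv.1 hθ1.2).1 r).hasDerivAt
  have hr2 : HasDerivAt (fun x : ℝ => x ^ 2) (2 * r) r := by
    simpa using hasDerivAt_pow 2 r
  have t1 := ((((hT.const_mul 2).fun_mul hr2).fun_mul hA).fun_mul hu).fun_mul hu1
  have t2 := ((hT.fun_mul hr2).fun_mul hA).fun_mul (hu.fun_pow 3)
  have t3 := ((hT.const_mul 2).fun_mul (hE.fun_div hr2 (by positivity))).fun_mul (hu.fun_pow 2)
  have t4 := (hT.fun_mul hN).fun_mul (hu.fun_pow 2)
  have t5 := ((hT1.fun_mul hr2).fun_mul hA).fun_mul (hu.fun_pow 2)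
  have t6 := hG.fun_mul ((((t1.fun_add t2).fun_sub t3).fun_add t4).fun_sub t5)
  refine t6.congr_deriv ?_
  unfold iF iR
  rw [(hasDerivAt_QQ hg hr).deriv, QQ_eq_uu hg]
  unfold QQd AA aa
  have : r ≠ 0 := hr.ne'
  field_simp
  ring

theorem cont_pos {f f' : ℝ → ℝ} (h : ∀ r, 0 < r → HasDerivAt f (f' r) r) {δ K : ℝ}
    (hδ : 0 < δ) : ContinuousOn f (Icc δ K) := fun r hr =>
  (h r (lt_of_lt_of_le hδ hr.1)).continuousAt.continuousWithinAt

theorem tst_deriv {θ : ℝ → ℝ} {δ K : ℝ} (hθ : Tst θ δ K) (h0 : θ 0 = 0) {r : ℝ}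
    (hr : r ≤ δ ∨ K ≤ r) : θ r = 0 ∧ deriv θ r = 0 ∧ deriv (deriv θ) r = 0 := by
  have hz : ∀ x, x < δ ∨ K < x → θ x = 0 := by
    intro x hx
    rcases hx with hx | hx
    · rw [hθ.near x hx.le, h0]
    · exact hθ.far x hx.le
  have hz1 : ∀ x, x < δ ∨ K < x → deriv θ x = 0 := by
    intro x hx
    have : θ =ᶠ[𝓝 x] fun _ => 0 := by
      rcases hx with h | h
      · filter_upwards [Iio_mem_nhds h] with y hy using hz y (Or.inl hy)
      · filter_upwards [Ioi_mem_nhds h] with y hy using hz y (Or.inr hy)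
    rw [this.deriv_eq]
    simp
  have hz2 : ∀ x, x < δ ∨ K < x → deriv (deriv θ) x = 0 := by
    intro x hx
    have : deriv θ =ᶠ[𝓝 x] fun _ => 0 := by
      rcases hx with h | h
      · filter_upwards [Iio_mem_nhds h] with y hy using hz1 y (Or.inl hy)
      · filter_upwards [Ioi_mem_nhds h] with y hy using hz1 y (Or.inr hy)
    rw [this.deriv_eq]
    simp
  have c0 : Continuous θ := hθ.smooth.continuous
  have c1 : Continuous (deriv θ) := (contDiff_infty_iff_deriv.1 hθ.smooth).2.continuous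
  have c2 : Continuous (deriv (deriv θ)) :=
    (contDiff_infty_iff_deriv.1 (contDiff_infty_iff_deriv.1 hθ.smooth).2).2.continuous
  have key : ∀ f : ℝ → ℝ, Continuous f → (∀ x, x < δ ∨ K < x → f x = 0) → f r = 0 := by
    intro f hf hfz
    rcases hr with h | h
    · rcases h.lt_or_eq with h | h
      · exact hfz r (Or.inl h)
      · subst h
        have h1 : Tendsto f (𝓝[<] r) (𝓝 (f r)) := hf.continuousAt.tendsto.mono_left
          nhdsWithin_le_nhds
        have h2 : Tendsto f (𝓝[<] r) (𝓝 0) := by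
          refine tendsto_const_nhds.congr' ?_
          filter_upwards [self_mem_nhdsWithin] with y hy using (hfz y (Or.inl hy)).symm
        exact tendsto_nhds_unique h1 h2
    · rcases h.lt_or_eq with h | h
      · exact hfz r (Or.inr h)
      · subst h
        have h1 : Tendsto f (𝓝[>] K) (𝓝 (f K)) := hf.continuousAt.tendsto.mono_left
          nhdsWithin_le_nhds
        have h2 : Tendsto f (𝓝[>] K) (𝓝 0) := by
          refine tendsto_const_nhds.congr' ?_
          filter_upwards [self_mem_nhdsWithin] with y hy using (hfz y (Or.inr hy)).symm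
        exact tendsto_nhds_unique h1 h2
  exact ⟨key _ c0 hz, key _ c1 hz1, key _ c2 hz2⟩

theorem int_tst {f : ℝ → ℝ} {δ K : ℝ} (hδ : 0 < δ) (hK : δ < K)
    (hf : ∀ r, r ≤ δ ∨ K ≤ r → f r = 0) :
    ∫ r in Ioi (0 : ℝ), f r = ∫ r in δ..K, f r := by
  rw [intervalIntegral.integral_of_le hK.le]
  refine setIntegral_eq_of_subset_of_forall_diff_eq_zero measurableSet_Ioi ?_ ?_
  · intro r hr
    exact lt_trans hδ hr.1
  · rintro r ⟨_, hr2⟩
    refine hf r ?_
    rw [mem_Ioc, not_and_or, not_lt, not_le] at hr2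
    rcases hr2 with h | h
    · exact Or.inl h
    · exact Or.inr h.le

theorem fisher_id {g θ : ℝ → ℝ} {δ K : ℝ} (hg : Prof g) (hθ : Tst θ δ K) (h0 : θ 0 = 0) :
    dFI θ g = RF θ g := by
  have hδ := hθ.dpos
  have hK := hθ.dK
  have e1 : dFI θ g = ∫ r in δ..K, iF θ g r := by
    refine int_tst (f := iF θ g) hδ hK (fun r hr => ?_)
    unfold iF
    rw [(tst_deriv hθ h0 hr).1, zero_mul]
  have e2 : RF θ g = ∫ r in δ..K, iR θ g r := by
    refine int_tst (f := iR θ g) hδ hK (fun r hr => ?_)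
    obtain ⟨h1, h2, h3⟩ := tst_deriv hθ h0 hr
    unfold iR
    rw [h1, h2, h3]
    ring
  have hpos : ∀ r ∈ Icc δ K, 0 < r := fun r hr => lt_of_lt_of_le hδ hr.1
  have cθ : ContinuousOn θ (Icc δ K) := hθ.smooth.continuous.continuousOn
  have hθ1 := contDiff_infty_iff_deriv.1 hθ.smooth
  have cθ1 : ContinuousOn (deriv θ) (Icc δ K) := hθ1.2.continuous.continuousOn
  have cθ2 : ContinuousOn (deriv (deriv θ)) (Icc δ K) :=
    (contDiff_infty_iff_deriv.1 hθ1.2).2.continuous.continuousOn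
  have hu := uu_smooth hg
  have hu1 := contDiff_infty_iff_deriv.1 hu
  have cg : ContinuousOn g (Icc δ K) := hg.smooth.continuous.continuousOn
  have cu : ContinuousOn (uu g) (Icc δ K) := hu.continuous.continuousOn
  have cu1 : ContinuousOn (deriv (uu g)) (Icc δ K) := hu1.2.continuous.continuousOn
  have cA : ContinuousOn (AA g) (Icc δ K) := cont_pos (fun r hr => hasDerivAt_AA hg hr) hδ
  have ca : ContinuousOn (aa g) (Icc δ K) := cont_pos (fun r hr => hasDerivAt_aa hg hr) hδ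
  have cN : ContinuousOn (NN g) (Icc δ K) := cont_pos (fun r _ => hasDerivAt_NN hg r) hδ
  have cE : ContinuousOn (EE g) (Icc δ K) := cont_pos (fun r _ => hasDerivAt_EE hg r) hδ
  obtain ⟨q, hq, hq2⟩ := hg.qsm
  have hq1 := contDiff_infty_iff_deriv.1 hq
  have hdq : ∀ r, 0 < r → deriv (QQ g) r = deriv q r := by
    intro r hr
    apply Filter.EventuallyEq.deriv_eq
    filter_upwards [Ioi_mem_nhds hr] with s hs using hq2 s hs
  have cQ : ContinuousOn (QQ g) (Icc δ K) :=
    hq.continuous.continuousOn.congr fun r hr => hq2 r (hpos r hr)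
  have cQ1 : ContinuousOn (deriv (QQ g)) (Icc δ K) :=
    hq1.2.continuous.continuousOn.congr fun r hr => hdq r (hpos r hr)
  have cid : ContinuousOn (fun r : ℝ => r) (Icc δ K) := continuousOn_id
  have hne : ∀ r ∈ Icc δ K, r ≠ 0 := fun r hr => (hpos r hr).ne'
  have hne2 : ∀ r ∈ Icc δ K, r ^ 2 ≠ 0 := fun r hr => pow_ne_zero 2 (hne r hr)
  have ciF : ContinuousOn (iF θ g) (Icc δ K) := by
    unfold iF
    exact cθ.mul ((((continuousOn_const.mul (cid.pow 2)).mul cu).mul cQ1).sub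
      (((cid.pow 2).mul (cu.pow 2)).mul cQ))
  have ciR : ContinuousOn (iR θ g) (Icc δ K) := by
    unfold iR
    have s1 := continuousOn_const (c := (-2 : ℝ)).mul ((((cθ.mul (cid.pow 2)).mul cg).mul cA).mul
      ((cu1.pow 2).add (((continuousOn_const (c := (2 : ℝ))).mul (cu.pow 2)).div (cid.pow 2)
        hne2)))
    have s2 := continuousOn_const (c := (2 : ℝ)).mul ((((cθ.mul (cE.div (cid.pow 2) hne2)).mul
      cg).mul cu).mul cu1)
    have s3 := continuousOn_const (c := (4 : ℝ)).mul (((cθ.mul (cN.div cid hne)).mul cg).mul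
      (cu.pow 2))
    have s4 := continuousOn_const (c := (4 : ℝ)).mul (((cθ.mul (cid.pow 2)).mul (cg.pow 2)).mul
      (cu.pow 2))
    have s5 := (cg.mul (cu.pow 2)).mul ((((cid.pow 2).mul cθ2).mul cA).add
      ((cid.mul cθ1).mul (((continuousOn_const (c := (5 : ℝ))).mul cA).sub ca)))
    exact (((s1.add s2).sub s3).add s4).add s5
  have iiF : IntervalIntegrable (iF θ g) volume δ K := ciF.intervalIntegrable_of_Icc hK.le
  have iiR : IntervalIntegrable (iR θ g) volume δ K := ciR.intervalIntegrable_of_Icc hK.le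
  have e3 : ∫ r in δ..K, (iF θ g r - iR θ g r) = GG θ g K - GG θ g δ := by
    refine intervalIntegral.integral_eq_sub_of_hasDerivAt (fun r hr => ?_) (iiF.sub iiR)
    rw [uIcc_of_le hK.le] at hr
    exact hasDerivAt_GG hg hθ.smooth (hpos r hr)
  have e4 : GG θ g K = 0 := by
    obtain ⟨h1, h2, _⟩ := tst_deriv hθ h0 (r := K) (Or.inr le_rfl)
    unfold GG
    rw [h1, h2]
    ring
  have e5 : GG θ g δ = 0 := by
    obtain ⟨h1, h2, _⟩ := tst_deriv hθ h0 (r := δ) (Or.inl le_rfl)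
    unfold GG
    rw [h1, h2]
    ring
  rw [intervalIntegral.integral_sub iiF iiR, e4, e5] at e3
  rw [e1, e2]
  linarith

end Pool.Agent.LandauR
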