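import Pool.Agent.LandauR.RDefs

/-!
# LandauR, module RCut: the cutoff functions

`Real.smoothTransition x = expNegInvGlue x / (expNegInvGlue x + expNegInvGlue (1 - x))` is smooth,
`0` for `x ≤ 0`, `1` for `x ≥ 1`, with values in `[0, 1]`; it is monotone since `expNegInvGlue` is
monotone.  The derivatives of `up` are continuous and vanish outside `[1, 2]`, so they are bounded.
-/

set_option autoImplicit false

namespace Pool.Agent.LandauR

open MeasureTheory Set Filter Topology

theorem up_smooth : ContDiff ℝ (⊤ : ℕ∞) up := by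
  unfold up
  exact Real.smoothTransition.contDiff.comp (contDiff_id.sub contDiff_const)

theorem up_mono : Monotone up := by
  intro x y h
  unfold up
  exact Real.smoothTransition.monotone (by linarith)

theorem up_zero {x : ℝ} (h : x ≤ 1) : up x = 0 := by
  unfold up
  exact Real.smoothTransition.zero_of_nonpos (by linarith)

theorem up_one {x : ℝ} (h : 2 ≤ x) : up x = 1 := by
  unfold up
  exact Real.smoothTransition.one_of_one_le (by linarith)

theorem up_nonneg (x : ℝ) : 0 ≤ up x := by
  unfold up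
  exact Real.smoothTransition.nonneg _

theorem up_le_one (x : ℝ) : up x ≤ 1 := by
  unfold up
  exact Real.smoothTransition.le_one _

theorem contDiff_deriv_aux {f : ℝ → ℝ} (h : ContDiff ℝ (⊤ : ℕ∞) f) :
    ContDiff ℝ (⊤ : ℕ∞) (deriv f) := by
  have h' : ContDiff ℝ ((⊤ : ℕ∞) + 1) f := by simpa using h
  exact (contDiff_succ_iff_deriv.mp h').2.2

theorem deriv_up_smooth : ContDiff ℝ (⊤ : ℕ∞) (deriv up) := contDiff_deriv_aux up_smooth

theorem deriv2_up_smooth : ContDiff ℝ (⊤ : ℕ∞) (deriv (deriv up)) :=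
  contDiff_deriv_aux deriv_up_smooth

/-- a continuous function vanishing off `[1, 2]` in the open sense vanishes at the end points -/
theorem zero_closed_aux {f : ℝ → ℝ} (hf : Continuous f) (h : ∀ x, x < 1 ∨ 2 < x → f x = 0)
    {x : ℝ} (hx : x ≤ 1 ∨ 2 ≤ x) : f x = 0 := by
  have hcl : IsClosed {x | f x = 0} := isClosed_eq hf continuous_const
  have h1 : Iio (1 : ℝ) ⊆ {x | f x = 0} := fun y hy => h y (Or.inl hy)
  have h2 : Ioi (2 : ℝ) ⊆ {x | f x = 0} := fun y hy => h y (Or.inr hy)
  rcases hx with hx | hx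
  · have := closure_minimal h1 hcl
    rw [closure_Iio] at this
    exact this hx
  · have := closure_minimal h2 hcl
    rw [closure_Ioi] at this
    exact this hx

theorem deriv_up_zero {x : ℝ} (h : x ≤ 1 ∨ 2 ≤ x) : deriv up x = 0 := by
  refine zero_closed_aux deriv_up_smooth.continuous (fun y hy => ?_) h
  rcases hy with hy | hy
  · have : up =ᶠ[𝓝 y] fun _ => (0 : ℝ) := by
      filter_upwards [Iio_mem_nhds hy] with z hz
      exact up_zero (le_of_lt hz)
    rw [this.deriv_eq]
    simp
  · have : up =ᶠ[𝓝 y] fun _ => (1 : ℝ) := by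
      filter_upwards [Ioi_mem_nhds hy] with z hz
      exact up_one (le_of_lt hz)
    rw [this.deriv_eq]
    simp

theorem deriv2_up_zero {x : ℝ} (h : x ≤ 1 ∨ 2 ≤ x) : deriv (deriv up) x = 0 := by
  refine zero_closed_aux deriv2_up_smooth.continuous (fun y hy => ?_) h
  rcases hy with hy | hy
  · have : deriv up =ᶠ[𝓝 y] fun _ => (0 : ℝ) := by
      filter_upwards [Iio_mem_nhds hy] with z hz
      exact deriv_up_zero (Or.inl (le_of_lt hz))
    rw [this.deriv_eq]
    simp
  · have : deriv up =ᶠ[𝓝 y] fun _ => (0 : ℝ) := by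
      filter_upwards [Ioi_mem_nhds hy] with z hz
      exact deriv_up_zero (Or.inr (le_of_lt hz))
    rw [this.deriv_eq]
    simp

theorem up_bd : ∃ K : ℝ, 1 ≤ K ∧ ∀ x, |deriv up x| ≤ K ∧ |deriv (deriv up) x| ≤ K := by
  obtain ⟨C1, h1⟩ := (isCompact_Icc (a := (1 : ℝ)) (b := 2)).exists_bound_of_continuousOn
    deriv_up_smooth.continuous.continuousOn
  obtain ⟨C2, h2⟩ := (isCompact_Icc (a := (1 : ℝ)) (b := 2)).exists_bound_of_continuousOn
    deriv2_up_smooth.continuous.continuousOn
  refine ⟨max 1 (max C1 C2), le_max_left _ _, fun x => ?_⟩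
  by_cases hx : x ≤ 1 ∨ 2 ≤ x
  · rw [deriv_up_zero hx, deriv2_up_zero hx]
    simp
  · push Not at hx
    have hx' : x ∈ Icc (1 : ℝ) 2 := ⟨hx.1.le, hx.2.le⟩
    refine ⟨?_, ?_⟩
    · have := h1 x hx'
      rw [Real.norm_eq_abs] at this
      exact this.trans ((le_max_left _ _).trans (le_max_right _ _))
    · have := h2 x hx'
      rw [Real.norm_eq_abs] at this
      exact this.trans ((le_max_right _ _).trans (le_max_right _ _))

end Pool.Agent.LandauR
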