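import Pool.Agent.LandauR.RCalc
import Pool.Agent.LandauR.ROm
import Pool.Agent.LandauR.RCut

/-!
# LandauR, module RAnnB: annular cutoffs, first bound of `RF`

`kap ρ r = an (r / ρ)`: smooth, values in `[0, 1]`, `1` on `[ρ, 2ρ]`, `0` outside `[ρ/2, 4ρ]`, first and
second derivatives bounded by `C/ρ`, `C/ρ²`.  With `θ = kap⁴`: `θ' = 4 kap³ kap'`,
`θ'' = 12 kap² kap'² + 4 kap³ kap''`, so `|r θ'| ≤ C kap²` and `|r² θ''| ≤ C kap²`.

`Xf ρ g = ∫ kap⁴ r² g (u')²`.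

`RF_le`: for `r > 0`, `EE / r² ≤ 3 r AA`, so `2 θ (EE/r²) g u u' ≤ 6 θ r AA g |u| |u'| ≤ θ r² AA g u'² + 9 θ AA g u²`;
the term `-4 θ (NN/r) g u²` is `≤ 0`.  Hence the integrand of `RF` is at most
`-θ r² AA g u'² + 5 θ AA g u² + 4 θ r² g² u² + C kap² aa g u²` (`AA ≤ aa/3`, `|5 AA - aa| ≤ 3 aa`), where on the
support `AA g r ≥ AA g (4ρ)`, `aa g r ≤ aa g (ρ/2)` and `g u² ≤ (4/ρ²) r² g u²`.
-/

set_option autoImplicit false

namespace Pool.Agent.LandauR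

open MeasureTheory Set Filter Topology

noncomputable def kap (ρ r : ℝ) : ℝ := an (r / ρ)

noncomputable def Xf (ρ : ℝ) (g : ℝ → ℝ) : ℝ :=
  ∫ r in Ioi (0 : ℝ), kap ρ r ^ 4 * (r ^ 2 * g r * deriv (uu g) r ^ 2)

/-- the derivative of `an` -/
noncomputable def kapA1 (x : ℝ) : ℝ :=
  2 * deriv up (2 * x) * dn (x / 2) - up (2 * x) * (deriv up (x / 2) / 2)

/-- the second derivative of `an` -/
noncomputable def kapA2 (x : ℝ) : ℝ :=
  4 * deriv (deriv up) (2 * x) * dn (x / 2) - 2 * (deriv up (2 * x) * deriv up (x / 2))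
    - up (2 * x) * (deriv (deriv up) (x / 2) / 4)

theorem kap_up1 (x : ℝ) : HasDerivAt up (deriv up x) x :=
  (up_smooth.differentiable (by simp) x).hasDerivAt

theorem kap_up2 (x : ℝ) : HasDerivAt (deriv up) (deriv (deriv up) x) x := by
  have h : ContDiff ℝ (⊤ : ℕ∞) (deriv up) := by
    have h := up_smooth.iterate_deriv 1
    simpa using h
  exact (h.differentiable (by simp) x).hasDerivAt

theorem kap_an1 (x : ℝ) : HasDerivAt an (kapA1 x) x := by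
  have h1 : HasDerivAt (fun x : ℝ => 2 * x) 2 x := by
    simpa using (hasDerivAt_id x).const_mul 2
  have h2 : HasDerivAt (fun x : ℝ => x / 2) (1 / 2) x := (hasDerivAt_id x).div_const 2
  have h3 : HasDerivAt (fun x => up (2 * x)) (deriv up (2 * x) * 2) x :=
    HasDerivAt.comp (h₂ := up) x (kap_up1 (2 * x)) h1
  have h4 : HasDerivAt (fun x => dn (x / 2)) (-(deriv up (x / 2) * (1 / 2))) x := by
    have h5 : HasDerivAt (fun x => up (x / 2)) (deriv up (x / 2) * (1 / 2)) x :=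
      HasDerivAt.comp (h₂ := up) x (kap_up1 (x / 2)) h2
    exact h5.const_sub 1
  have h6 : HasDerivAt an _ x := h3.mul h4
  refine h6.congr_deriv ?_
  unfold kapA1
  ring

theorem kap_an2 (x : ℝ) : HasDerivAt kapA1 (kapA2 x) x := by
  have h1 : HasDerivAt (fun x : ℝ => 2 * x) 2 x := by
    simpa using (hasDerivAt_id x).const_mul 2
  have h2 : HasDerivAt (fun x : ℝ => x / 2) (1 / 2) x := (hasDerivAt_id x).div_const 2
  have h3 : HasDerivAt (fun x => up (2 * x)) (deriv up (2 * x) * 2) x :=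
    HasDerivAt.comp (h₂ := up) x (kap_up1 (2 * x)) h1
  have h4 : HasDerivAt (fun x => dn (x / 2)) (-(deriv up (x / 2) * (1 / 2))) x := by
    have h5 : HasDerivAt (fun x => up (x / 2)) (deriv up (x / 2) * (1 / 2)) x :=
      HasDerivAt.comp (h₂ := up) x (kap_up1 (x / 2)) h2
    exact h5.const_sub 1
  have h7 : HasDerivAt (fun x => deriv up (2 * x)) (deriv (deriv up) (2 * x) * 2) x :=
    HasDerivAt.comp (h₂ := deriv up) x (kap_up2 (2 * x)) h1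
  have h8 : HasDerivAt (fun x => deriv up (x / 2)) (deriv (deriv up) (x / 2) * (1 / 2)) x :=
    HasDerivAt.comp (h₂ := deriv up) x (kap_up2 (x / 2)) h2
  have h9 : HasDerivAt kapA1 _ x := ((h7.const_mul 2).mul h4).sub (h3.mul (h8.div_const 2))
  refine h9.congr_deriv ?_
  unfold kapA2
  ring

theorem kap_d1 {ρ : ℝ} (_hρ : 0 < ρ) (r : ℝ) : HasDerivAt (kap ρ) (kapA1 (r / ρ) / ρ) r := by
  have h1 : HasDerivAt (fun r : ℝ => r / ρ) (1 / ρ) r := (hasDerivAt_id r).div_const ρ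
  have h2 : HasDerivAt (kap ρ) (kapA1 (r / ρ) * (1 / ρ)) r := (kap_an1 (r / ρ)).comp r h1
  refine h2.congr_deriv ?_
  ring

theorem kap_d1' {ρ : ℝ} (hρ : 0 < ρ) : deriv (kap ρ) = fun r => kapA1 (r / ρ) / ρ :=
  funext fun r => (kap_d1 hρ r).deriv

theorem kap_d2 {ρ : ℝ} (hρ : 0 < ρ) (r : ℝ) :
    HasDerivAt (deriv (kap ρ)) (kapA2 (r / ρ) / ρ ^ 2) r := by
  rw [kap_d1' hρ]
  have h1 : HasDerivAt (fun r : ℝ => r / ρ) (1 / ρ) r := (hasDerivAt_id r).div_const ρ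
  have h2 : HasDerivAt (fun r => kapA1 (r / ρ)) (kapA2 (r / ρ) * (1 / ρ)) r :=
    HasDerivAt.comp (h₂ := kapA1) r (kap_an2 (r / ρ)) h1
  refine (h2.div_const ρ).congr_deriv ?_
  rw [pow_two]
  field_simp

theorem kap_smooth (ρ : ℝ) : ContDiff ℝ (⊤ : ℕ∞) (kap ρ) := by
  have h1 : ContDiff ℝ (⊤ : ℕ∞) (fun r : ℝ => up (2 * (r / ρ))) :=
    up_smooth.comp (contDiff_const.mul (contDiff_id.div_const ρ))
  have h2 : ContDiff ℝ (⊤ : ℕ∞) (fun r : ℝ => dn (r / ρ / 2)) :=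
    contDiff_const.sub (up_smooth.comp ((contDiff_id.div_const ρ).div_const 2))
  exact h1.mul h2

theorem kap_dn (x : ℝ) : 0 ≤ dn x ∧ dn x ≤ 1 := by
  unfold dn
  exact ⟨by linarith [up_le_one x], by linarith [up_nonneg x]⟩

theorem kap_low {ρ r : ℝ} (hρ : 0 < ρ) (h : r ≤ ρ / 2) : kap ρ r = 0 := by
  have h1 : 2 * (r / ρ) ≤ 1 := by
    rw [← mul_div_assoc, div_le_one hρ]
    linarith
  unfold kap an
  rw [up_zero h1, zero_mul]

theorem kap_high {ρ r : ℝ} (hρ : 0 < ρ) (h : 4 * ρ ≤ r) : kap ρ r = 0 := by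
  have h1 : 2 ≤ r / ρ / 2 := by
    rw [le_div_iff₀ two_pos, le_div_iff₀ hρ]
    linarith
  unfold kap an dn
  rw [up_one h1, sub_self, mul_zero]

theorem kap_tst : ∃ C : ℝ, 1 ≤ C ∧ ∀ ρ : ℝ, 0 < ρ →
    Tst (kap ρ) (ρ / 2) (4 * ρ) ∧ (∀ r, 0 ≤ kap ρ r) ∧ (∀ r, kap ρ r ≤ 1) ∧
      (∀ r, ρ ≤ r → r ≤ 2 * ρ → kap ρ r = 1) ∧ (∀ r, r ≤ ρ / 2 → kap ρ r = 0) ∧
      ∀ r, |deriv (kap ρ) r| ≤ C / ρ ∧ |deriv (deriv (kap ρ)) r| ≤ C / ρ ^ 2 := by
  obtain ⟨K, hK, hb⟩ := up_bd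
  have hKK : K ≤ K ^ 2 := by nlinarith
  refine ⟨7 * K ^ 2, by nlinarith, fun ρ hρ => ⟨⟨kap_smooth ρ, by positivity, by linarith, ?_, ?_⟩,
    ?_, ?_, ?_, ?_, ?_⟩⟩
  · intro r hr
    rw [kap_low hρ hr, kap_low hρ (by positivity)]
  · intro r hr
    exact kap_high hρ hr
  · intro r
    exact mul_nonneg (up_nonneg _) (kap_dn _).1
  · intro r
    exact mul_le_one₀ (up_le_one _) (kap_dn _).1 (kap_dn _).2
  · intro r h1 h2
    have h3 : 2 ≤ 2 * (r / ρ) := by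
      rw [← mul_div_assoc, le_div_iff₀ hρ]
      linarith
    have h4 : r / ρ / 2 ≤ 1 := by
      rw [div_le_one two_pos, div_le_iff₀ hρ]
      linarith
    unfold kap an dn
    rw [up_one h3, up_zero h4]
    norm_num
  · intro r hr
    exact kap_low hρ hr
  · intro r
    obtain ⟨x, hx⟩ : ∃ x, x = r / ρ := ⟨_, rfl⟩
    have u0 := up_nonneg (2 * x)
    have u1 := up_le_one (2 * x)
    obtain ⟨d0, d1⟩ := kap_dn (x / 2)
    obtain ⟨p1, p2⟩ := hb (2 * x)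
    obtain ⟨q1, q2⟩ := hb (x / 2)
    have m : ∀ a b c d : ℝ, |a| ≤ c → |b| ≤ d → |a * b| ≤ c * d := by
      intro a b c d h1 h2
      rw [abs_mul]
      exact mul_le_mul h1 h2 (abs_nonneg _) ((abs_nonneg _).trans h1)
    have hd : |dn (x / 2)| ≤ 1 := by rw [abs_of_nonneg d0]; exact d1
    have hu : |up (2 * x)| ≤ 1 := by rw [abs_of_nonneg u0]; exact u1
    have t1 := m _ _ _ _ p1 hd
    have t2 := m _ _ _ _ hu q1
    have t3 := m _ _ _ _ p2 hd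
    have t4 := m _ _ _ _ p1 q1
    have t5 := m _ _ _ _ hu q2
    rw [abs_le] at t1 t2 t3 t4 t5
    constructor
    · rw [(kap_d1 hρ r).deriv, abs_div, abs_of_pos hρ, ← hx]
      apply div_le_div_of_nonneg_right _ hρ.le
      unfold kapA1
      rw [abs_le]
      constructor <;> nlinarith [t1.1, t1.2, t2.1, t2.2]
    · rw [(kap_d2 hρ r).deriv, abs_div, abs_of_pos (by positivity : (0 : ℝ) < ρ ^ 2), ← hx]
      apply div_le_div_of_nonneg_right _ (by positivity)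
      unfold kapA2
      rw [abs_le]
      constructor <;> nlinarith [t3.1, t3.2, t4.1, t4.2, t5.1, t5.2]

/-- the fourth power is an admissible test function -/
theorem kap4_tst {ρ : ℝ} (hρ : 0 < ρ) :
    Tst (fun r => kap ρ r ^ 4) (ρ / 2) (4 * ρ) ∧ kap ρ 0 ^ 4 = 0 := by
  have h0 : kap ρ 0 = 0 := kap_low hρ (by positivity)
  refine ⟨⟨(kap_smooth ρ).pow 4, by positivity, by linarith, ?_, ?_⟩, ?_⟩
  · intro r hr
    simp only [kap_low hρ hr, h0]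
  · intro r hr
    simp only [kap_high hρ hr]
    norm_num
  · rw [h0]
    norm_num

theorem kap_int {ρ : ℝ} (hρ : 0 < ρ) {h : ℝ → ℝ} (hc : ContinuousOn h (Icc (ρ / 2) (4 * ρ)))
    (h0 : ∀ r, kap ρ r = 0 → h r = 0) : IntegrableOn h (Ioi 0) := by
  refine IntegrableOn.of_forall_sdiff_eq_zero hc.integrableOn_Icc measurableSet_Ioi ?_
  intro r hr
  apply h0
  by_cases h1 : r ≤ ρ / 2
  · exact kap_low hρ h1
  · rw [not_le] at h1
    have h2 : ¬ r ≤ 4 * ρ := fun h3 => hr.2 ⟨h1.le, h3⟩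
    exact kap_high hρ (not_le.mp h2).le

theorem kap_four1 (ρ : ℝ) (r : ℝ) :
    HasDerivAt (fun r => kap ρ r ^ 4) (4 * kap ρ r ^ 3 * deriv (kap ρ) r) r := by
  have h : HasDerivAt (kap ρ) (deriv (kap ρ) r) r :=
    ((kap_smooth ρ).differentiable (by simp) r).hasDerivAt
  refine (h.pow 4).congr_deriv ?_
  norm_num

theorem kap_four1' (ρ : ℝ) :
    deriv (fun r => kap ρ r ^ 4) = fun r => 4 * kap ρ r ^ 3 * deriv (kap ρ) r :=
  funext fun r => (kap_four1 ρ r).deriv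

theorem kap_four2 {ρ : ℝ} (hρ : 0 < ρ) (r : ℝ) :
    deriv (deriv (fun r => kap ρ r ^ 4)) r =
      12 * kap ρ r ^ 2 * deriv (kap ρ) r ^ 2 + 4 * kap ρ r ^ 3 * deriv (deriv (kap ρ)) r := by
  rw [kap_four1']
  have h : HasDerivAt (kap ρ) (deriv (kap ρ) r) r :=
    ((kap_smooth ρ).differentiable (by simp) r).hasDerivAt
  have h2 : HasDerivAt (deriv (kap ρ)) (deriv (deriv (kap ρ)) r) r :=
    (kap_d2 hρ r).differentiableAt.hasDerivAt
  have h3 := ((h.pow 3).const_mul 4).mul h2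
  have h4 : HasDerivAt (fun r => 4 * kap ρ r ^ 3 * deriv (kap ρ) r) _ r := h3
  rw [h4.deriv]
  simp only [Pi.pow_apply]
  norm_num
  ring

/-- the pointwise inequality: algebra -/
theorem kap_alg {C κ κ1 κ2 r ρ g u v A A4 a a2 E N P : ℝ} (hC : 1 ≤ C) (hρ : 0 < ρ)
    (hr1 : ρ / 2 ≤ r) (hr2 : r ≤ 4 * ρ) (k0 : 0 ≤ κ) (k1 : κ ≤ 1) (d1 : |κ1| ≤ C / ρ)
    (d2 : |κ2| ≤ C / ρ ^ 2) (hg : 0 < g) (hA : A = (E / r ^ 3 + P) / 3) (hP : 0 ≤ P) (hE : 0 ≤ E)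
    (hN : 0 ≤ N) (hAa : 3 * A ≤ a) (hA4 : A4 ≤ A) (ha : a ≤ a2) (hA0 : 0 ≤ A) :
    -2 * (κ ^ 4 * r ^ 2 * g * A * (v ^ 2 + 2 * u ^ 2 / r ^ 2))
      + 2 * (κ ^ 4 * (E / r ^ 2) * g * u * v)
      - 4 * (κ ^ 4 * (N / r) * g * u ^ 2)
      + 4 * (κ ^ 4 * r ^ 2 * g ^ 2 * u ^ 2)
      + g * u ^ 2 * (r ^ 2 * (12 * κ ^ 2 * κ1 ^ 2 + 4 * κ ^ 3 * κ2) * A
          + r * (4 * κ ^ 3 * κ1) * (5 * A - a)) ≤
    -(A4 * (κ ^ 4 * (r ^ 2 * g * v ^ 2)))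
      + 1200 * C ^ 2 * (a2 / ρ ^ 2) * (κ ^ 2 * (r ^ 2 * g * u ^ 2))
      + 4 * (κ ^ 4 * (r ^ 2 * g ^ 2 * u ^ 2)) := by
  have hr : 0 < r := by linarith
  have hCρ : 0 ≤ C / ρ := by positivity
  -- the mixed term
  have hE' : E / r ^ 2 ≤ 3 * r * A := by
    have e1 : 3 * r * A = E / r ^ 2 + r * P := by
      rw [hA]
      field_simp
    rw [e1]
    have := mul_nonneg hr.le hP
    linarith
  have hE0 : 0 ≤ E / r ^ 2 := by positivity
  have hmix : 2 * (E / r ^ 2 * u * v) ≤ A * (r ^ 2 * v ^ 2 + 9 * u ^ 2) := by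
    have h1 : E / r ^ 2 * u * v ≤ E / r ^ 2 * (|u| * |v|) := by
      rw [mul_assoc]
      refine mul_le_mul_of_nonneg_left ?_ hE0
      rw [← abs_mul]
      exact le_abs_self _
    have h2 : E / r ^ 2 * (|u| * |v|) ≤ 3 * r * A * (|u| * |v|) :=
      mul_le_mul_of_nonneg_right hE' (by positivity)
    have h3 : 2 * (3 * r * A * (|u| * |v|)) ≤ A * (r ^ 2 * v ^ 2 + 9 * u ^ 2) := by
      have h4 : 0 ≤ A * (r * |v| - 3 * |u|) ^ 2 := by positivity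
      have h5 : |u| ^ 2 = u ^ 2 := sq_abs u
      have h6 : |v| ^ 2 = v ^ 2 := sq_abs v
      have h7 : A * (r * |v| - 3 * |u|) ^ 2 =
          A * (r ^ 2 * |v| ^ 2 + 9 * |u| ^ 2) - 2 * (3 * r * A * (|u| * |v|)) := by ring
      rw [h5, h6] at h7
      linarith
    linarith
  have hκ4 : 0 ≤ κ ^ 4 := by positivity
  have t1 : -2 * (κ ^ 4 * r ^ 2 * g * A * (v ^ 2 + 2 * u ^ 2 / r ^ 2))
      + 2 * (κ ^ 4 * (E / r ^ 2) * g * u * v) ≤
      -(κ ^ 4 * g * (A * r ^ 2 * v ^ 2)) + 5 * (κ ^ 4 * g * (A * u ^ 2)) := by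
    have e1 : κ ^ 4 * r ^ 2 * g * A * (v ^ 2 + 2 * u ^ 2 / r ^ 2) =
        κ ^ 4 * g * (A * r ^ 2 * v ^ 2) + 2 * (κ ^ 4 * g * (A * u ^ 2)) := by
      field_simp
    have e2 : κ ^ 4 * (E / r ^ 2) * g * u * v = κ ^ 4 * g * (E / r ^ 2 * u * v) := by ring
    rw [e1, e2]
    have := mul_le_mul_of_nonneg_left hmix (mul_nonneg hκ4 hg.le)
    nlinarith
  have t2 : -(κ ^ 4 * g * (A * r ^ 2 * v ^ 2)) ≤ -(A4 * (κ ^ 4 * (r ^ 2 * g * v ^ 2))) := by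
    have : 0 ≤ (A - A4) * (κ ^ 4 * (r ^ 2 * g * v ^ 2)) :=
      mul_nonneg (sub_nonneg.mpr hA4) (by positivity)
    nlinarith
  have t3 : 0 ≤ κ ^ 4 * (N / r) * g * u ^ 2 := by positivity
  -- lower order terms
  have ha0 : 0 ≤ a := by linarith
  have hκ3 : κ ^ 3 ≤ κ ^ 2 := pow_le_pow_of_le_one k0 k1 (by norm_num)
  have hκ42 : κ ^ 4 ≤ κ ^ 2 := pow_le_pow_of_le_one k0 k1 (by norm_num)
  have hκ30 : 0 ≤ κ ^ 3 := by positivity
  have b1 : r * |κ1| ≤ 4 * C := by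
    calc r * |κ1| ≤ 4 * ρ * (C / ρ) := mul_le_mul hr2 d1 (abs_nonneg _) (by positivity)
      _ = 4 * C := by field_simp
  have b2 : r ^ 2 * |κ2| ≤ 16 * C := by
    calc r ^ 2 * |κ2| ≤ (4 * ρ) ^ 2 * (C / ρ ^ 2) :=
          mul_le_mul (pow_le_pow_left₀ hr.le hr2 2) d2 (abs_nonneg _) (by positivity)
      _ = 16 * C := by field_simp; ring
  have b3 : r ^ 2 * κ1 ^ 2 ≤ 16 * C ^ 2 := by
    have h1 : (r * |κ1|) ^ 2 ≤ (4 * C) ^ 2 := pow_le_pow_left₀ (by positivity) b1 2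
    have h2 : (r * |κ1|) ^ 2 = r ^ 2 * κ1 ^ 2 := by rw [mul_pow, sq_abs]
    rw [h2] at h1
    linarith
  have c1 : r ^ 2 * (12 * κ ^ 2 * κ1 ^ 2 + 4 * κ ^ 3 * κ2) * A ≤ 256 * C ^ 2 * κ ^ 2 * (a / 3) := by
    have h1 : r ^ 2 * (12 * κ ^ 2 * κ1 ^ 2 + 4 * κ ^ 3 * κ2) ≤ 256 * C ^ 2 * κ ^ 2 := by
      have h2 : r ^ 2 * (12 * κ ^ 2 * κ1 ^ 2) ≤ 192 * C ^ 2 * κ ^ 2 := by
        have := mul_le_mul_of_nonneg_left b3 (by positivity : 0 ≤ 12 * κ ^ 2)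
        nlinarith
      have h3 : r ^ 2 * (4 * κ ^ 3 * κ2) ≤ 64 * C ^ 2 * κ ^ 2 := by
        have h4 : r ^ 2 * (4 * κ ^ 3 * κ2) ≤ 4 * κ ^ 3 * (r ^ 2 * |κ2|) := by
          have := mul_le_mul_of_nonneg_left (le_abs_self κ2) (by positivity : 0 ≤ r ^ 2 * (4 * κ ^ 3))
          nlinarith
        have h5 : 4 * κ ^ 3 * (r ^ 2 * |κ2|) ≤ 4 * κ ^ 2 * (16 * C) :=
          mul_le_mul (by linarith) b2 (by positivity) (by positivity)
        have h6 : C ≤ C ^ 2 := by nlinarith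
        have h7 : 0 ≤ κ ^ 2 := by positivity
        nlinarith
      linarith
    have h8 : A ≤ a / 3 := by linarith
    calc r ^ 2 * (12 * κ ^ 2 * κ1 ^ 2 + 4 * κ ^ 3 * κ2) * A ≤ 256 * C ^ 2 * κ ^ 2 * A :=
          mul_le_mul_of_nonneg_right h1 hA0
      _ ≤ 256 * C ^ 2 * κ ^ 2 * (a / 3) := mul_le_mul_of_nonneg_left h8 (by positivity)
  have c2 : r * (4 * κ ^ 3 * κ1) * (5 * A - a) ≤ 16 * C ^ 2 * κ ^ 2 * a := by
    have h1 : |r * (4 * κ ^ 3 * κ1)| ≤ 16 * C ^ 2 * κ ^ 2 := by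
      have h2 : |r * (4 * κ ^ 3 * κ1)| = 4 * κ ^ 3 * (r * |κ1|) := by
        rw [abs_mul, abs_mul, abs_of_pos hr, abs_of_nonneg (by positivity : 0 ≤ 4 * κ ^ 3)]
        ring
      rw [h2]
      have h5 : 4 * κ ^ 3 * (r * |κ1|) ≤ 4 * κ ^ 2 * (4 * C) :=
        mul_le_mul (by linarith) b1 (by positivity) (by positivity)
      have h6 : C ≤ C ^ 2 := by nlinarith
      have h7 : 0 ≤ κ ^ 2 := by positivity
      nlinarith
    have h3 : |5 * A - a| ≤ a := by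
      rw [abs_le]
      constructor <;> linarith
    calc r * (4 * κ ^ 3 * κ1) * (5 * A - a) ≤ |r * (4 * κ ^ 3 * κ1) * (5 * A - a)| := le_abs_self _
      _ = |r * (4 * κ ^ 3 * κ1)| * |5 * A - a| := abs_mul _ _
      _ ≤ 16 * C ^ 2 * κ ^ 2 * a := mul_le_mul h1 h3 (abs_nonneg _) (by positivity)
  have c3 : 5 * (κ ^ 4 * g * (A * u ^ 2)) ≤ g * u ^ 2 * (2 * C ^ 2 * κ ^ 2 * a) := by
    have h1 : κ ^ 4 * A ≤ κ ^ 2 * (a / 3) :=
      mul_le_mul hκ42 (by linarith) hA0 (by positivity)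
    have h2 : 5 * (κ ^ 2 * (a / 3)) ≤ 2 * C ^ 2 * κ ^ 2 * a := by
      have h3 : 0 ≤ κ ^ 2 * a := by positivity
      have h4 : 1 ≤ C ^ 2 := by nlinarith
      nlinarith
    have h5 : 5 * (κ ^ 4 * A) ≤ 2 * C ^ 2 * κ ^ 2 * a := by linarith
    have h6 := mul_le_mul_of_nonneg_left h5 (by positivity : 0 ≤ g * u ^ 2)
    nlinarith
  have t4 : 5 * (κ ^ 4 * g * (A * u ^ 2)) + g * u ^ 2 * (r ^ 2 * (12 * κ ^ 2 * κ1 ^ 2 + 4 * κ ^ 3 * κ2) * A
          + r * (4 * κ ^ 3 * κ1) * (5 * A - a)) ≤ g * u ^ 2 * (300 * C ^ 2 * κ ^ 2 * a) := by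
    have h1 := mul_le_mul_of_nonneg_left (add_le_add c1 c2) (by positivity : 0 ≤ g * u ^ 2)
    have h2 : 0 ≤ g * u ^ 2 * (C ^ 2 * κ ^ 2 * a) := by positivity
    nlinarith
  have t5 : g * u ^ 2 * (300 * C ^ 2 * κ ^ 2 * a) ≤
      1200 * C ^ 2 * (a2 / ρ ^ 2) * (κ ^ 2 * (r ^ 2 * g * u ^ 2)) := by
    have h1 : 1 ≤ 4 * r ^ 2 / ρ ^ 2 := by
      rw [le_div_iff₀ (by positivity)]
      nlinarith
    have h2 : a ≤ a2 * (4 * r ^ 2 / ρ ^ 2) := by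
      have ha2 : 0 ≤ a2 := ha0.trans ha
      nlinarith
    have h3 := mul_le_mul_of_nonneg_left h2 (by positivity : 0 ≤ g * u ^ 2 * (300 * C ^ 2 * κ ^ 2))
    calc g * u ^ 2 * (300 * C ^ 2 * κ ^ 2 * a) = g * u ^ 2 * (300 * C ^ 2 * κ ^ 2) * a := by ring
      _ ≤ g * u ^ 2 * (300 * C ^ 2 * κ ^ 2) * (a2 * (4 * r ^ 2 / ρ ^ 2)) := h3
      _ = 1200 * C ^ 2 * (a2 / ρ ^ 2) * (κ ^ 2 * (r ^ 2 * g * u ^ 2)) := by
          field_simp
          ring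
  have t6 : κ ^ 4 * r ^ 2 * g ^ 2 * u ^ 2 = κ ^ 4 * (r ^ 2 * g ^ 2 * u ^ 2) := by ring
  rw [t6]
  linarith

theorem RF_le : ∃ C : ℝ, 0 < C ∧ ∀ g : ℝ → ℝ, Prof g → ∀ ρ : ℝ, 0 < ρ →
    RF (fun r => kap ρ r ^ 4) g ≤ -(AA g (4 * ρ) * Xf ρ g)
      + C * (aa g (ρ / 2) / ρ ^ 2) * FI (fun r => kap ρ r ^ 2) g
      + 4 * ∫ r in Ioi (0 : ℝ), kap ρ r ^ 4 * (r ^ 2 * g r ^ 2 * uu g r ^ 2) := by
  obtain ⟨C, hC, hk⟩ := kap_tst
  refine ⟨1200 * C ^ 2, by positivity, fun g hg ρ hρ => ?_⟩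
  obtain ⟨-, k0, k1, -, -, kd⟩ := hk ρ hρ
  have ck : Continuous (kap ρ) := (kap_smooth ρ).continuous
  have ck1 : Continuous (deriv (kap ρ)) := (kap_smooth ρ).continuous_deriv (by simp)
  have ck2 : Continuous (deriv (deriv (kap ρ))) := by
    have h : ContDiff ℝ (⊤ : ℕ∞) (deriv (kap ρ)) := by
      have h := (kap_smooth ρ).iterate_deriv 1
      simpa using h
    exact h.continuous_deriv (by simp)
  have cg : Continuous g := hg.smooth.continuous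
  have cu : Continuous (uu g) := (uu_smooth hg).continuous
  have cu1 : Continuous (deriv (uu g)) := (uu_smooth hg).continuous_deriv (by simp)
  have hpos : ∀ r ∈ Icc (ρ / 2) (4 * ρ), 0 < r := fun r hr => lt_of_lt_of_le (by positivity) hr.1
  have cN : Continuous (NN g) := continuous_iff_continuousAt.mpr fun r =>
    (hasDerivAt_NN hg r).continuousAt
  have cE : Continuous (EE g) := continuous_iff_continuousAt.mpr fun r =>
    (hasDerivAt_EE hg r).continuousAt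
  have cA : ContinuousOn (AA g) (Icc (ρ / 2) (4 * ρ)) := fun r hr =>
    (hasDerivAt_AA hg (hpos r hr)).continuousAt.continuousWithinAt
  have ca : ContinuousOn (aa g) (Icc (ρ / 2) (4 * ρ)) := fun r hr =>
    (hasDerivAt_aa hg (hpos r hr)).continuousAt.continuousWithinAt
  have hne : ∀ r ∈ Icc (ρ / 2) (4 * ρ), r ≠ 0 := fun r hr => (hpos r hr).ne'
  have hne2 : ∀ r ∈ Icc (ρ / 2) (4 * ρ), r ^ 2 ≠ 0 := fun r hr => pow_ne_zero 2 (hne r hr)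
  -- integrability
  have i1 : IntegrableOn (fun r => kap ρ r ^ 4 * (r ^ 2 * g r * deriv (uu g) r ^ 2)) (Ioi 0) := by
    refine kap_int hρ (by fun_prop) fun r hr => ?_
    simp only [hr]
    ring
  have i2 : IntegrableOn (fun r => kap ρ r ^ 2 * (r ^ 2 * g r * uu g r ^ 2)) (Ioi 0) := by
    refine kap_int hρ (by fun_prop) fun r hr => ?_
    simp only [hr]
    ring
  have i3 : IntegrableOn (fun r => kap ρ r ^ 4 * (r ^ 2 * g r ^ 2 * uu g r ^ 2)) (Ioi 0) := by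
    refine kap_int hρ (by fun_prop) fun r hr => ?_
    simp only [hr]
    ring
  have iG : IntegrableOn (fun r => -(AA g (4 * ρ) * (kap ρ r ^ 4 * (r ^ 2 * g r * deriv (uu g) r ^ 2)))
      + 1200 * C ^ 2 * (aa g (ρ / 2) / ρ ^ 2) * (kap ρ r ^ 2 * (r ^ 2 * g r * uu g r ^ 2))
      + 4 * (kap ρ r ^ 4 * (r ^ 2 * g r ^ 2 * uu g r ^ 2))) (Ioi 0) :=
    ((i1.const_mul _).neg.add (i2.const_mul _)).add (i3.const_mul _)
  have e4 : ∀ r, deriv (fun r => kap ρ r ^ 4) r = 4 * kap ρ r ^ 3 * deriv (kap ρ) r :=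
    fun r => (kap_four1 ρ r).deriv
  have hRF : RF (fun r => kap ρ r ^ 4) g = ∫ r in Ioi (0 : ℝ),
      (-2 * (kap ρ r ^ 4 * r ^ 2 * g r * AA g r * (deriv (uu g) r ^ 2 + 2 * uu g r ^ 2 / r ^ 2))
      + 2 * (kap ρ r ^ 4 * (EE g r / r ^ 2) * g r * uu g r * deriv (uu g) r)
      - 4 * (kap ρ r ^ 4 * (NN g r / r) * g r * uu g r ^ 2)
      + 4 * (kap ρ r ^ 4 * r ^ 2 * g r ^ 2 * uu g r ^ 2)
      + g r * uu g r ^ 2 * (r ^ 2 * (12 * kap ρ r ^ 2 * deriv (kap ρ) r ^ 2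
            + 4 * kap ρ r ^ 3 * deriv (deriv (kap ρ)) r) * AA g r
          + r * (4 * kap ρ r ^ 3 * deriv (kap ρ) r) * (5 * AA g r - aa g r))) := by
    unfold RF
    refine integral_congr_ae (Filter.Eventually.of_forall fun r => ?_)
    simp only [kap_four2 hρ, e4]
  have iF : IntegrableOn (fun r =>
      (-2 * (kap ρ r ^ 4 * r ^ 2 * g r * AA g r * (deriv (uu g) r ^ 2 + 2 * uu g r ^ 2 / r ^ 2))
      + 2 * (kap ρ r ^ 4 * (EE g r / r ^ 2) * g r * uu g r * deriv (uu g) r)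
      - 4 * (kap ρ r ^ 4 * (NN g r / r) * g r * uu g r ^ 2)
      + 4 * (kap ρ r ^ 4 * r ^ 2 * g r ^ 2 * uu g r ^ 2)
      + g r * uu g r ^ 2 * (r ^ 2 * (12 * kap ρ r ^ 2 * deriv (kap ρ) r ^ 2
            + 4 * kap ρ r ^ 3 * deriv (deriv (kap ρ)) r) * AA g r
          + r * (4 * kap ρ r ^ 3 * deriv (kap ρ) r) * (5 * AA g r - aa g r)))) (Ioi 0) := by
    refine kap_int hρ ?_ fun r hr => ?_
    · have q1 : ContinuousOn (fun r => 2 * uu g r ^ 2 / r ^ 2) (Icc (ρ / 2) (4 * ρ)) :=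
        ContinuousOn.div (by fun_prop) (by fun_prop) hne2
      have q2 : ContinuousOn (fun r => EE g r / r ^ 2) (Icc (ρ / 2) (4 * ρ)) :=
        ContinuousOn.div (by fun_prop) (by fun_prop) hne2
      have q3 : ContinuousOn (fun r => NN g r / r) (Icc (ρ / 2) (4 * ρ)) :=
        ContinuousOn.div (by fun_prop) (by fun_prop) hne
      fun_prop
    · simp only [hr]
      ring
  rw [hRF]
  have hmono := setIntegral_mono_on iF iG measurableSet_Ioi (by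
    intro r hr
    have hr0 : (0 : ℝ) < r := hr
    by_cases hkr : kap ρ r = 0
    · simp only [hkr]
      apply le_of_eq
      ring
    · have h1 : ρ / 2 ≤ r := by
        by_contra h
        exact hkr (kap_low hρ (not_le.mp h).le)
      have h2 : r ≤ 4 * ρ := by
        by_contra h
        exact hkr (kap_high hρ (not_le.mp h).le)
      exact kap_alg (P := PP g r) hC hρ h1 h2 (k0 r) (k1 r) (kd r).1 (kd r).2 (hg.pos r) rfl
        (PP_pos hg hr0.le).le (EE_nonneg hg hr0.le) (NN_nonneg hg hr0.le) (three_AA_le hg hr0)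
        (AA_anti hg hr0 h2) (aa_anti hg (by positivity) h1) (AA_pos hg hr0).le)
  refine hmono.trans (le_of_eq ?_)
  have j1 : IntegrableOn (fun r => -(AA g (4 * ρ) *
      (kap ρ r ^ 4 * (r ^ 2 * g r * deriv (uu g) r ^ 2)))) (Ioi 0) := (i1.const_mul _).neg
  have j2 : IntegrableOn (fun r => 1200 * C ^ 2 * (aa g (ρ / 2) / ρ ^ 2) *
      (kap ρ r ^ 2 * (r ^ 2 * g r * uu g r ^ 2))) (Ioi 0) := i2.const_mul _
  have j12 : IntegrableOn (fun r => -(AA g (4 * ρ) *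
      (kap ρ r ^ 4 * (r ^ 2 * g r * deriv (uu g) r ^ 2))) +
      1200 * C ^ 2 * (aa g (ρ / 2) / ρ ^ 2) *
      (kap ρ r ^ 2 * (r ^ 2 * g r * uu g r ^ 2))) (Ioi 0) := j1.add j2
  have j3 : IntegrableOn (fun r => 4 * (kap ρ r ^ 4 * (r ^ 2 * g r ^ 2 * uu g r ^ 2))) (Ioi 0) :=
    i3.const_mul _
  rw [integral_add j12 j3, integral_add j1 j2, integral_neg, integral_const_mul,
    integral_const_mul, integral_const_mul]
  rfl

end Pool.Agent.LandauR
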