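import Pool.Agent.LandauR.RAnnB

/-!
# LandauR, module RAnnC: two one dimensional inequalities on an annulus

Notation: `κ = kap ρ`, `u = uu g`, `m = ∫_{ρ/2}^{4ρ} r² g`, `J = ∫ κ² r² g u²`, `X = Xf ρ g = ∫ κ⁴ r² g u'²`.

`J_le`: `J = ∫ κ² r² g' u = -∫ g (κ² r² u)' = -∫ κ² r² g u' - ∫ g (2 κ κ' r² + 2 κ² r) u`, and
`|2 κ κ' r² + 2 κ² r| ≤ C κ r`.  Cauchy-Schwarz: `J ≤ √X √m + C √J √(∫_{ρ/2}^{4ρ} g)`, with
`∫_{ρ/2}^{4ρ} g ≤ 4 m / ρ²`; so `J ≤ √(X m) + J / 2 + C m / ρ²`.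

`quart_le`: `κ² g ≤ ∫ |(κ² g)'| ≤ ∫ 2 κ |κ'| g + ∫ κ² g |u| ≤ C m / ρ³ + √(4 m/ρ²) √(4 J / ρ²)` at every point
(`κ⁴ ≤ κ²`, `g u² ≤ (4/ρ²) r² g u²` on the support), then `∫ κ⁴ r² g² u² ≤ sup (κ² g) · J`.
-/

set_option autoImplicit false

namespace Pool.Agent.LandauR

open MeasureTheory Set Filter Topology

private lemma annc_int {a b : ℝ} (ha : 0 ≤ a) (hab : a ≤ b) {F : ℝ → ℝ}
    (h1 : ∀ r, r ≤ a → F r = 0) (h2 : ∀ r, b ≤ r → F r = 0) :
    ∫ r in Ioi (0 : ℝ), F r = ∫ r in a..b, F r := by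
  rw [intervalIntegral.integral_of_le hab]
  symm
  refine (setIntegral_eq_of_subset_of_forall_sdiff_eq_zero measurableSet_Ioi ?_ ?_).symm
  · intro x hx
    exact lt_of_le_of_lt ha hx.1
  · intro x hx
    by_cases h : a < x
    · refine h2 x (le_of_lt ?_)
      by_contra hb
      exact hx.2 ⟨h, not_lt.1 hb⟩
    · exact h1 x (not_lt.1 h)

private lemma annc_cs {a b : ℝ} (hab : a ≤ b) {w f h : ℝ → ℝ} (hw : Continuous w)
    (hf : Continuous f) (hh : Continuous h) (hw0 : ∀ r, 0 ≤ w r) :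
    |∫ r in a..b, w r * (f r * h r)| ≤
      Real.sqrt ((∫ r in a..b, w r * f r ^ 2) * ∫ r in a..b, w r * h r ^ 2) := by
  have key : ∀ t : ℝ, 0 ≤ (∫ r in a..b, w r * f r ^ 2) * (t * t) +
      (2 * ∫ r in a..b, w r * (f r * h r)) * t + ∫ r in a..b, w r * h r ^ 2 := by
    intro t
    have h1 : ∫ r in a..b, w r * (t * f r + h r) ^ 2 =
        (∫ r in a..b, w r * f r ^ 2) * (t * t) +
          (2 * ∫ r in a..b, w r * (f r * h r)) * t + ∫ r in a..b, w r * h r ^ 2 := by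
      rw [← intervalIntegral.integral_mul_const, ← intervalIntegral.integral_const_mul,
        ← intervalIntegral.integral_mul_const, ← intervalIntegral.integral_add,
        ← intervalIntegral.integral_add]
      · refine intervalIntegral.integral_congr fun r _ => ?_
        ring
      all_goals exact Continuous.intervalIntegrable (by fun_prop) _ _
    rw [← h1]
    exact intervalIntegral.integral_nonneg hab fun r _ => mul_nonneg (hw0 r) (sq_nonneg _)
  have h2 := discrim_le_zero key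
  unfold discrim at h2
  refine Real.abs_le_sqrt ?_
  nlinarith [h2]

private lemma annc_g {g : ℝ → ℝ} (hg : Prof g) {ρ : ℝ} (hρ : 0 < ρ) :
    ∫ r in (ρ / 2)..(4 * ρ), g r ≤ 4 / ρ ^ 2 * ∫ s in (ρ / 2)..(4 * ρ), s ^ 2 * g s := by
  have hgc : Continuous g := hg.smooth.continuous
  have hρ2 : 0 < ρ ^ 2 := by positivity
  rw [← intervalIntegral.integral_const_mul]
  refine intervalIntegral.integral_mono_on (by linarith) (hgc.intervalIntegrable _ _)
    (Continuous.intervalIntegrable (by fun_prop) _ _) fun r hr => ?_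
  have h1 : ρ ^ 2 ≤ 4 * r ^ 2 := by nlinarith [hr.1]
  have h2 : 1 ≤ 4 / ρ ^ 2 * r ^ 2 := by
    rw [div_mul_eq_mul_div, le_div_iff₀ hρ2]
    linarith
  calc g r = 1 * g r := (one_mul _).symm
    _ ≤ (4 / ρ ^ 2 * r ^ 2) * g r := mul_le_mul_of_nonneg_right h2 (hg.pos r).le
    _ = 4 / ρ ^ 2 * (r ^ 2 * g r) := by ring

theorem J_le : ∃ C : ℝ, 0 < C ∧ ∀ g : ℝ → ℝ, Prof g → ∀ ρ : ℝ, 0 < ρ →
    FI (fun r => kap ρ r ^ 2) g ≤
      C * (Real.sqrt (Xf ρ g * ∫ s in (ρ / 2)..(4 * ρ), s ^ 2 * g s)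
        + (∫ s in (ρ / 2)..(4 * ρ), s ^ 2 * g s) / ρ ^ 2) := by
  obtain ⟨C1, hC1, hk⟩ := kap_tst
  set C2 : ℝ := 8 * C1 + 2 with hC2
  refine ⟨4 * C2 ^ 2, by positivity, ?_⟩
  intro g hg ρ hρ
  obtain ⟨hT, hk0, hk1, -, hkz, hkd⟩ := hk ρ hρ
  have hab : ρ / 2 ≤ 4 * ρ := by linarith
  have ha0 : 0 ≤ ρ / 2 := by linarith
  have hρ2 : 0 < ρ ^ 2 := by positivity
  set κ := kap ρ with hκ
  set u := uu g with hu
  have hkc : Continuous κ := hT.smooth.continuous
  have hkdiff : ∀ r, HasDerivAt κ (deriv κ r) r := fun r =>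
    ((hT.smooth.differentiable (by simp)) r).hasDerivAt
  have hkc' : Continuous (deriv κ) := hT.smooth.continuous_deriv (by simp)
  have hgc : Continuous g := hg.smooth.continuous
  have hgdiff : ∀ r, HasDerivAt g (u r * g r) r := fun r => by
    have h1 := ((hg.smooth.differentiable (by simp)) r).hasDerivAt
    have h2 : u r * g r = deriv g r := by
      rw [hu]; unfold uu
      exact div_mul_cancel₀ _ (hg.pos r).ne'
    rw [h2]; exact h1
  have hus := uu_smooth hg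
  have huc : Continuous u := hus.continuous
  have hudiff : ∀ r, HasDerivAt u (deriv u r) r := fun r =>
    ((hus.differentiable (by simp)) r).hasDerivAt
  have huc' : Continuous (deriv u) := hus.continuous_deriv (by simp)
  have hka : ∀ r, r ≤ ρ / 2 → κ r = 0 := hkz
  have hkb : ∀ r, 4 * ρ ≤ r → κ r = 0 := hT.far
  set m := ∫ s in (ρ / 2)..(4 * ρ), s ^ 2 * g s with hm
  have hm0 : 0 ≤ m := intervalIntegral.integral_nonneg hab fun r _ =>
    mul_nonneg (sq_nonneg _) (hg.pos r).le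
  set G0 := ∫ r in (ρ / 2)..(4 * ρ), g r with hG0
  have hG00 : 0 ≤ G0 := intervalIntegral.integral_nonneg hab fun r _ => (hg.pos r).le
  have hG0m : G0 ≤ 4 / ρ ^ 2 * m := annc_g hg hρ
  have hJ : FI (fun r => κ r ^ 2) g = ∫ r in (ρ / 2)..(4 * ρ), κ r ^ 2 * (r ^ 2 * g r * u r ^ 2) := by
    unfold FI
    refine annc_int ha0 hab (fun r hr => ?_) (fun r hr => ?_)
    · simp only [hka r hr]; ring
    · simp only [hkb r hr]; ring
  have hX : Xf ρ g = ∫ r in (ρ / 2)..(4 * ρ), κ r ^ 4 * (r ^ 2 * g r * deriv u r ^ 2) := by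
    unfold Xf
    refine annc_int ha0 hab (fun r hr => ?_) (fun r hr => ?_)
    · rw [← hκ, hka r hr]; ring
    · rw [← hκ, hkb r hr]; ring
  set J := FI (fun r => κ r ^ 2) g with hJdef
  have hJ0 : 0 ≤ J := by
    rw [hJ]
    exact intervalIntegral.integral_nonneg hab fun r _ =>
      mul_nonneg (sq_nonneg _) (mul_nonneg (mul_nonneg (sq_nonneg _) (hg.pos r).le) (sq_nonneg _))
  -- integration by parts
  have hibp : (∫ r in (ρ / 2)..(4 * ρ), κ r ^ 2 * (r ^ 2 * g r * deriv u r)) +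
      (∫ r in (ρ / 2)..(4 * ρ), (2 * κ r * deriv κ r * r ^ 2 + 2 * κ r ^ 2 * r) * u r * g r) +
      J = 0 := by
    have hd : ∀ r ∈ uIcc (ρ / 2) (4 * ρ), HasDerivAt (fun r => κ r ^ 2 * r ^ 2 * u r * g r)
        (κ r ^ 2 * (r ^ 2 * g r * deriv u r) +
          (2 * κ r * deriv κ r * r ^ 2 + 2 * κ r ^ 2 * r) * u r * g r +
          κ r ^ 2 * (r ^ 2 * g r * u r ^ 2)) r := by
      intro r _
      have h1 := ((((hkdiff r).pow 2).mul ((hasDerivAt_id r).pow 2)).mul (hudiff r)).mul (hgdiff r)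
      refine (h1.congr_deriv ?_)
      simp only [Pi.pow_apply, Pi.mul_apply, id_eq]
      push_cast
      ring
    have h2 := intervalIntegral.integral_eq_sub_of_hasDerivAt hd
      (Continuous.intervalIntegrable (by fun_prop) _ _)
    rw [intervalIntegral.integral_add, intervalIntegral.integral_add, ← hJ] at h2
    · rw [h2, hkb (4 * ρ) le_rfl, hka (ρ / 2) le_rfl]
      ring
    all_goals exact Continuous.intervalIntegrable (by fun_prop) _ _
  have hT1 : |∫ r in (ρ / 2)..(4 * ρ), κ r ^ 2 * (r ^ 2 * g r * deriv u r)| ≤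
      Real.sqrt (Xf ρ g * m) := by
    have h1 := annc_cs hab (w := fun r => r ^ 2 * g r) (f := fun r => κ r ^ 2 * deriv u r)
      (h := fun _ => 1) (by fun_prop) (by fun_prop) (by fun_prop)
      (fun r => mul_nonneg (sq_nonneg _) (hg.pos r).le)
    have e1 : ∫ r in (ρ / 2)..(4 * ρ), κ r ^ 2 * (r ^ 2 * g r * deriv u r) =
        ∫ r in (ρ / 2)..(4 * ρ), r ^ 2 * g r * (κ r ^ 2 * deriv u r * 1) :=
      intervalIntegral.integral_congr fun r _ => by ring
    have e2 : Xf ρ g = ∫ r in (ρ / 2)..(4 * ρ), r ^ 2 * g r * (κ r ^ 2 * deriv u r) ^ 2 := by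
      rw [hX]
      exact intervalIntegral.integral_congr fun r _ => by ring
    have e3 : m = ∫ r in (ρ / 2)..(4 * ρ), r ^ 2 * g r * 1 ^ 2 :=
      intervalIntegral.integral_congr fun r _ => by ring
    rw [e1, e2, e3]
    exact h1
  have hT2 : |∫ r in (ρ / 2)..(4 * ρ), (2 * κ r * deriv κ r * r ^ 2 + 2 * κ r ^ 2 * r) * u r * g r|
      ≤ C2 * Real.sqrt (J * G0) := by
    have h1 := annc_cs hab (w := g) (f := fun r => κ r * r * |u r|)
      (h := fun _ => 1) hgc (by fun_prop) (by fun_prop) (fun r => (hg.pos r).le)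
    have e2 : J = ∫ r in (ρ / 2)..(4 * ρ), g r * (κ r * r * |u r|) ^ 2 := by
      rw [hJ]
      exact intervalIntegral.integral_congr fun r _ => by
        simp only [mul_pow, sq_abs]; ring
    have e3 : G0 = ∫ r in (ρ / 2)..(4 * ρ), g r * 1 ^ 2 :=
      intervalIntegral.integral_congr fun r _ => by ring
    have h2 : |∫ r in (ρ / 2)..(4 * ρ),
        (2 * κ r * deriv κ r * r ^ 2 + 2 * κ r ^ 2 * r) * u r * g r| ≤
        ∫ r in (ρ / 2)..(4 * ρ), C2 * (g r * (κ r * r * |u r| * 1)) := by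
      refine (intervalIntegral.abs_integral_le_integral_abs hab).trans ?_
      refine intervalIntegral.integral_mono_on hab
        (Continuous.intervalIntegrable (by fun_prop) _ _)
        (Continuous.intervalIntegrable (by fun_prop) _ _) fun r hr => ?_
      have hr0 : 0 ≤ r := ha0.trans hr.1
      have h3 : |deriv κ r| * r ≤ 4 * C1 := by
        calc |deriv κ r| * r ≤ (C1 / ρ) * (4 * ρ) :=
              mul_le_mul (hkd r).1 hr.2 hr0 (by positivity)
          _ = 4 * C1 := by field_simp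
      have h4 : |2 * κ r * deriv κ r * r ^ 2 + 2 * κ r ^ 2 * r| ≤ C2 * (κ r * r) := by
        have e : 2 * κ r * deriv κ r * r ^ 2 + 2 * κ r ^ 2 * r =
            (κ r * r) * (2 * (deriv κ r * r) + 2 * κ r) := by ring
        rw [e, abs_mul, abs_of_nonneg (mul_nonneg (hk0 r) hr0), mul_comm]
        refine mul_le_mul_of_nonneg_right ?_ (mul_nonneg (hk0 r) hr0)
        refine (abs_add_le _ _).trans ?_
        rw [abs_mul, abs_mul, abs_mul, abs_of_nonneg hr0, abs_of_nonneg (hk0 r),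
          abs_of_pos (two_pos : (0 : ℝ) < 2)]
        have := hk1 r
        rw [hC2]
        linarith
      rw [abs_mul, abs_mul, abs_of_pos (hg.pos r)]
      calc |2 * κ r * deriv κ r * r ^ 2 + 2 * κ r ^ 2 * r| * |u r| * g r
          ≤ C2 * (κ r * r) * |u r| * g r :=
            mul_le_mul_of_nonneg_right (mul_le_mul_of_nonneg_right h4 (abs_nonneg _))
              (hg.pos r).le
        _ = C2 * (g r * (κ r * r * |u r| * 1)) := by ring
    rw [intervalIntegral.integral_const_mul] at h2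
    refine h2.trans ?_
    rw [e2, e3]
    exact mul_le_mul_of_nonneg_left ((le_abs_self _).trans h1) (by positivity)
  have hT3 : C2 * Real.sqrt (J * G0) ≤ (J + C2 ^ 2 * G0) / 2 := by
    rw [Real.sqrt_mul hJ0]
    have h1 := Real.sq_sqrt hJ0
    have h2 := Real.sq_sqrt hG00
    nlinarith [sq_nonneg (Real.sqrt J - C2 * Real.sqrt G0)]
  have h5 : J ≤ Real.sqrt (Xf ρ g * m) + (J + C2 ^ 2 * G0) / 2 := by
    have a1 := neg_abs_le (∫ r in (ρ / 2)..(4 * ρ), κ r ^ 2 * (r ^ 2 * g r * deriv u r))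
    have a2 := neg_abs_le (∫ r in (ρ / 2)..(4 * ρ),
      (2 * κ r * deriv κ r * r ^ 2 + 2 * κ r ^ 2 * r) * u r * g r)
    linarith
  have h6 : C2 ^ 2 * G0 ≤ C2 ^ 2 * (4 / ρ ^ 2 * m) := mul_le_mul_of_nonneg_left hG0m (sq_nonneg _)
  have h7 : C2 ^ 2 * (4 / ρ ^ 2 * m) = 4 * C2 ^ 2 * (m / ρ ^ 2) := by ring
  have h8 : 2 * Real.sqrt (Xf ρ g * m) ≤ 4 * C2 ^ 2 * Real.sqrt (Xf ρ g * m) := by
    refine mul_le_mul_of_nonneg_right ?_ (Real.sqrt_nonneg _)
    nlinarith
  rw [mul_add]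
  linarith

theorem quart_le : ∃ C : ℝ, 0 < C ∧ ∀ g : ℝ → ℝ, Prof g → ∀ ρ : ℝ, 0 < ρ →
    ∫ r in Ioi (0 : ℝ), kap ρ r ^ 4 * (r ^ 2 * g r ^ 2 * uu g r ^ 2) ≤
      C * ((∫ s in (ρ / 2)..(4 * ρ), s ^ 2 * g s) / ρ ^ 3
        + Real.sqrt ((∫ s in (ρ / 2)..(4 * ρ), s ^ 2 * g s) * FI (fun r => kap ρ r ^ 2) g)
          / ρ ^ 2) * FI (fun r => kap ρ r ^ 2) g := by
  obtain ⟨C1, hC1, hk⟩ := kap_tst
  refine ⟨8 * C1, by positivity, ?_⟩
  intro g hg ρ hρ
  obtain ⟨hT, hk0, hk1, -, hkz, hkd⟩ := hk ρ hρ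
  have hab : ρ / 2 ≤ 4 * ρ := by linarith
  have ha0 : 0 ≤ ρ / 2 := by linarith
  have hρ2 : 0 < ρ ^ 2 := by positivity
  set κ := kap ρ with hκ
  set u := uu g with hu
  have hkc : Continuous κ := hT.smooth.continuous
  have hkdiff : ∀ r, HasDerivAt κ (deriv κ r) r := fun r =>
    ((hT.smooth.differentiable (by simp)) r).hasDerivAt
  have hkc' : Continuous (deriv κ) := hT.smooth.continuous_deriv (by simp)
  have hgc : Continuous g := hg.smooth.continuous
  have hgdiff : ∀ r, HasDerivAt g (u r * g r) r := fun r => by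
    have h1 := ((hg.smooth.differentiable (by simp)) r).hasDerivAt
    have h2 : u r * g r = deriv g r := by
      rw [hu]; unfold uu
      exact div_mul_cancel₀ _ (hg.pos r).ne'
    rw [h2]; exact h1
  have hus := uu_smooth hg
  have huc : Continuous u := hus.continuous
  have hka : ∀ r, r ≤ ρ / 2 → κ r = 0 := hkz
  have hkb : ∀ r, 4 * ρ ≤ r → κ r = 0 := hT.far
  set m := ∫ s in (ρ / 2)..(4 * ρ), s ^ 2 * g s with hm
  have hm0 : 0 ≤ m := intervalIntegral.integral_nonneg hab fun r _ =>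
    mul_nonneg (sq_nonneg _) (hg.pos r).le
  set G0 := ∫ r in (ρ / 2)..(4 * ρ), g r with hG0
  have hG00 : 0 ≤ G0 := intervalIntegral.integral_nonneg hab fun r _ => (hg.pos r).le
  have hG0m : G0 ≤ 4 / ρ ^ 2 * m := annc_g hg hρ
  have hJ : FI (fun r => κ r ^ 2) g = ∫ r in (ρ / 2)..(4 * ρ), κ r ^ 2 * (r ^ 2 * g r * u r ^ 2) := by
    unfold FI
    refine annc_int ha0 hab (fun r hr => ?_) (fun r hr => ?_)
    · simp only [hka r hr]; ring
    · simp only [hkb r hr]; ring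
  have hQ : ∫ r in Ioi (0 : ℝ), κ r ^ 4 * (r ^ 2 * g r ^ 2 * u r ^ 2) =
      ∫ r in (ρ / 2)..(4 * ρ), κ r ^ 4 * (r ^ 2 * g r ^ 2 * u r ^ 2) := by
    refine annc_int ha0 hab (fun r hr => ?_) (fun r hr => ?_)
    · rw [hka r hr]; ring
    · rw [hkb r hr]; ring
  set J := FI (fun r => κ r ^ 2) g with hJdef
  have hJ0 : 0 ≤ J := by
    rw [hJ]
    exact intervalIntegral.integral_nonneg hab fun r _ =>
      mul_nonneg (sq_nonneg _) (mul_nonneg (mul_nonneg (sq_nonneg _) (hg.pos r).le) (sq_nonneg _))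
  set B := ∫ r in (ρ / 2)..(4 * ρ), (2 * C1 / ρ * g r + κ r ^ 2 * g r * |u r|) with hB
  have hBnn : ∀ r, 0 ≤ 2 * C1 / ρ * g r + κ r ^ 2 * g r * |u r| := fun r => by
    have := hg.pos r
    positivity
  have hsup : ∀ r ∈ Icc (ρ / 2) (4 * ρ), κ r ^ 2 * g r ≤ B := by
    intro r hr
    have hd : ∀ x ∈ uIcc (ρ / 2) r, HasDerivAt (fun x => κ x ^ 2 * g x)
        (2 * κ x * deriv κ x * g x + κ x ^ 2 * (u x * g x)) x := by
      intro x _
      have h1 := ((hkdiff x).pow 2).mul (hgdiff x)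
      refine h1.congr_deriv ?_
      simp only [Pi.pow_apply]
      push_cast
      ring
    have h2 := intervalIntegral.integral_eq_sub_of_hasDerivAt hd
      (Continuous.intervalIntegrable (by fun_prop) _ _)
    have h3 : κ r ^ 2 * g r = ∫ x in (ρ / 2)..r,
        (2 * κ x * deriv κ x * g x + κ x ^ 2 * (u x * g x)) := by
      rw [h2, hka (ρ / 2) le_rfl]
      ring
    rw [h3]
    calc ∫ x in (ρ / 2)..r, (2 * κ x * deriv κ x * g x + κ x ^ 2 * (u x * g x))
        ≤ ∫ x in (ρ / 2)..r, (2 * C1 / ρ * g x + κ x ^ 2 * g x * |u x|) := by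
          refine intervalIntegral.integral_mono_on hr.1
            (Continuous.intervalIntegrable (by fun_prop) _ _)
            (Continuous.intervalIntegrable (by fun_prop) _ _) fun x _ => ?_
          refine add_le_add ?_ ?_
          · refine mul_le_mul_of_nonneg_right ?_ (hg.pos x).le
            have h4 : κ x * deriv κ x ≤ C1 / ρ := by
              calc κ x * deriv κ x ≤ κ x * |deriv κ x| :=
                    mul_le_mul_of_nonneg_left (le_abs_self _) (hk0 x)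
                _ ≤ 1 * (C1 / ρ) := mul_le_mul (hk1 x) (hkd x).1 (abs_nonneg _) zero_le_one
                _ = C1 / ρ := one_mul _
            calc 2 * κ x * deriv κ x = 2 * (κ x * deriv κ x) := by ring
              _ ≤ 2 * (C1 / ρ) := by linarith
              _ = 2 * C1 / ρ := by ring
          · calc κ x ^ 2 * (u x * g x) = κ x ^ 2 * g x * u x := by ring
              _ ≤ κ x ^ 2 * g x * |u x| :=
                mul_le_mul_of_nonneg_left (le_abs_self _) (mul_nonneg (sq_nonneg _) (hg.pos x).le)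
      _ ≤ B := by
          refine intervalIntegral.integral_mono_interval le_rfl hr.1 hr.2
            (Filter.Eventually.of_forall fun x => hBnn x)
            (Continuous.intervalIntegrable (by fun_prop) _ _)
  have hJ4 : ∫ r in (ρ / 2)..(4 * ρ), g r * (κ r * |u r|) ^ 2 ≤ 4 / ρ ^ 2 * J := by
    rw [hJ, ← intervalIntegral.integral_const_mul]
    refine intervalIntegral.integral_mono_on hab (Continuous.intervalIntegrable (by fun_prop) _ _)
      (Continuous.intervalIntegrable (by fun_prop) _ _) fun r hr => ?_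
    have h1 : ρ ^ 2 ≤ 4 * r ^ 2 := by nlinarith [hr.1]
    have h2 : 1 ≤ 4 / ρ ^ 2 * r ^ 2 := by
      rw [div_mul_eq_mul_div, le_div_iff₀ hρ2]
      linarith
    have h3 : 0 ≤ g r * (κ r * |u r|) ^ 2 := mul_nonneg (hg.pos r).le (sq_nonneg _)
    calc g r * (κ r * |u r|) ^ 2 = 1 * (g r * (κ r * |u r|) ^ 2) := (one_mul _).symm
      _ ≤ (4 / ρ ^ 2 * r ^ 2) * (g r * (κ r * |u r|) ^ 2) := mul_le_mul_of_nonneg_right h2 h3
      _ = 4 / ρ ^ 2 * (κ r ^ 2 * (r ^ 2 * g r * u r ^ 2)) := by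
        rw [mul_pow, sq_abs]; ring
  have hk2 : ∫ r in (ρ / 2)..(4 * ρ), g r * κ r ^ 2 ≤ 4 / ρ ^ 2 * m := by
    refine le_trans ?_ hG0m
    refine intervalIntegral.integral_mono_on hab (Continuous.intervalIntegrable (by fun_prop) _ _)
      (Continuous.intervalIntegrable (by fun_prop) _ _) fun r _ => ?_
    have : κ r ^ 2 ≤ 1 := pow_le_one₀ (hk0 r) (hk1 r)
    nlinarith [hg.pos r]
  have hJ40 : 0 ≤ ∫ r in (ρ / 2)..(4 * ρ), g r * (κ r * |u r|) ^ 2 :=
    intervalIntegral.integral_nonneg hab fun r _ => mul_nonneg (hg.pos r).le (sq_nonneg _)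
  have hk20 : 0 ≤ ∫ r in (ρ / 2)..(4 * ρ), g r * κ r ^ 2 :=
    intervalIntegral.integral_nonneg hab fun r _ => mul_nonneg (hg.pos r).le (sq_nonneg _)
  have hBle : B ≤ 8 * C1 * (m / ρ ^ 3 + Real.sqrt (m * J) / ρ ^ 2) := by
    have h1 : B = 2 * C1 / ρ * G0 + ∫ r in (ρ / 2)..(4 * ρ), g r * ((κ r * |u r|) * κ r) := by
      rw [hB, intervalIntegral.integral_add, intervalIntegral.integral_const_mul]
      · congr 1
        exact intervalIntegral.integral_congr fun r _ => by ring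
      all_goals exact Continuous.intervalIntegrable (by fun_prop) _ _
    have h2 := annc_cs hab (w := g) (f := fun r => κ r * |u r|) (h := κ) hgc (by fun_prop) hkc
      (fun r => (hg.pos r).le)
    have h3 : Real.sqrt ((∫ r in (ρ / 2)..(4 * ρ), g r * (κ r * |u r|) ^ 2) *
        ∫ r in (ρ / 2)..(4 * ρ), g r * κ r ^ 2) ≤ 4 * (Real.sqrt (m * J) / ρ ^ 2) := by
      have h4 : (∫ r in (ρ / 2)..(4 * ρ), g r * (κ r * |u r|) ^ 2) *
          (∫ r in (ρ / 2)..(4 * ρ), g r * κ r ^ 2) ≤ (4 / ρ ^ 2) ^ 2 * (m * J) := by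
        calc _ ≤ (4 / ρ ^ 2 * J) * (4 / ρ ^ 2 * m) :=
              mul_le_mul hJ4 hk2 hk20 (hJ40.trans hJ4)
          _ = (4 / ρ ^ 2) ^ 2 * (m * J) := by ring
      refine (Real.sqrt_le_sqrt h4).trans ?_
      rw [Real.sqrt_mul (sq_nonneg _), Real.sqrt_sq (by positivity)]
      apply le_of_eq
      ring
    have h5 : 2 * C1 / ρ * G0 ≤ 8 * C1 * (m / ρ ^ 3) := by
      calc 2 * C1 / ρ * G0 ≤ 2 * C1 / ρ * (4 / ρ ^ 2 * m) :=
            mul_le_mul_of_nonneg_left hG0m (by positivity)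
        _ = 8 * C1 * (m / ρ ^ 3) := by field_simp; ring
    have h6 : 4 * (Real.sqrt (m * J) / ρ ^ 2) ≤ 8 * C1 * (Real.sqrt (m * J) / ρ ^ 2) :=
      mul_le_mul_of_nonneg_right (by linarith) (by positivity)
    rw [h1, mul_add]
    exact add_le_add h5 (((le_abs_self _).trans h2).trans (h3.trans h6))
  rw [hQ]
  calc ∫ r in (ρ / 2)..(4 * ρ), κ r ^ 4 * (r ^ 2 * g r ^ 2 * u r ^ 2)
      ≤ ∫ r in (ρ / 2)..(4 * ρ), B * (κ r ^ 2 * (r ^ 2 * g r * u r ^ 2)) := by
        refine intervalIntegral.integral_mono_on hab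
          (Continuous.intervalIntegrable (by fun_prop) _ _)
          (Continuous.intervalIntegrable (by fun_prop) _ _) fun r hr => ?_
        calc κ r ^ 4 * (r ^ 2 * g r ^ 2 * u r ^ 2) =
            (κ r ^ 2 * g r) * (κ r ^ 2 * (r ^ 2 * g r * u r ^ 2)) := by ring
          _ ≤ B * (κ r ^ 2 * (r ^ 2 * g r * u r ^ 2)) :=
            mul_le_mul_of_nonneg_right (hsup r hr)
              (mul_nonneg (sq_nonneg _)
                (mul_nonneg (mul_nonneg (sq_nonneg _) (hg.pos r).le) (sq_nonneg _)))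
    _ = B * J := by rw [intervalIntegral.integral_const_mul, ← hJ]
    _ ≤ _ := mul_le_mul_of_nonneg_right hBle hJ0

end Pool.Agent.LandauR
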