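import Pool.Agent.LandauR.RAnnA
import Pool.Agent.LandauR.RAnnC

/-!
# LandauR, module RAnnD: the differential inequality of the Fisher information of an annulus

Notation: `m = ∫_{ρ/2}^{4ρ} s² g`, `a = aa g (ρ/2)`, `A = AA g (4ρ)`, `X = Xf ρ g`, `J = FI (kap²) g`,
`I = FI (kap⁴) g ≤ J` (`0 ≤ kap ≤ 1`), `F = dFI (kap⁴) g = RF (kap⁴) g` (`fisher_id`, `kap4_tst`).
Known: `m ≤ 768 ρ A`, `m ≤ 4 ρ a`, `J ≤ C (√(X m) + m/ρ²)` and (`RF_le`, `quart_le`)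
`F ≤ -A X + C (a/ρ²) J + C (m/ρ³ + √(m J)/ρ²) J`.

`alg_ann`: put `x = √(X m)`, `α = a/ρ`, `μ = m/ρ² ≤ 4 α`.  Then `A X ≥ m X/(768 ρ) = x²/(768 ρ)` and
`ρ F ≤ -x²/768 + C α J + C (μ + √(μ J)) J ≤ -x²/768 + 5 C α J + 2 C √(α J) J`,
`J ≤ C (x + 4 α)`.  Young: `√(α J) J ≤ α J/(2ε) + ε J²/2`, `J² ≤ 2 C² (x² + 16 α²)`,
`α J ≤ C α x + 4 C α² ≤ ε' x² + C' α²`.  With `ε`, `ε'` small: `ρ F ≤ -x²/1536 + C'' α²`.
Finally `I ≤ J ≤ C (x + 4 α)` gives `(max (I - 4 C α) 0)² ≤ C² x²`.  So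
`F ≤ -(1/(1536 C² ρ)) (max (I - 4 C α) 0)² + C'' α²/ρ`, with `α²/ρ = a²/ρ³`.
-/

set_option autoImplicit false

namespace Pool.Agent.LandauR

open MeasureTheory Set Filter Topology

theorem alg_ann (C : ℝ) (hC : 0 < C) : ∃ c C' : ℝ, 0 < c ∧ 0 < C' ∧
    ∀ ρ m a A X J I F : ℝ, 0 < ρ → 0 ≤ m → 0 ≤ a → 0 ≤ X → 0 ≤ J → 0 ≤ I → I ≤ J →
      m ≤ 768 * ρ * A → m ≤ 4 * ρ * a → J ≤ C * (Real.sqrt (X * m) + m / ρ ^ 2) →
      F ≤ -(A * X) + C * (a / ρ ^ 2) * J + C * (m / ρ ^ 3 + Real.sqrt (m * J) / ρ ^ 2) * J →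
      F ≤ -(c / ρ) * (max (I - C' * (a / ρ)) 0) ^ 2 + C' * (a ^ 2 / ρ ^ 3) := by
  set M : ℝ := 5 * C + 6144 * C ^ 4 with hM
  have hMpos : 0 < M := by positivity
  set C₂ : ℝ := 1 / 192 + 768 * (M * C) ^ 2 + 4 * M * C with hC₂
  have hC₂pos : 0 < C₂ := by positivity
  refine ⟨1 / (1536 * C ^ 2), 4 * C + C₂, by positivity, by positivity, ?_⟩
  intro ρ m a A X J I F hρ hm ha hX hJ hI hIJ hmA hma hJle hF
  set x : ℝ := Real.sqrt (X * m) with hx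
  have hx0 : 0 ≤ x := Real.sqrt_nonneg _
  have hx2 : x ^ 2 = X * m := Real.sq_sqrt (mul_nonneg hX hm)
  set α : ℝ := a / ρ with hα
  have hα0 : 0 ≤ α := div_nonneg ha hρ.le
  set μ : ℝ := m / ρ ^ 2 with hμ
  have hμ0 : 0 ≤ μ := by positivity
  have hμα : μ ≤ 4 * α := by
    rw [hμ, hα, div_le_iff₀ (by positivity)]
    have : 4 * (a / ρ) * ρ ^ 2 = 4 * ρ * a := by
      field_simp
    rw [this]
    exact hma
  set s : ℝ := Real.sqrt (m * J) / ρ with hs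
  have hs0 : 0 ≤ s := div_nonneg (Real.sqrt_nonneg _) hρ.le
  have hs2 : s ^ 2 = μ * J := by
    rw [hs, div_pow, Real.sq_sqrt (mul_nonneg hm hJ), hμ]
    ring
  -- the inequality multiplied by `ρ`
  have e1 : x ^ 2 / 768 ≤ A * X * ρ := by
    rw [hx2]
    have := mul_le_mul_of_nonneg_left hmA hX
    linarith
  have e2 : C * (a / ρ ^ 2) * J * ρ = C * α * J := by
    rw [hα]
    field_simp
  have e3 : C * (m / ρ ^ 3 + Real.sqrt (m * J) / ρ ^ 2) * J * ρ = C * (μ + s) * J := by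
    rw [hμ, hs]
    field_simp
  have hFρ : F * ρ ≤ -(x ^ 2 / 768) + C * α * J + C * (μ + s) * J := by
    have h1 := mul_le_mul_of_nonneg_right hF hρ.le
    have h2 : (-(A * X) + C * (a / ρ ^ 2) * J +
        C * (m / ρ ^ 3 + Real.sqrt (m * J) / ρ ^ 2) * J) * ρ =
        -(A * X * ρ) + C * (a / ρ ^ 2) * J * ρ +
          C * (m / ρ ^ 3 + Real.sqrt (m * J) / ρ ^ 2) * J * ρ := by ring
    rw [h2, e2, e3] at h1
    linarith
  have hJx : J ≤ C * (x + 4 * α) :=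
    hJle.trans (mul_le_mul_of_nonneg_left (by linarith) hC.le)
  have hy0 : 0 ≤ C * (x + 4 * α) := hJ.trans hJx
  -- `C μ J ≤ 4 C α J`
  have t1 : C * μ * J ≤ 4 * C * α * J := by
    have := mul_le_mul_of_nonneg_right (mul_le_mul_of_nonneg_left hμα hC.le) hJ
    linarith
  -- Young: `C s J ≤ 6144 C ^ 4 α J + J ^ 2 / (6144 C ^ 2)`
  have t2 : C * s * J ≤ 6144 * C ^ 4 * α * J + J ^ 2 / (6144 * C ^ 2) := by
    have h1 : 0 ≤ (C ^ 2 * s * (1536 * 2) - J / 1) ^ 2 := sq_nonneg _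
    have h2 : C * s * J ≤ 1536 * C ^ 4 * s ^ 2 + J ^ 2 / (6144 * C ^ 2) := by
      rw [← sub_nonneg]
      have h3 : 1536 * C ^ 4 * s ^ 2 + J ^ 2 / (6144 * C ^ 2) - C * s * J =
          (3072 * C ^ 3 * s - J) ^ 2 / (6144 * C ^ 2) := by
        field_simp
        ring
      rw [h3]
      positivity
    have h4 : 1536 * C ^ 4 * s ^ 2 ≤ 6144 * C ^ 4 * α * J := by
      rw [hs2]
      have h5 : μ * J ≤ 4 * α * J := mul_le_mul_of_nonneg_right hμα hJ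
      have h6 : (0 : ℝ) ≤ 1536 * C ^ 4 := by positivity
      have := mul_le_mul_of_nonneg_left h5 h6
      linarith
    linarith
  have t3 : J ^ 2 / (6144 * C ^ 2) ≤ x ^ 2 / 3072 + α ^ 2 / 192 := by
    rw [div_le_iff₀ (by positivity)]
    have h1 : J ^ 2 ≤ (C * (x + 4 * α)) ^ 2 := pow_le_pow_left₀ hJ hJx 2
    have h2 : (x + 4 * α) ^ 2 ≤ 2 * x ^ 2 + 32 * α ^ 2 := by nlinarith [sq_nonneg (x - 4 * α)]
    have h3 : (C * (x + 4 * α)) ^ 2 ≤ C ^ 2 * (2 * x ^ 2 + 32 * α ^ 2) := by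
      rw [mul_pow]
      exact mul_le_mul_of_nonneg_left h2 (by positivity)
    have h4 : (x ^ 2 / 3072 + α ^ 2 / 192) * (6144 * C ^ 2) = C ^ 2 * (2 * x ^ 2 + 32 * α ^ 2) := by
      ring
    linarith
  have t4 : M * α * J ≤ x ^ 2 / 3072 + (768 * (M * C) ^ 2 + 4 * M * C) * α ^ 2 := by
    have h1 : M * α * J ≤ M * α * (C * (x + 4 * α)) :=
      mul_le_mul_of_nonneg_left hJx (by positivity)
    have h2 : M * C * α * x ≤ x ^ 2 / 3072 + 768 * (M * C) ^ 2 * α ^ 2 := by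
      nlinarith [sq_nonneg (x - 1536 * (M * C) * α)]
    nlinarith
  have hmain : F * ρ ≤ -(x ^ 2 / 1536) + C₂ * α ^ 2 := by
    have h1 : M * α * J = 5 * C * α * J + 6144 * C ^ 4 * α * J := by rw [hM]; ring
    have h2 : C₂ * α ^ 2 = α ^ 2 / 192 + (768 * (M * C) ^ 2 + 4 * M * C) * α ^ 2 := by
      rw [hC₂]; ring
    have h3 : C * (μ + s) * J = C * μ * J + C * s * J := by ring
    linarith
  -- the maximum
  have hmax : (max (I - (4 * C + C₂) * α) 0) ^ 2 ≤ (C * x) ^ 2 := by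
    refine pow_le_pow_left₀ (le_max_right _ _) (max_le ?_ (by positivity)) 2
    have h1 : 0 ≤ C₂ * α := by positivity
    have h2 : C * (x + 4 * α) = C * x + 4 * C * α := by ring
    have h3 : (4 * C + C₂) * α = 4 * C * α + C₂ * α := by ring
    linarith
  have hfin : F * ρ ≤ -(1 / (1536 * C ^ 2)) * (max (I - (4 * C + C₂) * α) 0) ^ 2 +
      (4 * C + C₂) * α ^ 2 := by
    have h1 : 1 / (1536 * C ^ 2) * (max (I - (4 * C + C₂) * α) 0) ^ 2 ≤ x ^ 2 / 1536 := by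
      have h2 : 1 / (1536 * C ^ 2) * (max (I - (4 * C + C₂) * α) 0) ^ 2 ≤
          1 / (1536 * C ^ 2) * (C * x) ^ 2 := mul_le_mul_of_nonneg_left hmax (by positivity)
      have h3 : 1 / (1536 * C ^ 2) * (C * x) ^ 2 = x ^ 2 / 1536 := by
        field_simp
      linarith
    have h4 : 0 ≤ 4 * C * α ^ 2 := by positivity
    have h5 : (4 * C + C₂) * α ^ 2 = 4 * C * α ^ 2 + C₂ * α ^ 2 := by ring
    linarith
  have hdiv : F ≤ (-(1 / (1536 * C ^ 2)) * (max (I - (4 * C + C₂) * α) 0) ^ 2 +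
      (4 * C + C₂) * α ^ 2) / ρ := (le_div_iff₀ hρ).2 hfin
  refine hdiv.trans (le_of_eq ?_)
  have h6 : α ^ 2 / ρ = a ^ 2 / ρ ^ 3 := by
    rw [hα]
    field_simp
  rw [← h6]
  ring

private theorem RAnnD_cont {g θ : ℝ → ℝ} (hg : Prof g) (hθ : Continuous θ) :
    Continuous (fun r => θ r * (r ^ 2 * g r * uu g r ^ 2)) :=
  hθ.mul (((continuous_id.pow 2).mul hg.smooth.continuous).mul ((uu_smooth hg).continuous.pow 2))

private theorem RAnnD_int {g θ : ℝ → ℝ} (hg : Prof g) (hθ : Continuous θ) {K : ℝ}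
    (hfar : ∀ r, K ≤ r → θ r = 0) :
    IntegrableOn (fun r => θ r * (r ^ 2 * g r * uu g r ^ 2)) (Ioi (0 : ℝ)) := by
  have h1 : IntegrableOn (fun r => θ r * (r ^ 2 * g r * uu g r ^ 2)) (Icc 0 (max K 0)) :=
    (RAnnD_cont hg hθ).continuousOn.integrableOn_Icc
  have h2 : IntegrableOn (fun r => θ r * (r ^ 2 * g r * uu g r ^ 2)) (Ioi (max K 0)) := by
    refine (integrableOn_zero (μ := volume)).congr_fun (fun r hr => ?_) measurableSet_Ioi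
    have h3 : K ≤ r := (le_max_left K 0).trans (le_of_lt hr)
    simp [hfar r h3]
  refine (h1.union h2).mono_set ?_
  intro r hr
  rcases le_or_gt r (max K 0) with h | h
  · exact Or.inl ⟨le_of_lt hr, h⟩
  · exact Or.inr h

private theorem RAnnD_FI_nonneg {g θ : ℝ → ℝ} (hg : Prof g) (hθ : ∀ r, 0 ≤ θ r) :
    0 ≤ FI θ g := by
  refine setIntegral_nonneg measurableSet_Ioi fun r _ => ?_
  have := (hg.pos r).le
  exact mul_nonneg (hθ r) (by positivity)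

theorem ann_ineq : ∃ c C : ℝ, 0 < c ∧ 0 < C ∧ ∀ g : ℝ → ℝ, Prof g → ∀ ρ : ℝ, 0 < ρ →
    dFI (fun r => kap ρ r ^ 4) g ≤
      -(c / ρ) * (max (FI (fun r => kap ρ r ^ 4) g - C * (aa g (ρ / 2) / ρ)) 0) ^ 2
        + C * (aa g (ρ / 2) ^ 2 / ρ ^ 3) := by
  obtain ⟨C₁, hC₁, h1⟩ := RF_le
  obtain ⟨C₂, hC₂, h2⟩ := J_le
  obtain ⟨C₃, hC₃, h3⟩ := quart_le
  obtain ⟨C₀, -, h0⟩ := kap_tst
  obtain ⟨c, C', hc, hC', halg⟩ := alg_ann (C₁ + C₂ + 4 * C₃) (by positivity)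
  refine ⟨c, C', hc, hC', ?_⟩
  intro g hg ρ hρ
  obtain ⟨hT, hk0, hk1, -, -, -⟩ := h0 ρ hρ
  obtain ⟨hT4, hT40⟩ := kap4_tst hρ
  have hm0 : 0 ≤ ∫ s in (ρ / 2)..(4 * ρ), s ^ 2 * g s :=
    intervalIntegral.integral_nonneg (by linarith) fun s _ =>
      mul_nonneg (sq_nonneg s) (hg.pos s).le
  have hX0 : 0 ≤ Xf ρ g := by
    refine setIntegral_nonneg measurableSet_Ioi fun r _ => ?_
    have := (hg.pos r).le
    have := hk0 r
    positivity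
  have hJ0 : 0 ≤ FI (fun r => kap ρ r ^ 2) g := RAnnD_FI_nonneg hg fun r => sq_nonneg _
  have hI0 : 0 ≤ FI (fun r => kap ρ r ^ 4) g :=
    RAnnD_FI_nonneg hg fun r => by
      have := hk0 r
      positivity
  have hkc : Continuous (kap ρ) := hT.smooth.continuous
  have hIJ : FI (fun r => kap ρ r ^ 4) g ≤ FI (fun r => kap ρ r ^ 2) g := by
    refine setIntegral_mono_on
      (RAnnD_int hg (hkc.pow 4) (K := 4 * ρ) fun r hr => by rw [hT.far r hr]; simp)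
      (RAnnD_int hg (hkc.pow 2) (K := 4 * ρ) fun r hr => by rw [hT.far r hr]; simp)
      measurableSet_Ioi fun r _ => ?_
    have h4 := (hg.pos r).le
    have h5 : kap ρ r ^ 4 ≤ kap ρ r ^ 2 := pow_le_pow_of_le_one (hk0 r) (hk1 r) (by norm_num)
    exact mul_le_mul_of_nonneg_right h5 (by positivity)
  have hJ := h2 g hg ρ hρ
  have hQ := h3 g hg ρ hρ
  have hR := h1 g hg ρ hρ
  have hfish : dFI (fun r => kap ρ r ^ 4) g = RF (fun r => kap ρ r ^ 4) g :=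
    fisher_id hg hT4 hT40
  have ha0 : 0 ≤ aa g (ρ / 2) := (aa_pos hg (by positivity)).le
  refine halg ρ (∫ s in (ρ / 2)..(4 * ρ), s ^ 2 * g s) (aa g (ρ / 2)) (AA g (4 * ρ)) (Xf ρ g)
    (FI (fun r => kap ρ r ^ 2) g) (FI (fun r => kap ρ r ^ 4) g) _ hρ hm0 ha0 hX0 hJ0 hI0 hIJ
    (mass_le_AA hg hρ) (mass_le_aa hg hρ) ?_ ?_
  · refine hJ.trans (mul_le_mul_of_nonneg_right (by linarith) ?_)
    positivity
  · rw [hfish]
    set m : ℝ := ∫ s in (ρ / 2)..(4 * ρ), s ^ 2 * g s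
    set J : ℝ := FI (fun r => kap ρ r ^ 2) g
    have k1 : C₁ * (aa g (ρ / 2) / ρ ^ 2) * J ≤
        (C₁ + C₂ + 4 * C₃) * (aa g (ρ / 2) / ρ ^ 2) * J := by
      refine mul_le_mul_of_nonneg_right (mul_le_mul_of_nonneg_right (by linarith) ?_) hJ0
      positivity
    have k2 : 4 * (C₃ * (m / ρ ^ 3 + Real.sqrt (m * J) / ρ ^ 2) * J) ≤
        (C₁ + C₂ + 4 * C₃) * (m / ρ ^ 3 + Real.sqrt (m * J) / ρ ^ 2) * J := by
      have k3 : 0 ≤ m / ρ ^ 3 + Real.sqrt (m * J) / ρ ^ 2 := by positivity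
      have k4 := mul_le_mul_of_nonneg_right (mul_le_mul_of_nonneg_right
        (show 4 * C₃ ≤ C₁ + C₂ + 4 * C₃ by linarith) k3) hJ0
      linarith
    linarith

end Pool.Agent.LandauR
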