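import Pool.Agent.LandauR.RDefs

/-!
# LandauR, module RCalc: calculus of `NN`, `EE`, `PP`, `AA`, `aa`

Everything follows from the fundamental theorem of calculus, `0 < g ≤ 1` and the integrability of
`s g` on `(0, ∞)`.

* `PP g r = ∫_r^∞ s g` is differentiable at every real `r` (also `r ≤ 0`: `s g` is continuous, hence
  integrable on every `Ioi r`), with derivative `-(r g r)`.
* `AA' = (r⁴ g / r³ - 3 EE / r⁴ - r g) / 3 = -EE / r⁴`, `aa' = r² g / r - NN / r² - r g = -NN / r²`.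
* `EE g r ≤ r² NN g r`, so `3 AA ≤ NN / r + PP = aa`.
* `r ↦ r aa = NN + r PP` has derivative `PP ≥ 0`, so it is monotone and `aa (r/2) ≤ 2 aa r`.
* `r³ AA = (EE + r³ PP) / 3` has derivative `r² PP ≥ 0`.
* mass lower bound: for `ρ > 0`, `EE g (4ρ) ≥ ∫_{ρ/2}^{4ρ} s⁴ g ≥ (ρ²/4) ∫_{ρ/2}^{4ρ} s² g`.
-/

set_option autoImplicit false

namespace Pool.Agent.LandauR

open MeasureTheory Set Filter Topology

variable {g : ℝ → ℝ}

theorem rc_cont (hg : Prof g) : Continuous g := hg.smooth.continuous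

theorem rc_cont_pow (hg : Prof g) (k : ℕ) : Continuous (fun s => s ^ k * g s) :=
  (continuous_pow k).mul (rc_cont hg)

theorem rc_cont_id (hg : Prof g) : Continuous (fun s => s * g s) :=
  continuous_id.mul (rc_cont hg)

theorem rc_ii (hg : Prof g) (k : ℕ) (a b : ℝ) :
    IntervalIntegrable (fun s => s ^ k * g s) volume a b :=
  (rc_cont_pow hg k).intervalIntegrable a b

theorem rc_ii1 (hg : Prof g) (a b : ℝ) :
    IntervalIntegrable (fun s => s * g s) volume a b :=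
  (rc_cont_id hg).intervalIntegrable a b

theorem hasDerivAt_NN (hg : Prof g) (r : ℝ) : HasDerivAt (NN g) (r ^ 2 * g r) r :=
  (rc_cont_pow hg 2).integral_hasStrictDerivAt 0 r |>.hasDerivAt

theorem hasDerivAt_EE (hg : Prof g) (r : ℝ) : HasDerivAt (EE g) (r ^ 4 * g r) r :=
  (rc_cont_pow hg 4).integral_hasStrictDerivAt 0 r |>.hasDerivAt

theorem int_Ioi (hg : Prof g) (r : ℝ) : IntegrableOn (fun s => s * g s) (Ioi r) := by
  rcases le_total 0 r with h | h
  · exact hg.int.mono_set (Ioi_subset_Ioi h)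
  · have h1 : Ioi r = Ioc r 0 ∪ Ioi 0 := (Ioc_union_Ioi_eq_Ioi h).symm
    rw [h1]
    refine IntegrableOn.union ?_ hg.int
    exact (intervalIntegrable_iff_integrableOn_Ioc_of_le h).1 (rc_ii1 hg r 0)

theorem rc_PP_sub (hg : Prof g) (a b : ℝ) : PP g a = (∫ s in a..b, s * g s) + PP g b := by
  unfold PP
  have h2 := intervalIntegral.integral_Ioi_sub_Ioi' (int_Ioi hg a) (int_Ioi hg b)
  linarith

theorem hasDerivAt_PP (hg : Prof g) (r : ℝ) : HasDerivAt (PP g) (-(r * g r)) r := by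
  have h1 : PP g = fun x => PP g 0 - ∫ s in (0 : ℝ)..x, s * g s := by
    funext x
    have := rc_PP_sub hg 0 x
    linarith
  rw [h1]
  have h2 : HasDerivAt (fun x => ∫ s in (0 : ℝ)..x, s * g s) (r * g r) r :=
    (rc_cont_id hg).integral_hasStrictDerivAt 0 r |>.hasDerivAt
  have := h2.const_sub (PP g 0)
  exact this

theorem NN_nonneg (hg : Prof g) {r : ℝ} (hr : 0 ≤ r) : 0 ≤ NN g r := by
  apply intervalIntegral.integral_nonneg hr
  intro s _
  have := hg.pos s
  positivity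

theorem NN_pos (hg : Prof g) {r : ℝ} (hr : 0 < r) : 0 < NN g r := by
  apply intervalIntegral.intervalIntegral_pos_of_pos_on (rc_ii hg 2 0 r) _ hr
  intro s hs
  have := hg.pos s
  have := hs.1
  positivity

theorem EE_nonneg (hg : Prof g) {r : ℝ} (hr : 0 ≤ r) : 0 ≤ EE g r := by
  apply intervalIntegral.integral_nonneg hr
  intro s _
  have := hg.pos s
  positivity

theorem EE_pos (hg : Prof g) {r : ℝ} (hr : 0 < r) : 0 < EE g r := by
  apply intervalIntegral.intervalIntegral_pos_of_pos_on (rc_ii hg 4 0 r) _ hr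
  intro s hs
  have := hg.pos s
  have := hs.1
  positivity

theorem rc_PP_nonneg (hg : Prof g) {r : ℝ} (hr : 0 ≤ r) : 0 ≤ PP g r := by
  apply setIntegral_nonneg measurableSet_Ioi
  intro s hs
  have := hg.pos s
  have : 0 < s := lt_of_le_of_lt hr hs
  positivity

theorem PP_pos (hg : Prof g) {r : ℝ} (hr : 0 ≤ r) : 0 < PP g r := by
  rw [rc_PP_sub hg r (r + 1)]
  have h1 : 0 < ∫ s in r..(r + 1), s * g s := by
    apply intervalIntegral.intervalIntegral_pos_of_pos_on (rc_ii1 hg r (r + 1)) _ (by linarith)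
    intro s hs
    have := hg.pos s
    have : 0 < s := lt_of_le_of_lt hr hs.1
    positivity
  have h2 := rc_PP_nonneg hg (r := r + 1) (by linarith)
  linarith

theorem NN_mono (hg : Prof g) : Monotone (NN g) := by
  apply monotone_of_hasDerivAt_nonneg (hasDerivAt_NN hg)
  intro x
  have := hg.pos x
  simp only [Pi.zero_apply]
  positivity

theorem PP_anti (hg : Prof g) {r s : ℝ} (hr : 0 ≤ r) (h : r ≤ s) : PP g s ≤ PP g r := by
  rw [rc_PP_sub hg r s]
  have h1 : 0 ≤ ∫ x in r..s, x * g x := by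
    apply intervalIntegral.integral_nonneg h
    intro x hx
    have := hg.pos x
    have : 0 ≤ x := hr.trans hx.1
    positivity
  linarith

theorem EE_le (hg : Prof g) {r : ℝ} (hr : 0 ≤ r) : EE g r ≤ r ^ 2 * NN g r := by
  unfold EE NN
  rw [← intervalIntegral.integral_const_mul]
  apply intervalIntegral.integral_mono_on hr (rc_ii hg 4 0 r) ((rc_ii hg 2 0 r).const_mul _)
  intro s hs
  have h1 := hg.pos s
  have h2 : s ^ 2 ≤ r ^ 2 := pow_le_pow_left₀ hs.1 hs.2 2
  have h3 : 0 ≤ s ^ 2 * g s := by positivity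
  nlinarith

theorem NN_le (hg : Prof g) {r : ℝ} (hr : 0 ≤ r) : NN g r ≤ r ^ 3 / 3 := by
  unfold NN
  have h1 : ∫ s in (0 : ℝ)..r, s ^ 2 = r ^ 3 / 3 := by
    rw [integral_pow]; norm_num
  rw [← h1]
  apply intervalIntegral.integral_mono_on hr (rc_ii hg 2 0 r)
    ((continuous_pow 2).intervalIntegrable 0 r)
  intro s _
  have h2 := hg.le_one s
  have h3 : 0 ≤ s ^ 2 := by positivity
  nlinarith

theorem EE_le_pow (hg : Prof g) {r : ℝ} (hr : 0 ≤ r) : EE g r ≤ r ^ 5 / 5 := by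
  unfold EE
  have h1 : ∫ s in (0 : ℝ)..r, s ^ 4 = r ^ 5 / 5 := by
    rw [integral_pow]; norm_num
  rw [← h1]
  apply intervalIntegral.integral_mono_on hr (rc_ii hg 4 0 r)
    ((continuous_pow 4).intervalIntegrable 0 r)
  intro s _
  have h2 := hg.le_one s
  have h3 : 0 ≤ s ^ 4 := by positivity
  nlinarith

theorem AA_pos (hg : Prof g) {r : ℝ} (hr : 0 < r) : 0 < AA g r := by
  unfold AA
  have h1 := EE_pos hg hr
  have h2 := PP_pos hg hr.le
  positivity

theorem aa_pos (hg : Prof g) {r : ℝ} (hr : 0 < r) : 0 < aa g r := by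
  unfold aa
  have h1 := NN_pos hg hr
  have h2 := PP_pos hg hr.le
  positivity

theorem three_AA_le (hg : Prof g) {r : ℝ} (hr : 0 < r) : 3 * AA g r ≤ aa g r := by
  unfold AA aa
  have h1 := EE_le hg hr.le
  have h2 : EE g r / r ^ 3 ≤ NN g r / r := by
    rw [div_le_div_iff₀ (by positivity) hr]
    nlinarith
  linarith

theorem PP_le_aa (hg : Prof g) {r : ℝ} (hr : 0 < r) : PP g r ≤ aa g r := by
  unfold aa
  have h1 := NN_pos hg hr
  have h2 : 0 < NN g r / r := by positivity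
  linarith

theorem aa_le_PP0 (hg : Prof g) {r : ℝ} (hr : 0 < r) : aa g r ≤ PP g 0 := by
  rw [rc_PP_sub hg 0 r]
  unfold aa
  have h1 : NN g r ≤ r * ∫ s in (0 : ℝ)..r, s * g s := by
    unfold NN
    rw [← intervalIntegral.integral_const_mul]
    apply intervalIntegral.integral_mono_on hr.le (rc_ii hg 2 0 r) ((rc_ii1 hg 0 r).const_mul _)
    intro s hs
    have h1 := hg.pos s
    have h3 : 0 ≤ s * g s := mul_nonneg hs.1 h1.le
    have h4 := hs.2
    nlinarith
  have h2 : NN g r / r ≤ ∫ s in (0 : ℝ)..r, s * g s := by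
    rw [div_le_iff₀ hr]
    linarith
  linarith

theorem hasDerivAt_AA (hg : Prof g) {r : ℝ} (hr : 0 < r) :
    HasDerivAt (AA g) (-(EE g r / r ^ 4)) r := by
  have h1 : HasDerivAt (fun x : ℝ => x ^ 3) (3 * r ^ 2) r := by
    simpa using hasDerivAt_pow 3 r
  have h2 := (((hasDerivAt_EE hg r).fun_div h1 (by positivity)).fun_add
    (hasDerivAt_PP hg r)).div_const 3
  refine h2.congr_deriv ?_
  have : r ≠ 0 := hr.ne'
  field_simp
  ring

theorem hasDerivAt_aa (hg : Prof g) {r : ℝ} (hr : 0 < r) :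
    HasDerivAt (aa g) (-(NN g r / r ^ 2)) r := by
  have h2 := ((hasDerivAt_NN hg r).fun_div (hasDerivAt_id' r) hr.ne').fun_add
    (hasDerivAt_PP hg r)
  refine h2.congr_deriv ?_
  have : r ≠ 0 := hr.ne'
  field_simp
  ring

theorem rc_anti {f f' : ℝ → ℝ} (hf : ∀ x > 0, HasDerivAt f (f' x) x) (hf' : ∀ x > 0, f' x ≤ 0)
    {r s : ℝ} (hr : 0 < r) (h : r ≤ s) : f s ≤ f r := by
  have h1 : AntitoneOn f (Ioi 0) := by
    apply antitoneOn_of_deriv_nonpos (convex_Ioi 0)
    · intro x hx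
      exact (hf x hx).continuousAt.continuousWithinAt
    · intro x hx
      rw [interior_Ioi] at hx
      exact (hf x hx).differentiableAt.differentiableWithinAt
    · intro x hx
      rw [interior_Ioi] at hx
      rw [(hf x hx).deriv]
      exact hf' x hx
  exact h1 hr (lt_of_lt_of_le hr h) h

theorem AA_anti (hg : Prof g) {r s : ℝ} (hr : 0 < r) (h : r ≤ s) : AA g s ≤ AA g r := by
  refine rc_anti (f' := fun r => -(EE g r / r ^ 4)) (fun x hx => hasDerivAt_AA hg hx) ?_ hr h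
  intro x hx
  have h1 := EE_nonneg hg (le_of_lt hx)
  have : 0 ≤ EE g x / x ^ 4 := by positivity
  linarith

theorem aa_anti (hg : Prof g) {r s : ℝ} (hr : 0 < r) (h : r ≤ s) : aa g s ≤ aa g r := by
  refine rc_anti (f' := fun r => -(NN g r / r ^ 2)) (fun x hx => hasDerivAt_aa hg hx) ?_ hr h
  intro x hx
  have h1 := NN_nonneg hg (le_of_lt hx)
  have : 0 ≤ NN g x / x ^ 2 := by positivity
  linarith

theorem raa_eq (g : ℝ → ℝ) {r : ℝ} (hr : 0 < r) : r * aa g r = NN g r + r * PP g r := by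
  unfold aa
  have : r ≠ 0 := hr.ne'
  field_simp

theorem hasDerivAt_raa (hg : Prof g) {r : ℝ} (hr : 0 < r) :
    HasDerivAt (fun x => x * aa g x) (PP g r) r := by
  have h2 := (hasDerivAt_id' r).fun_mul (hasDerivAt_aa hg hr)
  refine h2.congr_deriv ?_
  unfold aa
  have : r ≠ 0 := hr.ne'
  field_simp
  ring

theorem raa_mono (hg : Prof g) {r s : ℝ} (hr : 0 < r) (h : r ≤ s) :
    r * aa g r ≤ s * aa g s := by
  have h1 := rc_anti (f := fun x => -(x * aa g x)) (f' := fun r => -(PP g r))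
    (fun x hx => (hasDerivAt_raa hg hx).fun_neg)
    (fun x hx => by
      have := PP_pos hg (le_of_lt hx)
      linarith) hr h
  linarith

theorem aa_half (hg : Prof g) {r : ℝ} (hr : 0 < r) : aa g (r / 2) ≤ 2 * aa g r := by
  have h1 := raa_mono hg (r := r / 2) (s := r) (by positivity) (by linarith)
  have h2 : r * aa g (r / 2) ≤ r * (2 * aa g r) := by linarith
  exact le_of_mul_le_mul_left h2 hr

theorem mass_le_AA (hg : Prof g) {ρ : ℝ} (hρ : 0 < ρ) :
    ∫ s in (ρ / 2)..(4 * ρ), s ^ 2 * g s ≤ 768 * ρ * AA g (4 * ρ) := by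
  set M := ∫ s in (ρ / 2)..(4 * ρ), s ^ 2 * g s with hM
  have h1 : ρ ^ 2 / 4 * M ≤ ∫ s in (ρ / 2)..(4 * ρ), s ^ 4 * g s := by
    rw [hM, ← intervalIntegral.integral_const_mul]
    apply intervalIntegral.integral_mono_on (by linarith) ((rc_ii hg 2 _ _).const_mul _)
      (rc_ii hg 4 _ _)
    intro s hs
    have h1 := hg.pos s
    have h2 : (ρ / 2) ^ 2 ≤ s ^ 2 := pow_le_pow_left₀ (by positivity) hs.1 2
    have h3 : 0 ≤ s ^ 2 * g s := by positivity
    nlinarith
  have h2 : EE g (4 * ρ) = EE g (ρ / 2) + ∫ s in (ρ / 2)..(4 * ρ), s ^ 4 * g s := by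
    unfold EE
    rw [intervalIntegral.integral_add_adjacent_intervals (rc_ii hg 4 _ _) (rc_ii hg 4 _ _)]
  have h3 := EE_nonneg hg (r := ρ / 2) (by positivity)
  have h4 : ρ ^ 2 / 4 * M ≤ EE g (4 * ρ) := by linarith
  have h5 := PP_pos hg (r := 4 * ρ) (by positivity)
  have h6 : ρ ^ 2 / 4 * M ≤ (4 * ρ) ^ 3 * (3 * AA g (4 * ρ)) := by
    unfold AA
    have h7 : (4 * ρ) ^ 3 * (3 * ((EE g (4 * ρ) / (4 * ρ) ^ 3 + PP g (4 * ρ)) / 3))
        = EE g (4 * ρ) + (4 * ρ) ^ 3 * PP g (4 * ρ) := by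
      field_simp
    rw [h7]
    have : 0 ≤ (4 * ρ) ^ 3 * PP g (4 * ρ) := by positivity
    linarith
  have h8 : ρ ^ 2 / 4 * M ≤ ρ ^ 2 / 4 * (768 * ρ * AA g (4 * ρ)) := by
    refine h6.trans (le_of_eq ?_)
    ring
  exact le_of_mul_le_mul_left h8 (by positivity)

/-- the mass of an annulus -/
theorem mass_le_aa (hg : Prof g) {ρ : ℝ} (hρ : 0 < ρ) :
    ∫ s in (ρ / 2)..(4 * ρ), s ^ 2 * g s ≤ 4 * ρ * aa g (ρ / 2) := by
  have h1 : ∫ s in (ρ / 2)..(4 * ρ), s ^ 2 * g s
      ≤ 4 * ρ * ∫ s in (ρ / 2)..(4 * ρ), s * g s := by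
    rw [← intervalIntegral.integral_const_mul]
    apply intervalIntegral.integral_mono_on (by linarith) (rc_ii hg 2 _ _)
      ((rc_ii1 hg _ _).const_mul _)
    intro s hs
    have h1 := hg.pos s
    have h0 : 0 ≤ s := le_trans (by positivity) hs.1
    have h3 : 0 ≤ s * g s := mul_nonneg h0 h1.le
    have h4 := hs.2
    nlinarith
  have h2 := rc_PP_sub hg (ρ / 2) (4 * ρ)
  have h3 := PP_pos hg (r := 4 * ρ) (by positivity)
  have h4 := PP_le_aa hg (r := ρ / 2) (by positivity)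
  have h5 : ∫ s in (ρ / 2)..(4 * ρ), s * g s ≤ aa g (ρ / 2) := by linarith
  have h6 : 4 * ρ * ∫ s in (ρ / 2)..(4 * ρ), s * g s ≤ 4 * ρ * aa g (ρ / 2) :=
    mul_le_mul_of_nonneg_left h5 (by positivity)
  linarith

end Pool.Agent.LandauR
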