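import Pool.Agent.LandauR.RRad

/-!
# LandauR, module RInt: integrability of profiles

For a radial density `g` of the class `Clw` the function `s u(s)` is integrable on `(0, ∞)`
(`u = prof g`), with `∫_0^∞ s u ≤ 1 + Kw g`, and the energy of `g` is finite if `s⁴ u` is integrable.

Proof.  `integrable_fun_norm_addHaar` / `integral_fun_norm_addHaar` (dimension `3`,
`finrank_euclideanSpace`, volume of the unit ball of `V` is `4 π / 3`:
`EuclideanSpace.volume_ball_fin_three`) with `g v = u(‖v‖)` (`Rad.eq_prof`):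
`g / ang` integrable means `s² u(s) / √(1 + s²)` integrable on `Ioi 0`, and
`Kw g = 4 π ∫_0^∞ s² u / √(1 + s²)`.  On `(0, 1]`: `s u ≤ 1`, on `(1, ∞)`:
`s u ≤ √2 s² u / √(1 + s²)` and `√2 ≤ 4 π`.  The same with `‖v‖² g v`.
-/

set_option autoImplicit false

namespace Pool.Agent.LandauR

open MeasureTheory Set Filter Topology Pool.Agent.Landau

/-- the profile divided by the weight -/
noncomputable def rintF (g : V → ℝ) (s : ℝ) : ℝ := prof g s / Real.sqrt (1 + s ^ 2)

theorem rint_dim3 : Module.finrank ℝ V = 3 := finrank_euclideanSpace_fin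

theorem rint_dim : Module.finrank ℝ V - 1 = 2 := by
  rw [rint_dim3]

theorem rint_eq (g : V → ℝ) (hR : Rad g) : (fun v => g v / ang v) = fun v => rintF g ‖v‖ := by
  funext v
  unfold rintF ang
  rw [hR.eq_prof v]

theorem rint_int (g : V → ℝ) (hg : Clw g) (hR : Rad g) :
    IntegrableOn (fun s => s ^ 2 * rintF g s) (Ioi (0 : ℝ)) := by
  have h := hg.int
  rw [rint_eq g hR] at h
  have h2 := (integrable_fun_norm_addHaar (volume : Measure V) (f := rintF g)).1 h
  rw [rint_dim] at h2
  simpa only [smul_eq_mul] using h2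

theorem rint_Kw (g : V → ℝ) (hR : Rad g) :
    Kw g = 4 * Real.pi * ∫ s in Ioi (0 : ℝ), s ^ 2 * rintF g s := by
  unfold Kw
  rw [rint_eq g hR, integral_fun_norm_addHaar (volume : Measure V) (rintF g), rint_dim, rint_dim3]
  have hv : (volume : Measure V).real (Metric.ball 0 1) = Real.pi * 4 / 3 := by
    rw [Measure.real, show (Metric.ball (0 : V) 1) = Metric.ball (0 : EuclideanSpace ℝ (Fin 3)) 1
      from rfl, EuclideanSpace.volume_ball_fin_three]
    simp
    positivity
  rw [hv]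
  simp only [smul_eq_mul, nsmul_eq_mul]
  push_cast
  ring

theorem rint_le {g : V → ℝ} (hg : Clw g) {s : ℝ} (hs : 1 ≤ s) :
    s * prof g s ≤ 2 * (s ^ 2 * rintF g s) := by
  unfold rintF
  have h0 : 0 < Real.sqrt (1 + s ^ 2) := Real.sqrt_pos.2 (by positivity)
  have h1 : Real.sqrt (1 + s ^ 2) ≤ 2 * s := by
    rw [Real.sqrt_le_left (by linarith)]
    nlinarith
  have h2 := prof_nonneg hg s
  have h3 : s * prof g s = s * (prof g s / Real.sqrt (1 + s ^ 2)) * Real.sqrt (1 + s ^ 2) := by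
    field_simp
  have h4 : 0 ≤ s * (prof g s / Real.sqrt (1 + s ^ 2)) := by positivity
  calc s * prof g s = s * (prof g s / Real.sqrt (1 + s ^ 2)) * Real.sqrt (1 + s ^ 2) := h3
    _ ≤ s * (prof g s / Real.sqrt (1 + s ^ 2)) * (2 * s) := mul_le_mul_of_nonneg_left h1 h4
    _ = _ := by ring

theorem rint_cont {g : V → ℝ} (hg : Clw g) : Continuous (fun s => s * prof g s) :=
  continuous_id.mul (prof_smooth hg.smooth).continuous

theorem rint_near {g : V → ℝ} (hg : Clw g) :
    IntegrableOn (fun s => s * prof g s) (Ioc (0 : ℝ) 1) :=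
  ((rint_cont hg).continuousOn.integrableOn_compact isCompact_Icc).mono_set Ioc_subset_Icc_self

theorem rint_far {g : V → ℝ} (hg : Clw g) (hR : Rad g) :
    IntegrableOn (fun s => s * prof g s) (Ioi (1 : ℝ)) := by
  have h1 : IntegrableOn (fun s => 2 * (s ^ 2 * rintF g s)) (Ioi (1 : ℝ)) :=
    ((rint_int g hg hR).mono_set (Ioi_subset_Ioi zero_le_one)).const_mul 2
  refine h1.mono' (rint_cont hg).aestronglyMeasurable ?_
  refine (ae_restrict_mem measurableSet_Ioi).mono fun s hs => ?_
  have hs1 : (1 : ℝ) < s := hs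
  rw [Real.norm_of_nonneg (mul_nonneg (by linarith) (prof_nonneg hg s))]
  exact rint_le hg hs1.le

theorem int_prof (g : V → ℝ) (hg : Clw g) (hR : Rad g) :
    IntegrableOn (fun s => s * prof g s) (Ioi (0 : ℝ)) := by
  rw [← Ioc_union_Ioi_eq_Ioi (zero_le_one : (0 : ℝ) ≤ 1)]
  exact (rint_near hg).union (rint_far hg hR)

theorem int_prof_le (g : V → ℝ) (hg : Clw g) (hR : Rad g) :
    ∫ s in Ioi (0 : ℝ), s * prof g s ≤ 1 + Kw g := by
  rw [← Ioc_union_Ioi_eq_Ioi (zero_le_one : (0 : ℝ) ≤ 1),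
    setIntegral_union (Ioc_disjoint_Ioi le_rfl) measurableSet_Ioi (rint_near hg) (rint_far hg hR)]
  have h1 : ∫ s in Ioc (0 : ℝ) 1, s * prof g s ≤ 1 := by
    calc ∫ s in Ioc (0 : ℝ) 1, s * prof g s ≤ ∫ s in Ioc (0 : ℝ) 1, (1 : ℝ) := by
          refine setIntegral_mono_on (rint_near hg) (integrableOn_const (by simp)) measurableSet_Ioc ?_
          intro s hs
          have h2 := prof_le_one hg s
          have h3 := prof_nonneg hg s
          have h4 : 0 < s := hs.1
          have h5 : s ≤ 1 := hs.2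
          nlinarith
      _ = 1 := by simp
  have hint := rint_int g hg hR
  have hnn : ∀ s : ℝ, 0 ≤ s ^ 2 * rintF g s := fun s =>
    mul_nonneg (sq_nonneg s) (div_nonneg (prof_nonneg hg s) (Real.sqrt_nonneg _))
  have h2 : ∫ s in Ioi (1 : ℝ), s * prof g s ≤ 2 * ∫ s in Ioi (0 : ℝ), s ^ 2 * rintF g s := by
    calc ∫ s in Ioi (1 : ℝ), s * prof g s ≤ ∫ s in Ioi (1 : ℝ), 2 * (s ^ 2 * rintF g s) := by
          refine setIntegral_mono_on (rint_far hg hR)
            ((hint.mono_set (Ioi_subset_Ioi zero_le_one)).const_mul 2) measurableSet_Ioi ?_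
          intro s hs
          exact rint_le hg (le_of_lt hs)
      _ = 2 * ∫ s in Ioi (1 : ℝ), s ^ 2 * rintF g s := integral_const_mul _ _
      _ ≤ 2 * ∫ s in Ioi (0 : ℝ), s ^ 2 * rintF g s := by
          refine mul_le_mul_of_nonneg_left ?_ (by norm_num)
          exact setIntegral_mono_set hint (Eventually.of_forall hnn)
            (Ioi_subset_Ioi zero_le_one).eventuallyLE
  have h3 : 0 ≤ ∫ s in Ioi (0 : ℝ), s ^ 2 * rintF g s :=
    integral_nonneg hnn
  rw [rint_Kw g hR]
  have h4 := Real.pi_gt_three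
  nlinarith

theorem energy_of_prof (g : V → ℝ) (hR : Rad g)
    (hi : IntegrableOn (fun s => s ^ 4 * prof g s) (Ioi (0 : ℝ))) :
    Integrable (fun v => ‖v‖ ^ 2 * g v) := by
  have h1 : (fun v : V => ‖v‖ ^ 2 * g v) = fun v => (fun s => s ^ 2 * prof g s) ‖v‖ := by
    funext v
    simp only
    rw [hR.eq_prof v]
  rw [h1]
  refine (integrable_fun_norm_addHaar (volume : Measure V) (f := fun s => s ^ 2 * prof g s)).2 ?_
  rw [rint_dim]
  simp only [smul_eq_mul]
  refine hi.congr_fun (fun s _ => ?_) measurableSet_Ioi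
  simp only
  ring

end Pool.Agent.LandauR
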