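import Mathlib

/-!
# LandauR, module RNewt: the two angular integrals

For `r, s > 0`, `r ≠ s` and `D(z) = r² + s² - 2 r z` (`D ≥ (r - s)² > 0` for `|z| ≤ s`):
`∫_{-s}^s D^(-1/2) dz = 2 s / max r s` and `∫_{-s}^s (s² - z²) D^(-3/2) dz = (4/3) s³ / (max r s)³`.

Proof.  Convert to interval integrals (`intervalIntegral.integral_of_le`,
`integral_Ioc_eq_integral_Ioo`) and use `intervalIntegral.integral_eq_sub_of_hasDerivAt` with the
antiderivatives (on `[-s, s]`, where `D > 0`, `q = √D`, `q' = -r / q`)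
* `F₁(z) = - √D / r`, and `D(±s) = (r ∓ s)²`, so the integral is `((r + s) - |r - s|) / r`, which is
  `2 s / r` for `s < r` and `2` for `r < s`;
* `F₂(z) = (s² - z²) / (r √D) - (r² + s²) √D / r³ + (√D)³ / (3 r³)`:
  `F₂' = (s² - z²) / (√D)³ - 2 z / (r √D) + (r² + s²) / (r² √D) - √D / r²` and
  `-2 r z + r² + s² = D`, so the last three terms cancel.  Value: with `m = |r - s|`, `M = r + s`,
  `[-(r² + s²) m + m³ / 3 + (r² + s²) M - M³ / 3] / r³`, equal to `(4/3) s³ / r³` if `s < r`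
  and to `4/3` if `r < s`.
-/

set_option autoImplicit false

namespace Pool.Agent.LandauR

open MeasureTheory Set Filter Topology

theorem RNewt_D_pos {r s z : ℝ} (hr : 0 < r) (hne : r ≠ s) (hz : z ≤ s) :
    0 < r ^ 2 + s ^ 2 - 2 * r * z := by
  have h1 : 0 < (r - s) ^ 2 := by
    have : r - s ≠ 0 := sub_ne_zero.2 hne
    positivity
  nlinarith

theorem RNewt_Ioo (f : ℝ → ℝ) {s : ℝ} (hs : 0 < s) :
    ∫ z in Ioo (-s) s, f z = ∫ z in (-s)..s, f z := by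
  rw [intervalIntegral.integral_of_le (by linarith), integral_Ioc_eq_integral_Ioo]

theorem RNewt_deriv {r s z : ℝ} (hD : 0 < r ^ 2 + s ^ 2 - 2 * r * z) :
    HasDerivAt (fun z : ℝ => Real.sqrt (r ^ 2 + s ^ 2 - 2 * r * z))
      (- r / Real.sqrt (r ^ 2 + s ^ 2 - 2 * r * z)) z := by
  have h1 : HasDerivAt (fun z : ℝ => r ^ 2 + s ^ 2 - 2 * r * z) (-(2 * r)) z := by
    have h2 : HasDerivAt (fun z : ℝ => 2 * r * z) (2 * r) z := by
      simpa using (hasDerivAt_id z).const_mul (2 * r)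
    exact h2.const_sub (r ^ 2 + s ^ 2)
  have h3 := h1.sqrt hD.ne'
  have h4 : 0 < Real.sqrt (r ^ 2 + s ^ 2 - 2 * r * z) := Real.sqrt_pos.2 hD
  convert h3 using 1
  field_simp

theorem RNewt_cont {r s : ℝ} : Continuous (fun z : ℝ => Real.sqrt (r ^ 2 + s ^ 2 - 2 * r * z)) := by
  fun_prop

theorem RNewt_at_s {r s : ℝ} : Real.sqrt (r ^ 2 + s ^ 2 - 2 * r * s) = |r - s| := by
  rw [show r ^ 2 + s ^ 2 - 2 * r * s = (r - s) ^ 2 by ring, Real.sqrt_sq_eq_abs]

theorem RNewt_at_neg {r s : ℝ} (hr : 0 < r) (hs : 0 < s) :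
    Real.sqrt (r ^ 2 + s ^ 2 - 2 * r * (-s)) = r + s := by
  rw [show r ^ 2 + s ^ 2 - 2 * r * (-s) = (r + s) ^ 2 by ring, Real.sqrt_sq (by linarith)]

theorem newt_pot (r s : ℝ) (hr : 0 < r) (hs : 0 < s) (hne : r ≠ s) :
    ∫ z in Ioo (-s) s, (Real.sqrt (r ^ 2 + s ^ 2 - 2 * r * z))⁻¹ = 2 * s / max r s := by
  rw [RNewt_Ioo _ hs]
  have hu : uIcc (-s) s = Icc (-s) s := uIcc_of_le (by linarith)
  have hpos : ∀ z ∈ uIcc (-s) s, 0 < Real.sqrt (r ^ 2 + s ^ 2 - 2 * r * z) := by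
    intro z hz
    rw [hu] at hz
    exact Real.sqrt_pos.2 (RNewt_D_pos hr hne hz.2)
  have hder : ∀ z ∈ uIcc (-s) s, HasDerivAt (fun z : ℝ => - Real.sqrt (r ^ 2 + s ^ 2 - 2 * r * z) / r)
      ((Real.sqrt (r ^ 2 + s ^ 2 - 2 * r * z))⁻¹) z := by
    intro z hz
    have h1 := hpos z hz
    rw [hu] at hz
    have h2 := ((RNewt_deriv (RNewt_D_pos hr hne hz.2)).neg).div_const r
    exact h2.congr_deriv (by field_simp)
  have hint : IntervalIntegrable (fun z : ℝ => (Real.sqrt (r ^ 2 + s ^ 2 - 2 * r * z))⁻¹) volume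
      (-s) s := by
    apply ContinuousOn.intervalIntegrable
    exact (RNewt_cont.continuousOn).inv₀ fun z hz => (hpos z hz).ne'
  rw [intervalIntegral.integral_eq_sub_of_hasDerivAt hder hint]
  simp only [RNewt_at_s, RNewt_at_neg hr hs]
  rcases lt_or_gt_of_ne hne with h | h
  · rw [max_eq_right h.le, abs_of_neg (by linarith)]
    field_simp
    ring
  · rw [max_eq_left h.le, abs_of_pos (by linarith)]
    field_simp
    ring

theorem newt_quad (r s : ℝ) (hr : 0 < r) (hs : 0 < s) (hne : r ≠ s) :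
    ∫ z in Ioo (-s) s, (s ^ 2 - z ^ 2) / Real.sqrt (r ^ 2 + s ^ 2 - 2 * r * z) ^ 3 =
      4 / 3 * s ^ 3 / max r s ^ 3 := by
  rw [RNewt_Ioo _ hs]
  have hu : uIcc (-s) s = Icc (-s) s := uIcc_of_le (by linarith)
  have hpos : ∀ z ∈ uIcc (-s) s, 0 < Real.sqrt (r ^ 2 + s ^ 2 - 2 * r * z) := by
    intro z hz
    rw [hu] at hz
    exact Real.sqrt_pos.2 (RNewt_D_pos hr hne hz.2)
  have hder : ∀ z ∈ uIcc (-s) s, HasDerivAt (fun z : ℝ =>
      (s ^ 2 - z ^ 2) / (r * Real.sqrt (r ^ 2 + s ^ 2 - 2 * r * z)) -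
        (r ^ 2 + s ^ 2) * Real.sqrt (r ^ 2 + s ^ 2 - 2 * r * z) / r ^ 3 +
        Real.sqrt (r ^ 2 + s ^ 2 - 2 * r * z) ^ 3 / (3 * r ^ 3))
      ((s ^ 2 - z ^ 2) / Real.sqrt (r ^ 2 + s ^ 2 - 2 * r * z) ^ 3) z := by
    intro z hz
    have h1 := hpos z hz
    rw [hu] at hz
    have hD := RNewt_D_pos hr hne hz.2
    have hq := RNewt_deriv hD
    have hq2 : Real.sqrt (r ^ 2 + s ^ 2 - 2 * r * z) ^ 2 = r ^ 2 + s ^ 2 - 2 * r * z :=
      Real.sq_sqrt hD.le
    have hn : HasDerivAt (fun z : ℝ => s ^ 2 - z ^ 2) (-(2 * z)) z := by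
      have := (hasDerivAt_pow 2 z).const_sub (s ^ 2)
      simpa using this
    have h2 := ((hn.div (hq.const_mul r) (by positivity)).sub
      ((hq.const_mul (r ^ 2 + s ^ 2)).div_const (r ^ 3))).add ((hq.pow 3).div_const (3 * r ^ 3))
    refine h2.congr_deriv ?_
    set q := Real.sqrt (r ^ 2 + s ^ 2 - 2 * r * z) with hqdef
    have hz2 : z = (r ^ 2 + s ^ 2 - q ^ 2) / (2 * r) := by
      rw [hq2]
      field_simp
      ring
    have h0 : q ≠ 0 := h1.ne'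
    have hr0 : r ≠ 0 := hr.ne'
    rw [hz2]
    field_simp
    ring
  have hint : IntervalIntegrable (fun z : ℝ =>
      (s ^ 2 - z ^ 2) / Real.sqrt (r ^ 2 + s ^ 2 - 2 * r * z) ^ 3) volume (-s) s := by
    apply ContinuousOn.intervalIntegrable
    refine ContinuousOn.div (by fun_prop) ((RNewt_cont.pow 3).continuousOn) fun z hz => ?_
    exact (pow_pos (hpos z hz) 3).ne'
  rw [intervalIntegral.integral_eq_sub_of_hasDerivAt hder hint]
  simp only [RNewt_at_s, RNewt_at_neg hr hs]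
  have e1 : s ^ 2 - (-s) ^ 2 = 0 := by ring
  rw [e1, sub_self, zero_div, zero_div]
  rcases lt_or_gt_of_ne hne with h | h
  · rw [max_eq_right h.le, abs_of_neg (by linarith)]
    field_simp
    ring
  · rw [max_eq_left h.le, abs_of_pos (by linarith)]
    field_simp
    ring

end Pool.Agent.LandauR
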