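import Pool.Agent.LandauR.RCylI
import Pool.Agent.LandauR.RNewt
import Pool.Agent.LandauR.RInt

/-!
# LandauR, module RCoef: the coefficients of the radial equation

For a radial density `g ∈ Clw` with profile `u` and `r > 0`:
`abar g 0 0 (r e₀) = (K(r) / r³ + P(r)) / 3` and `∑ᵢ abar g i i (r e₀) = N(r) / r + P(r)`.

Proof.  With `v = r e₀`, `w ∈ V`, `s = ‖w‖`, `z = w 0`: `‖v - w‖² = r² + s² - 2 r z = D` (expand the
norm of the difference; `EuclideanSpace.norm_eq`, `Fin.sum_univ_three`), and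
`aK 0 0 (v - w) = (1/8π) (D^(-1/2) - (r - z)² D^(-3/2)) = (1/8π) (s² - z²) D^(-3/2)` as
`D - (r - z)² = s² - z²` (also true at `D = 0`, where both sides are `0` by convention: then
`s = z = r`), `∑ᵢ aK i i (v - w) = (1/4π) D^(-1/2)`.
Integrability of `aK i j (v - w) g w`: `|aK| ≤ 1/(4 π ‖v - w‖)` (see `Landau/KBd.lean`) and `pot_int`
in `LandauG/WPot.lean`.  `int_cyl` with `Φ s z = (1/8π) (s² - z²) / √D³ · u(s)` (resp.
`(1/4π) (√D)⁻¹ u(s)`; `u` is continuous) and `newt_quad`, `newt_pot` (valid for every `s ≠ r`,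
hence for almost every `s`):
`abar g 0 0 (r e₀) = ∫_0^∞ 2 π s (1/8π) (4/3) s³ / (max r s)³ u(s) ds
 = (1/3) ∫_0^∞ s⁴ / (max r s)³ u(s) ds`, split at `r`
(`setIntegral_union` of `Ioc 0 r` and `Ioi r`; on `Ioi r` the integrand is `s u(s)`, integrable by
`int_prof`; on `Ioc 0 r` it is `s⁴ u(s) / r³`).  The same for the trace: `∫_0^∞ s² / (max r s) u(s) ds`.
-/

set_option autoImplicit false

namespace Pool.Agent.LandauR

open MeasureTheory Set Filter Topology Pool.Agent.Landau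

/-- the squared distance from the axis point `r e₀` -/
theorem dist_sq (r : ℝ) (w : V) : ‖r • e0 - w‖ ^ 2 = r ^ 2 + ‖w‖ ^ 2 - 2 * r * w 0 := by
  rw [nsq, nsq]
  have h0 : (r • e0 - w) 0 = r - w 0 := by
    simp [e0_coord]
  have h1 : (r • e0 - w) 1 = - w 1 := by
    simp [e0_coord]
  have h2 : (r • e0 - w) 2 = - w 2 := by
    simp [e0_coord]
  rw [h0, h1, h2]
  ring

theorem dist_eq (r : ℝ) (w : V) :
    ‖r • e0 - w‖ = Real.sqrt (r ^ 2 + ‖w‖ ^ 2 - 2 * r * w 0) := by
  rw [← dist_sq, Real.sqrt_sq (norm_nonneg _)]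

theorem aK_axis (r : ℝ) (w : V) : aK 0 0 (r • e0 - w) =
    (1 / (8 * Real.pi)) *
      ((‖w‖ ^ 2 - w 0 ^ 2) / Real.sqrt (r ^ 2 + ‖w‖ ^ 2 - 2 * r * w 0) ^ 3) := by
  rw [← dist_eq]
  by_cases hz : r • e0 - w = 0
  · rw [hz]
    simp [aK]
  have hr : 0 < ‖r • e0 - w‖ := norm_pos_iff.2 hz
  have h0 : (r • e0 - w) 0 = r - w 0 := by
    simp [e0_coord]
  have hd := dist_sq r w
  unfold aK
  rw [if_pos rfl, h0]
  congr 1
  rw [div_sub_div _ _ hr.ne' (pow_pos hr 3).ne', div_eq_div_iff (by positivity) (by positivity)]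
  have e1 : ‖w‖ ^ 2 - w 0 ^ 2 = ‖r • e0 - w‖ ^ 2 - (r - w 0) ^ 2 := by
    rw [hd]
    ring
  rw [e1]
  ring

theorem tr_axis (r : ℝ) (w : V) : ∑ i : Fin 3, aK i i (r • e0 - w) =
    (1 / (4 * Real.pi)) * (Real.sqrt (r ^ 2 + ‖w‖ ^ 2 - 2 * r * w 0))⁻¹ := by
  rw [← dist_eq]
  generalize r • e0 - w = z
  by_cases hz : z = 0
  · subst hz
    simp [aK]
  have hr : 0 < ‖z‖ := norm_pos_iff.2 hz
  have hpi := Real.pi_pos
  have h1 : ∀ i, aK i i z = (1 / (8 * Real.pi)) * ((‖z‖ ^ 2 - z i ^ 2) / ‖z‖ ^ 3) := by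
    intro i
    unfold aK
    rw [if_pos rfl]
    field_simp
  have h2 : ‖z‖⁻¹ = ‖z‖ ^ 2 / ‖z‖ ^ 3 := by
    field_simp
  simp only [h1]
  rw [h2]
  simp only [Fin.sum_univ_three]
  simp only [nsq z]
  ring

theorem int_aK (g : V → ℝ) (hg : Clw g) (i j : Fin 3) (v : V) :
    Integrable (fun w => aK i j (v - w) * g w) := by
  refine (pot_int g hg v).mono' ?_ (Eventually.of_forall fun w => ?_)
  · exact (((aK_measurable i j).comp (measurable_const.sub measurable_id)).mul
      hg.cont.measurable).aestronglyMeasurable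
  · rw [Real.norm_eq_abs, abs_mul, abs_of_nonneg (hg.nonneg w), div_eq_mul_inv, mul_comm (g w)]
    refine mul_le_mul_of_nonneg_right ?_ (hg.nonneg w)
    have := aK_abs i j (v - w)
    rwa [one_div] at this

/-- splitting an integral over `(0, ∞)` at `r` -/
theorem split_int (u : ℝ → ℝ) (hi : IntegrableOn (fun s => s * u s) (Ioi (0 : ℝ))) (r : ℝ)
    (hr : 0 < r) (c : ℝ) (F A : ℝ → ℝ) (hA : Continuous A) (h1 : ∀ s ∈ Ioc (0 : ℝ) r, F s = A s)
    (h2 : ∀ s ∈ Ioi r, F s = c * (s * u s)) :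
    ∫ s in Ioi (0 : ℝ), F s = (∫ s in (0 : ℝ)..r, A s) + c * ∫ s in Ioi r, s * u s := by
  have hi2 : IntegrableOn (fun s => s * u s) (Ioi r) := hi.mono_set (Ioi_subset_Ioi hr.le)
  have hi3 : IntegrableOn (fun s => c * (s * u s)) (Ioi r) := hi2.const_mul c
  have hi4 : IntegrableOn F (Ioi r) :=
    hi3.congr_fun (fun s hs => (h2 s hs).symm) measurableSet_Ioi
  have hi5 : IntegrableOn F (Ioc 0 r) :=
    (hA.integrableOn_Ioc).congr_fun (fun s hs => (h1 s hs).symm) measurableSet_Ioc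
  rw [← Ioc_union_Ioi_eq_Ioi hr.le, setIntegral_union (Ioc_disjoint_Ioi le_rfl) measurableSet_Ioi
    hi5 hi4, setIntegral_congr_fun measurableSet_Ioc h1, setIntegral_congr_fun measurableSet_Ioi h2,
    integral_const_mul, intervalIntegral.integral_of_le hr.le]

theorem abar_00 (g : V → ℝ) (hg : Clw g) (hR : Rad g) (r : ℝ) (hr : 0 < r) :
    abar g 0 0 (r • e0) = (qK (prof g) r / r ^ 3 + qP (prof g) r) / 3 := by
  have hu : Continuous (prof g) := (prof_smooth hg.smooth).continuous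
  have hpi := Real.pi_pos
  set Φ : ℝ → ℝ → ℝ := fun s z => (1 / (8 * Real.pi)) *
      ((s ^ 2 - z ^ 2) / Real.sqrt (r ^ 2 + s ^ 2 - 2 * r * z) ^ 3) * prof g s with hΦ
  have e1 : (fun w : V => aK 0 0 (r • e0 - w) * g w) = fun w => Φ ‖w‖ (w 0) := by
    funext w
    rw [aK_axis, hR.eq_prof w]
  have hm : Measurable (Function.uncurry Φ) := by
    have h1 : Measurable fun p : ℝ × ℝ => prof g p.1 := hu.measurable.comp measurable_fst
    have h2 : Measurable fun p : ℝ × ℝ => p.1 ^ 2 - p.2 ^ 2 := by fun_prop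
    have h3 : Measurable fun p : ℝ × ℝ => Real.sqrt (r ^ 2 + p.1 ^ 2 - 2 * r * p.2) ^ 3 := by
      fun_prop
    exact (((h2.div h3).const_mul _).mul h1)
  have hi : Integrable (fun w : V => Φ ‖w‖ (w 0)) := by
    rw [← e1]
    exact int_aK g hg 0 0 _
  unfold abar
  rw [e1, int_cyl Φ hm hi]
  have e2 : ∫ s in Ioi (0 : ℝ), 2 * Real.pi * s * ∫ z in Ioo (-s) s, Φ s z =
      ∫ s in Ioi (0 : ℝ), (1 / 3) * (s ^ 4 / max r s ^ 3 * prof g s) := by
    refine setIntegral_congr_ae measurableSet_Ioi ?_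
    filter_upwards [compl_mem_ae_iff.2 (measure_singleton (μ := (volume : Measure ℝ)) r)]
      with s hs hs0
    have hs0' : 0 < s := hs0
    have hne : r ≠ s := fun h => hs (by rw [h]; rfl)
    have e3 : ∫ z in Ioo (-s) s, Φ s z =
        (1 / (8 * Real.pi)) * (4 / 3 * s ^ 3 / max r s ^ 3) * prof g s := by
      rw [hΦ]
      simp only []
      rw [integral_mul_const, integral_const_mul, newt_quad r s hr hs0' hne]
    rw [e3]
    field_simp
    ring
  rw [e2, split_int (prof g) (int_prof g hg hR) r hr (1 / 3) _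
    (fun s => (1 / 3) * (s ^ 4 * prof g s) / r ^ 3) (by fun_prop) ?_ ?_]
  · have e4 : ∫ s in (0 : ℝ)..r, (1 / 3) * (s ^ 4 * prof g s) / r ^ 3 =
        (1 / 3) * qK (prof g) r / r ^ 3 := by
      rw [intervalIntegral.integral_div, intervalIntegral.integral_const_mul]
      rfl
    rw [e4]
    unfold qP
    ring
  · intro s hs
    have : max r s = r := max_eq_left hs.2
    rw [this]
    ring
  · intro s hs
    have hs' : r < s := hs
    have hs0 : 0 < s := hr.trans hs'
    have : max r s = s := max_eq_right hs'.le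
    rw [this]
    field_simp

theorem abar_tr (g : V → ℝ) (hg : Clw g) (hR : Rad g) (r : ℝ) (hr : 0 < r) :
    ∑ i : Fin 3, abar g i i (r • e0) = qN (prof g) r / r + qP (prof g) r := by
  have hu : Continuous (prof g) := (prof_smooth hg.smooth).continuous
  have hpi := Real.pi_pos
  set Φ : ℝ → ℝ → ℝ := fun s z => (1 / (4 * Real.pi)) *
      (Real.sqrt (r ^ 2 + s ^ 2 - 2 * r * z))⁻¹ * prof g s with hΦ
  have e1 : (fun w : V => (∑ i : Fin 3, aK i i (r • e0 - w)) * g w) = fun w => Φ ‖w‖ (w 0) := by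
    funext w
    rw [tr_axis, hR.eq_prof w]
  have e0' : ∑ i : Fin 3, abar g i i (r • e0) =
      ∫ w, (∑ i : Fin 3, aK i i (r • e0 - w)) * g w := by
    unfold abar
    rw [← integral_finset_sum _ fun i _ => int_aK g hg i i _]
    refine integral_congr_ae (Eventually.of_forall fun w => ?_)
    simp only [Finset.sum_mul]
  have hm : Measurable (Function.uncurry Φ) := by
    have h1 : Measurable fun p : ℝ × ℝ => prof g p.1 := hu.measurable.comp measurable_fst
    have h3 : Measurable fun p : ℝ × ℝ => (Real.sqrt (r ^ 2 + p.1 ^ 2 - 2 * r * p.2))⁻¹ := by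
      fun_prop
    exact ((h3.const_mul _).mul h1)
  have hi : Integrable (fun w : V => Φ ‖w‖ (w 0)) := by
    rw [← e1]
    have : (fun w : V => (∑ i : Fin 3, aK i i (r • e0 - w)) * g w) =
        fun w => ∑ i : Fin 3, aK i i (r • e0 - w) * g w := by
      funext w
      rw [Finset.sum_mul]
    rw [this]
    exact integrable_finset_sum _ fun i _ => int_aK g hg i i _
  rw [e0', e1, int_cyl Φ hm hi]
  have e2 : ∫ s in Ioi (0 : ℝ), 2 * Real.pi * s * ∫ z in Ioo (-s) s, Φ s z =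
      ∫ s in Ioi (0 : ℝ), s ^ 2 / max r s * prof g s := by
    refine setIntegral_congr_ae measurableSet_Ioi ?_
    filter_upwards [compl_mem_ae_iff.2 (measure_singleton (μ := (volume : Measure ℝ)) r)]
      with s hs hs0
    have hs0' : 0 < s := hs0
    have hne : r ≠ s := fun h => hs (by rw [h]; rfl)
    have e3 : ∫ z in Ioo (-s) s, Φ s z =
        (1 / (4 * Real.pi)) * (2 * s / max r s) * prof g s := by
      rw [hΦ]
      simp only []
      rw [integral_mul_const, integral_const_mul, newt_pot r s hr hs0' hne]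
    rw [e3]
    field_simp
    ring
  rw [e2, split_int (prof g) (int_prof g hg hR) r hr 1 _
    (fun s => (s ^ 2 * prof g s) / r) (by fun_prop) ?_ ?_]
  · have e4 : ∫ s in (0 : ℝ)..r, (s ^ 2 * prof g s) / r = qN (prof g) r / r := by
      rw [intervalIntegral.integral_div]
      rfl
    rw [e4]
    unfold qP
    ring
  · intro s hs
    have : max r s = r := max_eq_left hs.2
    rw [this]
    ring
  · intro s hs
    have hs' : r < s := hs
    have hs0 : 0 < s := hr.trans hs'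
    have : max r s = s := max_eq_right hs'.le
    rw [this]
    field_simp

end Pool.Agent.LandauR
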