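import Pool.Agent.LandauR.RCut

/-!
# LandauR, module RTst: the three families of test functions

`Phi x = dn x + up x / x`: equal to `1` for `x ≤ 1` and to `1 / x` for `x ≥ 2`; for `x > 0` it lies between
`min 1 (1/x)` and `2 min 1 (1/x)`.

`phiY R n r = Phi (r/R) / R * dn (r/n)`, `phiP R n r = up (r/R) * dn (r/n) / r`,
`phiE R n r = up (r/R) * dn (r/n) * r²`.  They are constant for `r ≤ R` (for the first one this uses
`R ≤ n`) and zero for `r ≥ 2 n`; the derivatives are computed with the product rule: a derivative of a cutoff at scale `R` (or `n`) gives a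
factor `C / R ≤ 2 C / r` on `[R, 2R]` (`C / n ≤ 2 C / r` on `[n, 2n]`).  The constant `B` depends only on
the bounds `up_bd`.
-/

set_option autoImplicit false

namespace Pool.Agent.LandauR

open MeasureTheory Set Filter Topology

noncomputable def Phi (x : ℝ) : ℝ := dn x + up x / x

noncomputable def phiY (R n r : ℝ) : ℝ := Phi (r / R) / R * dn (r / n)

noncomputable def phiP (R n r : ℝ) : ℝ := up (r / R) * dn (r / n) / r

noncomputable def phiE (R n r : ℝ) : ℝ := up (r / R) * dn (r / n) * r ^ 2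

theorem Phi_low {x : ℝ} (hx : 0 < x) : min 1 (1 / x) ≤ Phi x := by
  have h0 := up_nonneg x
  have h1 := up_le_one x
  have h2 := min_le_left 1 (1 / x)
  have h3 := min_le_right 1 (1 / x)
  have h4 : Phi x = (1 - up x) * 1 + up x * (1 / x) := by
    unfold Phi dn
    ring
  rw [h4]
  have h5 := mul_le_mul_of_nonneg_left h2 (by linarith : 0 ≤ 1 - up x)
  have h6 := mul_le_mul_of_nonneg_left h3 h0
  linarith

theorem Phi_up {x : ℝ} (hx : 0 < x) : Phi x ≤ 2 * min 1 (1 / x) := by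
  have h0 := up_nonneg x
  have h1 := up_le_one x
  have h4 : Phi x = (1 - up x) * 1 + up x * (1 / x) := by
    unfold Phi dn
    ring
  rcases le_total x 1 with h | h
  · have h5 : up x = 0 := up_zero h
    have h6 : 1 ≤ 1 / x := by
      rw [le_div_iff₀ hx]
      linarith
    rw [h4, h5, min_eq_left h6]
    norm_num
  · have h6 : 1 / x ≤ 1 := by
      rw [div_le_iff₀ hx]
      linarith
    rw [h4, min_eq_right h6]
    rcases le_total x 2 with h' | h'
    · have h7 : 1 ≤ 2 * (1 / x) := by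
        rw [mul_one_div, le_div_iff₀ hx]
        linarith
      have h8 := mul_le_mul_of_nonneg_left h6 h0
      linarith
    · rw [up_one h']
      have h9 : 0 < 1 / x := by positivity
      linarith

/-- symbol type bounds of order `m` -/
private def Sy (m : ℤ) (B : ℝ) (f : ℝ → ℝ) : Prop :=
  ∃ f1 f2 : ℝ → ℝ, ∀ r : ℝ, 0 < r → HasDerivAt f (f1 r) r ∧ HasDerivAt f1 (f2 r) r ∧
    |f r| ≤ B * r ^ m ∧ |f1 r| ≤ B * r ^ (m - 1) ∧ |f2 r| ≤ B * r ^ (m - 2)

private theorem Sy.mono {m : ℤ} {B B' : ℝ} {f : ℝ → ℝ} (h : Sy m B f) (hB : B ≤ B') : Sy m B' f := by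
  obtain ⟨f1, f2, h⟩ := h
  refine ⟨f1, f2, fun r hr => ?_⟩
  obtain ⟨a, b, c, d, e⟩ := h r hr
  refine ⟨a, b, c.trans ?_, d.trans ?_, e.trans ?_⟩ <;>
  exact mul_le_mul_of_nonneg_right hB (zpow_nonneg hr.le _)

private theorem Sy.add {m : ℤ} {B B' : ℝ} {f g : ℝ → ℝ} (h : Sy m B f) (h' : Sy m B' g) :
    Sy m (B + B') (fun r => f r + g r) := by
  obtain ⟨f1, f2, h⟩ := h
  obtain ⟨g1, g2, h'⟩ := h'
  refine ⟨fun r => f1 r + g1 r, fun r => f2 r + g2 r, fun r hr => ?_⟩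
  obtain ⟨a, b, c, d, e⟩ := h r hr
  obtain ⟨a', b', c', d', e'⟩ := h' r hr
  refine ⟨a.add a', b.add b', ?_, ?_, ?_⟩
  · exact (abs_add_le _ _).trans (by linarith)
  · exact (abs_add_le _ _).trans (by linarith)
  · exact (abs_add_le _ _).trans (by linarith)

private theorem Sy.mul {m m' : ℤ} {B B' : ℝ} {f g : ℝ → ℝ} (h : Sy m B f) (h' : Sy m' B' g) :
    Sy (m + m') (4 * B * B') (fun r => f r * g r) := by
  obtain ⟨f1, f2, h⟩ := h
  obtain ⟨g1, g2, h'⟩ := h'
  refine ⟨fun r => f1 r * g r + f r * g1 r,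
    fun r => (f2 r * g r + f1 r * g1 r) + (f1 r * g1 r + f r * g2 r), fun r hr => ?_⟩
  obtain ⟨a, b, c, d, e⟩ := h r hr
  obtain ⟨a', b', c', d', e'⟩ := h' r hr
  have hr0 : r ≠ 0 := hr.ne'
  have key : ∀ {x y : ℝ} {i j k : ℤ}, |x| ≤ B * r ^ i → |y| ≤ B' * r ^ j → i + j = k →
      |x * y| ≤ B * B' * r ^ k := by
    intro x y i j k hx hy hk
    rw [abs_mul, ← hk, zpow_add₀ hr0]
    calc |x| * |y| ≤ (B * r ^ i) * (B' * r ^ j) :=
          mul_le_mul hx hy (abs_nonneg _) ((abs_nonneg _).trans hx)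
      _ = B * B' * (r ^ i * r ^ j) := by ring
  have hpos : ∀ k : ℤ, 0 ≤ B * B' * r ^ k := by
    intro k
    have hB : 0 ≤ B := by
      by_contra hcon
      push Not at hcon
      have := mul_neg_of_neg_of_pos hcon (zpow_pos hr m)
      linarith [abs_nonneg (f r)]
    have hB' : 0 ≤ B' := by
      by_contra hcon
      push Not at hcon
      have := mul_neg_of_neg_of_pos hcon (zpow_pos hr m')
      linarith [abs_nonneg (g r)]
    have := zpow_pos hr k
    positivity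
  refine ⟨a.mul a', (b.mul a').add (a.mul b'), ?_, ?_, ?_⟩
  · have h1 := key c c' rfl
    have h2 := hpos (m + m')
    linarith
  · have h1 := key (k := m + m' - 1) d c' (by ring)
    have h2 := key (k := m + m' - 1) c d' (by ring)
    have h3 := hpos (m + m' - 1)
    exact (abs_add_le _ _).trans (by linarith)
  · have h1 := key (k := m + m' - 2) e c' (by ring)
    have h2 := key (k := m + m' - 2) d d' (by ring)
    have h3 := key (k := m + m' - 2) c e' (by ring)
    have h4 := abs_add_le (f2 r * g r + f1 r * g1 r) (f1 r * g1 r + f r * g2 r)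
    have h5 := abs_add_le (f2 r * g r) (f1 r * g1 r)
    have h6 := abs_add_le (f1 r * g1 r) (f r * g2 r)
    linarith

private theorem Sy.deriv1 {m : ℤ} {B : ℝ} {f : ℝ → ℝ} (h : Sy m B f) {r : ℝ} (hr : 0 < r) :
    |deriv f r| ≤ B * r ^ (m - 1) := by
  obtain ⟨f1, f2, h⟩ := h
  obtain ⟨a, b, c, d, e⟩ := h r hr
  rw [a.deriv]
  exact d

private theorem Sy.deriv2 {m : ℤ} {B : ℝ} {f : ℝ → ℝ} (h : Sy m B f) {r : ℝ} (hr : 0 < r) :
    |deriv (deriv f) r| ≤ B * r ^ (m - 2) := by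
  obtain ⟨f1, f2, h⟩ := h
  obtain ⟨a, b, c, d, e⟩ := h r hr
  have h1 : deriv f =ᶠ[𝓝 r] f1 := by
    filter_upwards [lt_mem_nhds hr] with s hs
    exact (h s hs).1.deriv
  rw [h1.deriv_eq, b.deriv]
  exact e

private theorem sy_inv : Sy (-1) 2 (fun r : ℝ => r⁻¹) := by
  refine ⟨fun r => -(r ^ 2)⁻¹, fun r => 2 * (r ^ 3)⁻¹, fun r hr => ⟨hasDerivAt_inv hr.ne', ?_, ?_, ?_, ?_⟩⟩
  · have h1 : HasDerivAt (fun r : ℝ => r ^ 2) (2 * r) r := by
      simpa using hasDerivAt_pow 2 r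
    have h2 : HasDerivAt (fun r : ℝ => -(r ^ 2)⁻¹) (-(-(2 * r) / (r ^ 2) ^ 2)) r :=
      (h1.inv (by positivity)).neg
    convert h2 using 1
    field_simp
  · rw [abs_of_pos (by positivity), zpow_neg_one]
    have : 0 < r⁻¹ := by positivity
    linarith
  · rw [abs_neg, abs_of_pos (by positivity)]
    have h3 : r ^ (-1 - 1 : ℤ) = (r ^ 2)⁻¹ := by
      rw [show (-1 - 1 : ℤ) = -(2 : ℕ) by norm_num, zpow_neg, zpow_natCast]
    rw [h3]
    have : 0 < (r ^ 2)⁻¹ := by positivity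
    linarith
  · have h3 : r ^ (-1 - 2 : ℤ) = (r ^ 3)⁻¹ := by
      rw [show (-1 - 2 : ℤ) = -(3 : ℕ) by norm_num, zpow_neg, zpow_natCast]
    rw [h3, abs_of_pos (by positivity)]

private theorem sy_sq : Sy 2 2 (fun r : ℝ => r ^ 2) := by
  refine ⟨fun r => 2 * r, fun _ => 2, fun r hr => ⟨?_, ?_, ?_, ?_, ?_⟩⟩
  · simpa using hasDerivAt_pow 2 r
  · simpa using (hasDerivAt_id r).const_mul 2
  · rw [abs_of_pos (by positivity)]
    have h3 : r ^ (2 : ℤ) = r ^ 2 := by norm_cast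
    rw [h3]
    have : 0 < r ^ 2 := by positivity
    linarith
  · rw [abs_of_pos (by positivity)]
    norm_num
  · norm_num

private theorem up_hd (x : ℝ) : HasDerivAt up (deriv up x) x :=
  (up_smooth.differentiable (by simp)).differentiableAt.hasDerivAt

private theorem up_hd2 (x : ℝ) : HasDerivAt (deriv up) (deriv (deriv up) x) x := by
  have h : ContDiff ℝ (⊤ : ℕ∞) (deriv up) := (contDiff_infty_iff_deriv.mp up_smooth).2
  exact (h.differentiable (by simp)).differentiableAt.hasDerivAt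

private theorem sc_hd {g : ℝ → ℝ} {g' R r : ℝ} (h : HasDerivAt g g' (r / R)) :
    HasDerivAt (fun r => g (r / R)) (g' / R) r := by
  have h1 : HasDerivAt (fun r : ℝ => r / R) (1 / R) r := (hasDerivAt_id r).div_const R
  have h2 := HasDerivAt.comp r h h1
  rw [mul_one_div] at h2
  exact h2

/-- scaled derivative bounds -/
private theorem bd1 {K R r : ℝ} (hR : 0 < R) (hr : 0 < r) (hK : 0 ≤ K) {g : ℝ → ℝ}
    (h0 : ∀ x, 2 ≤ x → g x = 0) (hb : ∀ x, |g x| ≤ K) (j : ℕ) :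
    |g (r / R)| / R ^ j ≤ 2 ^ j * K * (r ^ j)⁻¹ := by
  rcases le_total (2 * R) r with h | h
  · rw [h0 (r / R) (by rw [le_div_iff₀ hR]; exact h)]
    simp only [abs_zero, zero_div]
    positivity
  · have h1 : r ^ j ≤ 2 ^ j * R ^ j := by
      rw [← mul_pow]
      exact pow_le_pow_left₀ hr.le h j
    rw [div_le_iff₀ (by positivity)]
    have h2 : 1 ≤ 2 ^ j * (r ^ j)⁻¹ * R ^ j := by
      have h3 : 2 ^ j * (r ^ j)⁻¹ * R ^ j = (2 ^ j * R ^ j) / r ^ j := by
        field_simp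
      rw [h3, le_div_iff₀ (by positivity)]
      linarith
    calc |g (r / R)| ≤ K * 1 := by
          rw [mul_one]
          exact hb _
      _ ≤ K * (2 ^ j * (r ^ j)⁻¹ * R ^ j) := mul_le_mul_of_nonneg_left h2 hK
      _ = 2 ^ j * K * (r ^ j)⁻¹ * R ^ j := by ring

private theorem z1 (r : ℝ) : r ^ (0 - 1 : ℤ) = (r ^ 1)⁻¹ := by
  rw [show (0 - 1 : ℤ) = -(1 : ℕ) by norm_num, zpow_neg, zpow_natCast]

private theorem z2 (r : ℝ) : r ^ (0 - 2 : ℤ) = (r ^ 2)⁻¹ := by
  rw [show (0 - 2 : ℤ) = -(2 : ℕ) by norm_num, zpow_neg, zpow_natCast]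

private theorem z3 (r : ℝ) : r ^ (-1 - 1 : ℤ) = (r ^ 2)⁻¹ := by
  rw [show (-1 - 1 : ℤ) = -(2 : ℕ) by norm_num, zpow_neg, zpow_natCast]

private theorem z4 (r : ℝ) : r ^ (-1 - 2 : ℤ) = (r ^ 3)⁻¹ := by
  rw [show (-1 - 2 : ℤ) = -(3 : ℕ) by norm_num, zpow_neg, zpow_natCast]

private theorem z5 (r : ℝ) : r ^ (-1 : ℤ) = (r ^ 1)⁻¹ := by
  rw [show (-1 : ℤ) = -(1 : ℕ) by norm_num, zpow_neg, zpow_natCast]

private theorem sy_up {K : ℝ} (hK : 1 ≤ K)
    (hb : ∀ x, |deriv up x| ≤ K ∧ |deriv (deriv up) x| ≤ K) {R : ℝ} (hR : 0 < R) :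
    Sy 0 (4 * K) (fun r => up (r / R)) := by
  refine ⟨fun r => deriv up (r / R) / R, fun r => deriv (deriv up) (r / R) / R / R,
    fun r hr => ⟨sc_hd (up_hd _), (sc_hd (up_hd2 _)).div_const R, ?_, ?_, ?_⟩⟩
  · rw [zpow_zero, mul_one, abs_of_nonneg (up_nonneg _)]
    linarith [up_le_one (r / R)]
  · have h := bd1 hR hr (by linarith : 0 ≤ K) (fun x hx => deriv_up_zero (Or.inr hx))
      (fun x => (hb x).1) 1
    rw [z1, abs_div, abs_of_pos hR]
    have h2 : 0 < (r ^ 1)⁻¹ := by positivity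
    simp only [pow_one] at h h2 ⊢
    nlinarith
  · have h := bd1 hR hr (by linarith : 0 ≤ K) (fun x hx => deriv2_up_zero (Or.inr hx))
      (fun x => (hb x).2) 2
    beta_reduce
    rw [z2, div_div, abs_div, ← sq, abs_of_pos (by positivity : 0 < R ^ 2)]
    linarith

private theorem sy_dn {K : ℝ} (hK : 1 ≤ K)
    (hb : ∀ x, |deriv up x| ≤ K ∧ |deriv (deriv up) x| ≤ K) {R : ℝ} (hR : 0 < R) :
    Sy 0 (4 * K) (fun r => dn (r / R)) := by
  refine ⟨fun r => -(deriv up (r / R) / R), fun r => -(deriv (deriv up) (r / R) / R / R),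
    fun r hr => ⟨?_, ((sc_hd (up_hd2 _)).div_const R).neg, ?_, ?_, ?_⟩⟩
  · have h := (sc_hd (R := R) (up_hd (r / R))).const_sub 1
    exact h
  · rw [zpow_zero, mul_one]
    unfold dn
    rw [abs_of_nonneg (by linarith [up_le_one (r / R)])]
    linarith [up_nonneg (r / R)]
  · have h := bd1 hR hr (by linarith : 0 ≤ K) (fun x hx => deriv_up_zero (Or.inr hx))
      (fun x => (hb x).1) 1
    rw [z1, abs_neg, abs_div, abs_of_pos hR]
    have h2 : 0 < (r ^ 1)⁻¹ := by positivity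
    simp only [pow_one] at h h2 ⊢
    nlinarith
  · have h := bd1 hR hr (by linarith : 0 ≤ K) (fun x hx => deriv2_up_zero (Or.inr hx))
      (fun x => (hb x).2) 2
    rw [z2, abs_neg, div_div, abs_div, ← sq, abs_of_pos (by positivity : 0 < R ^ 2)]
    linarith

private theorem sy_dn' {K : ℝ} (hK : 1 ≤ K)
    (hb : ∀ x, |deriv up x| ≤ K ∧ |deriv (deriv up) x| ≤ K) {R : ℝ} (hR : 0 < R) :
    Sy (-1) (8 * K) (fun r => dn (r / R) / R) := by
  refine ⟨fun r => -(deriv up (r / R) / R) / R, fun r => -(deriv (deriv up) (r / R) / R / R) / R,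
    fun r hr => ⟨?_, ((sc_hd (up_hd2 _)).div_const R).neg.div_const R, ?_, ?_, ?_⟩⟩
  · have h := ((sc_hd (R := R) (up_hd (r / R))).const_sub 1).div_const R
    exact h
  · have h := bd1 (g := dn) hR hr (zero_le_one) (fun x hx => by unfold dn; rw [up_one hx, sub_self])
      (fun x => by
        unfold dn
        rw [abs_of_nonneg (by linarith [up_le_one x])]
        linarith [up_nonneg x]) 1
    rw [z5, abs_div, abs_of_pos hR]
    have h2 : 0 < (r ^ 1)⁻¹ := by positivity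
    simp only [pow_one] at h h2 ⊢
    nlinarith
  · have h := bd1 hR hr (by linarith : 0 ≤ K) (fun x hx => deriv_up_zero (Or.inr hx))
      (fun x => (hb x).1) 2
    beta_reduce
    rw [z3, neg_div, abs_neg, div_div, abs_div, ← sq, abs_of_pos (by positivity : 0 < R ^ 2)]
    have h2 : 0 < (r ^ 2)⁻¹ := by positivity
    nlinarith
  · have h := bd1 hR hr (by linarith : 0 ≤ K) (fun x hx => deriv2_up_zero (Or.inr hx))
      (fun x => (hb x).2) 3
    have h3 : deriv (deriv up) (r / R) / R / R / R = deriv (deriv up) (r / R) / R ^ 3 := by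
      field_simp
    beta_reduce
    rw [z4, neg_div, abs_neg, h3, abs_div, abs_of_pos (by positivity : 0 < R ^ 3)]
    linarith

private theorem dn_smooth : ContDiff ℝ (⊤ : ℕ∞) dn := contDiff_const.sub up_smooth

private theorem sc_smooth {g : ℝ → ℝ} (hg : ContDiff ℝ (⊤ : ℕ∞) g) (R : ℝ) :
    ContDiff ℝ (⊤ : ℕ∞) (fun r => g (r / R)) := hg.comp (contDiff_id.div_const R)

private theorem div_smooth {g : ℝ → ℝ} (hg : ContDiff ℝ (⊤ : ℕ∞) g) {R : ℝ} (hR : 0 < R)
    (h0 : ∀ r ≤ R, g r = 0) : ContDiff ℝ (⊤ : ℕ∞) (fun r => g r / r) := by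
  rw [contDiff_iff_contDiffAt]
  intro x
  rcases lt_or_ge x R with h | h
  · have h1 : (fun r => g r / r) =ᶠ[𝓝 x] fun _ => 0 := by
      filter_upwards [gt_mem_nhds h] with s hs
      rw [h0 s hs.le, zero_div]
    exact contDiffAt_const.congr_of_eventuallyEq h1
  · exact hg.contDiffAt.div contDiffAt_id (by
      have : (0 : ℝ) < x := lt_of_lt_of_le hR h
      exact this.ne')

private theorem up0 {R r : ℝ} (hR : 0 < R) (h : r ≤ R) : up (r / R) = 0 :=
  up_zero (by rw [div_le_iff₀ hR]; linarith)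

private theorem dn1 {R r : ℝ} (hR : 0 < R) (h : r ≤ R) : dn (r / R) = 1 := by
  unfold dn
  rw [up0 hR h, sub_zero]

private theorem dn0 {R r : ℝ} (hR : 0 < R) (h : 2 * R ≤ r) : dn (r / R) = 0 := by
  unfold dn
  rw [up_one (by rw [le_div_iff₀ hR]; exact h), sub_self]

private theorem tst_dz {φ : ℝ → ℝ} {δ K : ℝ} (h : Tst φ δ K) : ∀ r < δ, deriv φ r = 0 := by
  intro r hr
  have h1 : φ =ᶠ[𝓝 r] fun _ => φ 0 := by
    filter_upwards [gt_mem_nhds hr] with s hs
    exact h.near s hs.le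
  rw [h1.deriv_eq, deriv_const]

private theorem phiY_eq {R : ℝ} (hR : 0 < R) (n : ℝ) :
    phiY R n = fun r => (dn (r / R) / R + up (r / R) * r⁻¹) * dn (r / n) := by
  funext r
  unfold phiY Phi
  have hR0 : R ≠ 0 := hR.ne'
  rcases eq_or_ne r 0 with h | h
  · rw [h]
    simp
  · field_simp

theorem phiY_tst : ∃ B : ℝ, 0 < B ∧ ∀ R n : ℝ, 0 < R → 2 * R ≤ n →
    Tst (phiY R n) R (2 * n) ∧ (∀ r < R, deriv (phiY R n) r = 0) ∧
      ∀ r, R ≤ r → |deriv (phiY R n) r| ≤ B / r ^ 2 ∧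
        |deriv (deriv (phiY R n)) r| ≤ B / r ^ 3 := by
  obtain ⟨K, hK, hb⟩ := up_bd
  have hK0 : 0 < K := by linarith
  refine ⟨4 * (8 * K + 4 * (4 * K) * 2) * (4 * K), by positivity, fun R n hR hn => ?_⟩
  have hn0 : 0 < n := by linarith
  have hT : Tst (phiY R n) R (2 * n) := by
    refine ⟨?_, hR, by linarith, fun r hr => ?_, fun r hr => ?_⟩
    · rw [phiY_eq hR]
      refine ContDiff.mul (ContDiff.add ((sc_smooth dn_smooth R).div_const R) ?_)
        (sc_smooth dn_smooth n)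
      have h := div_smooth (sc_smooth up_smooth R) hR (fun r hr => up0 hR hr)
      simp only [div_eq_mul_inv] at h ⊢
      exact h
    · rw [phiY_eq hR]
      simp only
      rw [dn1 hR hr, up0 hR hr, dn1 hn0 (by linarith), dn1 hR hR.le, up0 hR hR.le,
        dn1 hn0 hn0.le]
      ring
    · rw [phiY_eq hR]
      simp only
      rw [dn0 hn0 hr, mul_zero]
  refine ⟨hT, tst_dz hT, fun r hr => ?_⟩
  have hr0 : 0 < r := by linarith
  have hS : Sy (-1) (4 * (8 * K + 4 * (4 * K) * 2) * (4 * K)) (phiY R n) := by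
    rw [phiY_eq hR]
    have h1 := (sy_up hK hb hR).mul sy_inv
    have h2 := ((sy_dn' hK hb hR).add h1).mul (sy_dn hK hb hn0)
    exact h2
  constructor
  · have h := hS.deriv1 hr0
    rw [z3] at h
    rw [div_eq_mul_inv]
    exact h
  · have h := hS.deriv2 hr0
    rw [z4] at h
    rw [div_eq_mul_inv]
    exact h

theorem phiP_tst : ∃ B : ℝ, 0 < B ∧ ∀ R n : ℝ, 0 < R → 2 * R ≤ n →
    Tst (phiP R n) R (2 * n) ∧ (∀ r < R, deriv (phiP R n) r = 0) ∧
      ∀ r, R ≤ r → |deriv (phiP R n) r| ≤ B / r ^ 2 ∧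
        |deriv (deriv (phiP R n)) r| ≤ B / r ^ 3 := by
  obtain ⟨K, hK, hb⟩ := up_bd
  have hK0 : 0 < K := by linarith
  refine ⟨4 * (4 * (4 * K) * (4 * K)) * 2, by positivity, fun R n hR hn => ?_⟩
  have hn0 : 0 < n := by linarith
  have hT : Tst (phiP R n) R (2 * n) := by
    refine ⟨?_, hR, by linarith, fun r hr => ?_, fun r hr => ?_⟩
    · exact div_smooth ((sc_smooth up_smooth R).mul (sc_smooth dn_smooth n)) hR
        (fun r hr => by rw [up0 hR hr, zero_mul])
    · unfold phiP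
      rw [up0 hR hr, up0 hR hR.le]
      simp
    · unfold phiP
      rw [dn0 hn0 hr, mul_zero, zero_div]
  refine ⟨hT, tst_dz hT, fun r hr => ?_⟩
  have hr0 : 0 < r := by linarith
  have hS : Sy (-1) (4 * (4 * (4 * K) * (4 * K)) * 2) (phiP R n) :=
    ((sy_up hK hb hR).mul (sy_dn hK hb hn0)).mul sy_inv
  constructor
  · have h := hS.deriv1 hr0
    rw [z3] at h
    rw [div_eq_mul_inv]
    exact h
  · have h := hS.deriv2 hr0
    rw [z4] at h
    rw [div_eq_mul_inv]
    exact h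

theorem phiE_tst : ∃ B : ℝ, 0 < B ∧ ∀ R n : ℝ, 0 < R → 0 < n →
    Tst (phiE R n) R (2 * n + R) ∧ (∀ r < R, deriv (phiE R n) r = 0) ∧
      ∀ r, R ≤ r → |deriv (phiE R n) r| ≤ B * r ∧
        |deriv (deriv (phiE R n)) r| ≤ B := by
  obtain ⟨K, hK, hb⟩ := up_bd
  have hK0 : 0 < K := by linarith
  refine ⟨4 * (4 * (4 * K) * (4 * K)) * 2, by positivity, fun R n hR hn0 => ?_⟩
  have hT : Tst (phiE R n) R (2 * n + R) := by
    refine ⟨?_, hR, by linarith, fun r hr => ?_, fun r hr => ?_⟩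
    · exact ((sc_smooth up_smooth R).mul (sc_smooth dn_smooth n)).mul (contDiff_id.pow 2)
    · unfold phiE
      rw [up0 hR hr, up0 hR hR.le]
      simp
    · unfold phiE
      rw [dn0 hn0 (by linarith), mul_zero, zero_mul]
  refine ⟨hT, tst_dz hT, fun r hr => ?_⟩
  have hr0 : 0 < r := by linarith
  have hS : Sy 2 (4 * (4 * (4 * K) * (4 * K)) * 2) (phiE R n) :=
    ((sy_up hK hb hR).mul (sy_dn hK hb hn0)).mul sy_sq
  constructor
  · have h := hS.deriv1 hr0
    norm_num at h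
    exact h
  · have h := hS.deriv2 hr0
    norm_num at h
    exact h

end Pool.Agent.LandauR
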