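import Pool.Agent.LandauR.RWeak

/-!
# LandauR, module RWeakB: two bounds of the weak form

By `weak_id` the integrand is `g (φ'' r² AA + φ' (r PP - r AA - NN))`, which vanishes for `r < R`.  Here
`AA ≤ aa / 3` and `|r PP - r AA - NN| ≤ NN + r PP + r AA ≤ (4/3) r aa`.

`weak_bd1`: the integrand is at most `g (B/r³ · r² aa/3 + B/r² · (4/3) r aa) ≤ 2 B g aa / r`, and
`∫_R^∞ g aa / r ≤ aa(R) ∫_R^∞ r g / r² ≤ aa(R) PP(R) / R²` (`aa` is antitone).

`weak_bd2`: the integrand is at most `g (B r² aa/3 + B r (4/3) r aa) ≤ 2 B (r aa) (r g) ≤ 2 B M r g`.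
-/

set_option autoImplicit false

namespace Pool.Agent.LandauR

open MeasureTheory Set Filter Topology

/-- pointwise bound of the integrand of the weak form -/
theorem rwb_pt {g : ℝ → ℝ} (hg : Prof g) {r : ℝ} (hr : 0 < r) (X Y : ℝ) :
    |g r * (X * (r ^ 2 * AA g r) + Y * (r * PP g r - r * AA g r - NN g r))| ≤
      g r * (|X| * (r ^ 2 * (aa g r / 3)) + |Y| * (4 / 3 * (r * aa g r))) := by
  have h1 := three_AA_le hg hr
  have h2 := AA_pos hg hr
  have h3 := PP_pos hg hr.le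
  have h4 := NN_pos hg hr
  have h5 := raa_eq g hr
  have hgr := hg.pos r
  rw [abs_mul, abs_of_pos hgr]
  refine mul_le_mul_of_nonneg_left ?_ hgr.le
  refine (abs_add_le _ _).trans (add_le_add ?_ ?_)
  · rw [abs_mul]
    refine mul_le_mul_of_nonneg_left ?_ (abs_nonneg X)
    rw [abs_of_nonneg (by positivity)]
    exact mul_le_mul_of_nonneg_left (by linarith) (by positivity)
  · rw [abs_mul]
    refine mul_le_mul_of_nonneg_left ?_ (abs_nonneg Y)
    have h6 : 0 < r * PP g r := by positivity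
    have h7 : 0 < r * AA g r := by positivity
    have h8 : 3 * (r * AA g r) ≤ r * aa g r := by
      have := mul_le_mul_of_nonneg_left h1 hr.le
      linarith
    rw [abs_le]
    constructor <;> linarith

/-- the weak form as an integral over `(R, ∞)` -/
theorem rwb_eq {g φ : ℝ → ℝ} {δ K R : ℝ} (hg : Prof g) (hφ : Tst φ δ K) (hR : 0 < R)
    (h0 : ∀ r < R, deriv φ r = 0) :
    dmom φ g = ∫ r in Ioi R, g r * (deriv (deriv φ) r * (r ^ 2 * AA g r)
      + deriv φ r * (r * PP g r - r * AA g r - NN g r)) := by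
  rw [weak_id hg hφ]
  refine Eq.trans ?_ integral_Ici_eq_integral_Ioi
  refine setIntegral_eq_of_subset_of_forall_sdiff_eq_zero measurableSet_Ioi
    (fun r hr => lt_of_lt_of_le hR hr) ?_
  intro r hr
  have hrR : r < R := not_le.1 fun h => hr.2 h
  have h1 : deriv (deriv φ) r = 0 := by
    have : deriv φ =ᶠ[𝓝 r] fun _ => (0 : ℝ) :=
      Filter.mem_of_superset (Iio_mem_nhds hrR) fun x hx => h0 x hx
    rw [this.deriv_eq]
    exact deriv_const r 0
  rw [h1, h0 r hrR]
  ring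

theorem rwb_main {g φ : ℝ → ℝ} {δ K R c : ℝ} (hg : Prof g) (hφ : Tst φ δ K) (hR : 0 < R)
    (h0 : ∀ r < R, deriv φ r = 0)
    (hb : ∀ r, R < r → |g r * (deriv (deriv φ) r * (r ^ 2 * AA g r)
      + deriv φ r * (r * PP g r - r * AA g r - NN g r))| ≤ c * (r * g r)) :
    |dmom φ g| ≤ c * PP g R := by
  rw [rwb_eq hg hφ hR h0, ← Real.norm_eq_abs]
  have hi : Integrable (fun r => c * (r * g r)) (volume.restrict (Ioi R)) :=
    (int_Ioi hg R).const_mul c
  refine (norm_integral_le_of_norm_le hi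
    ((ae_restrict_mem measurableSet_Ioi).mono fun r hr => ?_)).trans (le_of_eq ?_)
  · rw [Real.norm_eq_abs]
    exact hb r hr
  · rw [integral_const_mul]
    rfl

theorem weak_bd1 {g φ : ℝ → ℝ} {δ K R B : ℝ} (hg : Prof g) (hφ : Tst φ δ K) (hR : 0 < R)
    (hB : 0 ≤ B) (h0 : ∀ r < R, deriv φ r = 0) (h1 : ∀ r, R ≤ r → |deriv φ r| ≤ B / r ^ 2)
    (h2 : ∀ r, R ≤ r → |deriv (deriv φ) r| ≤ B / r ^ 3) :
    |dmom φ g| ≤ 4 * B * (aa g R * PP g R) / R ^ 2 := by
  have haR := aa_pos hg hR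
  have hPR := PP_pos hg hR.le
  have key : |dmom φ g| ≤ (4 * B * aa g R / R ^ 2) * PP g R := by
    refine rwb_main hg hφ hR h0 fun r hr => ?_
    have hr0 : 0 < r := hR.trans hr
    refine (rwb_pt hg hr0 _ _).trans ?_
    have ha := aa_pos hg hr0
    have hgr := hg.pos r
    have ha2 := aa_anti hg hR hr.le
    have e1 : |deriv (deriv φ) r| * (r ^ 2 * (aa g r / 3)) ≤ B / r ^ 3 * (r ^ 2 * (aa g r / 3)) :=
      mul_le_mul_of_nonneg_right (h2 r hr.le) (by positivity)
    have e2 : |deriv φ r| * (4 / 3 * (r * aa g r)) ≤ B / r ^ 2 * (4 / 3 * (r * aa g r)) :=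
      mul_le_mul_of_nonneg_right (h1 r hr.le) (by positivity)
    have e3 : B / r ^ 3 * (r ^ 2 * (aa g r / 3)) + B / r ^ 2 * (4 / 3 * (r * aa g r)) =
        5 / 3 * B * aa g r / r ^ 2 * r := by
      field_simp
      ring
    have e4 : 5 / 3 * B * aa g r / r ^ 2 ≤ 4 * B * aa g R / R ^ 2 := by
      apply div_le_div₀
      · positivity
      · have : B * aa g r ≤ B * aa g R := mul_le_mul_of_nonneg_left ha2 hB
        have h5 : 0 ≤ B * aa g R := by positivity
        linarith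
      · positivity
      · exact pow_le_pow_left₀ hR.le hr.le 2
    calc g r * (|deriv (deriv φ) r| * (r ^ 2 * (aa g r / 3)) + |deriv φ r| * (4 / 3 * (r * aa g r)))
        ≤ g r * (5 / 3 * B * aa g r / r ^ 2 * r) := by
          refine mul_le_mul_of_nonneg_left ?_ hgr.le
          rw [← e3]
          exact add_le_add e1 e2
      _ = 5 / 3 * B * aa g r / r ^ 2 * (r * g r) := by ring
      _ ≤ 4 * B * aa g R / R ^ 2 * (r * g r) :=
          mul_le_mul_of_nonneg_right e4 (by positivity)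
  refine key.trans (le_of_eq ?_)
  ring

theorem weak_bd2 {g φ : ℝ → ℝ} {δ K R B M : ℝ} (hg : Prof g) (hφ : Tst φ δ K) (hR : 0 < R)
    (hB : 0 ≤ B) (h0 : ∀ r < R, deriv φ r = 0) (h1 : ∀ r, R ≤ r → |deriv φ r| ≤ B * r)
    (h2 : ∀ r, R ≤ r → |deriv (deriv φ) r| ≤ B) (hM : ∀ r, R ≤ r → r * aa g r ≤ M) :
    |dmom φ g| ≤ 4 * B * (M * PP g R) := by
  have haR := aa_pos hg hR
  have hPR := PP_pos hg hR.le
  have key : |dmom φ g| ≤ (4 * B * M) * PP g R := by
    refine rwb_main hg hφ hR h0 fun r hr => ?_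
    have hr0 : 0 < r := hR.trans hr
    refine (rwb_pt hg hr0 _ _).trans ?_
    have ha := aa_pos hg hr0
    have hgr := hg.pos r
    have hMr := hM r hr.le
    have hM0 : 0 ≤ M := le_trans (by positivity) hMr
    have e1 : |deriv (deriv φ) r| * (r ^ 2 * (aa g r / 3)) ≤ B * (r ^ 2 * (aa g r / 3)) :=
      mul_le_mul_of_nonneg_right (h2 r hr.le) (by positivity)
    have e2 : |deriv φ r| * (4 / 3 * (r * aa g r)) ≤ B * r * (4 / 3 * (r * aa g r)) :=
      mul_le_mul_of_nonneg_right (h1 r hr.le) (by positivity)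
    have e3 : B * (r ^ 2 * (aa g r / 3)) + B * r * (4 / 3 * (r * aa g r)) =
        5 / 3 * B * (r * aa g r) * r := by ring
    have e4 : 5 / 3 * B * (r * aa g r) ≤ 4 * B * M := by
      have h5 : B * (r * aa g r) ≤ B * M := mul_le_mul_of_nonneg_left hMr hB
      have h6 : 0 ≤ B * M := by positivity
      linarith
    calc g r * (|deriv (deriv φ) r| * (r ^ 2 * (aa g r / 3)) + |deriv φ r| * (4 / 3 * (r * aa g r)))
        ≤ g r * (5 / 3 * B * (r * aa g r) * r) := by
          refine mul_le_mul_of_nonneg_left ?_ hgr.le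
          rw [← e3]
          exact add_le_add e1 e2
      _ = 5 / 3 * B * (r * aa g r) * (r * g r) := by ring
      _ ≤ 4 * B * M * (r * g r) :=
          mul_le_mul_of_nonneg_right e4 (by positivity)
  refine key.trans (le_of_eq ?_)
  ring

end Pool.Agent.LandauR
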