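import Pool.Agent.LandauR.RTime
import Pool.Agent.LandauR.RTst
import Pool.Agent.LandauR.RWeakB

/-!
# LandauR, module RContP: continuity in time of `NN`, `EE`, `PP`, `aa`, `AA`

`NN (g t) R` and `EE (g t) R` are integrals of a jointly continuous function over a compact interval.

`PP (g t) R` (`R ≥ 0`).  Fix `a < b < 0` and `C` with `PP (g t) 0 ≤ C` on `[a, b]` (`RSol.bdd`).  Let `m ≥ 1`,
`m ≥ R`, and `p_n(t) = mom (phiP m n) (g t)` (`n ≥ 2 m`).  By `mom_diff`, `weak_bd1` (with `R := m`),
`aa ≤ PP 0 ≤ C`, `|p_n(t2) - p_n(t1)| ≤ (4 B C² / m²) |t2 - t1|`, uniformly in `n`.  As `n → ∞`,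
`p_n(t) → p(t) = ∫_0^∞ up(r/m) r g dr` (monotone or dominated convergence), so `p` is Lipschitz on `[a, b]`;
and `PP (g t) R = p(t) + ∫_R^{2m} (1 - up(r/m)) r g`, where the last integral is over a compact interval and
continuous in `t`.
-/

set_option autoImplicit false

namespace Pool.Agent.LandauR

open MeasureTheory Set Filter Topology

/-- continuity in time at fixed radius -/
theorem cont_at_time {g : ℝ → ℝ → ℝ} (hg : RSol g) {t : ℝ} (ht : t < 0) (r : ℝ) :
    ContinuousAt (fun s => g s r) t := by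
  have h1 : ContinuousAt (fun p : ℝ × ℝ => g p.1 p.2) (t, r) :=
    (joint_g hg).1.continuousAt
      ((isOpen_Iio.prod isOpen_univ).mem_nhds ⟨ht, mem_univ _⟩)
  have h2 : ContinuousAt (fun s : ℝ => (s, r)) t := by fun_prop
  exact ContinuousAt.comp (f := fun s : ℝ => (s, r)) (g := fun p : ℝ × ℝ => g p.1 p.2)
    (x := t) h1 h2

/-- integrals over compact intervals are continuous in time -/
theorem cont_compact {g : ℝ → ℝ → ℝ} (hg : RSol g) {k : ℝ → ℝ} (hk : Continuous k) (a b : ℝ)
    {t : ℝ} (ht : t < 0) : ContinuousAt (fun s => ∫ r in a..b, k r * g s r) t := by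
  have hev : ∀ᶠ s in 𝓝 t, s < 0 := eventually_lt_nhds ht
  refine intervalIntegral.continuousAt_of_dominated_interval (bound := fun r => |k r|) ?_ ?_ ?_ ?_
  · filter_upwards [hev] with s hs
    exact (hk.mul ((hg.prof s hs).smooth.continuous)).aestronglyMeasurable
  · filter_upwards [hev] with s hs
    refine Eventually.of_forall fun r _ => ?_
    have hp := hg.prof s hs
    rw [Real.norm_eq_abs, abs_mul, abs_of_pos (hp.pos r)]
    exact mul_le_of_le_one_right (abs_nonneg _) (hp.le_one r)
  · exact (hk.abs).intervalIntegrable _ _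
  · refine Eventually.of_forall fun r _ => ?_
    exact continuousAt_const.mul (cont_at_time hg ht r)

theorem cont_NN {g : ℝ → ℝ → ℝ} (hg : RSol g) (R : ℝ) :
    ContinuousOn (fun t => NN (g t) R) (Iio (0 : ℝ)) := by
  intro t ht
  exact (cont_compact hg (k := fun s => s ^ 2) (by fun_prop) 0 R ht).continuousWithinAt

theorem cont_EE {g : ℝ → ℝ → ℝ} (hg : RSol g) (R : ℝ) :
    ContinuousOn (fun t => EE (g t) R) (Iio (0 : ℝ)) := by
  intro t ht
  exact (cont_compact hg (k := fun s => s ^ 4) (by fun_prop) 0 R ht).continuousWithinAt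

/-- the tail, smoothly cut off below -/
noncomputable def tailP (m : ℝ) (u : ℝ → ℝ) : ℝ :=
  ∫ r in Ioi (0 : ℝ), up (r / m) * (r * u r)

theorem up_cont : Continuous up := up_smooth.continuous

theorem tail_integrable {u : ℝ → ℝ} (hu : Prof u) (m : ℝ) :
    IntegrableOn (fun r => up (r / m) * (r * u r)) (Ioi (0 : ℝ)) := by
  refine Integrable.mono' (g := fun r => r * u r) hu.int ?_ ?_
  · have h1 : Continuous fun r : ℝ => up (r / m) := up_cont.comp (continuous_id.div_const m)
    exact (h1.mul (continuous_id.mul hu.smooth.continuous)).aestronglyMeasurable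
  · rw [ae_restrict_iff' measurableSet_Ioi]
    refine Eventually.of_forall fun r hr => ?_
    have hr0 : (0 : ℝ) < r := hr
    have h2 : 0 ≤ r * u r := mul_nonneg hr0.le (hu.pos r).le
    rw [Real.norm_eq_abs, abs_mul, abs_of_nonneg (up_nonneg _), abs_of_nonneg h2]
    exact mul_le_of_le_one_left h2 (up_le_one _)

/-- decomposition of the potential of the exterior -/
theorem PP_split {u : ℝ → ℝ} (hu : Prof u) {R m : ℝ} (hR : 0 ≤ R) (hm : 0 < m) (hRm : R ≤ m) :
    PP u R = tailP m u + ∫ r in R..(2 * m), ((1 - up (r / m)) * r) * u r := by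
  have h1 : IntegrableOn (fun r => up (r / m) * (r * u r)) (Ioi R) :=
    (tail_integrable hu m).mono_set (Ioi_subset_Ioi hR)
  have h2 : IntegrableOn (fun r => r * u r) (Ioi R) := hu.int.mono_set (Ioi_subset_Ioi hR)
  have h3 : ∫ r in Ioi R, (r * u r - up (r / m) * (r * u r)) =
      (∫ r in Ioi R, r * u r) - ∫ r in Ioi R, up (r / m) * (r * u r) := integral_sub h2 h1
  have h4 : ∫ r in Ioi (0 : ℝ), up (r / m) * (r * u r) =
      ∫ r in Ioi R, up (r / m) * (r * u r) := by
    refine setIntegral_eq_of_subset_of_forall_sdiff_eq_zero measurableSet_Ioi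
      (Ioi_subset_Ioi hR) ?_
    intro r hr
    have hr2 : r ≤ R := not_lt.mp hr.2
    have h5 : up (r / m) = 0 := up_zero (by
      rw [div_le_one hm]
      exact hr2.trans hRm)
    rw [h5, zero_mul]
  have h6 : ∫ r in Ioi R, (r * u r - up (r / m) * (r * u r)) =
      ∫ r in R..(2 * m), ((1 - up (r / m)) * r) * u r := by
    rw [intervalIntegral.integral_of_le (by linarith)]
    have h7 : ∫ r in Ioi R, (r * u r - up (r / m) * (r * u r)) =
        ∫ r in Ioc R (2 * m), (r * u r - up (r / m) * (r * u r)) := by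
      refine setIntegral_eq_of_subset_of_forall_sdiff_eq_zero measurableSet_Ioi
        (fun r hr => hr.1) ?_
      intro r hr
      have hr1 : R < r := hr.1
      have hr2 : 2 * m < r := by
        by_contra h
        exact hr.2 ⟨hr1, not_lt.mp h⟩
      have h8 : up (r / m) = 1 := up_one (by
        rw [le_div_iff₀ hm]
        exact hr2.le)
      rw [h8]
      ring
    rw [h7]
    refine setIntegral_congr_fun measurableSet_Ioc fun r _ => ?_
    ring
  unfold PP tailP
  rw [h4, ← h6, h3]
  ring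

/-- the moments of the test functions converge to the tail -/
theorem mom_tendsto {u : ℝ → ℝ} (hu : Prof u) (m : ℝ) :
    Tendsto (fun n : ℕ => mom (phiP m n) u) atTop (𝓝 (tailP m u)) := by
  unfold mom tailP
  refine tendsto_integral_of_dominated_convergence (fun r => r * u r) ?_ hu.int ?_ ?_
  · intro n
    have h1 : Continuous fun r : ℝ => up (r / m) := up_cont.comp (continuous_id.div_const m)
    have h2 : Continuous fun r : ℝ => dn (r / n) := by
      unfold dn
      exact continuous_const.sub (up_cont.comp (continuous_id.div_const _))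
    have h3 : Measurable fun r : ℝ => phiP m n r * (r ^ 2 * u r) := by
      unfold phiP
      exact ((h1.measurable.mul h2.measurable).div measurable_id).mul
        ((measurable_id.pow_const 2).mul hu.smooth.continuous.measurable)
    exact h3.aestronglyMeasurable
  · intro n
    rw [ae_restrict_iff' measurableSet_Ioi]
    refine Eventually.of_forall fun r hr => ?_
    have hr0 : (0 : ℝ) < r := hr
    have h2 : 0 ≤ r * u r := mul_nonneg hr0.le (hu.pos r).le
    have h3 : phiP m n r * (r ^ 2 * u r) = up (r / m) * dn (r / n) * (r * u r) := by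
      unfold phiP
      field_simp
    have h4 : 0 ≤ dn (r / n) := by
      unfold dn
      linarith [up_le_one (r / n)]
    have h5 : dn (r / n) ≤ 1 := by
      unfold dn
      linarith [up_nonneg (r / n)]
    rw [h3, Real.norm_eq_abs, abs_mul, abs_of_nonneg h2,
      abs_of_nonneg (mul_nonneg (up_nonneg _) h4)]
    refine mul_le_of_le_one_left h2 ?_
    calc up (r / m) * dn (r / n) ≤ 1 * 1 :=
          mul_le_mul (up_le_one _) h5 h4 zero_le_one
      _ = 1 := one_mul 1
  · rw [ae_restrict_iff' measurableSet_Ioi]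
    refine Eventually.of_forall fun r hr => ?_
    have hr0 : (0 : ℝ) < r := hr
    refine tendsto_const_nhds.congr' ?_
    filter_upwards [eventually_ge_atTop (Nat.ceil r + 1)] with n hn
    have hn1 : r ≤ n := by
      have h1 := Nat.le_ceil r
      have h2 : ((Nat.ceil r + 1 : ℕ) : ℝ) ≤ n := by exact_mod_cast hn
      push_cast at h2
      linarith
    have hn0 : (0 : ℝ) < n := lt_of_lt_of_le hr0 hn1
    have h3 : dn (r / n) = 1 := by
      unfold dn
      rw [up_zero (by rw [div_le_one hn0]; exact hn1), sub_zero]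
    unfold phiP
    rw [h3]
    field_simp

theorem tail_lip {g : ℝ → ℝ → ℝ} (hg : RSol g) {m : ℝ} (hm : 0 < m) {a b C : ℝ} (hb : b < 0)
    (hC : ∀ t ∈ Icc a b, PP (g t) 0 ≤ C) :
    ∃ L : ℝ, 0 ≤ L ∧ ∀ s ∈ Icc a b, ∀ t ∈ Icc a b, s ≤ t →
      |tailP m (g t) - tailP m (g s)| ≤ L * (t - s) := by
  obtain ⟨B, hB, hT⟩ := phiP_tst
  refine ⟨4 * B * (C ^ 2) / m ^ 2, by positivity, fun s hs t ht hst => ?_⟩
  have hprof : ∀ τ ∈ Icc a b, Prof (g τ) := fun τ hτ => hg.prof τ (lt_of_le_of_lt hτ.2 hb)
  have hlim := ((mom_tendsto (hprof t ht) m).sub (mom_tendsto (hprof s hs) m)).abs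
  refine le_of_tendsto hlim ?_
  filter_upwards [eventually_ge_atTop (Nat.ceil (2 * m))] with n hn
  have hn1 : 2 * m ≤ n := (Nat.le_ceil _).trans (by exact_mod_cast hn)
  obtain ⟨h1, h2, h3⟩ := hT m n hm hn1
  have hdiff := mom_diff hg h1 hst (lt_of_le_of_lt ht.2 hb)
  rw [hdiff]
  have h4 : ∀ τ ∈ Set.uIoc s t, ‖dmom (phiP m n) (g τ)‖ ≤ 4 * B * (C ^ 2) / m ^ 2 := by
    intro τ hτ
    rw [Set.uIoc_of_le hst] at hτ
    have hτ2 : τ ∈ Icc a b := ⟨hs.1.trans hτ.1.le, hτ.2.trans ht.2⟩
    have hp := hprof τ hτ2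
    have h5 := weak_bd1 hp h1 hm hB.le h2 (fun r hr => (h3 r hr).1) (fun r hr => (h3 r hr).2)
    rw [Real.norm_eq_abs]
    refine h5.trans ?_
    have h6 : aa (g τ) m ≤ C := (aa_le_PP0 hp hm).trans (hC τ hτ2)
    have h7 : PP (g τ) m ≤ C := (PP_anti hp le_rfl hm.le).trans (hC τ hτ2)
    have h8 : 0 ≤ PP (g τ) m := (PP_pos hp hm.le).le
    have h9 : 0 ≤ aa (g τ) m := (aa_pos hp hm).le
    have h10 : aa (g τ) m * PP (g τ) m ≤ C ^ 2 := by
      rw [sq]
      exact mul_le_mul h6 h7 h8 (h9.trans h6)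
    gcongr
  have h5 := intervalIntegral.norm_integral_le_of_norm_le_const h4
  rw [Real.norm_eq_abs, abs_of_nonneg (by linarith : 0 ≤ t - s)] at h5
  exact h5

theorem cont_tail {g : ℝ → ℝ → ℝ} (hg : RSol g) {m : ℝ} (hm : 0 < m) {t : ℝ} (ht : t < 0) :
    ContinuousAt (fun s => tailP m (g s)) t := by
  obtain ⟨C, hC⟩ := hg.bdd (t - 1) (t / 2) (by linarith) (by linarith)
  obtain ⟨L, hL0, hL⟩ := tail_lip hg hm (by linarith : t / 2 < 0) hC
  have hab : Icc (t - 1) (t / 2) ∈ 𝓝 t := Icc_mem_nhds (by linarith) (by linarith)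
  have htm : t ∈ Icc (t - 1) (t / 2) := ⟨by linarith, by linarith⟩
  have key : ∀ s ∈ Icc (t - 1) (t / 2), |tailP m (g s) - tailP m (g t)| ≤ L * |s - t| := by
    intro s hs
    rcases le_total s t with h | h
    · have := hL s hs t htm h
      rw [abs_sub_comm, abs_of_nonpos (by linarith : s - t ≤ 0)]
      linarith
    · have := hL t htm s hs h
      rw [abs_of_nonneg (by linarith : 0 ≤ s - t)]
      exact this
  rw [ContinuousAt, tendsto_iff_norm_sub_tendsto_zero]
  have h1 : Tendsto (fun s => L * |s - t|) (𝓝 t) (𝓝 0) := by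
    have h2 : ContinuousAt (fun s : ℝ => L * |s - t|) t := by fun_prop
    have h3 := h2.tendsto
    simpa using h3
  refine squeeze_zero' (Eventually.of_forall fun _ => norm_nonneg _) ?_ h1
  filter_upwards [hab] with s hs
  rw [Real.norm_eq_abs]
  exact key s hs

theorem cont_PP {g : ℝ → ℝ → ℝ} (hg : RSol g) {R : ℝ} (hR : 0 ≤ R) :
    ContinuousOn (fun t => PP (g t) R) (Iio (0 : ℝ)) := by
  intro t ht
  have ht0 : t < 0 := ht
  have hm : 0 < max R 1 := lt_of_lt_of_le one_pos (le_max_right _ _)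
  have hk : Continuous fun r : ℝ => (1 - up (r / max R 1)) * r :=
    (continuous_const.sub (up_cont.comp (continuous_id.div_const _))).mul continuous_id
  have h1 : ContinuousAt (fun s => tailP (max R 1) (g s) +
      ∫ r in R..(2 * max R 1), ((1 - up (r / max R 1)) * r) * g s r) t :=
    (cont_tail hg hm ht0).add (cont_compact hg hk _ _ ht0)
  refine (h1.congr ?_).continuousWithinAt
  filter_upwards [eventually_lt_nhds ht0] with s hs
  exact (PP_split (hg.prof s hs) hR hm (le_max_left _ _)).symm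

theorem cont_aa {g : ℝ → ℝ → ℝ} (hg : RSol g) {R : ℝ} (hR : 0 < R) :
    ContinuousOn (fun t => aa (g t) R) (Iio (0 : ℝ)) := by
  unfold aa
  exact ((cont_NN hg R).div_const R).add (cont_PP hg hR.le)

end Pool.Agent.LandauR
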