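import Pool.Agent.LandauR.RRad

/-!
# LandauR, module RCyl: integration of functions of `‖w‖` and `w 0` (nonnegative case)

For measurable `Φ ≥ 0`: `∫ Φ(‖w‖, w 0) dw = ∫_0^∞ 2 π s ∫_{-s}^s Φ(s, z) dz ds`.

Proof.  The volume of `V` is transported by `EuclideanSpace.volume_preserving_measurableEquiv`
(to `Fin 3 → ℝ`), then `MeasureTheory.volume_preserving_piFinSuccAbove (fun _ => ℝ) 0`
(to `ℝ × (Fin 2 → ℝ)`), and `MeasureTheory.volume_preserving_finTwoArrow` (to `ℝ × (ℝ × ℝ)`):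
`∫⁻ w, Φ ‖w‖ (w 0) = ∫⁻ z, ∫⁻ y : ℝ × ℝ, Φ (√(z² + y.1² + y.2²)) z` by Tonelli
(`lintegral_prod`).  Polar coordinates (`lintegral_comp_polarCoord_symm`, target
`Ioi 0 ×ˢ Ioo (-π) π`, `y = (ρ cos a, ρ sin a)`): the inner integral is
`2 π ∫⁻ ρ in Ioi 0, ρ Φ (√(z² + ρ²)) z`.  Substitution `s = √(z² + ρ²)`, i.e. `ρ = √(s² - z²)`,
`s ∈ Ioi |z|` (for instance `MeasureTheory.lintegral_image_eq_lintegral_abs_deriv_mul` with
`ρ ↦ √(z² + ρ²)`, injective on `Ioi 0`, derivative `ρ / √(z² + ρ²)`, image `Ioi |z|`):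
`ρ dρ = s ds`, so it is `2 π ∫⁻ s in Ioi |z|, s Φ s z`.  Finally exchange the integrals
(`lintegral_lintegral_swap`): for `s > 0` the condition `|z| < s` is `z ∈ Ioo (-s) s`.
-/

set_option autoImplicit false

namespace Pool.Agent.LandauR

open MeasureTheory Set Filter Topology Pool.Agent.Landau

private lemma rcyl_meas1 {Φ : ℝ → ℝ → ENNReal} (hΦ : Measurable (Function.uncurry Φ))
    {α : Type*} [MeasurableSpace α] {f g : α → ℝ} (hf : Measurable f) (hg : Measurable g) :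
    Measurable (fun a => Φ (f a) (g a)) :=
  hΦ.comp (hf.prodMk hg)

private lemma rcyl_A (Φ : ℝ → ℝ → ENNReal) (hΦ : Measurable (Function.uncurry Φ)) :
    ∫⁻ w : V, Φ ‖w‖ (w 0) =
      ∫⁻ z : ℝ, ∫⁻ y : ℝ × ℝ, Φ (√(z ^ 2 + (y.1 ^ 2 + y.2 ^ 2))) z := by
  have h1 : MeasurePreserving (@WithLp.ofLp 2 (Fin 3 → ℝ)) :=
    PiLp.volume_preserving_ofLp (Fin 3)
  have h2 := volume_preserving_piFinSuccAbove (fun _ : Fin 3 => ℝ) 0
  have h3 := (MeasurePreserving.id (volume : Measure ℝ)).prod (volume_preserving_finTwoArrow ℝ)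
  have h4 := h3.comp (h2.comp h1)
  have hm : Measurable (fun p : ℝ × (ℝ × ℝ) => Φ (√(p.1 ^ 2 + (p.2.1 ^ 2 + p.2.2 ^ 2))) p.1) :=
    rcyl_meas1 hΦ (by fun_prop) (by fun_prop)
  have h5 := h4.lintegral_comp hm
  have h6 : ∀ w : V, Φ ‖w‖ (w 0) =
      (fun p : ℝ × (ℝ × ℝ) => Φ (√(p.1 ^ 2 + (p.2.1 ^ 2 + p.2.2 ^ 2))) p.1)
        ((Prod.map id (MeasurableEquiv.finTwoArrow) ∘
          ((MeasurableEquiv.piFinSuccAbove (fun _ : Fin 3 => ℝ) 0) ∘ (@WithLp.ofLp 2 (Fin 3 → ℝ)))) w) := by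
    intro w
    have h7 : ‖w‖ = √(w 0 ^ 2 + (w 1 ^ 2 + w 2 ^ 2)) := by
      rw [EuclideanSpace.norm_eq, Fin.sum_univ_three]
      simp only [Real.norm_eq_abs, sq_abs]
      congr 1
      ring
    rw [h7]
    rfl
  rw [lintegral_congr h6]
  refine h5.trans ?_
  exact lintegral_prod _ hm.aemeasurable

private lemma rcyl_B (h : ℝ → ENNReal) (hh : Measurable h) :
    ∫⁻ y : ℝ × ℝ, h (y.1 ^ 2 + y.2 ^ 2) =
      ENNReal.ofReal (2 * Real.pi) * ∫⁻ r in Ioi (0 : ℝ), ENNReal.ofReal r * h (r ^ 2) := by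
  rw [← lintegral_comp_polarCoord_symm]
  have h1 : ∀ p : ℝ × ℝ, ENNReal.ofReal p.1 • h ((polarCoord.symm p).1 ^ 2 +
      (polarCoord.symm p).2 ^ 2) = (ENNReal.ofReal p.1 * h (p.1 ^ 2)) := by
    intro p
    rw [smul_eq_mul]
    congr 2
    simp only [polarCoord_symm_apply]
    have := Real.cos_sq_add_sin_sq p.2
    calc (p.1 * Real.cos p.2) ^ 2 + (p.1 * Real.sin p.2) ^ 2
        = p.1 ^ 2 * (Real.cos p.2 ^ 2 + Real.sin p.2 ^ 2) := by ring
      _ = p.1 ^ 2 := by rw [this, mul_one]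
  rw [lintegral_congr h1, polarCoord_target, Measure.volume_eq_prod, ← Measure.prod_restrict,
    lintegral_prod _ (by
      refine Measurable.aemeasurable ?_
      exact (measurable_fst.ennreal_ofReal).mul (hh.comp (measurable_fst.pow_const 2)))]
  simp only [lintegral_const, Measure.restrict_apply MeasurableSet.univ, univ_inter,
    Real.volume_Ioo]
  rw [lintegral_mul_const _ (by
      exact (measurable_id.ennreal_ofReal).mul (hh.comp (measurable_id.pow_const 2))), mul_comm]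
  congr 2
  ring

private lemma rcyl_C (z : ℝ) (g : ℝ → ENNReal) :
    ∫⁻ r in Ioi (0 : ℝ), ENNReal.ofReal r * g (√(z ^ 2 + r ^ 2)) =
      ∫⁻ s in Ioi |z|, ENNReal.ofReal s * g s := by
  have hpos : ∀ r ∈ Ioi (0 : ℝ), 0 < z ^ 2 + r ^ 2 := fun r hr => by
    have : 0 < r := hr
    positivity
  have himg : (fun r : ℝ => √(z ^ 2 + r ^ 2)) '' Ioi (0 : ℝ) = Ioi |z| := by
    ext s
    constructor
    · rintro ⟨r, hr, rfl⟩
      have hr' : 0 < r := hr
      show |z| < √(z ^ 2 + r ^ 2)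
      rw [← Real.sqrt_sq_eq_abs]
      exact Real.sqrt_lt_sqrt (sq_nonneg z) (by nlinarith)
    · intro hs
      have hs' : |z| < s := hs
      have h0 : 0 ≤ |z| := abs_nonneg z
      have h1 : 0 < s ^ 2 - z ^ 2 := by
        rw [← sq_abs z]
        nlinarith
      refine ⟨√(s ^ 2 - z ^ 2), Real.sqrt_pos.2 h1, ?_⟩
      show √(z ^ 2 + √(s ^ 2 - z ^ 2) ^ 2) = s
      rw [Real.sq_sqrt h1.le, show z ^ 2 + (s ^ 2 - z ^ 2) = s ^ 2 by ring]
      exact Real.sqrt_sq (h0.trans hs'.le)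
  have hder : ∀ r ∈ Ioi (0 : ℝ), HasDerivWithinAt (fun r : ℝ => √(z ^ 2 + r ^ 2))
      (r / √(z ^ 2 + r ^ 2)) (Ioi 0) r := by
    intro r hr
    have h1 : HasDerivAt (fun r : ℝ => z ^ 2 + r ^ 2) (2 * r) r := by
      have := ((hasDerivAt_id r).pow 2).const_add (z ^ 2)
      simpa using this
    have h2 := h1.sqrt (hpos r hr).ne'
    refine (h2.congr_deriv ?_).hasDerivWithinAt
    rw [mul_div_mul_left _ _ (two_ne_zero)]
  have hinj : InjOn (fun r : ℝ => √(z ^ 2 + r ^ 2)) (Ioi 0) := by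
    intro a ha b hb hab
    have ha' : 0 < a := ha
    have hb' : 0 < b := hb
    have h1 : √(z ^ 2 + a ^ 2) = √(z ^ 2 + b ^ 2) := hab
    have h2 := (Real.sqrt_inj (hpos a ha).le (hpos b hb).le).1 h1
    have h3 : a ^ 2 = b ^ 2 := by linarith
    exact (pow_left_inj₀ ha'.le hb'.le two_ne_zero).1 h3
  rw [← himg, lintegral_image_eq_lintegral_abs_deriv_mul measurableSet_Ioi hder hinj]
  refine setLIntegral_congr_fun measurableSet_Ioi fun r hr => ?_
  have hr' : 0 < r := hr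
  have h1 : 0 < √(z ^ 2 + r ^ 2) := Real.sqrt_pos.2 (hpos r hr)
  show _ = ENNReal.ofReal |r / √(z ^ 2 + r ^ 2)| * (ENNReal.ofReal √(z ^ 2 + r ^ 2) *
    g √(z ^ 2 + r ^ 2))
  rw [← mul_assoc, ← ENNReal.ofReal_mul (abs_nonneg _), abs_of_pos (div_pos hr' h1),
    div_mul_cancel₀ _ h1.ne']

theorem lint_cyl (Φ : ℝ → ℝ → ENNReal) (hΦ : Measurable (Function.uncurry Φ)) :
    ∫⁻ w : V, Φ ‖w‖ (w 0) =
      ∫⁻ s in Ioi (0 : ℝ), ENNReal.ofReal (2 * Real.pi * s) * ∫⁻ z in Ioo (-s) s, Φ s z := by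
  have hpi : 0 ≤ 2 * Real.pi := by positivity
  rw [rcyl_A Φ hΦ]
  have hB : ∀ z : ℝ, ∫⁻ y : ℝ × ℝ, Φ (√(z ^ 2 + (y.1 ^ 2 + y.2 ^ 2))) z =
      ∫⁻ s, (if |z| < s then ENNReal.ofReal (2 * Real.pi * s) * Φ s z else 0) := by
    intro z
    have h1 := rcyl_B (fun t => Φ (√(z ^ 2 + t)) z)
      (rcyl_meas1 hΦ (by fun_prop) (by fun_prop))
    rw [h1, rcyl_C z (fun s => Φ s z), ← lintegral_const_mul _ (by
      exact (measurable_id.ennreal_ofReal).mul (rcyl_meas1 hΦ measurable_id measurable_const)),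
      ← lintegral_indicator measurableSet_Ioi]
    refine lintegral_congr fun s => ?_
    by_cases h : |z| < s
    · rw [if_pos h, indicator_of_mem (show s ∈ Ioi |z| from h), ← mul_assoc,
        ← ENNReal.ofReal_mul hpi]
    · rw [if_neg h, indicator_of_notMem (show s ∉ Ioi |z| from h)]
  rw [lintegral_congr hB]
  rw [lintegral_lintegral_swap]
  · rw [← lintegral_indicator measurableSet_Ioi]
    refine lintegral_congr fun s => ?_
    by_cases hs : 0 < s
    · have hms : Measurable (fun z : ℝ => Φ s z) := rcyl_meas1 hΦ measurable_const measurable_id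
      rw [indicator_of_mem (show s ∈ Ioi (0 : ℝ) from hs), ← lintegral_const_mul _ hms,
        ← lintegral_indicator measurableSet_Ioo]
      refine lintegral_congr fun z => ?_
      by_cases h : |z| < s
      · rw [if_pos h, indicator_of_mem (show z ∈ Ioo (-s) s from abs_lt.1 h)]
      · rw [if_neg h, indicator_of_notMem (show z ∉ Ioo (-s) s from fun h' => h (abs_lt.2 h'))]
    · rw [indicator_of_notMem (show s ∉ Ioi (0 : ℝ) from hs)]
      refine (lintegral_congr fun z => ?_).trans lintegral_zero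
      rw [if_neg (fun h => hs ((abs_nonneg z).trans_lt h))]
  · refine Measurable.aemeasurable ?_
    refine Measurable.ite (measurableSet_lt (measurable_fst.norm) measurable_snd) ?_
      measurable_const
    exact ((measurable_snd.const_mul _).ennreal_ofReal).mul
      (rcyl_meas1 hΦ measurable_snd measurable_fst)

end Pool.Agent.LandauR
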