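import Pool.Agent.LandauR.RCyl

/-!
# LandauR, module RCylI: integration of functions of `‖w‖` and `w 0` (integrable case)

Proof.  Split `Φ = max Φ 0 - max (-Φ) 0`.  For both parts `integral_eq_lintegral_of_nonneg_ae` and
`lint_cyl` (applied to `fun s z => ENNReal.ofReal (max (Φ s z) 0)`) give the value; all the
lintegrals are finite because `Φ(‖w‖, w 0)` is integrable, so for almost every `s > 0` the function
`z ↦ Φ s z` is integrable on `Ioo (-s) s` and `toReal` commutes with everything
(`integral_toReal`, `ae_lt_top`).  Alternatively: `T w = (‖w‖, w 0)` is measurable; by `lint_cyl`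
with indicator functions `Measure.map T volume = ν` where
`ν = (volume.restrict {p : ℝ × ℝ | |p.2| < p.1}).withDensity (fun p => ENNReal.ofReal (2 π p.1))`;
then `integral_map`, `integral_withDensity_eq_integral_toReal_smul`, `integral_prod` (Fubini) and
`integrable_map_measure`.
-/

set_option autoImplicit false

namespace Pool.Agent.LandauR

open MeasureTheory Set Filter Topology Pool.Agent.Landau

theorem int_cyl (Φ : ℝ → ℝ → ℝ) (hΦ : Measurable (Function.uncurry Φ))
    (hi : Integrable (fun w : V => Φ ‖w‖ (w 0))) :
    ∫ w : V, Φ ‖w‖ (w 0) =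
      ∫ s in Ioi (0 : ℝ), 2 * Real.pi * s * ∫ z in Ioo (-s) s, Φ s z := by
  have hTm : Measurable (fun w : V => ((‖w‖, w 0) : ℝ × ℝ)) := by
    have h0 : Continuous (fun w : V => w 0) := by fun_prop
    exact measurable_norm.prodMk h0.measurable
  set S : Set (ℝ × ℝ) := {p | |p.2| < p.1} with hSdef
  have hS : MeasurableSet S :=
    (isOpen_lt (continuous_abs.comp continuous_snd) continuous_fst).measurableSet
  set ρ : ℝ × ℝ → ENNReal := fun p => ENNReal.ofReal (2 * Real.pi * p.1) with hρdef
  have hρ : Measurable ρ := (measurable_fst.const_mul (2 * Real.pi)).ennreal_ofReal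
  have hmap : Measure.map (fun w : V => ((‖w‖, w 0) : ℝ × ℝ)) volume =
      (volume.restrict S).withDensity ρ := by
    ext A hA
    rw [Measure.map_apply hTm hA, withDensity_apply _ hA, ← lintegral_indicator hA,
      ← lintegral_indicator hS, ← lintegral_indicator_one (hTm hA)]
    have h1 : ∫⁻ w : V, ((fun w : V => ((‖w‖, w 0) : ℝ × ℝ)) ⁻¹' A).indicator 1 w =
        ∫⁻ s in Ioi (0 : ℝ), ENNReal.ofReal (2 * Real.pi * s) *
          ∫⁻ z in Ioo (-s) s, A.indicator (1 : ℝ × ℝ → ENNReal) (s, z) :=
      lint_cyl (fun s z => A.indicator (1 : ℝ × ℝ → ENNReal) (s, z))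
        (measurable_one.indicator hA)
    rw [h1, Measure.volume_eq_prod,
      lintegral_prod _ (((hρ.indicator hA).indicator hS).aemeasurable),
      ← lintegral_indicator measurableSet_Ioi]
    refine lintegral_congr fun s => ?_
    by_cases hs : 0 < s
    · rw [Set.indicator_of_mem (show s ∈ Ioi (0 : ℝ) from hs)]
      have hm : Measurable fun z : ℝ => A.indicator (1 : ℝ × ℝ → ENNReal) (s, z) :=
        (measurable_one.indicator hA).comp measurable_prodMk_left
      rw [← lintegral_const_mul _ hm, ← lintegral_indicator measurableSet_Ioo]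
      refine lintegral_congr fun z => ?_
      by_cases hz : z ∈ Ioo (-s) s
      · rw [Set.indicator_of_mem hz, Set.indicator_of_mem (show (s, z) ∈ S from abs_lt.2 hz)]
        by_cases hzA : (s, z) ∈ A
        · rw [Set.indicator_of_mem hzA, Set.indicator_of_mem hzA, Pi.one_apply, mul_one]
        · rw [Set.indicator_of_notMem hzA, Set.indicator_of_notMem hzA, mul_zero]
      · rw [Set.indicator_of_notMem hz,
          Set.indicator_of_notMem (show (s, z) ∉ S from fun h => hz (abs_lt.1 h))]
    · rw [Set.indicator_of_notMem (show s ∉ Ioi (0 : ℝ) from hs)]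
      symm
      have : ∀ z : ℝ, S.indicator (A.indicator ρ) (s, z) = 0 := fun z =>
        Set.indicator_of_notMem (show (s, z) ∉ S from fun h =>
          hs ((abs_nonneg z).trans_lt h)) _
      simp only [this, lintegral_zero]
  have hlt : ∀ᵐ p ∂(volume.restrict S), ρ p < ⊤ :=
    Filter.Eventually.of_forall fun p => ENNReal.ofReal_lt_top
  have hi2 : Integrable (fun p => (ρ p).toReal • Function.uncurry Φ p) (volume.restrict S) := by
    rw [← integrable_withDensity_iff_integrable_smul' hρ hlt, ← hmap]
    exact (integrable_map_measure hΦ.aestronglyMeasurable hTm.aemeasurable).2 hi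
  have hi3 : Integrable (S.indicator fun p => (ρ p).toReal • Function.uncurry Φ p) volume :=
    (integrable_indicator_iff hS).2 hi2
  have h1 : ∫ w : V, Φ ‖w‖ (w 0) =
      ∫ p, Function.uncurry Φ p ∂(Measure.map (fun w : V => ((‖w‖, w 0) : ℝ × ℝ)) volume) :=
    (integral_map hTm.aemeasurable hΦ.aestronglyMeasurable).symm
  rw [h1, hmap, integral_withDensity_eq_integral_toReal_smul hρ hlt, ← integral_indicator hS]
  rw [Measure.volume_eq_prod] at hi3 ⊢
  rw [integral_prod _ hi3, ← integral_indicator measurableSet_Ioi]
  refine integral_congr_ae (Filter.Eventually.of_forall fun s => ?_)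
  by_cases hs : 0 < s
  · change ∫ z, S.indicator (fun p => (ρ p).toReal • Function.uncurry Φ p) (s, z) = _
    rw [Set.indicator_of_mem (show s ∈ Ioi (0 : ℝ) from hs), ← integral_const_mul,
      ← integral_indicator measurableSet_Ioo]
    refine integral_congr_ae (Filter.Eventually.of_forall fun z => ?_)
    change S.indicator (fun p => (ρ p).toReal • Function.uncurry Φ p) (s, z) =
      (Ioo (-s) s).indicator (fun z => 2 * Real.pi * s * Φ s z) z
    by_cases hz : z ∈ Ioo (-s) s
    · rw [Set.indicator_of_mem hz, Set.indicator_of_mem (show (s, z) ∈ S from abs_lt.2 hz)]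
      have h2 : (ρ (s, z)).toReal = 2 * Real.pi * s :=
        ENNReal.toReal_ofReal (by positivity)
      rw [h2]
      rfl
    · rw [Set.indicator_of_notMem hz,
        Set.indicator_of_notMem (show (s, z) ∉ S from fun h => hz (abs_lt.1 h))]
  · change ∫ z, S.indicator (fun p => (ρ p).toReal • Function.uncurry Φ p) (s, z) = _
    rw [Set.indicator_of_notMem (show s ∉ Ioi (0 : ℝ) from hs)]
    have : ∀ z : ℝ, S.indicator (fun p => (ρ p).toReal • Function.uncurry Φ p) (s, z) = 0 :=
      fun z => Set.indicator_of_notMem (show (s, z) ∉ S from fun h =>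
        hs ((abs_nonneg z).trans_lt h)) _
    simp only [this, integral_zero]

end Pool.Agent.LandauR
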