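import Mathlib

/-!
# LandauR, module RDefs: radial solutions of the Landau-Coulomb equation, one dimensional form

A radial density is `f v = g ‖v‖` with `g` even.  With
`NN g r = ∫_0^r s² g`, `EE g r = ∫_0^r s⁴ g`, `PP g r = ∫_r^∞ s g`,
`AA = (EE / r³ + PP) / 3` (radial diffusion coefficient), `aa = NN / r + PP` (the trace, i.e. the
potential), the collision operator is
`QQ g = AA g'' + ((aa - AA) / r) g' + g² = r⁻² (r² AA g' + NN g)'`   (`r > 0`).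

`uu g = g' / g`, `om g = uu g / r`.  Fisher information: `Fi g a b = ∫_a^b r² g (uu g)²`,
`Fit g a = ∫_a^∞ r² g (uu g)²`, `FI θ g = ∫ θ r² g (uu g)²`, and `dFI θ g` is its formal time
derivative along `∂_t g = QQ g`.
-/

set_option autoImplicit false

namespace Pool.Agent.LandauR

open MeasureTheory Set Filter Topology

noncomputable def NN (g : ℝ → ℝ) (r : ℝ) : ℝ := ∫ s in (0 : ℝ)..r, s ^ 2 * g s

noncomputable def EE (g : ℝ → ℝ) (r : ℝ) : ℝ := ∫ s in (0 : ℝ)..r, s ^ 4 * g s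

noncomputable def PP (g : ℝ → ℝ) (r : ℝ) : ℝ := ∫ s in Ioi r, s * g s

noncomputable def AA (g : ℝ → ℝ) (r : ℝ) : ℝ := (EE g r / r ^ 3 + PP g r) / 3

noncomputable def aa (g : ℝ → ℝ) (r : ℝ) : ℝ := NN g r / r + PP g r

noncomputable def QQ (g : ℝ → ℝ) (r : ℝ) : ℝ :=
  AA g r * deriv (deriv g) r + (aa g r - AA g r) / r * deriv g r + g r ^ 2

noncomputable def uu (g : ℝ → ℝ) (r : ℝ) : ℝ := deriv g r / g r

noncomputable def om (g : ℝ → ℝ) (r : ℝ) : ℝ := uu g r / r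

/-- positive radial profiles (extended evenly to negative radii) -/
structure Prof (g : ℝ → ℝ) : Prop where
  smooth : ContDiff ℝ (⊤ : ℕ∞) g
  even : ∀ r, g (-r) = g r
  pos : ∀ r, 0 < g r
  le_one : ∀ r, g r ≤ 1
  int : IntegrableOn (fun s => s * g s) (Ioi 0)
  qsm : ∃ q : ℝ → ℝ, ContDiff ℝ (⊤ : ℕ∞) q ∧ ∀ r, 0 < r → QQ g r = q r

/-- radial ancient solutions -/
structure RSol (g : ℝ → ℝ → ℝ) : Prop where
  smooth : ContDiffOn ℝ (⊤ : ℕ∞) (fun p : ℝ × ℝ => g p.1 p.2) (Iio (0 : ℝ) ×ˢ univ)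
  prof : ∀ t < 0, Prof (g t)
  eq : ∀ t < 0, ∀ r > 0, HasDerivAt (fun s => g s r) (QQ (g t) r) t
  bdd : ∀ a b : ℝ, a < b → b < 0 → ∃ C : ℝ, ∀ t ∈ Icc a b, PP (g t) 0 ≤ C

/-- Fisher information of an annulus -/
noncomputable def Fi (g : ℝ → ℝ) (a b : ℝ) : ℝ := ∫ r in a..b, r ^ 2 * g r * uu g r ^ 2

/-- Fisher information of an exterior domain -/
noncomputable def Fit (g : ℝ → ℝ) (a : ℝ) : ℝ := ∫ r in Ioi a, r ^ 2 * g r * uu g r ^ 2

/-- localised Fisher information -/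
noncomputable def FI (θ g : ℝ → ℝ) : ℝ := ∫ r in Ioi (0 : ℝ), θ r * (r ^ 2 * g r * uu g r ^ 2)

/-- its derivative along `∂_t g = QQ g` -/
noncomputable def dFI (θ g : ℝ → ℝ) : ℝ :=
  ∫ r in Ioi (0 : ℝ), θ r *
    (2 * r ^ 2 * uu g r * deriv (QQ g) r - r ^ 2 * uu g r ^ 2 * QQ g r)

/-- moments -/
noncomputable def mom (φ g : ℝ → ℝ) : ℝ := ∫ r in Ioi (0 : ℝ), φ r * (r ^ 2 * g r)

/-- their derivative along `∂_t g = QQ g` -/
noncomputable def dmom (φ g : ℝ → ℝ) : ℝ := ∫ r in Ioi (0 : ℝ), φ r * (r ^ 2 * QQ g r)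

/-- test functions of the radius: smooth, constant near `0`, zero for large radii -/
structure Tst (φ : ℝ → ℝ) (δ K : ℝ) : Prop where
  smooth : ContDiff ℝ (⊤ : ℕ∞) φ
  dpos : 0 < δ
  dK : δ < K
  near : ∀ r ≤ δ, φ r = φ 0
  far : ∀ r, K ≤ r → φ r = 0

/-- `0` on `(-∞, 1]`, `1` on `[2, ∞)` -/
noncomputable def up (x : ℝ) : ℝ := Real.smoothTransition (x - 1)

/-- `1` on `(-∞, 1]`, `0` on `[2, ∞)` -/
noncomputable def dn (x : ℝ) : ℝ := 1 - up x

/-- `1` on `[1, 2]`, `0` outside `[1/2, 4]` -/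
noncomputable def an (x : ℝ) : ℝ := up (2 * x) * dn (x / 2)

/-- the localised friction form at the radius `r`, inner radii up to `R` -/
noncomputable def BtR (g : ℝ → ℝ) (R r : ℝ) : ℝ :=
  ∫ s in (0 : ℝ)..R, s ^ 2 * g s *
    ((s * deriv (om g) s - (om g r - om g s)) ^ 2 + 7 / 4 * (om g r - om g s) ^ 2)

/-- the full pair form at the radius `r` -/
noncomputable def Bt (g : ℝ → ℝ) (r : ℝ) : ℝ :=
  ∫ s in (0 : ℝ)..r, s ^ 2 * g s *
    ((s * deriv (om g) r - s / (2 * r) * (om g r - om g s)) ^ 2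
      + (s * deriv (om g) s - (om g r - om g s)) ^ 2
      + (2 - s ^ 2 / (4 * r ^ 2)) * (om g r - om g s) ^ 2)

/-- friction between the core `s < R` and the annulus `R < r < K` -/
noncomputable def Frr (g : ℝ → ℝ) (R K : ℝ) : ℝ := ∫ r in R..K, r * g r * BtR g R r

/-- the error of the localised Fisher inequality -/
noncomputable def ErrT (θ g : ℝ → ℝ) : ℝ :=
  ∫ r in Ioi (0 : ℝ),
    (r ^ 2 * g r * uu g r ^ 2 * (deriv (deriv θ) r * AA g r
        + deriv θ r / r * (5 * AA g r - aa g r))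
      + 4 / 3 * (deriv θ r * g r * (om g r * (r ^ 3 * g r - 3 * NN g r) - Fi g 0 r))
      + g r ^ 2 * (r ^ 2 * deriv (deriv θ) r - 4 * r * deriv θ r)
      - 6 * g r * (deriv (deriv θ) r / r - deriv θ r / r ^ 2) * NN g r)

/-- the explicit form of `dFI` -/
noncomputable def RF (θ g : ℝ → ℝ) : ℝ :=
  ∫ r in Ioi (0 : ℝ),
    (-2 * (θ r * r ^ 2 * g r * AA g r * (deriv (uu g) r ^ 2 + 2 * uu g r ^ 2 / r ^ 2))
      + 2 * (θ r * (EE g r / r ^ 2) * g r * uu g r * deriv (uu g) r)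
      - 4 * (θ r * (NN g r / r) * g r * uu g r ^ 2)
      + 4 * (θ r * r ^ 2 * g r ^ 2 * uu g r ^ 2)
      + g r * uu g r ^ 2 * (r ^ 2 * deriv (deriv θ) r * AA g r
          + r * deriv θ r * (5 * AA g r - aa g r)))

end Pool.Agent.LandauR
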