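import Pool.Agent.LandauR.RPsd

/-!
# LandauR, module REll: the coefficients are uniformly elliptic on compact sets

`f` a solution of class `SolW` which is not identically zero at any time.  Then for
`t ∈ [a, b] ⊂ (-∞, 0]` and `‖v‖ ≤ R` the matrix `abar (f t) i j v` is at least `lam > 0`.

Proof.  For fixed `(t, v)` and `y ≠ 0`:
`Q(t, v, y) := ∑ᵢⱼ abar (f t) i j v yᵢ yⱼ = ∫ q(v - w, y) f t w dw`, where
`q(z, y) = ∑ᵢⱼ aK i j z yᵢ yⱼ = (1/8π) (‖y‖² / ‖z‖ - ⟪z, y⟫² / ‖z‖³) ≥ 0` (Cauchy-Schwarz), which is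
`0` for `z ≠ 0` only if `z ∈ ℝ y`.  Suppose the claim is false.  By homogeneity there are sequences
`tₙ ∈ [a, b]`, `‖vₙ‖ ≤ R`, `‖yₙ‖ = 1` with `Q(tₙ, vₙ, yₙ) ≤ 1 / (n + 1)`; pass to a convergent
subsequence `(t, v, y)` (`IsCompact.tendsto_subseq` on `Icc a b ×ˢ closedBall 0 R ×ˢ sphere 0 1`).
For every `w ≠ v` the integrand `q(vₙ - w, yₙ) f(tₙ, w)` converges to `q(v - w, y) f(t, w)` (`f` is
continuous on `Iic 0 ×ˢ univ`: `SolW.cont`), so by Fatou (`lintegral_liminf_le`, integrands `≥ 0`)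
`∫ q(v - w, y) f(t, w) dw ≤ 0`, hence `q(v - w, y) f t w = 0` for almost every `w`.  But
`f t` is continuous and positive at some point, so on a nonempty open set `U`, and
`{w ≠ v | q(v - w, y) > 0}` is the complement of the line `v + ℝ y` (open and dense), so the product
is positive on a nonempty open set, which has positive measure: contradiction.
-/

set_option autoImplicit false

namespace Pool.Agent.LandauR

open MeasureTheory Set Filter Topology Pool.Agent.Landau

/-- the quadratic form of the kernel -/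
noncomputable def qE (z y : V) : ℝ := ∑ i : Fin 3, ∑ j : Fin 3, aK i j z * (y i * y j)

theorem REll_q_eq (z y : V) : qE z y =
    (1 / (8 * Real.pi)) * (‖y‖ ^ 2 / ‖z‖ -
      (z 0 * y 0 + z 1 * y 1 + z 2 * y 2) ^ 2 / ‖z‖ ^ 3) := by
  have hy : ‖y‖ ^ 2 = y 0 ^ 2 + y 1 ^ 2 + y 2 ^ 2 := by
    rw [EuclideanSpace.real_norm_sq_eq, Fin.sum_univ_three]
  rw [hy]
  unfold qE aK
  simp only [Fin.sum_univ_three]
  simp
  ring

theorem REll_nonneg (z y : V) : 0 ≤ qE z y := by
  have h := kernel_quad_nonneg z (fun i => y i)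
  unfold qE
  refine h.trans (le_of_eq ?_)
  refine Finset.sum_congr rfl fun i _ => Finset.sum_congr rfl fun j _ => ?_
  ring

theorem REll_pos (z y : V) (h : ¬ (z 1 * y 2 - z 2 * y 1 = 0 ∧ z 2 * y 0 - z 0 * y 2 = 0 ∧
    z 0 * y 1 - z 1 * y 0 = 0)) : 0 < qE z y := by
  have hz : z ≠ 0 := by
    rintro rfl
    exact h (by simp)
  have hn : 0 < ‖z‖ := norm_pos_iff.mpr hz
  rw [REll_q_eq]
  have hy : ‖y‖ ^ 2 = y 0 ^ 2 + y 1 ^ 2 + y 2 ^ 2 := by
    rw [EuclideanSpace.real_norm_sq_eq, Fin.sum_univ_three]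
  have hz2 : ‖z‖ ^ 2 = z 0 ^ 2 + z 1 ^ 2 + z 2 ^ 2 := by
    rw [EuclideanSpace.real_norm_sq_eq, Fin.sum_univ_three]
  have e : ‖y‖ ^ 2 / ‖z‖ - (z 0 * y 0 + z 1 * y 1 + z 2 * y 2) ^ 2 / ‖z‖ ^ 3 =
      ((z 1 * y 2 - z 2 * y 1) ^ 2 + (z 2 * y 0 - z 0 * y 2) ^ 2 +
        (z 0 * y 1 - z 1 * y 0) ^ 2) / ‖z‖ ^ 3 := by
    have e1 : (z 1 * y 2 - z 2 * y 1) ^ 2 + (z 2 * y 0 - z 0 * y 2) ^ 2 +
        (z 0 * y 1 - z 1 * y 0) ^ 2 =
        ‖y‖ ^ 2 * ‖z‖ ^ 2 - (z 0 * y 0 + z 1 * y 1 + z 2 * y 2) ^ 2 := by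
      rw [hy, hz2]
      ring
    rw [e1]
    field_simp
  rw [e]
  have hpos : 0 < (z 1 * y 2 - z 2 * y 1) ^ 2 + (z 2 * y 0 - z 0 * y 2) ^ 2 +
      (z 0 * y 1 - z 1 * y 0) ^ 2 := by
    by_contra hc
    push Not at hc
    have a1 := sq_nonneg (z 1 * y 2 - z 2 * y 1)
    have a2 := sq_nonneg (z 2 * y 0 - z 0 * y 2)
    have a3 := sq_nonneg (z 0 * y 1 - z 1 * y 0)
    refine h ⟨?_, ?_, ?_⟩
    · exact pow_eq_zero_iff (two_ne_zero) |>.mp (le_antisymm (by linarith) a1)
    · exact pow_eq_zero_iff (two_ne_zero) |>.mp (le_antisymm (by linarith) a2)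
    · exact pow_eq_zero_iff (two_ne_zero) |>.mp (le_antisymm (by linarith) a3)
  have hpi := Real.pi_pos
  positivity

theorem REll_cont {z y : V} (hz : z ≠ 0) : ContinuousAt (fun p : V × V => qE p.1 p.2) (z, y) := by
  have e : (fun p : V × V => qE p.1 p.2) = fun p : V × V =>
      (1 / (8 * Real.pi)) * (‖p.2‖ ^ 2 / ‖p.1‖ -
        (p.1 0 * p.2 0 + p.1 1 * p.2 1 + p.1 2 * p.2 2) ^ 2 / ‖p.1‖ ^ 3) := by
    funext p
    exact REll_q_eq p.1 p.2
  rw [e]
  have hn : ‖z‖ ≠ 0 := norm_ne_zero_iff.mpr hz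
  have c1 : ∀ i : Fin 3, Continuous fun p : V × V => p.1 i := fun i =>
    (coord_cont i).comp continuous_fst
  have c2 : ∀ i : Fin 3, Continuous fun p : V × V => p.2 i := fun i =>
    (coord_cont i).comp continuous_snd
  refine ContinuousAt.mul continuousAt_const (ContinuousAt.sub (ContinuousAt.div ?_ ?_ hn)
    (ContinuousAt.div ?_ ?_ (pow_ne_zero 3 hn)))
  · exact (continuous_snd.norm.pow 2).continuousAt
  · exact continuous_fst.norm.continuousAt
  · exact (((((c1 0).mul (c2 0)).add ((c1 1).mul (c2 1))).add ((c1 2).mul (c2 2))).pow 2).continuousAt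
  · exact (continuous_fst.norm.pow 3).continuousAt

theorem REll_meas (v y : V) : Measurable fun w : V => qE (v - w) y := by
  unfold qE
  refine Finset.measurable_fun_sum _ fun i _ => Finset.measurable_fun_sum _ fun j _ => ?_
  exact ((aK_measurable i j).comp (measurable_const.sub measurable_id)).mul_const _

theorem REll_int (g : V → ℝ) (hg : Clw g) (i j : Fin 3) (v : V) :
    Integrable (fun w => aK i j (v - w) * g w) := by
  refine (pot_int g hg v).mono' ?_ (Eventually.of_forall fun w => ?_)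
  · exact ((aK_measurable i j).comp
      (measurable_const.sub measurable_id)).aestronglyMeasurable.mul hg.cont.aestronglyMeasurable
  · rw [Real.norm_eq_abs, abs_mul, abs_of_nonneg (hg.nonneg w)]
    calc |aK i j (v - w)| * g w ≤ 1 / ‖v - w‖ * g w :=
          mul_le_mul_of_nonneg_right (aK_abs i j _) (hg.nonneg w)
      _ = g w / ‖v - w‖ := by ring

theorem REll_fun (g : V → ℝ) (v y : V) : (fun w => qE (v - w) y * g w) =
    fun w => ∑ i : Fin 3, ∑ j : Fin 3, (aK i j (v - w) * g w) * (y i * y j) := by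
  funext w
  unfold qE
  rw [Finset.sum_mul]
  refine Finset.sum_congr rfl fun i _ => ?_
  rw [Finset.sum_mul]
  refine Finset.sum_congr rfl fun j _ => ?_
  ring

theorem REll_Qint (g : V → ℝ) (hg : Clw g) (v y : V) :
    Integrable (fun w => qE (v - w) y * g w) := by
  rw [REll_fun]
  exact integrable_finsetSum _ fun i _ => integrable_finsetSum _ fun j _ =>
    (REll_int g hg i j v).mul_const _

theorem REll_Q (g : V → ℝ) (hg : Clw g) (v y : V) :
    ∑ i : Fin 3, ∑ j : Fin 3, abar g i j v * (y i * y j) = ∫ w, qE (v - w) y * g w := by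
  rw [REll_fun, integral_finsetSum _ fun i _ => integrable_finsetSum _ fun j _ =>
    (REll_int g hg i j v).mul_const _]
  refine Finset.sum_congr rfl fun i _ => ?_
  rw [integral_finsetSum _ fun j _ => (REll_int g hg i j v).mul_const _]
  refine Finset.sum_congr rfl fun j _ => ?_
  rw [integral_mul_const]
  rfl

theorem REll_point (g : V → ℝ) (hg : Continuous g) (w0 : V) (h0 : 0 < g w0) (v y : V)
    (hy : y ≠ 0) : ∃ w, 0 < g w ∧ 0 < qE (v - w) y := by
  by_contra hcon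
  push Not at hcon
  have key : ∀ w, 0 < g w → (v - w) 1 * y 2 - (v - w) 2 * y 1 = 0 ∧
      (v - w) 2 * y 0 - (v - w) 0 * y 2 = 0 ∧ (v - w) 0 * y 1 - (v - w) 1 * y 0 = 0 := by
    intro w hw
    by_contra hc
    exact absurd (REll_pos (v - w) y hc) (not_lt.mpr (hcon w hw))
  have step : ∀ k : Fin 3, ∃ τ : ℝ, τ ≠ 0 ∧
      0 < g (w0 + τ • (EuclideanSpace.single k 1 : V)) := by
    intro k
    have hc : Continuous fun τ : ℝ => g (w0 + τ • (EuclideanSpace.single k 1 : V)) := by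
      fun_prop
    have h1 : 0 < g (w0 + (0 : ℝ) • (EuclideanSpace.single k 1 : V)) := by simpa using h0
    have h2 := hc.continuousAt.eventually (lt_mem_nhds h1)
    obtain ⟨δ, hδ, hb⟩ := Metric.eventually_nhds_iff.mp h2
    refine ⟨δ / 2, by positivity, hb ?_⟩
    rw [dist_zero_right, Real.norm_eq_abs, abs_of_pos (by positivity)]
    linarith
  have k0 := key w0 h0
  have hy0 : y = 0 := by
    obtain ⟨τ, hτ, h1⟩ := step 0
    obtain ⟨σ, hσ, h2⟩ := step 1
    have k1 := key _ h1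
    have k2 := key _ h2
    simp at k0 k1 k2
    have a1 : y 1 = 0 := by
      have h3 : τ * y 1 = 0 := by linarith [k0.2.2, k1.2.2]
      exact (mul_eq_zero.mp h3).resolve_left hτ
    have a2 : y 2 = 0 := by
      have h3 : τ * y 2 = 0 := by linarith [k0.2.1, k1.2.1]
      exact (mul_eq_zero.mp h3).resolve_left hτ
    have a0 : y 0 = 0 := by
      have h3 : σ * y 0 = 0 := by linarith [k0.2.2, k2.2.2]
      exact (mul_eq_zero.mp h3).resolve_left hσ
    ext i
    fin_cases i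
    · exact a0
    · exact a1
    · exact a2
  exact hy hy0

theorem ell_low (f : ℝ → V → ℝ) (hf : SolW f) (hne : ∀ t ≤ 0, ∃ v, f t v ≠ 0) (a b R : ℝ)
    (hb : b ≤ 0) :
    ∃ lam : ℝ, 0 < lam ∧ ∀ t ∈ Icc a b, ∀ v : V, ‖v‖ ≤ R → ∀ y : V,
      lam * ‖y‖ ^ 2 ≤ ∑ i : Fin 3, ∑ j : Fin 3, abar (f t) i j v * (y i * y j) := by
  by_contra hcon
  have hcon' : ∀ n : ℕ, ∃ p : ℝ × V × V, p ∈ (Icc a b) ×ˢ (Metric.closedBall (0 : V) R ×ˢ
      Metric.sphere (0 : V) 1) ∧ ∑ i : Fin 3, ∑ j : Fin 3,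
        abar (f p.1) i j p.2.1 * (p.2.2 i * p.2.2 j) < 1 / ((n : ℝ) + 1) := by
    intro n
    by_contra hn
    push Not at hn
    refine hcon ⟨1 / ((n : ℝ) + 1), by positivity, fun t ht v hv y => ?_⟩
    rcases eq_or_ne y 0 with rfl | hy
    · simp
    · have hny : 0 < ‖y‖ := norm_pos_iff.mpr hy
      have h1 := hn (t, v, ‖y‖⁻¹ • y) ⟨ht, by simpa using hv, by
        rw [mem_sphere_zero_iff_norm, norm_smul, norm_inv, norm_norm,
          inv_mul_cancel₀ hny.ne']⟩
      have e : ∑ i : Fin 3, ∑ j : Fin 3, abar (f t) i j v * (y i * y j) =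
          (∑ i : Fin 3, ∑ j : Fin 3, abar (f t) i j v *
            ((‖y‖⁻¹ • y) i * (‖y‖⁻¹ • y) j)) * ‖y‖ ^ 2 := by
        rw [Finset.sum_mul]
        refine Finset.sum_congr rfl fun i _ => ?_
        rw [Finset.sum_mul]
        refine Finset.sum_congr rfl fun j _ => ?_
        simp only [PiLp.smul_apply, smul_eq_mul]
        field_simp
      rw [e]
      exact mul_le_mul_of_nonneg_right h1 (by positivity)
  choose p hp hQ using hcon'
  have hK : IsCompact ((Icc a b) ×ˢ (Metric.closedBall (0 : V) R ×ˢ Metric.sphere (0 : V) 1)) :=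
    isCompact_Icc.prod ((isCompact_closedBall _ _).prod (isCompact_sphere _ _))
  obtain ⟨⟨t, v, y⟩, hl, φ, hφ, hlim⟩ := hK.tendsto_subseq hp
  have ht : t ∈ Icc a b := hl.1
  have ht0 : t ≤ 0 := ht.2.trans hb
  have hy : y ≠ 0 := by
    have h1 : ‖y‖ = 1 := by simpa using hl.2.2
    intro h2
    rw [h2, norm_zero] at h1
    exact zero_ne_one h1
  have lt : Tendsto (fun n => (p (φ n)).1) atTop (𝓝 t) :=
    (continuous_fst.tendsto _).comp hlim
  have lv : Tendsto (fun n => (p (φ n)).2.1) atTop (𝓝 v) :=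
    ((continuous_fst.comp continuous_snd).tendsto _).comp hlim
  have ly : Tendsto (fun n => (p (φ n)).2.2) atTop (𝓝 y) :=
    ((continuous_snd.comp continuous_snd).tendsto _).comp hlim
  have hp0 : ∀ n, (p (φ n)).1 ≤ 0 := fun n => (hp (φ n)).1.2.trans hb
  -- the integrands
  set F : ℕ → V → ENNReal := fun n w =>
    ENNReal.ofReal (qE ((p (φ n)).2.1 - w) (p (φ n)).2.2 * f (p (φ n)).1 w) with hF
  have hFm : ∀ n, Measurable (F n) := fun n =>
    ((REll_meas _ _).mul (hf.cls _ (hp0 n)).cont.measurable).ennreal_ofReal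
  have hFi : ∀ n, ∫⁻ w, F n w ≤ ENNReal.ofReal (1 / ((φ n : ℝ) + 1)) := by
    intro n
    have hc := hf.cls _ (hp0 n)
    have h1 := ofReal_integral_eq_lintegral_ofReal (REll_Qint _ hc (p (φ n)).2.1 (p (φ n)).2.2)
      (Eventually.of_forall fun w => mul_nonneg (REll_nonneg _ _) (hc.nonneg w))
    calc ∫⁻ w, F n w = ENNReal.ofReal (∫ w, qE ((p (φ n)).2.1 - w) (p (φ n)).2.2 *
            f (p (φ n)).1 w) := h1.symm
      _ ≤ _ := by
          refine ENNReal.ofReal_le_ofReal ?_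
          rw [← REll_Q _ hc]
          exact (hQ (φ n)).le
  have hlimF : ∀ w, w ≠ v → Tendsto (fun n => F n w) atTop
      (𝓝 (ENNReal.ofReal (qE (v - w) y * f t w))) := by
    intro w hw
    have g1 : Tendsto (fun n => qE ((p (φ n)).2.1 - w) (p (φ n)).2.2) atTop
        (𝓝 (qE (v - w) y)) := by
      have h1 : Tendsto (fun n => ((p (φ n)).2.1 - w, (p (φ n)).2.2)) atTop (𝓝 (v - w, y)) :=
        (lv.sub_const w).prodMk_nhds ly
      have h2 : Tendsto (fun q : V × V => qE q.1 q.2) (𝓝 (v - w, y)) (𝓝 (qE (v - w) y)) :=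
        REll_cont (sub_ne_zero.mpr hw.symm)
      have h3 := h2.comp h1
      exact h3
    have g2 : Tendsto (fun n => f (p (φ n)).1 w) atTop (𝓝 (f t w)) := by
      have h1 : Tendsto (fun n => ((p (φ n)).1, w)) atTop (𝓝[Iic (0 : ℝ) ×ˢ univ] (t, w)) := by
        refine tendsto_nhdsWithin_iff.mpr ⟨lt.prodMk_nhds tendsto_const_nhds, ?_⟩
        exact Eventually.of_forall fun n => ⟨hp0 n, mem_univ _⟩
      have h2 : Tendsto (fun q : ℝ × V => f q.1 q.2) (𝓝[Iic (0 : ℝ) ×ˢ univ] (t, w))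
          (𝓝 (f t w)) := hf.cont (t, w) ⟨ht0, mem_univ _⟩
      have h3 := h2.comp h1
      exact h3
    have g3 := g1.mul g2
    have g4 := (ENNReal.continuous_ofReal.tendsto (qE (v - w) y * f t w)).comp g3
    exact g4
  have hfatou := lintegral_liminf_le (μ := (volume : Measure V)) (u := atTop) hFm
  have hzero : liminf (fun n => ∫⁻ w, F n w) atTop = 0 := by
    have h1 : Tendsto (fun n : ℕ => ENNReal.ofReal (1 / ((φ n : ℝ) + 1))) atTop (𝓝 0) := by
      have h2 : Tendsto (fun n : ℕ => 1 / ((φ n : ℝ) + 1)) atTop (𝓝 0) :=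
        (tendsto_one_div_add_atTop_nhds_zero_nat (𝕜 := ℝ)).comp hφ.tendsto_atTop
      have h3 := (ENNReal.continuous_ofReal.tendsto 0).comp h2
      rwa [ENNReal.ofReal_zero] at h3
    exact (tendsto_of_tendsto_of_tendsto_of_le_of_le tendsto_const_nhds h1
      (fun _ => bot_le) hFi).liminf_eq
  rw [hzero] at hfatou
  have hae : ∀ᵐ w : V, liminf (fun n => F n w) atTop = 0 := by
    have h1 : ∫⁻ w : V, liminf (fun n => F n w) atTop = 0 := le_antisymm hfatou bot_le
    exact (lintegral_eq_zero_iff (Measurable.liminf hFm)).mp h1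
  have hae2 : ∀ᵐ w : V, qE (v - w) y * f t w ≤ 0 := by
    have hne : ∀ᵐ w : V, w ≠ v := by
      rw [ae_iff]
      simp
    filter_upwards [hae, hne] with w h1 h2
    rw [(hlimF w h2).liminf_eq] at h1
    exact ENNReal.ofReal_eq_zero.mp h1
  -- a point where the integrand is positive
  have hct := hf.cls t ht0
  obtain ⟨w0, hw0⟩ := hne t ht0
  have hw0' : 0 < f t w0 := lt_of_le_of_ne (hct.nonneg w0) (Ne.symm hw0)
  obtain ⟨w, hw1, hw2⟩ := REll_point (f t) hct.cont w0 hw0' v y hy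
  have hwv : v - w ≠ 0 := by
    intro h1
    rw [h1, REll_q_eq] at hw2
    simp at hw2
  have hcont : ContinuousAt (fun w' => qE (v - w') y * f t w') w := by
    have h1 : ContinuousAt (fun w' : V => (v - w', y)) w := by fun_prop
    have h2 : ContinuousAt (fun w' : V => qE (v - w') y) w :=
      ContinuousAt.comp (g := fun q : V × V => qE q.1 q.2) (f := fun w' : V => (v - w', y))
        (REll_cont hwv) h1
    exact h2.mul hct.cont.continuousAt
  have hpos : 0 < qE (v - w) y * f t w := mul_pos hw2 hw1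
  have hev := hcont.eventually (lt_mem_nhds hpos)
  obtain ⟨U, hU, hUo, hwU⟩ := eventually_nhds_iff.mp hev
  have hUpos : 0 < volume U := hUo.measure_pos volume ⟨w, hwU⟩
  have hUnull : volume U = 0 := by
    refine measure_mono_null ?_ (ae_iff.mp hae2)
    intro z hz
    exact not_le.mpr (hU z hz)
  rw [hUnull] at hUpos
  exact lt_irrefl _ hUpos

end Pool.Agent.LandauR
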