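import Pool.Agent.LandauR.RMass

/-!
# LandauR, module REnerA: change of the truncated tail energy; summability of the windows

`ener_diff`: `mom_diff`, `phiE_tst` and `weak_bd2`, with `M` the bound of `r aa`.

`windows`: let `M` be the bound of `mass_all` at the time `-1` (`r aa (g τ) r ≤ M` for `τ ≤ -1`, hence
`NN (g τ) r ≤ M`), `i₀ = Fit (g (-1)) 0 > 0`, `R₀ ≥ 1` large.  Put `T k = (2^k R₀)³`, the window
`W_k = [-T (k+1), -T k]`, of length `7 T k`, and the radius `ρ_k = 2^k R₀/4`.  Let `C₂` be the constant of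
`fisher_tail`.  For `τ ∈ W_k`: `Fit (g τ) (ρ_k/2) ≤ C₂ aa/(ρ_k/2) ≤ 4 C₂ M/ρ_k² =: δ_k`,
`NN/ρ_k³ · Fit (g τ) ρ_k ≤ (M/ρ_k³)(C₂ M/ρ_k²) = C₂ M²/ρ_k⁵ =: e_k`, `e_k |W_k| = 448 C₂ M²/ρ_k²`
(`T k = 64 ρ_k³`).  `E_k = Σ_{j<k} e_j |W_j| ≤ C M²/R₀²`.  For `R₀` large, `δ_k + E_k + e_k |W_k| ≤ i₀/4 ≤
Fit (g (-T k)) 0 / 4` (`Fit_anti`).  `window` on `W_k` with `R = ρ_k`, `E = E_k`:
`c ∫_{W_k} PP/NN ≤ 1/(F_k + E_k) - 1/(F_{k+1} + E_{k+1})`, `F_k = Fit (g (-T k)) 0`.  Sum over `k < n`: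
`≤ 1/(F_0 + 0) ≤ 1/i₀`; and `PP ≤ M (PP/NN)`.
-/

set_option autoImplicit false

namespace Pool.Agent.LandauR

open MeasureTheory Set Filter Topology

theorem ener_diff : ∃ C : ℝ, 0 < C ∧ ∀ g : ℝ → ℝ → ℝ, RSol g → ∀ M t : ℝ, t < 0 →
    (∀ s, s ≤ t → ∀ r, 0 < r → r * aa (g s) r ≤ M) → ∀ R n s₁ s₂ : ℝ, 0 < R → 0 < n →
      s₁ ≤ s₂ → s₂ ≤ t →
      |mom (phiE R n) (g s₂) - mom (phiE R n) (g s₁)| ≤
        C * M * ∫ τ in s₁..s₂, PP (g τ) R := by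
  obtain ⟨B, hB, hph⟩ := phiE_tst
  refine ⟨4 * B, by positivity, ?_⟩
  intro g hg M t ht hM R n s₁ s₂ hR hn h12 h2t
  obtain ⟨hT, h0, h1⟩ := hph R n hR hn
  have h2 : s₂ < 0 := lt_of_le_of_lt h2t ht
  rw [mom_diff hg hT h12 h2]
  have hsub : Icc s₁ s₂ ⊆ Iio (0 : ℝ) := fun x hx => lt_of_le_of_lt hx.2 h2
  have hiP : IntervalIntegrable (fun τ => PP (g τ) R) volume s₁ s₂ := by
    apply ContinuousOn.intervalIntegrable
    rw [uIcc_of_le h12]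
    exact (cont_PP hg hR.le).mono hsub
  have hid : IntervalIntegrable (fun τ => dmom (phiE R n) (g τ)) volume s₁ s₂ := by
    apply ContinuousOn.intervalIntegrable
    rw [uIcc_of_le h12]
    exact (dmom_cont hg hT).mono hsub
  have key : ∀ τ ∈ Icc s₁ s₂, |dmom (phiE R n) (g τ)| ≤ 4 * B * (M * PP (g τ) R) := by
    intro τ hτ
    exact weak_bd2 (hg.prof τ (hsub hτ)) hT hR hB.le h0 (fun r hr => (h1 r hr).1)
      (fun r hr => (h1 r hr).2) (fun r hr => hM τ (hτ.2.trans h2t) r (hR.trans_le hr))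
  calc |∫ τ in s₁..s₂, dmom (phiE R n) (g τ)|
      ≤ ∫ τ in s₁..s₂, |dmom (phiE R n) (g τ)| :=
        intervalIntegral.abs_integral_le_integral_abs h12
    _ ≤ ∫ τ in s₁..s₂, 4 * B * (M * PP (g τ) R) :=
        intervalIntegral.integral_mono_on h12 hid.abs ((hiP.const_mul M).const_mul (4 * B)) key
    _ = 4 * B * M * ∫ τ in s₁..s₂, PP (g τ) R := by
        rw [intervalIntegral.integral_const_mul, intervalIntegral.integral_const_mul]
        ring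

/-- one window: the general form, with the mass bound `M` and the radius `ρ` -/
theorem ren_window {c M C₂ i₀ : ℝ} (hc : 0 < c) (hM0 : 0 < M) (hC₂ : 0 < C₂)
    (hw : ∀ g : ℝ → ℝ → ℝ, RSol g → ∀ R s t δ e E : ℝ, 0 < R → s ≤ t →
      t < 0 → 0 ≤ δ → 0 ≤ e → 0 ≤ E →
      (∀ τ ∈ Icc s t, Fit (g τ) (R / 2) ≤ δ) →
      (∀ τ ∈ Icc s t, NN (g τ) R / R ^ 3 * Fit (g τ) R ≤ e) →
      δ + E + e * (t - s) ≤ Fit (g t) 0 / 4 →
      c * (∫ τ in s..t, PP (g τ) R / NN (g τ) R) ≤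
        1 / (Fit (g t) 0 + E) - 1 / (Fit (g s) 0 + E + e * (t - s)))
    (hf : ∀ g : ℝ → ℝ → ℝ, RSol g → ∀ t < 0,
      IntegrableOn (fun r => r ^ 2 * g t r * uu (g t) r ^ 2) (Ioi 0) ∧
        ∀ ρ : ℝ, 0 < ρ → Fit (g t) ρ ≤ C₂ * (aa (g t) ρ / ρ))
    {g : ℝ → ℝ → ℝ} (hg : RSol g)
    (hM : ∀ s, s ≤ -1 → ∀ r, 0 < r → r * aa (g s) r ≤ M)
    (hi : i₀ = Fit (g (-1)) 0) {ρ E s t : ℝ} (hρ : 0 < ρ) (hE : 0 ≤ E) (hst : s ≤ t)
    (ht : t ≤ -1)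
    (hb : 4 * C₂ * M / ρ ^ 2 + E + C₂ * M ^ 2 / ρ ^ 5 * (t - s) ≤ i₀ / 4) :
    c / M * (∫ τ in s..t, PP (g τ) ρ) ≤
      1 / (Fit (g t) 0 + E) - 1 / (Fit (g s) 0 + (E + C₂ * M ^ 2 / ρ ^ 5 * (t - s))) := by
  have ht0 : t < 0 := by linarith
  have hsub : Icc s t ⊆ Iio (0 : ℝ) := fun x hx => lt_of_le_of_lt hx.2 ht0
  have hfit : ∀ τ, τ ≤ -1 → ∀ r, 0 < r → Fit (g τ) r ≤ C₂ * M / r ^ 2 := by
    intro τ hτ r hr
    have h1 := (hf g hg τ (by linarith)).2 r hr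
    have h2 := hM τ hτ r hr
    refine h1.trans ?_
    rw [mul_div_assoc]
    refine mul_le_mul_of_nonneg_left ?_ hC₂.le
    rw [div_le_div_iff₀ hr (by positivity)]
    nlinarith
  have hNN : ∀ τ, τ ≤ -1 → NN (g τ) ρ ≤ M := by
    intro τ hτ
    have hp := hg.prof τ (by linarith)
    have h1 := raa_eq (g τ) hρ
    have h2 := hM τ hτ ρ hρ
    have h3 := PP_pos hp hρ.le
    nlinarith [mul_pos hρ h3]
  have h1 := hw g hg ρ s t (4 * C₂ * M / ρ ^ 2) (C₂ * M ^ 2 / ρ ^ 5) E hρ hst ht0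
    (by positivity) (by positivity) hE ?_ ?_ ?_
  · have hiP : IntervalIntegrable (fun τ => PP (g τ) ρ) volume s t := by
      apply ContinuousOn.intervalIntegrable
      rw [uIcc_of_le hst]
      exact (cont_PP hg hρ.le).mono hsub
    have hiQ : IntervalIntegrable (fun τ => PP (g τ) ρ / NN (g τ) ρ) volume s t := by
      apply ContinuousOn.intervalIntegrable
      rw [uIcc_of_le hst]
      exact ((cont_PP hg hρ.le).mono hsub).div ((cont_NN hg ρ).mono hsub)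
        (fun τ hτ => (NN_pos (hg.prof τ (hsub hτ)) hρ).ne')
    have h2 : ∫ τ in s..t, PP (g τ) ρ ≤ ∫ τ in s..t, M * (PP (g τ) ρ / NN (g τ) ρ) := by
      refine intervalIntegral.integral_mono_on hst hiP (hiQ.const_mul M) ?_
      intro τ hτ
      have hp := hg.prof τ (hsub hτ)
      have h3 := NN_pos hp hρ
      have h4 := PP_pos hp hρ.le
      have h5 := hNN τ (hτ.2.trans ht)
      rw [mul_div_assoc', le_div_iff₀ h3]
      nlinarith
    rw [intervalIntegral.integral_const_mul] at h2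
    have h6 : c / M * (∫ τ in s..t, PP (g τ) ρ) ≤
        c * (∫ τ in s..t, PP (g τ) ρ / NN (g τ) ρ) := by
      calc c / M * (∫ τ in s..t, PP (g τ) ρ)
          ≤ c / M * (M * ∫ τ in s..t, PP (g τ) ρ / NN (g τ) ρ) :=
            mul_le_mul_of_nonneg_left h2 (by positivity)
        _ = c * (∫ τ in s..t, PP (g τ) ρ / NN (g τ) ρ) := by
            field_simp
    refine h6.trans (h1.trans (le_of_eq ?_))
    rw [add_assoc]
  · intro τ hτ
    refine (hfit τ (hτ.2.trans ht) (ρ / 2) (by positivity)).trans (le_of_eq ?_)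
    field_simp
    ring
  · intro τ hτ
    have hτ1 : τ ≤ -1 := hτ.2.trans ht
    have hp := hg.prof τ (by linarith)
    have h3 := hfit τ hτ1 ρ hρ
    have h4 := hNN τ hτ1
    have h5 := NN_pos hp hρ
    calc NN (g τ) ρ / ρ ^ 3 * Fit (g τ) ρ ≤ M / ρ ^ 3 * (C₂ * M / ρ ^ 2) := by
          refine mul_le_mul ?_ h3 (Fit_nonneg hp ρ) (by positivity)
          exact div_le_div_of_nonneg_right h4 (by positivity)
      _ = C₂ * M ^ 2 / ρ ^ 5 := by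
          field_simp
  · refine hb.trans ?_
    have h7 := Fit_anti hg ht (by norm_num : (-1 : ℝ) < 0)
    rw [hi]
    linarith

theorem windows {g : ℝ → ℝ → ℝ} (hg : RSol g) : ∃ R₀ S : ℝ, 1 ≤ R₀ ∧ 0 < S ∧ ∀ n : ℕ,
    ∑ k ∈ Finset.range n, ∫ τ in (-((2 ^ (k + 1) * R₀) ^ 3))..(-((2 ^ k * R₀) ^ 3)),
      PP (g τ) (2 ^ k * R₀ / 4) ≤ S := by
  obtain ⟨M, hM0, hM⟩ := mass_all hg (t := -1) (by norm_num)
  obtain ⟨C₂, hC₂, hf⟩ := fisher_tail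
  obtain ⟨c, hc, hw⟩ := window
  have hi0 : 0 < Fit (g (-1)) 0 := Fit_pos hg (by norm_num)
  obtain ⟨i₀, hi⟩ : ∃ i₀, i₀ = Fit (g (-1)) 0 := ⟨_, rfl⟩
  rw [← hi] at hi0
  set D : ℝ := 4 * (64 * C₂ * M + 10000 * C₂ * M ^ 2) / i₀ with hD
  set R₀ : ℝ := max 1 D with hR₀
  have hR1 : 1 ≤ R₀ := le_max_left _ _
  have hRD : D ≤ R₀ := le_max_right _ _
  have hRpos : 0 < R₀ := by linarith
  have hbig : (64 * C₂ * M + 10000 * C₂ * M ^ 2) / R₀ ^ 2 ≤ i₀ / 4 := by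
    have h1 : D ≤ R₀ ^ 2 := by nlinarith
    rw [hD, div_le_iff₀ hi0] at h1
    rw [div_le_div_iff₀ (by positivity) (by norm_num)]
    linarith
  set A : ℝ := 7168 * C₂ * M ^ 2 / R₀ ^ 2 with hA
  have hApos : 0 < A := by positivity
  set E : ℕ → ℝ := fun k => 4 / 3 * A * (1 - (1 / 4 : ℝ) ^ k) with hE
  have hq : ∀ k : ℕ, 0 < (1 / 4 : ℝ) ^ k := fun k => by positivity
  have hq1 : ∀ k : ℕ, (1 / 4 : ℝ) ^ k ≤ 1 := fun k => pow_le_one₀ (by norm_num) (by norm_num)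
  have hEnn : ∀ k, 0 ≤ E k := by
    intro k
    have := hq1 k
    exact mul_nonneg (by positivity) (by linarith)
  have hEle : ∀ k, E k ≤ 4 / 3 * A := by
    intro k
    have := hq k
    have h2 : (1 - (1 / 4 : ℝ) ^ k) ≤ 1 := by linarith
    calc E k ≤ 4 / 3 * A * 1 := mul_le_mul_of_nonneg_left h2 (by positivity)
      _ = 4 / 3 * A := by ring
  set T : ℕ → ℝ := fun k => -((2 ^ k * R₀) ^ 3) with hT
  have hT1 : ∀ k, T k ≤ -1 := by
    intro k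
    have h1 : (1 : ℝ) ≤ 2 ^ k * R₀ := by
      have : (1 : ℝ) ≤ 2 ^ k := one_le_pow₀ (by norm_num)
      nlinarith
    have h2 : (1 : ℝ) ≤ (2 ^ k * R₀) ^ 3 := one_le_pow₀ h1
    simp only [hT]
    linarith
  have hTs : ∀ k, T (k + 1) ≤ T k := by
    intro k
    simp only [hT]
    have h1 : 0 < (2 ^ k * R₀) ^ 3 := by positivity
    have h2 : (2 ^ (k + 1) * R₀) ^ 3 = 8 * (2 ^ k * R₀) ^ 3 := by ring
    rw [h2]
    linarith
  have h4k : ∀ k : ℕ, ((2 : ℝ) ^ k) ^ 2 * (1 / 4 : ℝ) ^ k = 1 := by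
    intro k
    rw [← pow_mul, mul_comm k 2, pow_mul, ← mul_pow]
    norm_num
  have hstep : ∀ k, C₂ * M ^ 2 / (2 ^ k * R₀ / 4) ^ 5 * (T k - T (k + 1)) =
      A * (1 / 4 : ℝ) ^ k := by
    intro k
    have h1 := h4k k
    have h2 : (2 : ℝ) ^ k ≠ 0 := by positivity
    have h3 : (1 / 4 : ℝ) ^ k = 1 / ((2 : ℝ) ^ k) ^ 2 := by
      rw [eq_div_iff (by positivity)]
      linarith
    rw [h3]
    simp only [hT, hA, pow_succ]
    field_simp
    ring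
  have hsucc : ∀ k, E (k + 1) = E k + A * (1 / 4 : ℝ) ^ k := by
    intro k
    simp only [hE, pow_succ]
    ring
  have hdel : ∀ k, 4 * C₂ * M / (2 ^ k * R₀ / 4) ^ 2 ≤ 64 * C₂ * M / R₀ ^ 2 := by
    intro k
    have h1 : (1 : ℝ) ≤ 2 ^ k := one_le_pow₀ (by norm_num)
    have h2 : (1 : ℝ) ≤ (2 ^ k) ^ 2 := one_le_pow₀ h1
    rw [div_le_div_iff₀ (by positivity) (by positivity)]
    have h3 : 64 * C₂ * M * (2 ^ k * R₀ / 4) ^ 2 = 4 * C₂ * M * R₀ ^ 2 * (2 ^ k) ^ 2 := by ring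
    rw [h3]
    have h4 : 0 ≤ 4 * C₂ * M * R₀ ^ 2 := by positivity
    nlinarith
  have hone : ∀ k : ℕ, c / M * (∫ τ in (T (k + 1))..(T k), PP (g τ) (2 ^ k * R₀ / 4)) ≤
      1 / (Fit (g (T k)) 0 + E k) - 1 / (Fit (g (T (k + 1))) 0 + E (k + 1)) := by
    intro k
    have h1 := ren_window hc hM0 hC₂ hw hf hg hM hi (ρ := 2 ^ k * R₀ / 4) (E := E k)
      (s := T (k + 1)) (t := T k) (by positivity) (hEnn k) (hTs k) (hT1 k) ?_
    · rw [hstep k, ← hsucc k] at h1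
      exact h1
    · rw [hstep k, add_assoc, ← hsucc k]
      refine le_trans (add_le_add (hdel k) (hEle (k + 1))) (le_trans ?_ hbig)
      rw [hA]
      have h5 : 0 ≤ C₂ * M ^ 2 / R₀ ^ 2 := by positivity
      have h6 : 64 * C₂ * M / R₀ ^ 2 + 4 / 3 * (7168 * C₂ * M ^ 2 / R₀ ^ 2) =
          64 * C₂ * M / R₀ ^ 2 + 4 / 3 * 7168 * (C₂ * M ^ 2 / R₀ ^ 2) := by ring
      have h7 : (64 * C₂ * M + 10000 * C₂ * M ^ 2) / R₀ ^ 2 =
          64 * C₂ * M / R₀ ^ 2 + 10000 * (C₂ * M ^ 2 / R₀ ^ 2) := by ring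
      rw [h6, h7]
      nlinarith
  have hsum : ∀ n : ℕ, c / M * ∑ k ∈ Finset.range n,
      (∫ τ in (T (k + 1))..(T k), PP (g τ) (2 ^ k * R₀ / 4)) ≤
        1 / (Fit (g (T 0)) 0 + E 0) - 1 / (Fit (g (T n)) 0 + E n) := by
    intro n
    induction n with
    | zero => simp
    | succ n ih =>
      rw [Finset.sum_range_succ, mul_add]
      have := hone n
      linarith
  refine ⟨R₀, M / (c * i₀), hR1, by positivity, fun n => ?_⟩
  have h1 := hsum n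
  have hF : ∀ k, i₀ ≤ Fit (g (T k)) 0 := by
    intro k
    rw [hi]
    exact Fit_anti hg (hT1 k) (by norm_num)
  have h2 : 0 ≤ 1 / (Fit (g (T n)) 0 + E n) := by
    have h3 := hF n
    have h4 := hEnn n
    exact div_nonneg zero_le_one (by linarith)
  have h3 : 1 / (Fit (g (T 0)) 0 + E 0) ≤ 1 / i₀ := by
    have h4 := hF 0
    have h5 := hEnn 0
    exact one_div_le_one_div_of_le hi0 (by linarith)
  have h4 : c / M * ∑ k ∈ Finset.range n,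
      (∫ τ in (T (k + 1))..(T k), PP (g τ) (2 ^ k * R₀ / 4)) ≤ 1 / i₀ := by linarith
  have h5 : ∑ k ∈ Finset.range n,
      (∫ τ in (T (k + 1))..(T k), PP (g τ) (2 ^ k * R₀ / 4)) ≤ M / (c * i₀) := by
    rw [le_div_iff₀ (by positivity)]
    generalize ∑ k ∈ Finset.range n,
      (∫ τ in (T (k + 1))..(T k), PP (g τ) (2 ^ k * R₀ / 4)) = Q at h4 ⊢
    have h6 : 0 < M * i₀ := by positivity
    have h7 := mul_le_mul_of_nonneg_left h4 h6.le
    have h8 : M * i₀ * (c / M * Q) = Q * (c * i₀) := by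
      field_simp
    have h9 : M * i₀ * (1 / i₀) = M := by field_simp
    rw [h8, h9] at h7
    exact h7
  exact h5

end Pool.Agent.LandauR
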