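import Pool.Agent.LandauR.REnerA

/-!
# LandauR, module REnerB: finite energy at one time

Write `R_k = 2^k R₀`, `W_k = [-R_{k+1}³, -R_k³]` (length `7 R_k³`), `ρ_k = R_k/4`,
`x_k = ∫_{W_k} PP (g τ) ρ_k dτ ≥ 0`, `Σ x_k ≤ S` (`windows`), `σ_k = R_k/2`, `q_k τ = mom (phiE σ_k n) (g τ)`
(`n > 0` fixed); `M` bounds `r aa (g τ) r` for `τ ≤ -1` (`mass_all`).

Choose `t_k ∈ W_k` with `|W_k| PP (g t_k) ρ_k ≤ x_k` (mean value; independent of `n`).

(a) far: `q_N t_N ≤ (2n)³ PP (g t_N) σ_N ≤ (2n)³ x_N/|W_N| ≤ (2n)³ S/(7 R_N³) → 0` as `N → ∞`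
    (`dn (r/n) = 0` for `r ≥ 2n`, `up (r/σ) = 0` for `r ≤ σ`, `r⁴ ≤ (2n)³ r`).
(b) step: on `[t_{k+1}, t_k] ⊆ W_{k+1} ∪ W_k`: `ener_diff` with `R = σ_k`:
    `q_k t_k ≤ q_k t_{k+1} + C M ∫_{t_{k+1}}^{t_k} PP (g τ) σ_k dτ ≤ q_k t_{k+1} + C M (x_{k+1} + x_k)`
    (`σ_k = ρ_{k+1}` and `σ_k ≥ ρ_k`).
(c) junction: `q_k t_{k+1} - q_{k+1} t_{k+1} ≤ ∫_{σ_k}^{2σ_{k+1}} r⁴ g ≤ (2σ_{k+1})³ PP (g t_{k+1}) σ_k`
    `= 8 R_k³ PP (g t_{k+1}) ρ_{k+1} ≤ 8 R_k³ x_{k+1}/(56 R_k³) ≤ x_{k+1}` (`σ_{k+1} = R_k`; `up` is monotone).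
Sum: `q_0 t_0 ≤ q_N t_N + Σ_k ((C M + 1) x_{k+1} + C M x_k) ≤ o(1) + (2 C M + 1) S`, for every `n`.
Let `n → ∞`: `∫_{2σ_0}^∞ r⁴ g (t_0) < ∞` (monotone convergence: `phiE σ_0 n r · r² = up dn r⁴`), and on
`(0, 2σ_0]` the integrand is continuous and bounded.
-/

set_option autoImplicit false

namespace Pool.Agent.LandauR

open MeasureTheory Set Filter Topology

theorem dn_nonneg' (x : ℝ) : 0 ≤ dn x := by
  unfold dn; linarith [up_le_one x]

theorem dn_le_one' (x : ℝ) : dn x ≤ 1 := by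
  unfold dn; linarith [up_nonneg x]

theorem dn_zero' {x : ℝ} (h : 2 ≤ x) : dn x = 0 := by
  unfold dn; rw [up_one h]; ring

theorem dn_one' {x : ℝ} (h : x ≤ 1) : dn x = 1 := by
  unfold dn; rw [up_zero h]; ring

theorem phiE_cont' (R n : ℝ) : Continuous (phiE R n) := by
  unfold phiE dn
  have h := up_smooth.continuous
  fun_prop

theorem phiE_nonneg' (R n r : ℝ) : 0 ≤ phiE R n r := by
  unfold phiE
  have h1 := up_nonneg (r / R)
  have h2 := dn_nonneg' (r / n)
  positivity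

/-- pointwise upper bound of the integrand -/
theorem phiE_pt {G : ℝ → ℝ} (hG : Prof G) {n r : ℝ} (R : ℝ) (hn : 0 < n) (hr : 0 < r) :
    phiE R n r * (r ^ 2 * G r) ≤ (2 * n) ^ 3 * (r * G r) := by
  have hg := hG.pos r
  by_cases h : 2 * n ≤ r
  · have : dn (r / n) = 0 := dn_zero' (by rw [le_div_iff₀ hn]; linarith)
    have h0 : phiE R n r = 0 := by unfold phiE; rw [this]; ring
    rw [h0]
    have : 0 ≤ (2 * n) ^ 3 * (r * G r) := by positivity
    linarith
  · push Not at h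
    have h1 := up_nonneg (r / R)
    have h2 := up_le_one (r / R)
    have h3 := dn_nonneg' (r / n)
    have h4 := dn_le_one' (r / n)
    have h5 : up (r / R) * dn (r / n) ≤ 1 := by nlinarith
    have h6 : phiE R n r ≤ r ^ 2 := by
      unfold phiE
      nlinarith [sq_nonneg r]
    have h7 : phiE R n r * (r ^ 2 * G r) ≤ r ^ 2 * (r ^ 2 * G r) := by
      apply mul_le_mul_of_nonneg_right h6
      positivity
    have h8 : r ^ 3 ≤ (2 * n) ^ 3 := pow_le_pow_left₀ hr.le h.le 3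
    have h9 : r ^ 2 * (r ^ 2 * G r) = r ^ 3 * (r * G r) := by ring
    rw [h9] at h7
    have h10 : r ^ 3 * (r * G r) ≤ (2 * n) ^ 3 * (r * G r) := by
      apply mul_le_mul_of_nonneg_right h8
      positivity
    linarith

theorem phiE_int {G : ℝ → ℝ} (hG : Prof G) {n : ℝ} (R : ℝ) (hn : 0 < n) :
    IntegrableOn (fun r => phiE R n r * (r ^ 2 * G r)) (Ioi 0) := by
  have h1 : IntegrableOn (fun r => (2 * n) ^ 3 * (r * G r)) (Ioi 0) :=
    (hG.int).const_mul _
  refine Integrable.mono' h1 ?_ ?_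
  · have hc : Continuous (fun r => phiE R n r * (r ^ 2 * G r)) := by
      have h2 := phiE_cont' R n
      have h3 := hG.smooth.continuous
      fun_prop
    exact hc.aestronglyMeasurable
  · refine (ae_restrict_iff' measurableSet_Ioi).2 (Eventually.of_forall ?_)
    intro r hr
    have hr' : 0 < r := hr
    rw [Real.norm_of_nonneg]
    · exact phiE_pt hG R hn hr'
    · have := phiE_nonneg' R n r
      have := (hG.pos r).le
      positivity

theorem phiE_zero' {R n r : ℝ} (hR : 0 < R) (h : r ≤ R) : phiE R n r = 0 := by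
  have : up (r / R) = 0 := up_zero (by rw [div_le_iff₀ hR]; linarith)
  unfold phiE; rw [this]; ring

/-- the far bound -/
theorem far_bd {G : ℝ → ℝ} (hG : Prof G) {R n : ℝ} (hR : 0 < R) (hn : 0 < n) :
    mom (phiE R n) G ≤ (2 * n) ^ 3 * PP G R := by
  unfold mom PP
  have hsub : Ioi R ⊆ Ioi (0 : ℝ) := Ioi_subset_Ioi hR.le
  have h1 : ∫ r in Ioi (0 : ℝ), phiE R n r * (r ^ 2 * G r)
      = ∫ r in Ioi R, phiE R n r * (r ^ 2 * G r) := by
    apply setIntegral_eq_of_subset_of_forall_diff_eq_zero measurableSet_Ioi hsub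
    intro x hx
    have hx2 : x ≤ R := by
      have := hx.2
      simpa using this
    rw [phiE_zero' hR hx2]; ring
  rw [h1, ← integral_const_mul]
  apply setIntegral_mono_on
  · exact (phiE_int hG R hn).mono_set hsub
  · exact ((hG.int).mono_set hsub).const_mul _
  · exact measurableSet_Ioi
  · intro x hx
    have hx' : R < x := hx
    exact phiE_pt hG R hn (by linarith)

/-- the junction bound -/
theorem junc_bd {G : ℝ → ℝ} (hG : Prof G) {σ σ' n : ℝ} (hσ : 0 < σ) (h : σ ≤ σ') (hn : 0 < n) :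
    mom (phiE σ n) G - mom (phiE σ' n) G ≤ (2 * σ') ^ 3 * PP G σ := by
  have hσ' : 0 < σ' := by linarith
  unfold mom PP
  rw [← integral_sub (phiE_int hG σ hn) (phiE_int hG σ' hn)]
  have hsub : Ioi σ ⊆ Ioi (0 : ℝ) := Ioi_subset_Ioi hσ.le
  have h1 : ∫ r in Ioi (0 : ℝ), (phiE σ n r * (r ^ 2 * G r) - phiE σ' n r * (r ^ 2 * G r))
      = ∫ r in Ioi σ, (phiE σ n r * (r ^ 2 * G r) - phiE σ' n r * (r ^ 2 * G r)) := by
    apply setIntegral_eq_of_subset_of_forall_diff_eq_zero measurableSet_Ioi hsub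
    intro x hx
    have hx2 : x ≤ σ := by
      have := hx.2
      simpa using this
    rw [phiE_zero' hσ hx2, phiE_zero' hσ' (by linarith)]; ring
  rw [h1, ← integral_const_mul]
  apply setIntegral_mono_on
  · exact ((phiE_int hG σ hn).mono_set hsub).sub ((phiE_int hG σ' hn).mono_set hsub)
  · exact ((hG.int).mono_set hsub).const_mul _
  · exact measurableSet_Ioi
  · intro x hx
    have hx' : σ < x := hx
    have hx0 : 0 < x := by linarith
    have hg := hG.pos x
    by_cases hx2 : 2 * σ' ≤ x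
    · have e1 : up (x / σ) = 1 := up_one (by rw [le_div_iff₀ hσ]; linarith)
      have e2 : up (x / σ') = 1 := up_one (by rw [le_div_iff₀ hσ']; linarith)
      have : phiE σ n x = phiE σ' n x := by unfold phiE; rw [e1, e2]
      rw [this]
      have : 0 ≤ (2 * σ') ^ 3 * (x * G x) := by positivity
      linarith
    · push Not at hx2
      have h1 := up_nonneg (x / σ)
      have h2 := up_le_one (x / σ)
      have h3 := dn_nonneg' (x / n)
      have h4 := dn_le_one' (x / n)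
      have h5 : up (x / σ) * dn (x / n) ≤ 1 := by nlinarith
      have h6 : phiE σ n x ≤ x ^ 2 := by
        unfold phiE
        nlinarith [sq_nonneg x]
      have h6' := phiE_nonneg' σ' n x
      have h7 : phiE σ n x * (x ^ 2 * G x) ≤ x ^ 2 * (x ^ 2 * G x) := by
        apply mul_le_mul_of_nonneg_right h6
        positivity
      have h7' : 0 ≤ phiE σ' n x * (x ^ 2 * G x) := by positivity
      have h8 : x ^ 3 ≤ (2 * σ') ^ 3 := pow_le_pow_left₀ hx0.le hx2.le 3
      have h9 : x ^ 2 * (x ^ 2 * G x) = x ^ 3 * (x * G x) := by ring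
      rw [h9] at h7
      have h10 : x ^ 3 * (x * G x) ≤ (2 * σ') ^ 3 * (x * G x) := by
        apply mul_le_mul_of_nonneg_right h8
        positivity
      linarith

theorem PP_nn {g : ℝ → ℝ → ℝ} (hg : RSol g) {t R : ℝ} (ht : t < 0) (hR : 0 ≤ R) :
    0 ≤ PP (g t) R := (PP_pos (hg.prof t ht) hR).le

theorem PP_ii {g : ℝ → ℝ → ℝ} (hg : RSol g) {R : ℝ} (hR : 0 ≤ R) {a b : ℝ} (ha : a < 0)
    (hb : b < 0) : IntervalIntegrable (fun τ => PP (g τ) R) volume a b := by
  apply ContinuousOn.intervalIntegrable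
  apply (cont_PP hg hR).mono
  intro x hx
  rw [mem_uIcc] at hx
  rcases hx with hx | hx
  · exact lt_of_le_of_lt hx.2 hb
  · exact lt_of_le_of_lt hx.2 ha

/-- mean value: a good time in a window -/
theorem good_time {g : ℝ → ℝ → ℝ} (hg : RSol g) {R : ℝ} (hR : 0 ≤ R) {a b : ℝ} (hab : a ≤ b)
    (hb : b < 0) : ∃ t ∈ Icc a b, (b - a) * PP (g t) R ≤ ∫ τ in a..b, PP (g τ) R := by
  have hc : ContinuousOn (fun τ => PP (g τ) R) (Icc a b) := by
    apply (cont_PP hg hR).mono
    intro x hx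
    exact lt_of_le_of_lt hx.2 hb
  obtain ⟨t, ht, hmin⟩ := (isCompact_Icc (a := a) (b := b)).exists_isMinOn
    (nonempty_Icc.2 hab) hc
  refine ⟨t, ht, ?_⟩
  have h1 : ∫ τ in a..b, PP (g t) R ≤ ∫ τ in a..b, PP (g τ) R := by
    apply intervalIntegral.integral_mono_on hab
    · exact intervalIntegrable_const
    · exact PP_ii hg hR (lt_of_le_of_lt hab hb) hb
    · intro x hx
      exact hmin hx
  rw [intervalIntegral.integral_const, smul_eq_mul] at h1
  exact h1

/-- one step of the chain -/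
theorem chain_step {g : ℝ → ℝ → ℝ} (hg : RSol g) {C M : ℝ} (hC : 0 < C) (hM : 0 < M)
    (hen : ∀ R n s₁ s₂ : ℝ, 0 < R → 0 < n → s₁ ≤ s₂ → s₂ ≤ -1 →
      |mom (phiE R n) (g s₂) - mom (phiE R n) (g s₁)| ≤ C * M * ∫ τ in s₁..s₂, PP (g τ) R)
    {r n T a b : ℝ} (hr : 1 ≤ r) (hT : T = r ^ 3) (hn : 0 < n)
    (ha : a ∈ Icc (-(64 * T)) (-(8 * T))) (hb : b ∈ Icc (-(8 * T)) (-T))
    (hgood : (56 * T) * PP (g a) (r / 2) ≤ ∫ τ in (-(64 * T))..(-(8 * T)), PP (g τ) (r / 2)) :
    mom (phiE (r / 2) n) (g b) ≤ mom (phiE r n) (g a)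
      + ((1 + C * M) * ∫ τ in (-(64 * T))..(-(8 * T)), PP (g τ) (r / 2))
      + (C * M) * ∫ τ in (-(8 * T))..(-T), PP (g τ) (r / 4) := by
  have hT1 : 1 ≤ T := by rw [hT]; exact one_le_pow₀ hr
  have hr0 : 0 < r := by linarith
  have hab : a ≤ b := ha.2.trans hb.1
  have hb1 : b ≤ -1 := by linarith [hb.2]
  have ha0 : a < 0 := by linarith [ha.2]
  have h1 := hen (r / 2) n a b (by positivity) hn hab hb1
  have h2 := le_of_abs_le h1
  have hnn : ∀ x ∈ Icc (-(64 * T)) (-T), 0 ≤ PP (g x) (r / 2) := by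
    intro x hx
    exact PP_nn hg (by linarith [hx.2]) (by positivity)
  have i1 : IntervalIntegrable (fun τ => PP (g τ) (r / 2)) volume (-(64 * T)) (-T) :=
    PP_ii hg (by positivity) (by linarith) (by linarith)
  have h3 : ∫ τ in a..b, PP (g τ) (r / 2) ≤ ∫ τ in (-(64 * T))..(-T), PP (g τ) (r / 2) := by
    apply intervalIntegral.integral_mono_interval ha.1 hab hb.2 _ i1
    refine (ae_restrict_iff' measurableSet_Ioc).2 (Eventually.of_forall ?_)
    intro x hx
    exact hnn x ⟨hx.1.le, hx.2⟩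
  have h4 : ∫ τ in (-(64 * T))..(-T), PP (g τ) (r / 2)
      = (∫ τ in (-(64 * T))..(-(8 * T)), PP (g τ) (r / 2))
        + ∫ τ in (-(8 * T))..(-T), PP (g τ) (r / 2) := by
    rw [intervalIntegral.integral_add_adjacent_intervals]
    · exact PP_ii hg (by positivity) (by linarith) (by linarith)
    · exact PP_ii hg (by positivity) (by linarith) (by linarith)
  have h5 : ∫ τ in (-(8 * T))..(-T), PP (g τ) (r / 2)
      ≤ ∫ τ in (-(8 * T))..(-T), PP (g τ) (r / 4) := by
    apply intervalIntegral.integral_mono_on (by linarith)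
    · exact PP_ii hg (by positivity) (by linarith) (by linarith)
    · exact PP_ii hg (by positivity) (by linarith) (by linarith)
    · intro x hx
      exact PP_anti (hg.prof x (by linarith [hx.2])) (by positivity) (by linarith)
  have h6 := junc_bd (hg.prof a ha0) (σ := r / 2) (σ' := r) (n := n) (by positivity)
    (by linarith) hn
  have h7 : (2 * r) ^ 3 * PP (g a) (r / 2)
      ≤ ∫ τ in (-(64 * T))..(-(8 * T)), PP (g τ) (r / 2) := by
    have hp := PP_nn hg ha0 (R := r / 2) (by positivity)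
    have : (2 * r) ^ 3 = 8 * T := by rw [hT]; ring
    rw [this]
    nlinarith
  have hCM : 0 < C * M := by positivity
  have h8 : C * M * ∫ τ in a..b, PP (g τ) (r / 2)
      ≤ C * M * ((∫ τ in (-(64 * T))..(-(8 * T)), PP (g τ) (r / 2))
        + ∫ τ in (-(8 * T))..(-T), PP (g τ) (r / 4)) := by
    apply mul_le_mul_of_nonneg_left _ hCM.le
    linarith
  linarith

theorem radial_energy (g : ℝ → ℝ → ℝ) (hg : RSol g) :
    ∃ t₀ : ℝ, t₀ < 0 ∧ IntegrableOn (fun r => r ^ 4 * g t₀ r) (Ioi 0) := by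
  obtain ⟨M, hM, hMaa⟩ := mass_all hg (t := -1) (by norm_num)
  obtain ⟨C, hC, hen0⟩ := ener_diff
  obtain ⟨R₀, S, hR₀, hS, hw⟩ := windows hg
  have hen := hen0 g hg M (-1) (by norm_num) hMaa
  have hR0 : 0 < R₀ := by linarith
  have hRk : ∀ k : ℕ, 1 ≤ 2 ^ k * R₀ := fun k => by
    have : (1 : ℝ) ≤ 2 ^ k := one_le_pow₀ (by norm_num)
    nlinarith
  have hT1 : ∀ k : ℕ, 1 ≤ (2 ^ k * R₀) ^ 3 := fun k => one_le_pow₀ (hRk k)
  have hT8 : ∀ k : ℕ, (2 ^ (k + 1) * R₀) ^ 3 = 8 * (2 ^ k * R₀) ^ 3 := fun k => by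
    rw [pow_succ]; ring
  -- the good times
  have hgt : ∀ k : ℕ, ∃ t ∈ Icc (-((2 ^ (k + 1) * R₀) ^ 3)) (-((2 ^ k * R₀) ^ 3)),
      (7 * (2 ^ k * R₀) ^ 3) * PP (g t) (2 ^ k * R₀ / 4) ≤
      ∫ τ in (-((2 ^ (k + 1) * R₀) ^ 3))..(-((2 ^ k * R₀) ^ 3)), PP (g τ) (2 ^ k * R₀ / 4) := by
    intro k
    have h1 := hT8 k
    have h2 := hT1 k
    obtain ⟨t, ht, h⟩ := good_time hg (R := 2 ^ k * R₀ / 4) (by positivity)
      (a := -((2 ^ (k + 1) * R₀) ^ 3)) (b := -((2 ^ k * R₀) ^ 3)) (by linarith) (by linarith)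
    refine ⟨t, ht, ?_⟩
    have h3 : -((2 ^ k * R₀) ^ 3) - -((2 ^ (k + 1) * R₀) ^ 3) = 7 * (2 ^ k * R₀) ^ 3 := by
      rw [h1]; ring
    rw [h3] at h
    exact h
  choose t ht hgood using hgt
  set x : ℕ → ℝ := fun k =>
    ∫ τ in (-((2 ^ (k + 1) * R₀) ^ 3))..(-((2 ^ k * R₀) ^ 3)), PP (g τ) (2 ^ k * R₀ / 4) with hx
  have hx0 : ∀ k, 0 ≤ x k := by
    intro k
    have h1 := hT8 k
    have h2 := hT1 k
    apply intervalIntegral.integral_nonneg (by linarith)
    intro u hu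
    exact PP_nn hg (by linarith [hu.2]) (by positivity)
  have hxS : ∀ n, ∑ k ∈ Finset.range n, x k ≤ S := hw
  have hxk : ∀ k, x k ≤ S := by
    intro k
    have := hxS (k + 1)
    rw [Finset.sum_range_succ] at this
    have h2 : 0 ≤ ∑ k ∈ Finset.range k, x k := Finset.sum_nonneg (fun i _ => hx0 i)
    linarith
  have hCM : 0 < C * M := by positivity
  -- the chain
  have hchain : ∀ n : ℝ, 0 < n → ∀ N : ℕ, mom (phiE (2 ^ 0 * R₀ / 2) n) (g (t 0)) ≤
      mom (phiE (2 ^ N * R₀ / 2) n) (g (t N))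
      + ∑ k ∈ Finset.range N, ((1 + C * M) * x (k + 1) + C * M * x k) := by
    intro n hn N
    induction N with
    | zero => simp
    | succ k ih =>
      rw [Finset.sum_range_succ]
      have e1 : (2 : ℝ) ^ (k + 1) * R₀ / 2 = 2 ^ k * R₀ := by rw [pow_succ]; ring
      have e2 : (2 : ℝ) ^ (k + 1) * R₀ / 4 = 2 ^ k * R₀ / 2 := by rw [pow_succ]; ring
      have e3 := hT8 k
      have e4 := hT8 (k + 1)
      have e5 : (2 ^ (k + 1 + 1) * R₀) ^ 3 = 64 * (2 ^ k * R₀) ^ 3 := by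
        rw [e4, e3]; ring
      have hxk1 : x (k + 1) = ∫ τ in (-(64 * (2 ^ k * R₀) ^ 3))..(-(8 * (2 ^ k * R₀) ^ 3)),
          PP (g τ) (2 ^ k * R₀ / 2) := by
        simp only [hx]
        rw [e5, e3, e2]
      have hxk0 : x k = ∫ τ in (-(8 * (2 ^ k * R₀) ^ 3))..(-((2 ^ k * R₀) ^ 3)),
          PP (g τ) (2 ^ k * R₀ / 4) := by
        simp only [hx]
        rw [e3]
      have ha := ht (k + 1)
      have hb := ht k
      rw [e5, e3] at ha
      rw [e3] at hb
      have hgd := hgood (k + 1)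
      have hstep := chain_step hg hC hM hen (r := 2 ^ k * R₀) (n := n)
        (T := (2 ^ k * R₀) ^ 3) (a := t (k + 1)) (b := t k) (hRk k) rfl hn ha hb
        (by
          rw [← hxk1]
          have h7 : (7 * (2 ^ (k + 1) * R₀) ^ 3) * PP (g (t (k + 1))) (2 ^ (k + 1) * R₀ / 4)
            ≤ x (k + 1) := hgd
          rw [e3, e2] at h7
          linarith)
      rw [← hxk1, ← hxk0] at hstep
      rw [e1]
      linarith
  -- uniform bound
  have hbd : ∀ n : ℝ, 0 < n → mom (phiE (2 ^ 0 * R₀ / 2) n) (g (t 0)) ≤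
      (1 + 2 * (C * M)) * S := by
    intro n hn
    have hN : ∀ N : ℕ, mom (phiE (2 ^ 0 * R₀ / 2) n) (g (t 0)) ≤
        (2 * n) ^ 3 * S * (1 / 2) ^ N + (1 + 2 * (C * M)) * S := by
      intro N
      have h1 := hchain n hn N
      have htN := ht N
      have h2 := hT1 N
      have htn : t N < 0 := by linarith [htN.2]
      have h3 := far_bd (hg.prof (t N) htn) (R := 2 ^ N * R₀ / 2) (n := n)
        (by have := hRk N; linarith) hn
      have h4 : PP (g (t N)) (2 ^ N * R₀ / 2) ≤ PP (g (t N)) (2 ^ N * R₀ / 4) := by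
        have := hRk N
        exact PP_anti (hg.prof (t N) htn) (by linarith) (by linarith)
      have h5 : 2 ^ N * PP (g (t N)) (2 ^ N * R₀ / 4) ≤ S := by
        have h6 : (7 * (2 ^ N * R₀) ^ 3) * PP (g (t N)) (2 ^ N * R₀ / 4) ≤ x N := hgood N
        have h7 := hxk N
        have hp := PP_nn hg htn (R := 2 ^ N * R₀ / 4) (by have := hRk N; linarith)
        have h8 : (2 : ℝ) ^ N ≤ 7 * (2 ^ N * R₀) ^ 3 := by
          have a1 : (1 : ℝ) ≤ 2 ^ N := one_le_pow₀ (by norm_num)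
          have a2 : (2 : ℝ) ^ N ≤ 2 ^ N * R₀ := by nlinarith
          have a3 : 2 ^ N * R₀ ≤ (2 ^ N * R₀) ^ 3 := by
            have := hRk N
            exact le_self_pow₀ this (by norm_num)
          nlinarith
        nlinarith
      have h9 : PP (g (t N)) (2 ^ N * R₀ / 4) ≤ S * (1 / 2) ^ N := by
        rw [one_div, inv_pow, ← div_eq_mul_inv, le_div_iff₀ (by positivity)]
        linarith
      have h10 : (2 * n) ^ 3 * PP (g (t N)) (2 ^ N * R₀ / 2) ≤ (2 * n) ^ 3 * (S * (1 / 2) ^ N) :=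
        mul_le_mul_of_nonneg_left (h4.trans h9) (by positivity)
      have h11 : ∑ k ∈ Finset.range N, ((1 + C * M) * x (k + 1) + C * M * x k)
          ≤ (1 + 2 * (C * M)) * S := by
        rw [Finset.sum_add_distrib, ← Finset.mul_sum, ← Finset.mul_sum]
        have b1 : ∑ k ∈ Finset.range N, x (k + 1) ≤ S := by
          have := hxS (N + 1)
          rw [Finset.sum_range_succ'] at this
          linarith [hx0 0]
        have b2 := hxS N
        nlinarith
      linarith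
    have hlim : Tendsto (fun N : ℕ => (2 * n) ^ 3 * S * (1 / 2 : ℝ) ^ N
        + (1 + 2 * (C * M)) * S) atTop (𝓝 ((2 * n) ^ 3 * S * 0 + (1 + 2 * (C * M)) * S)) := by
      apply Tendsto.add_const
      apply Tendsto.const_mul
      exact tendsto_pow_atTop_nhds_zero_of_lt_one (by norm_num) (by norm_num)
    have := ge_of_tendsto' hlim hN
    linarith
  have ht0 : t 0 < 0 := by
    have h1 := (ht 0).2
    have h2 := hT1 0
    linarith
  refine ⟨t 0, ht0, ?_⟩
  have hP := hg.prof (t 0) ht0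
  set G := g (t 0) with hG
  have hcont : Continuous (fun r => r ^ 4 * G r) := by
    have := hP.smooth.continuous
    fun_prop
  have hsplit : Ioi (0 : ℝ) = Ioc 0 R₀ ∪ Ioi R₀ := (Ioc_union_Ioi_eq_Ioi hR0.le).symm
  rw [hsplit]
  apply IntegrableOn.union
  · exact (hcont.integrableOn_Icc (a := 0) (b := R₀)).mono_set Ioc_subset_Icc_self
  · apply integrableOn_Ioi_of_intervalIntegral_norm_bounded (l := atTop)
      (b := fun n : ℕ => (n : ℝ) + R₀) ((1 + 2 * (C * M)) * S) R₀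
    · intro n
      exact (hcont.integrableOn_Icc).mono_set Ioc_subset_Icc_self
    · exact tendsto_atTop_add_const_right _ _ tendsto_natCast_atTop_atTop
    · refine Eventually.of_forall ?_
      intro n
      have hn : 0 < (n : ℝ) + R₀ := by positivity
      have hle : R₀ ≤ (n : ℝ) + R₀ := by
        have : (0 : ℝ) ≤ n := Nat.cast_nonneg n
        linarith
      refine le_trans ?_ (hbd _ hn)
      rw [intervalIntegral.integral_of_le hle]
      unfold mom
      have hsub : Ioc R₀ ((n : ℝ) + R₀) ⊆ Ioi (0 : ℝ) := fun u hu => lt_trans hR0 hu.1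
      have key : ∫ r in Ioc R₀ ((n : ℝ) + R₀), ‖r ^ 4 * G r‖
          = ∫ r in Ioc R₀ ((n : ℝ) + R₀),
            phiE (2 ^ 0 * R₀ / 2) ((n : ℝ) + R₀) r * (r ^ 2 * G r) := by
        apply setIntegral_congr_fun measurableSet_Ioc
        intro r hr
        have hr1 : R₀ < r := hr.1
        have hr2 : r ≤ (n : ℝ) + R₀ := hr.2
        have e1 : up (r / (2 ^ 0 * R₀ / 2)) = 1 := by
          apply up_one
          rw [le_div_iff₀ (by positivity)]
          simp only [pow_zero, one_mul]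
          linarith
        have e2 : dn (r / ((n : ℝ) + R₀)) = 1 := by
          apply dn_one'
          rw [div_le_one hn]
          exact hr2
        have hGp := hP.pos r
        have e3 : 0 ≤ r ^ 4 * G r := by positivity
        simp only
        rw [Real.norm_of_nonneg e3]
        unfold phiE
        rw [e1, e2]
        ring
      rw [key]
      apply setIntegral_mono_set (phiE_int hP _ hn)
      · refine (ae_restrict_iff' measurableSet_Ioi).2 (Eventually.of_forall ?_)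
        intro r hr
        have h1 := phiE_nonneg' (2 ^ 0 * R₀ / 2) ((n : ℝ) + R₀) r
        have h2 := (hP.pos r).le
        simp only [Pi.zero_apply]
        positivity
      · exact hsub.eventuallyLE

end Pool.Agent.LandauR
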