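import Pool.Agent.LandauR.RCalc
import Pool.Agent.LandauR.ROm
import Pool.Agent.LandauR.RCut

/-!
# LandauR, module RErr: the error term of the localised Fisher inequality tends to zero

`θ = dn (· / n)`, `n ≥ 1`: `θ'`, `θ''` are supported in `[n, 2n]`, `|θ'| ≤ C/n`, `|θ''| ≤ C/n²`.  Put
`J = Fit g 0`, `α = aa g 1`.  On `[n, 2n]`: `aa ≤ α`, `AA ≤ α`, `NN g r ≤ r aa g r ≤ 2 n α`, `Fi g 0 r ≤ J`,
`∫_n^{2n} g ≤ (1/n) ∫_n^{2n} r g ≤ α/n`, `∫_n^{2n} r² g ≤ 2 n α`.
1. `r² g uu² (|θ''| AA + (|θ'|/r) 8 aa)`: integral `≤ (C/n²) α J`.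
2. `(4/3) |θ'| g |ω| (r³ g + 3 NN)`, with `g |ω| = |g'|/r = g |uu|/r`:
   `(C/n) ∫_n^{2n} r² g² |uu| ≤ (C/n) √J √(∫ r² g³) ≤ (C/n) √J √(2 n α) = C √(J α) / √n` (`g ≤ 1`), and
   `(C/n) (2 n α) ∫_n^{2n} g |uu|/r ≤ C α √J √(∫_n^{2n} g/r⁴) ≤ C α √J √(α/n⁵)`.
   `(4/3) |θ'| g Fi g 0 r`: `≤ (C/n) J α/n`.
3. `g² |r² θ'' - 4 r θ'| ≤ C g` on `[n, 2n]` (`g ≤ 1`): integral `≤ C α/n`.
4. `6 g |θ''/r - θ'/r²| NN ≤ C g n⁻³ · 2 n α`: integral `≤ C α² / n³`.
All are at most `(C/√n) (1 + α)² (1 + J)`.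
-/

set_option autoImplicit false

namespace Pool.Agent.LandauR

open MeasureTheory Set Filter Topology

private theorem rerr_dn_eq (n r : ℝ) : dn (r / n) = 1 - up (r / n) := rfl

private theorem rerr_d1 {n : ℝ} (hn : 0 < n) (r : ℝ) :
    deriv (fun r => dn (r / n)) r = -(deriv up (r / n) / n) := by
  have h0 : HasDerivAt up (deriv up (r / n)) (r / n) :=
    ((up_smooth.differentiable (by simp)) (r / n)).hasDerivAt
  have h1 : HasDerivAt (fun r : ℝ => r / n) (1 / n) r := (hasDerivAt_id r).div_const n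
  have h2 : HasDerivAt (up ∘ (fun r : ℝ => r / n)) (deriv up (r / n) * (1 / n)) r :=
    HasDerivAt.comp (h₂ := up) r h0 h1
  have h3 : HasDerivAt (fun r : ℝ => dn (r / n)) (0 - deriv up (r / n) * (1 / n)) r := by
    have := (hasDerivAt_const r (1 : ℝ)).sub h2
    exact this
  rw [h3.deriv]
  ring

private theorem rerr_d2 {n : ℝ} (hn : 0 < n) (r : ℝ) :
    deriv (deriv (fun r => dn (r / n))) r = -(deriv (deriv up) (r / n) / n ^ 2) := by
  have he : deriv (fun r => dn (r / n)) = fun r => -(deriv up (r / n) / n) := by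
    funext x; exact rerr_d1 hn x
  rw [he]
  have hsm : ContDiff ℝ (⊤ : ℕ∞) (deriv up) := (contDiff_infty_iff_deriv.mp up_smooth).2
  have h0 : HasDerivAt (deriv up) (deriv (deriv up) (r / n)) (r / n) :=
    ((hsm.differentiable (by simp)) (r / n)).hasDerivAt
  have h1 : HasDerivAt (fun r : ℝ => r / n) (1 / n) r := (hasDerivAt_id r).div_const n
  have h2 : HasDerivAt (deriv up ∘ (fun r : ℝ => r / n)) (deriv (deriv up) (r / n) * (1 / n)) r :=
    HasDerivAt.comp (h₂ := deriv up) r h0 h1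
  have h3 : HasDerivAt (fun r : ℝ => -(deriv up (r / n) / n))
      (-(deriv (deriv up) (r / n) * (1 / n) / n)) r := (h2.div_const n).neg
  rw [h3.deriv]
  field_simp

theorem dn_tst {n : ℝ} (hn : 0 < n) : Tst (fun r => dn (r / n)) n (2 * n) ∧
    (∀ r s, r ≤ s → dn (s / n) ≤ dn (r / n)) ∧ (∀ r, 0 ≤ dn (r / n)) ∧
      (∀ r, dn (r / n) ≤ 1) ∧ ∀ r, r ≤ n → dn (r / n) = 1 := by
  have hone : ∀ r, r ≤ n → dn (r / n) = 1 := by
    intro r hr
    have h1 : r / n ≤ 1 := by
      rw [div_le_one hn]; exact hr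
    rw [rerr_dn_eq, up_zero h1]
    ring
  refine ⟨⟨?_, hn, by linarith, ?_, ?_⟩, ?_, ?_, ?_, hone⟩
  · have h1 : ContDiff ℝ (⊤ : ℕ∞) (fun r : ℝ => r / n) := contDiff_id.div_const n
    have h2 : ContDiff ℝ (⊤ : ℕ∞) (fun r : ℝ => up (r / n)) := up_smooth.comp h1
    exact contDiff_const.sub h2
  · intro r hr
    show dn (r / n) = dn (0 / n)
    rw [hone r hr, hone 0 hn.le]
  · intro r hr
    show dn (r / n) = 0
    have h1 : 2 ≤ r / n := by
      rw [le_div_iff₀ hn]; exact hr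
    rw [rerr_dn_eq, up_one h1]
    ring
  · intro r s hrs
    rw [rerr_dn_eq, rerr_dn_eq]
    have h1 : r / n ≤ s / n := div_le_div_of_nonneg_right hrs hn.le
    have := up_mono h1
    linarith
  · intro r
    rw [rerr_dn_eq]
    have := up_le_one (r / n)
    linarith
  · intro r
    rw [rerr_dn_eq]
    have := up_nonneg (r / n)
    linarith

private theorem rerr_NN_le {g : ℝ → ℝ} (hg : Prof g) {r : ℝ} (hr : 0 < r) :
    NN g r ≤ r * aa g r := by
  rw [raa_eq g hr]
  have := mul_nonneg hr.le (PP_pos hg hr.le).le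
  linarith

/-- the pointwise bound of the error term -/
private theorem rerr_point (K α J s n r G U o a1 a2 A a N F : ℝ) (hK : 0 ≤ K) (hα : 0 ≤ α)
    (hs : 1 ≤ s) (hns : n = s ^ 2) (hnr : n ≤ r) (hr2 : r ≤ 2 * n) (hG : 0 < G) (hG1 : G ≤ 1)
    (ho : o = U / r) (h1 : |a1| ≤ K / n) (h2 : |a2| ≤ K / n ^ 2) (hA : 0 < A) (hAa : 3 * A ≤ a)
    (haα : a ≤ α) (hN : 0 ≤ N) (hNa : N ≤ r * a) (hF : 0 ≤ F) (hFJ : F ≤ J) :
    |(r ^ 2 * G * U ^ 2 * (a2 * A + a1 / r * (5 * A - a))
        + 4 / 3 * (a1 * G * (o * (r ^ 3 * G - 3 * N) - F))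
        + G ^ 2 * (r ^ 2 * a2 - 4 * r * a1)
        - 6 * G * (a2 / r - a1 / r ^ 2) * N)| ≤
      (3 * K * α / n ^ 2 + 2 / 3 * K * s / n + 2 * K * α / n) * (r ^ 2 * G * U ^ 2)
        + (2 / 3 * K / (n * s) + 2 * K * α / n ^ 2 + 4 / 3 * K * J / n ^ 2 + 12 * K / n ^ 2
            + 12 * α * K / n ^ 2) * (r ^ 2 * G) := by
  have hn1 : 1 ≤ n := by rw [hns]; nlinarith
  have hn0 : 0 < n := by linarith
  have hr0 : 0 < r := by linarith
  have hs0 : 0 < s := by linarith
  have hr1 : 1 ≤ r := by linarith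
  have hJ : 0 ≤ J := le_trans hF hFJ
  have hKn : 0 ≤ K / n := div_nonneg hK hn0.le
  have hKn2 : 0 ≤ K / n ^ 2 := by positivity
  have ha : 0 < a := by linarith
  have hr2n : n ≤ r ^ 2 := by nlinarith
  have hW : 0 ≤ r ^ 2 * G * U ^ 2 := by positivity
  have hV : 0 ≤ r ^ 2 * G := by positivity
  -- first term
  have T1 : |r ^ 2 * G * U ^ 2 * (a2 * A + a1 / r * (5 * A - a))| ≤
      3 * K * α / n ^ 2 * (r ^ 2 * G * U ^ 2) := by
    rw [abs_mul, abs_of_nonneg hW, mul_comm]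
    refine mul_le_mul_of_nonneg_right ?_ hW
    have e1 : |a2 * A| ≤ K / n ^ 2 * (α / 3) := by
      rw [abs_mul, abs_of_pos hA]
      exact mul_le_mul h2 (by linarith) hA.le hKn2
    have e2 : |a1 / r * (5 * A - a)| ≤ K / n ^ 2 * (8 / 3 * α) := by
      rw [abs_mul, abs_div, abs_of_pos hr0]
      have e3 : |a1| / r ≤ K / n ^ 2 := by
        calc |a1| / r ≤ (K / n) / n := by
              apply div_le_div₀ hKn h1 hn0 hnr
          _ = K / n ^ 2 := by rw [div_div, pow_two]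
      have e4 : |5 * A - a| ≤ 8 / 3 * α := by
        rw [abs_le]; constructor <;> linarith
      exact mul_le_mul e3 e4 (abs_nonneg _) hKn2
    calc |a2 * A + a1 / r * (5 * A - a)| ≤ |a2 * A| + |a1 / r * (5 * A - a)| := abs_add_le _ _
      _ ≤ K / n ^ 2 * (α / 3) + K / n ^ 2 * (8 / 3 * α) := add_le_add e1 e2
      _ = 3 * K * α / n ^ 2 := by ring
  -- second term
  have T2 : |4 / 3 * (a1 * G * (o * (r ^ 3 * G - 3 * N) - F))| ≤
      (2 / 3 * K * s / n + 2 * K * α / n) * (r ^ 2 * G * U ^ 2) +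
        (2 / 3 * K / (n * s) + 2 * K * α / n ^ 2 + 4 / 3 * K * J / n ^ 2) * (r ^ 2 * G) := by
    have e1 : |o * (r ^ 3 * G - 3 * N)| ≤ |U| * (r ^ 2 * G + 3 * α) := by
      rw [abs_mul, ho, abs_div, abs_of_pos hr0]
      have e2 : |r ^ 3 * G - 3 * N| ≤ r * (r ^ 2 * G + 3 * α) := by
        have hra : r * a ≤ r * α := mul_le_mul_of_nonneg_left haα hr0.le
        have hp : 0 ≤ r ^ 3 * G := by positivity
        rw [abs_le]
        constructor <;> nlinarith
      calc |U| / r * |r ^ 3 * G - 3 * N| ≤ |U| / r * (r * (r ^ 2 * G + 3 * α)) := by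
            apply mul_le_mul_of_nonneg_left e2; positivity
        _ = |U| * (r ^ 2 * G + 3 * α) := by field_simp
    have e3 : |o * (r ^ 3 * G - 3 * N) - F| ≤ |U| * (r ^ 2 * G + 3 * α) + J := by
      calc |o * (r ^ 3 * G - 3 * N) - F| ≤ |o * (r ^ 3 * G - 3 * N)| + |F| := abs_sub _ _
        _ ≤ |U| * (r ^ 2 * G + 3 * α) + J := by
            rw [abs_of_nonneg hF]; exact add_le_add e1 hFJ
    have e4 : |4 / 3 * (a1 * G * (o * (r ^ 3 * G - 3 * N) - F))| ≤
        4 / 3 * (K / n * G * (|U| * (r ^ 2 * G + 3 * α) + J)) := by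
      rw [abs_mul, abs_mul, abs_mul, abs_of_pos hG, abs_of_pos (by norm_num : (0 : ℝ) < 4 / 3)]
      apply mul_le_mul_of_nonneg_left _ (by norm_num)
      apply mul_le_mul (mul_le_mul_of_nonneg_right h1 hG.le) e3 (abs_nonneg _)
      positivity
    -- the three products
    have p1 : G * |U| * (r ^ 2 * G) ≤ 1 / 2 * (s * (r ^ 2 * G * U ^ 2) + r ^ 2 * G / s) := by
      have hU : |U| ^ 2 = U ^ 2 := sq_abs U
      have q1 : |U| * G ≤ 1 / 2 * (s * U ^ 2 + G ^ 2 / s) := by
        have : 0 ≤ (s * |U| - G) ^ 2 / s := by positivity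
        have h' : (s * |U| - G) ^ 2 / s = s * |U| ^ 2 - 2 * (|U| * G) + G ^ 2 / s := by
          field_simp; ring
        rw [h', hU] at this
        linarith
      have q2 : G ^ 2 / s ≤ 1 / s := by
        apply div_le_div_of_nonneg_right _ hs0.le
        nlinarith
      calc G * |U| * (r ^ 2 * G) = (|U| * G) * (r ^ 2 * G) := by ring
        _ ≤ (1 / 2 * (s * U ^ 2 + 1 / s)) * (r ^ 2 * G) := by
            apply mul_le_mul_of_nonneg_right _ hV
            linarith
        _ = 1 / 2 * (s * (r ^ 2 * G * U ^ 2) + r ^ 2 * G / s) := by ring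
    have p2 : G * |U| ≤ 1 / 2 * (r ^ 2 * G * U ^ 2 + r ^ 2 * G / n) := by
      have hU : |U| ^ 2 = U ^ 2 := sq_abs U
      have q1 : |U| ≤ 1 / 2 * (r ^ 2 * U ^ 2 + 1 / r ^ 2) := by
        have : 0 ≤ (r * |U| - 1 / r) ^ 2 := by positivity
        have h' : (r * |U| - 1 / r) ^ 2 = r ^ 2 * |U| ^ 2 - 2 * |U| + 1 / r ^ 2 := by
          field_simp
          ring
        rw [h', hU] at this
        linarith
      have q2 : 1 / r ^ 2 ≤ r ^ 2 / n := by
        rw [div_le_div_iff₀ (by positivity) hn0]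
        nlinarith
      calc G * |U| ≤ G * (1 / 2 * (r ^ 2 * U ^ 2 + r ^ 2 / n)) := by
            apply mul_le_mul_of_nonneg_left _ hG.le
            linarith
        _ = 1 / 2 * (r ^ 2 * G * U ^ 2 + r ^ 2 * G / n) := by ring
    have p3 : G ≤ r ^ 2 * G / n := by
      rw [le_div_iff₀ hn0]
      nlinarith
    calc |4 / 3 * (a1 * G * (o * (r ^ 3 * G - 3 * N) - F))|
        ≤ 4 / 3 * (K / n * G * (|U| * (r ^ 2 * G + 3 * α) + J)) := e4
      _ = 4 / 3 * (K / n) * (G * |U| * (r ^ 2 * G)) + 4 * (K / n) * α * (G * |U|)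
          + 4 / 3 * (K / n) * J * G := by ring
      _ ≤ 4 / 3 * (K / n) * (1 / 2 * (s * (r ^ 2 * G * U ^ 2) + r ^ 2 * G / s))
          + 4 * (K / n) * α * (1 / 2 * (r ^ 2 * G * U ^ 2 + r ^ 2 * G / n))
          + 4 / 3 * (K / n) * J * (r ^ 2 * G / n) := by
          apply add_le_add (add_le_add _ _) _
          · apply mul_le_mul_of_nonneg_left p1; positivity
          · apply mul_le_mul_of_nonneg_left p2; positivity
          · apply mul_le_mul_of_nonneg_left p3; positivity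
      _ = (2 / 3 * K * s / n + 2 * K * α / n) * (r ^ 2 * G * U ^ 2) +
        (2 / 3 * K / (n * s) + 2 * K * α / n ^ 2 + 4 / 3 * K * J / n ^ 2) * (r ^ 2 * G) := by
          field_simp
          ring
  -- third term
  have T3 : |G ^ 2 * (r ^ 2 * a2 - 4 * r * a1)| ≤ 12 * K / n ^ 2 * (r ^ 2 * G) := by
    have e1 : |r ^ 2 * a2 - 4 * r * a1| ≤ 12 * K := by
      have e2 : |r ^ 2 * a2| ≤ 4 * K := by
        rw [abs_mul, abs_of_nonneg (sq_nonneg r)]
        calc r ^ 2 * |a2| ≤ (2 * n) ^ 2 * (K / n ^ 2) := by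
              apply mul_le_mul _ h2 (abs_nonneg _) (by positivity)
              exact pow_le_pow_left₀ hr0.le hr2 2
          _ = 4 * K := by field_simp; ring
      have e3 : |4 * r * a1| ≤ 8 * K := by
        rw [abs_mul, abs_of_nonneg (by positivity : (0 : ℝ) ≤ 4 * r)]
        calc 4 * r * |a1| ≤ 4 * (2 * n) * (K / n) := by
              apply mul_le_mul _ h1 (abs_nonneg _) (by positivity)
              linarith
          _ = 8 * K := by field_simp; ring
      calc |r ^ 2 * a2 - 4 * r * a1| ≤ |r ^ 2 * a2| + |4 * r * a1| := abs_sub _ _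
        _ ≤ 12 * K := by linarith
    have e5 : G ^ 2 ≤ r ^ 2 * G / n ^ 2 := by
      rw [le_div_iff₀ (by positivity)]
      have : n ^ 2 ≤ r ^ 2 := pow_le_pow_left₀ hn0.le hnr 2
      calc G ^ 2 * n ^ 2 ≤ G * r ^ 2 := by
            apply mul_le_mul _ this (by positivity) hG.le
            nlinarith
        _ = r ^ 2 * G := by ring
    rw [abs_mul, abs_of_nonneg (sq_nonneg G)]
    calc G ^ 2 * |r ^ 2 * a2 - 4 * r * a1| ≤ (r ^ 2 * G / n ^ 2) * (12 * K) := by
          apply mul_le_mul e5 e1 (abs_nonneg _) (by positivity)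
      _ = 12 * K / n ^ 2 * (r ^ 2 * G) := by ring
  -- fourth term
  have T4 : |6 * G * (a2 / r - a1 / r ^ 2) * N| ≤ 12 * α * K / n ^ 2 * (r ^ 2 * G) := by
    have e1 : |a2 / r - a1 / r ^ 2| ≤ 2 * (K / n ^ 2) / r := by
      have e2 : |a2 / r| ≤ (K / n ^ 2) / r := by
        rw [abs_div, abs_of_pos hr0]
        exact div_le_div_of_nonneg_right h2 hr0.le
      have e3 : |a1 / r ^ 2| ≤ (K / n ^ 2) / r := by
        rw [abs_div, abs_of_pos (by positivity : (0 : ℝ) < r ^ 2)]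
        refine (div_le_div_of_nonneg_right h1 (by positivity)).trans ?_
        rw [div_div, div_div]
        apply div_le_div_of_nonneg_left hK (by positivity)
        have : 0 ≤ n * r * (r - n) := by
          apply mul_nonneg (by positivity); linarith
        nlinarith
      calc |a2 / r - a1 / r ^ 2| ≤ |a2 / r| + |a1 / r ^ 2| := abs_sub _ _
        _ ≤ 2 * (K / n ^ 2) / r := by
            have : 2 * (K / n ^ 2) / r = (K / n ^ 2) / r + (K / n ^ 2) / r := by ring
            rw [this]; exact add_le_add e2 e3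
    have e4 : N ≤ r * α := le_trans hNa (mul_le_mul_of_nonneg_left haα hr0.le)
    rw [abs_mul, abs_mul, abs_of_nonneg hN, abs_of_nonneg (by positivity : (0 : ℝ) ≤ 6 * G)]
    calc 6 * G * |a2 / r - a1 / r ^ 2| * N ≤ 6 * G * (2 * (K / n ^ 2) / r) * (r * α) := by
          apply mul_le_mul _ e4 hN (by positivity)
          apply mul_le_mul_of_nonneg_left e1 (by positivity)
      _ = 12 * α * K / n ^ 2 * G := by field_simp; ring
      _ ≤ 12 * α * K / n ^ 2 * (r ^ 2 * G) := by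
          apply mul_le_mul_of_nonneg_left _ (by positivity)
          have : 1 ≤ r ^ 2 := by nlinarith
          nlinarith
  have key : ∀ x y z w : ℝ, |x + y + z - w| ≤ |x| + |y| + |z| + |w| := by
    intro x y z w
    calc |x + y + z - w| ≤ |x + y + z| + |w| := abs_sub _ _
      _ ≤ |x + y| + |z| + |w| := by
          have := abs_add_le (x + y) z; linarith
      _ ≤ |x| + |y| + |z| + |w| := by
          have := abs_add_le x y; linarith
  refine (key _ _ _ _).trans ?_
  calc _ ≤ 3 * K * α / n ^ 2 * (r ^ 2 * G * U ^ 2)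
      + ((2 / 3 * K * s / n + 2 * K * α / n) * (r ^ 2 * G * U ^ 2) +
        (2 / 3 * K / (n * s) + 2 * K * α / n ^ 2 + 4 / 3 * K * J / n ^ 2) * (r ^ 2 * G))
      + 12 * K / n ^ 2 * (r ^ 2 * G) + 12 * α * K / n ^ 2 * (r ^ 2 * G) :=
        add_le_add (add_le_add (add_le_add T1 T2) T3) T4
    _ = _ := by ring

theorem err_bd : ∃ C : ℝ, 0 < C ∧ ∀ g : ℝ → ℝ, Prof g →
    IntegrableOn (fun r => r ^ 2 * g r * uu g r ^ 2) (Ioi 0) → ∀ n : ℝ, 1 ≤ n →
      |ErrT (fun r => dn (r / n)) g| ≤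
        C / Real.sqrt n * ((1 + aa g 1) ^ 2 * (1 + Fit g 0)) := by
  obtain ⟨K, hK1, hKb⟩ := up_bd
  refine ⟨28 * K, by linarith, ?_⟩
  intro g hg hint n hn
  have hn0 : 0 < n := by linarith
  have hK : 0 ≤ K := by linarith
  set s : ℝ := Real.sqrt n with hs
  have hs1 : 1 ≤ s := by
    rw [hs]; exact Real.one_le_sqrt.mpr hn
  have hs0 : 0 < s := by linarith
  have hns : n = s ^ 2 := (Real.sq_sqrt hn0.le).symm
  set α : ℝ := aa g 1 with hα
  have hα0 : 0 < α := aa_pos hg one_pos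
  set J : ℝ := Fit g 0 with hJ
  have hwn : ∀ r, 0 ≤ r ^ 2 * g r * uu g r ^ 2 := by
    intro r
    have := (hg.pos r).le
    positivity
  have hJ0 : 0 ≤ J := by
    rw [hJ]
    exact setIntegral_nonneg measurableSet_Ioi (fun r _ => hwn r)
  have hcont : Continuous g := hg.smooth.continuous
  set A' : ℝ := 3 * K * α / n ^ 2 + 2 / 3 * K * s / n + 2 * K * α / n with hA'
  set B' : ℝ := 2 / 3 * K / (n * s) + 2 * K * α / n ^ 2 + 4 / 3 * K * J / n ^ 2 + 12 * K / n ^ 2
            + 12 * α * K / n ^ 2 with hB'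
  have hA'0 : 0 ≤ A' := by rw [hA']; positivity
  have hB'0 : 0 ≤ B' := by rw [hB']; positivity
  have hsub : Ioc n (2 * n) ⊆ Ioi (0 : ℝ) := fun r hr => lt_trans hn0 hr.1
  have i1 : IntegrableOn (fun r => r ^ 2 * g r * uu g r ^ 2) (Ioc n (2 * n)) :=
    hint.mono_set hsub
  have i2 : IntegrableOn (fun r => r ^ 2 * g r) (Ioc n (2 * n)) := by
    have hc : Continuous (fun r : ℝ => r ^ 2 * g r) := (continuous_pow 2).mul hcont
    exact (hc.integrableOn_Icc).mono_set Ioc_subset_Icc_self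
  have i3 : IntegrableOn (fun r => A' * (r ^ 2 * g r * uu g r ^ 2) + B' * (r ^ 2 * g r))
      (Ioc n (2 * n)) := (i1.const_mul A').add (i2.const_mul B')
  have hbd : |ErrT (fun r => dn (r / n)) g| ≤
      ∫ r in Ioi (0 : ℝ), (Ioc n (2 * n)).indicator
        (fun r => A' * (r ^ 2 * g r * uu g r ^ 2) + B' * (r ^ 2 * g r)) r := by
    unfold ErrT
    rw [← Real.norm_eq_abs]
    refine norm_integral_le_of_norm_le ?_ ?_
    · exact ((integrable_indicator_iff measurableSet_Ioc).mpr i3).integrableOn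
    · refine (ae_restrict_iff' measurableSet_Ioi).mpr (Filter.Eventually.of_forall ?_)
      intro r hr0
      have hr0' : 0 < r := hr0
      by_cases hr : r ∈ Ioc n (2 * n)
      · rw [indicator_of_mem hr, Real.norm_eq_abs]
        have hFJ : Fi g 0 r ≤ J := by
          rw [hJ]
          unfold Fi Fit
          rw [intervalIntegral.integral_of_le hr0'.le]
          exact setIntegral_mono_set hint
            (Filter.Eventually.of_forall hwn) (Filter.Eventually.of_forall fun x hx => hx.1)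
        have hF0 : 0 ≤ Fi g 0 r := by
          unfold Fi
          rw [intervalIntegral.integral_of_le hr0'.le]
          exact setIntegral_nonneg measurableSet_Ioc (fun x _ => hwn x)
        refine rerr_point K α J s n r (g r) (uu g r) (om g r) _ _ (AA g r) (aa g r) (NN g r)
          (Fi g 0 r) hK hα0.le hs1 hns hr.1.le hr.2 (hg.pos r) (hg.le_one r) rfl ?_ ?_
          (AA_pos hg hr0') (three_AA_le hg hr0') (aa_anti hg one_pos (le_trans hn hr.1.le))
          (NN_nonneg hg hr0'.le) (rerr_NN_le hg hr0') hF0 hFJ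
        · rw [rerr_d1 hn0, abs_neg, abs_div, abs_of_pos hn0]
          exact div_le_div_of_nonneg_right (hKb _).1 hn0.le
        · rw [rerr_d2 hn0, abs_neg, abs_div, abs_of_pos (by positivity : (0 : ℝ) < n ^ 2)]
          exact div_le_div_of_nonneg_right (hKb _).2 (by positivity)
      · rw [indicator_of_notMem hr]
        have hz : r / n ≤ 1 ∨ 2 ≤ r / n := by
          rcases le_or_gt r n with h | h
          · left; rw [div_le_one hn0]; exact h
          · right
            have : 2 * n < r := by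
              by_contra hc
              exact hr ⟨h, not_lt.mp hc⟩
            rw [le_div_iff₀ hn0]; exact this.le
        have z1 : deriv (fun r => dn (r / n)) r = 0 := by
          rw [rerr_d1 hn0, deriv_up_zero hz]; simp
        have z2 : deriv (deriv (fun r => dn (r / n))) r = 0 := by
          rw [rerr_d2 hn0, deriv2_up_zero hz]; simp
        rw [z1, z2]
        simp
  have hval : ∫ r in Ioi (0 : ℝ), (Ioc n (2 * n)).indicator
        (fun r => A' * (r ^ 2 * g r * uu g r ^ 2) + B' * (r ^ 2 * g r)) r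
      = A' * (∫ r in Ioc n (2 * n), r ^ 2 * g r * uu g r ^ 2)
        + B' * (∫ r in Ioc n (2 * n), r ^ 2 * g r) := by
    rw [setIntegral_indicator measurableSet_Ioc, inter_eq_self_of_subset_right hsub,
      integral_add (i1.const_mul A') (i2.const_mul B'), integral_const_mul, integral_const_mul]
  have j1 : ∫ r in Ioc n (2 * n), r ^ 2 * g r * uu g r ^ 2 ≤ J := by
    rw [hJ]
    unfold Fit
    exact setIntegral_mono_set hint (Filter.Eventually.of_forall hwn)
      (Filter.Eventually.of_forall fun x hx => hsub hx)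
  have j2 : ∫ r in Ioc n (2 * n), r ^ 2 * g r ≤ 2 * n * α := by
    have hc : Continuous (fun r : ℝ => r ^ 2 * g r) := (continuous_pow 2).mul hcont
    have e1 : ∫ r in Ioc n (2 * n), r ^ 2 * g r = NN g (2 * n) - NN g n := by
      unfold NN
      rw [← intervalIntegral.integral_of_le (by linarith : n ≤ 2 * n),
        intervalIntegral.integral_interval_sub_left]
      · exact hc.intervalIntegrable _ _
      · exact hc.intervalIntegrable _ _
    rw [e1]
    have e2 : NN g (2 * n) ≤ 2 * n * aa g (2 * n) := rerr_NN_le hg (by linarith)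
    have e3 : aa g (2 * n) ≤ α := aa_anti hg one_pos (by linarith)
    have e4 : 0 ≤ NN g n := NN_nonneg hg hn0.le
    have e5 : 2 * n * aa g (2 * n) ≤ 2 * n * α := mul_le_mul_of_nonneg_left e3 (by linarith)
    linarith
  rw [hval] at hbd
  refine hbd.trans ?_
  have k1 : A' * (∫ r in Ioc n (2 * n), r ^ 2 * g r * uu g r ^ 2) ≤ A' * J :=
    mul_le_mul_of_nonneg_left j1 hA'0
  have k2 : B' * (∫ r in Ioc n (2 * n), r ^ 2 * g r) ≤ B' * (2 * n * α) :=
    mul_le_mul_of_nonneg_left j2 hB'0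
  refine (add_le_add k1 k2).trans ?_
  have hsinv : 1 / s ≤ 1 := by
    rw [div_le_one hs0]; exact hs1
  have hsinv0 : 0 < 1 / s := by positivity
  have m1 : A' * J = K / s * (J * (3 * α * (1 / s) ^ 3 + 2 / 3 + 2 * α * (1 / s))) := by
    rw [hA', hns]
    field_simp
  have m2 : B' * (2 * n * α) = K / s * (2 * α * (2 / 3 + (2 * α + 4 / 3 * J + 12 + 12 * α) *
      (1 / s))) := by
    rw [hB', hns]
    field_simp
    try ring
  rw [m1, m2, ← mul_add]
  have m3 : (1 / s) ^ 3 ≤ 1 := pow_le_one₀ hsinv0.le hsinv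
  have n1 : J * (3 * α * (1 / s) ^ 3 + 2 / 3 + 2 * α * (1 / s)) ≤ J * (5 * α + 2 / 3) := by
    apply mul_le_mul_of_nonneg_left _ hJ0
    nlinarith
  have n2 : 2 * α * (2 / 3 + (2 * α + 4 / 3 * J + 12 + 12 * α) * (1 / s)) ≤
      2 * α * (2 / 3 + (2 * α + 4 / 3 * J + 12 + 12 * α)) := by
    apply mul_le_mul_of_nonneg_left _ (by positivity)
    have : (2 * α + 4 / 3 * J + 12 + 12 * α) * (1 / s) ≤
        (2 * α + 4 / 3 * J + 12 + 12 * α) * 1 := by
      apply mul_le_mul_of_nonneg_left hsinv (by positivity)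
    linarith
  have n3 : J * (5 * α + 2 / 3) + 2 * α * (2 / 3 + (2 * α + 4 / 3 * J + 12 + 12 * α)) ≤
      28 * ((1 + α) ^ 2 * (1 + J)) := by
    have hαJ : 0 ≤ α * J := mul_nonneg hα0.le hJ0
    have hααJ : 0 ≤ α * α * J := mul_nonneg (mul_nonneg hα0.le hα0.le) hJ0
    nlinarith
  calc K / s * (J * (3 * α * (1 / s) ^ 3 + 2 / 3 + 2 * α * (1 / s)) +
        2 * α * (2 / 3 + (2 * α + 4 / 3 * J + 12 + 12 * α) * (1 / s)))
      ≤ K / s * (28 * ((1 + α) ^ 2 * (1 + J))) := by
        apply mul_le_mul_of_nonneg_left _ (by positivity)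
        linarith
    _ = 28 * K / s * ((1 + α) ^ 2 * (1 + J)) := by ring

end Pool.Agent.LandauR
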