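import Pool.Agent.LandauR.RTime
import Pool.Agent.LandauR.ROm

/-!
# LandauR, module RFishT: time derivative of the localised Fisher information

The integrand of `FI θ (g t)` is `θ r² (∂_r g)² / g` (as `g > 0`), a smooth function of `(t, r)`, `t < 0`,
and it vanishes for `r ≥ K`.  Its time derivative is `θ r² (2 ∂_r g ∂_t∂_r g / g - (∂_r g)² ∂_t g / g²)`, with
`∂_t ∂_r g = ∂_r ∂_t g` (symmetry of second derivatives) `= deriv (QQ (g t)) r` for `r > 0`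
(`∂_t g = QQ (g t)` on the open set `r > 0`).  Differentiate under the integral sign as in `mom_hasDeriv`.
-/

set_option autoImplicit false

namespace Pool.Agent.LandauR

open MeasureTheory Set Filter Topology

private theorem ft_open : IsOpen (Iio (0 : ℝ) ×ˢ (univ : Set ℝ)) := isOpen_Iio.prod isOpen_univ

/-- mixed derivatives -/
private theorem ft_joint {g : ℝ → ℝ → ℝ} (hg : RSol g) :
    ∃ D D₁ : ℝ × ℝ → ℝ, ContinuousOn D (Iio (0 : ℝ) ×ˢ univ) ∧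
      ContinuousOn D₁ (Iio (0 : ℝ) ×ˢ univ) ∧
      (∀ t < 0, ∀ r > 0, QQ (g t) r = D (t, r)) ∧
      (∀ t < 0, ∀ r > 0, deriv (QQ (g t)) r = D₁ (t, r)) ∧
      (∀ t < 0, ∀ r : ℝ, HasDerivAt (fun s => g s r) (D (t, r)) t) ∧
      (∀ t < 0, ∀ r : ℝ, HasDerivAt (fun s => deriv (g s) r) (D₁ (t, r)) t) := by
  obtain ⟨D, hD, hDQ, hDd⟩ := joint_q hg
  let G : ℝ × ℝ → ℝ := fun p => g p.1 p.2
  have hG : ContDiffOn ℝ (⊤ : ℕ∞) G (Iio (0 : ℝ) ×ˢ univ) := hg.smooth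
  have hmem : ∀ t < 0, ∀ r : ℝ, ((t, r) : ℝ × ℝ) ∈ (Iio (0 : ℝ) ×ˢ (univ : Set ℝ)) :=
    fun t ht r => ⟨ht, mem_univ r⟩
  have hGat : ∀ t < 0, ∀ r : ℝ, ContDiffAt ℝ (⊤ : ℕ∞) G (t, r) := fun t ht r =>
    hG.contDiffAt (ft_open.mem_nhds (hmem t ht r))
  have hGf : ∀ t < 0, ∀ r : ℝ, HasFDerivAt G (fderiv ℝ G (t, r)) (t, r) := fun t ht r =>
    ((hGat t ht r).differentiableAt (by simp)).hasFDerivAt
  have hline1 : ∀ t r : ℝ, HasDerivAt (fun s : ℝ => ((s, r) : ℝ × ℝ)) (1, 0) t := fun t r =>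
    (hasDerivAt_id t).prodMk (hasDerivAt_const t r)
  have hline2 : ∀ t r : ℝ, HasDerivAt (fun s : ℝ => ((t, s) : ℝ × ℝ)) (0, 1) r := fun t r =>
    (hasDerivAt_const r t).prodMk (hasDerivAt_id r)
  have hDe : ∀ t < 0, ∀ r : ℝ, D (t, r) = fderiv ℝ G (t, r) (1, 0) := by
    intro t ht r
    have h0 : HasDerivAt (G ∘ fun s : ℝ => ((s, r) : ℝ × ℝ)) (fderiv ℝ G (t, r) (1, 0)) t :=
      (hGf t ht r).comp_hasDerivAt t (hline1 t r)
    have h1 : HasDerivAt (fun s => g s r) (fderiv ℝ G (t, r) (1, 0)) t := h0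
    exact (hDd t ht r).unique h1
  have hge : ∀ t < 0, ∀ r : ℝ, deriv (g t) r = fderiv ℝ G (t, r) (0, 1) := by
    intro t ht r
    have h1 : HasDerivAt (fun s => g t s) (fderiv ℝ G (t, r) (0, 1)) r :=
      (hGf t ht r).comp_hasDerivAt r (hline2 t r)
    exact h1.deriv
  have hff : ∀ t < 0, ∀ r : ℝ,
      HasFDerivAt (fderiv ℝ G) (fderiv ℝ (fderiv ℝ G) (t, r)) (t, r) := by
    intro t ht r
    have h1 : ContDiffAt ℝ 1 (fderiv ℝ G) (t, r) :=
      (hGat t ht r).fderiv_right (m := 1) (by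
        rw [show (1 : WithTop ℕ∞) + 1 = ((2 : ℕ∞) : WithTop ℕ∞) by rfl]
        exact WithTop.coe_le_coe.mpr le_top)
    exact (h1.differentiableAt (by simp)).hasFDerivAt
  have hsymm : ∀ t < 0, ∀ r : ℝ, ∀ v w : ℝ × ℝ, fderiv ℝ (fderiv ℝ G) (t, r) v w =
      fderiv ℝ (fderiv ℝ G) (t, r) w v := by
    intro t ht r v w
    have h1 := (hGat t ht r).isSymmSndFDerivAt (by
      rw [minSmoothness_of_isRCLikeNormedField]
      exact WithTop.coe_le_coe.mpr le_top)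
    exact h1.eq v w
  refine ⟨D, fun p => fderiv ℝ (fderiv ℝ G) p (1, 0) (0, 1), hD.continuousOn, ?_, hDQ, ?_, hDd,
    ?_⟩
  · have h1 : ContDiffOn ℝ (⊤ : ℕ∞) (fderiv ℝ G) (Iio (0 : ℝ) ×ˢ univ) :=
      hG.fderiv_of_isOpen ft_open (by simp)
    have h2 : ContDiffOn ℝ (⊤ : ℕ∞) (fderiv ℝ (fderiv ℝ G)) (Iio (0 : ℝ) ×ˢ univ) :=
      h1.fderiv_of_isOpen ft_open (by simp)
    exact (h2.continuousOn.clm_apply continuousOn_const).clm_apply continuousOn_const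
  · intro t ht r hr
    have h1 : QQ (g t) =ᶠ[𝓝 r] fun r' => fderiv ℝ G (t, r') (1, 0) := by
      filter_upwards [Ioi_mem_nhds hr] with r' hr'
      rw [hDQ t ht r' hr', hDe t ht r']
    rw [h1.deriv_eq]
    have h2 : HasDerivAt (fun r' => fderiv ℝ G (t, r'))
        (fderiv ℝ (fderiv ℝ G) (t, r) (0, 1)) r :=
      (hff t ht r).comp_hasDerivAt r (hline2 t r)
    have h3 : HasDerivAt (fun r' => fderiv ℝ G (t, r') (1, 0))
        (fderiv ℝ (fderiv ℝ G) (t, r) (0, 1) (1, 0)) r :=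
      ((ContinuousLinearMap.apply ℝ ℝ ((1, 0) : ℝ × ℝ)).hasFDerivAt).comp_hasDerivAt r h2
    rw [h3.deriv, hsymm t ht r]
  · intro t ht r
    have h2 : HasDerivAt (fun s => fderiv ℝ G (s, r))
        (fderiv ℝ (fderiv ℝ G) (t, r) (1, 0)) t :=
      (hff t ht r).comp_hasDerivAt t (hline1 t r)
    have h3 : HasDerivAt (fun s => fderiv ℝ G (s, r) (0, 1))
        (fderiv ℝ (fderiv ℝ G) (t, r) (1, 0) (0, 1)) t :=
      ((ContinuousLinearMap.apply ℝ ℝ ((0, 1) : ℝ × ℝ)).hasFDerivAt).comp_hasDerivAt t h2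
    refine h3.congr_of_eventuallyEq ?_
    filter_upwards [Iio_mem_nhds ht] with s hs
    exact hge s hs r

/-- parametric integrals over a bounded interval -/
private theorem ft_param {F F' : ℝ × ℝ → ℝ} {K : ℝ}
    (hF : ContinuousOn F (Iio (0 : ℝ) ×ˢ univ)) (hF' : ContinuousOn F' (Iio (0 : ℝ) ×ˢ univ))
    (hd : ∀ t < 0, ∀ r : ℝ, HasDerivAt (fun s => F (s, r)) (F' (t, r)) t) :
    (∀ t < 0, HasDerivAt (fun s => ∫ r in (0 : ℝ)..K, F (s, r)) (∫ r in (0 : ℝ)..K, F' (t, r)) t) ∧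
      ContinuousOn (fun t => ∫ r in (0 : ℝ)..K, F' (t, r)) (Iio (0 : ℝ)) := by
  have hcr : ∀ {H : ℝ × ℝ → ℝ}, ContinuousOn H (Iio (0 : ℝ) ×ˢ univ) → ∀ t < 0,
      Continuous (fun r => H (t, r)) := by
    intro H hH t ht
    rw [← continuousOn_univ]
    exact hH.comp (by fun_prop) (fun r _ => ⟨ht, mem_univ r⟩)
  have hbd : ∀ t < 0, ∃ M : ℝ, ∀ s ∈ Ioo (t - 1) (t / 2), ∀ r ∈ uIoc 0 K, ‖F' (s, r)‖ ≤ M := by
    intro t ht
    have hc : IsCompact (Icc (t - 1) (t / 2) ×ˢ uIcc (0 : ℝ) K) := isCompact_Icc.prod isCompact_uIcc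
    obtain ⟨M, hM⟩ := hc.exists_bound_of_continuousOn (hF'.mono (fun p hp =>
      ⟨lt_of_le_of_lt hp.1.2 (by linarith), mem_univ _⟩))
    exact ⟨M, fun s hs r hr => hM (s, r) ⟨Ioo_subset_Icc_self hs, uIoc_subset_uIcc hr⟩⟩
  have hnh : ∀ t < (0 : ℝ), Ioo (t - 1) (t / 2) ∈ 𝓝 t := fun t ht =>
    Ioo_mem_nhds (by linarith) (by linarith)
  constructor
  · intro t ht
    obtain ⟨M, hM⟩ := hbd t ht
    refine (intervalIntegral.hasDerivAt_integral_of_dominated_loc_of_deriv_le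
      (F := fun s r => F (s, r)) (F' := fun s r => F' (s, r)) (bound := fun _ => M)
      (hnh t ht) ?_ ?_ ?_ ?_ ?_ ?_).2
    · filter_upwards [Iio_mem_nhds ht] with s hs
      exact (hcr hF s hs).aestronglyMeasurable
    · exact (hcr hF t ht).intervalIntegrable _ _
    · exact (hcr hF' t ht).aestronglyMeasurable
    · exact Filter.Eventually.of_forall fun r hr s hs => hM s hs r hr
    · exact intervalIntegrable_const
    · exact Filter.Eventually.of_forall fun r _ s hs =>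
        hd s (lt_of_lt_of_le hs.2 (by linarith)) r
  · intro t ht
    obtain ⟨M, hM⟩ := hbd t ht
    refine ContinuousAt.continuousWithinAt ?_
    refine intervalIntegral.continuousAt_of_dominated_interval
      (F := fun s r => F' (s, r)) (bound := fun _ => M) ?_ ?_ ?_ ?_
    · filter_upwards [Iio_mem_nhds ht] with s hs
      exact (hcr hF' s hs).aestronglyMeasurable
    · filter_upwards [hnh t ht] with s hs
      exact Filter.Eventually.of_forall fun r hr => hM s hs r hr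
    · exact intervalIntegrable_const
    · refine Filter.Eventually.of_forall fun r _ => ?_
      have h1 : ContinuousAt F' (t, r) :=
        hF'.continuousAt (ft_open.mem_nhds ⟨ht, mem_univ r⟩)
      exact ContinuousAt.comp (f := fun s : ℝ => ((s, r) : ℝ × ℝ)) h1 (by fun_prop)

private theorem ft_int {K : ℝ} (hK : 0 ≤ K) {f : ℝ → ℝ} (hf : ∀ r, K ≤ r → f r = 0) :
    ∫ r in Ioi (0 : ℝ), f r = ∫ r in (0 : ℝ)..K, f r := by
  rw [intervalIntegral.integral_of_le hK]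
  refine setIntegral_eq_of_subset_of_forall_sdiff_eq_zero measurableSet_Ioi
    Ioc_subset_Ioi_self ?_
  intro r hr
  refine hf r ?_
  by_contra h
  exact hr.2 ⟨hr.1, (not_le.mp h).le⟩

/-- the integrands -/
private theorem ft_main {g : ℝ → ℝ → ℝ} {θ : ℝ → ℝ} {δ K : ℝ} (hg : RSol g) (hθ : Tst θ δ K) :
    (∀ t < 0, HasDerivAt (fun s => FI θ (g s)) (dFI θ (g t)) t) ∧
      ContinuousOn (fun t => dFI θ (g t)) (Iio (0 : ℝ)) := by
  obtain ⟨D, D₁, hD, hD₁, hQ, hQ₁, hd, hd₁⟩ := ft_joint hg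
  obtain ⟨hg0, hg1, -⟩ := joint_g hg
  have hg1 := hg1.continuousOn
  have hK : 0 ≤ K := (hθ.dpos.trans hθ.dK).le
  have hpos : ∀ p ∈ (Iio (0 : ℝ) ×ˢ (univ : Set ℝ)), g p.1 p.2 ≠ 0 := fun p hp =>
    ((hg.prof p.1 hp.1).pos p.2).ne'
  have hθc : ContinuousOn (fun p : ℝ × ℝ => θ p.2) (Iio (0 : ℝ) ×ˢ univ) :=
    (hθ.smooth.continuous.comp continuous_snd).continuousOn
  have hr2 : ContinuousOn (fun p : ℝ × ℝ => p.2 ^ 2) (Iio (0 : ℝ) ×ˢ univ) := by fun_prop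
  have hu : ContinuousOn (fun p : ℝ × ℝ => deriv (g p.1) p.2 / g p.1 p.2)
      (Iio (0 : ℝ) ×ˢ univ) := hg1.div hg0 hpos
  let F : ℝ × ℝ → ℝ := fun p => θ p.2 * (p.2 ^ 2 * g p.1 p.2 *
    (deriv (g p.1) p.2 / g p.1 p.2) ^ 2)
  let F' : ℝ × ℝ → ℝ := fun p => θ p.2 * (2 * p.2 ^ 2 * (deriv (g p.1) p.2 / g p.1 p.2) * D₁ p -
    p.2 ^ 2 * (deriv (g p.1) p.2 / g p.1 p.2) ^ 2 * D p)
  have hFc : ContinuousOn F (Iio (0 : ℝ) ×ˢ univ) :=
    hθc.mul ((hr2.mul hg0).mul (hu.pow 2))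
  have hFc' : ContinuousOn F' (Iio (0 : ℝ) ×ˢ univ) :=
    hθc.mul ((((continuousOn_const.mul hr2).mul hu).mul hD₁).sub
      ((hr2.mul (hu.pow 2)).mul hD))
  have hder : ∀ t < 0, ∀ r : ℝ, HasDerivAt (fun s => F (s, r)) (F' (t, r)) t := by
    intro t ht r
    have hne : g t r ≠ 0 := hpos (t, r) ⟨ht, mem_univ r⟩
    have h1 := hd t ht r
    have h2 := hd₁ t ht r
    have h3 := (((h1.const_mul (r ^ 2)).mul ((h2.div h1 hne).pow 2)).const_mul (θ r))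
    refine h3.congr_deriv ?_
    show _ = θ r * (2 * r ^ 2 * (deriv (g t) r / g t r) * D₁ (t, r) -
      r ^ 2 * (deriv (g t) r / g t r) ^ 2 * D (t, r))
    simp only [Pi.div_apply, Pi.pow_apply, show (2 - 1 : ℕ) = 1 from rfl, pow_one,
      Nat.cast_ofNat]
    field_simp
    ring
  obtain ⟨k1, k2⟩ := ft_param (K := K) hFc hFc' hder
  have e1 : ∀ s, FI θ (g s) = ∫ r in (0 : ℝ)..K, F (s, r) := by
    intro s
    refine ft_int hK (f := fun r => θ r * (r ^ 2 * g s r * uu (g s) r ^ 2)) ?_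
    intro r hr
    simp only [hθ.far r hr, zero_mul]
  have e2 : ∀ t < 0, dFI θ (g t) = ∫ r in (0 : ℝ)..K, F' (t, r) := by
    intro t ht
    rw [← ft_int hK (f := fun r => F' (t, r)) (fun r hr => by
      show θ r * _ = 0
      rw [hθ.far r hr, zero_mul])]
    unfold dFI
    refine setIntegral_congr_fun measurableSet_Ioi ?_
    intro r hr
    show θ r * (2 * r ^ 2 * uu (g t) r * deriv (QQ (g t)) r - r ^ 2 * uu (g t) r ^ 2 * QQ (g t) r)
      = θ r * (2 * r ^ 2 * (deriv (g t) r / g t r) * D₁ (t, r) -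
      r ^ 2 * (deriv (g t) r / g t r) ^ 2 * D (t, r))
    rw [hQ t ht r hr, hQ₁ t ht r hr]
    rfl
  constructor
  · intro t ht
    rw [e2 t ht]
    refine (k1 t ht).congr_of_eventuallyEq ?_
    exact Filter.Eventually.of_forall fun s => e1 s
  · exact k2.congr fun t ht => e2 t ht

theorem FI_hasDeriv {g : ℝ → ℝ → ℝ} {θ : ℝ → ℝ} {δ K : ℝ} (hg : RSol g) (hθ : Tst θ δ K)
    {t : ℝ} (ht : t < 0) : HasDerivAt (fun s => FI θ (g s)) (dFI θ (g t)) t :=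
  (ft_main hg hθ).1 t ht

theorem dFI_cont {g : ℝ → ℝ → ℝ} {θ : ℝ → ℝ} {δ K : ℝ} (hg : RSol g) (hθ : Tst θ δ K) :
    ContinuousOn (fun t => dFI θ (g t)) (Iio (0 : ℝ)) :=
  (ft_main hg hθ).2

theorem FI_diff {g : ℝ → ℝ → ℝ} {θ : ℝ → ℝ} {δ K : ℝ} (hg : RSol g) (hθ : Tst θ δ K)
    {s t : ℝ} (hst : s ≤ t) (ht : t < 0) :
    FI θ (g t) - FI θ (g s) = ∫ τ in s..t, dFI θ (g τ) := by
  have hsub : uIcc s t ⊆ Iio (0 : ℝ) := by
    rw [uIcc_of_le hst]
    intro x hx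
    exact lt_of_le_of_lt hx.2 ht
  rw [intervalIntegral.integral_eq_sub_of_hasDerivAt (f := fun τ => FI θ (g τ))
    (fun x hx => FI_hasDeriv hg hθ (hsub hx)) ((dFI_cont hg hθ).mono hsub).intervalIntegrable]

end Pool.Agent.LandauR
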