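import Pool.Agent.LandauR.RCalc
import Pool.Agent.LandauR.ROm
import Pool.Agent.LandauR.RCut

/-!
# LandauR, module RFric: the friction inequality

Fix `0 < R`, `r` (any number `w = om g r`).  Let `ω` be the smooth extension of `om g`,
`v s = s (ω s - w) = uu g s - s w`, so `v' = s ω' - (w - ω)`, and
`BtR g R r = ∫_0^R g (s² v'² + (7/4) v²)` (for `s ≠ 0`: `s² (w - ω)² = v²`).
`η s = dn (2 s / R)`: `1` for `s ≤ R/2`, `0` for `s ≥ R`, `|η'| ≤ C/R`.
`∫_0^R η s² g uu v = ∫ η s² g' v = -∫ g (η s² v)' = -∫ g (η' s² v + 2 η s v + η s² v')` (no boundary terms), and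
`∫ η s² g uu v = ∫ η s² g uu² - w ∫ η s³ g' = ∫ η s² g uu² + w ∫ g (η' s³ + 3 η s²)`.
Hence `Fi g 0 (R/2) ≤ ∫ η s² g uu² ≤ C |w| NN g R + C ∫_0^R g s (|v| + s |v'|)`
`≤ C |w| NN g R + C √(NN g R) √(BtR g R r)` (Cauchy-Schwarz, `|η'| s ≤ C`).
Square: `(a + b)² ≤ 2 a² + 2 b²`.

`fric_int`: multiply by `r g r` and integrate over `(R, K)`: `∫_R^K r g = PP g R - PP g K`,
`∫_R^K r g ω² = ∫_R^K g uu²/r ≤ R⁻³ Fi g R K`.
-/

set_option autoImplicit false

namespace Pool.Agent.LandauR

open MeasureTheory Set Filter Topology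

theorem RFric_dg {g : ℝ → ℝ} (hg : Prof g) (s : ℝ) : HasDerivAt g (g s * uu g s) s := by
  have h1 : HasDerivAt g (deriv g s) s :=
    ((hg.smooth.differentiable (by simp)) s).hasDerivAt
  refine h1.congr_deriv ?_
  unfold uu
  have := (hg.pos s).ne'
  field_simp

theorem RFric_du {g : ℝ → ℝ} (hg : Prof g) (s : ℝ) : HasDerivAt (uu g) (deriv (uu g) s) s :=
  (((uu_smooth hg).differentiable (by simp)) s).hasDerivAt

theorem RFric_uc {g : ℝ → ℝ} (hg : Prof g) : Continuous (uu g) := (uu_smooth hg).continuous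

theorem RFric_u'c {g : ℝ → ℝ} (hg : Prof g) : Continuous (deriv (uu g)) :=
  (contDiff_infty_iff_deriv.1 (uu_smooth hg)).2.continuous

theorem RFric_btr {g : ℝ → ℝ} (hg : Prof g) {R : ℝ} (hR : 0 < R) (r : ℝ) :
    BtR g R r = ∫ s in (0 : ℝ)..R, g s * (s ^ 2 * (deriv (uu g) s - om g r) ^ 2
      + 7 / 4 * (uu g s - s * om g r) ^ 2) := by
  unfold BtR
  apply intervalIntegral.integral_congr_ae
  apply Eventually.of_forall
  intro s hs
  rw [uIoc_of_le hR.le] at hs
  have hs0 : s ≠ 0 := hs.1.ne'
  have h1 : HasDerivAt (om g) ((deriv (uu g) s * s - uu g s * 1) / s ^ 2) s :=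
    (RFric_du hg s).fun_div (hasDerivAt_id' s) hs0
  rw [h1.deriv]
  have h2 : om g s = uu g s / s := rfl
  rw [h2]
  generalize om g r = w
  field_simp
  ring

theorem RFric_cs (f h : ℝ → ℝ) (hf : Continuous f) (hh : Continuous h) {R : ℝ} (hR : 0 < R) :
    (∫ s in (0 : ℝ)..R, f s * h s) ^ 2 ≤
      (∫ s in (0 : ℝ)..R, f s ^ 2) * ∫ s in (0 : ℝ)..R, h s ^ 2 := by
  have h1 : ∀ t : ℝ, 0 ≤ (∫ s in (0 : ℝ)..R, f s ^ 2) * (t * t)
      + (-2 * ∫ s in (0 : ℝ)..R, f s * h s) * t + ∫ s in (0 : ℝ)..R, h s ^ 2 := by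
    intro t
    have h2 : 0 ≤ ∫ s in (0 : ℝ)..R, (t * f s - h s) ^ 2 :=
      intervalIntegral.integral_nonneg hR.le fun s _ => sq_nonneg _
    have i1 : IntervalIntegrable (fun s => f s ^ 2) volume 0 R :=
      (hf.pow 2).intervalIntegrable _ _
    have i2 : IntervalIntegrable (fun s => f s * h s) volume 0 R :=
      (hf.mul hh).intervalIntegrable _ _
    have i3 : IntervalIntegrable (fun s => h s ^ 2) volume 0 R :=
      (hh.pow 2).intervalIntegrable _ _
    have h3 : ∫ s in (0 : ℝ)..R, (t * f s - h s) ^ 2 =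
        (∫ s in (0 : ℝ)..R, f s ^ 2) * (t * t)
      + (-2 * ∫ s in (0 : ℝ)..R, f s * h s) * t + ∫ s in (0 : ℝ)..R, h s ^ 2 := by
      have h4 : ∀ s, (t * f s - h s) ^ 2 =
          (t * t) * f s ^ 2 + (-2 * t) * (f s * h s) + h s ^ 2 := fun s => by ring
      simp only [h4]
      rw [intervalIntegral.integral_add ((i1.const_mul _).add (i2.const_mul _)) i3,
        intervalIntegral.integral_add (i1.const_mul _) (i2.const_mul _),
        intervalIntegral.integral_const_mul, intervalIntegral.integral_const_mul]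
      ring
    rw [← h3]
    exact h2
  have h5 := discrim_le_zero h1
  unfold discrim at h5
  nlinarith

theorem RFric_eta {R : ℝ} (s : ℝ) :
    HasDerivAt (fun s => dn (2 * s / R)) (-(deriv up (2 * s / R) * (2 / R))) s := by
  have h1 : HasDerivAt (fun s : ℝ => 2 * s / R) (2 / R) s := by
    have := ((hasDerivAt_id' s).const_mul (2 : ℝ)).div_const R
    simpa using this
  have h2 : HasDerivAt up (deriv up (2 * s / R)) (2 * s / R) :=
    ((up_smooth.differentiable (by simp)) _).hasDerivAt
  exact (h2.comp s h1).const_sub 1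

theorem RFric_J {g : ℝ → ℝ} (hg : Prof g) {K : ℝ} (hK1 : 1 ≤ K)
    (hK : ∀ x, |deriv up x| ≤ K) {R : ℝ} (hR : 0 < R) (w : ℝ) :
    Fi g 0 (R / 2) ≤ (2 * K + 3) * |w| * NN g R +
      ∫ s in (0 : ℝ)..R, (s * g s) * ((2 * K + 2) * |uu g s - s * w|
        + s * |deriv (uu g) s - w|) := by
  have hgc : Continuous g := rc_cont hg
  have huc := RFric_uc hg
  have hu'c := RFric_u'c hg
  have hupc : Continuous up := up_smooth.continuous
  have hup'c : Continuous (deriv up) := (contDiff_infty_iff_deriv.1 up_smooth).2.continuous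
  have hdnc : Continuous (fun s => dn (2 * s / R)) := by
    unfold dn
    fun_prop
  have hdn'c : Continuous (fun s => -(deriv up (2 * s / R) * (2 / R))) := by
    fun_prop
  set η : ℝ → ℝ := fun s => dn (2 * s / R) with hη
  set η' : ℝ → ℝ := fun s => -(deriv up (2 * s / R) * (2 / R)) with hη'
  have hη0 : ∀ s, 0 ≤ η s := fun s => by
    have := up_le_one (2 * s / R)
    simp only [hη, dn]
    linarith
  have hη1 : ∀ s, η s ≤ 1 := fun s => by
    have := up_nonneg (2 * s / R)
    simp only [hη, dn]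
    linarith
  have hηR : η R = 0 := by
    simp only [hη, dn]
    rw [up_one (by rw [le_div_iff₀ hR])]
    ring
  -- the total derivative
  have hF : ∀ s ∈ uIcc 0 R, HasDerivAt (fun s => η s * s ^ 2 * uu g s * g s)
      (g s * (η' s * s ^ 2 * uu g s + 2 * (η s * s * uu g s) + η s * s ^ 2 * deriv (uu g) s)
        + η s * (s ^ 2 * g s * uu g s ^ 2)) s := by
    intro s _
    have h1 : HasDerivAt (fun s : ℝ => s ^ 2) (2 * s) s := by
      simpa using hasDerivAt_pow 2 s
    have h2 := (((RFric_eta (R := R) s).fun_mul h1).fun_mul (RFric_du hg s)).fun_mul (RFric_dg hg s)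
    refine h2.congr_deriv ?_
    simp only [hη, hη']
    ring
  have hA : Continuous (fun s => g s * (η' s * s ^ 2 * uu g s + 2 * (η s * s * uu g s)
      + η s * s ^ 2 * deriv (uu g) s)) := by fun_prop
  have hB : Continuous (fun s => η s * (s ^ 2 * g s * uu g s ^ 2)) := by fun_prop
  have hint := intervalIntegral.integral_eq_sub_of_hasDerivAt hF
    ((hA.add hB).intervalIntegrable _ _)
  rw [intervalIntegral.integral_add (hA.intervalIntegrable _ _) (hB.intervalIntegrable _ _)] at hint
  rw [hηR] at hint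
  have hJ : ∫ s in (0 : ℝ)..R, η s * (s ^ 2 * g s * uu g s ^ 2) =
      ∫ s in (0 : ℝ)..R, -(g s * (η' s * s ^ 2 * uu g s + 2 * (η s * s * uu g s)
      + η s * s ^ 2 * deriv (uu g) s)) := by
    rw [intervalIntegral.integral_neg]
    norm_num at hint
    linarith
  -- lower bound
  have hlow : Fi g 0 (R / 2) ≤ ∫ s in (0 : ℝ)..R, η s * (s ^ 2 * g s * uu g s ^ 2) := by
    rw [← intervalIntegral.integral_add_adjacent_intervals (a := 0) (b := R / 2) (c := R)
      (hB.intervalIntegrable _ _) (hB.intervalIntegrable _ _)]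
    have h1 : Fi g 0 (R / 2) = ∫ s in (0 : ℝ)..(R / 2), η s * (s ^ 2 * g s * uu g s ^ 2) := by
      unfold Fi
      apply intervalIntegral.integral_congr
      intro s hs
      rw [uIcc_of_le (by positivity)] at hs
      have h2 : η s = 1 := by
        simp only [hη, dn]
        rw [up_zero (by
          rw [div_le_one hR]
          linarith [hs.2])]
        ring
      simp only [h2, one_mul]
    have h3 : 0 ≤ ∫ s in (R / 2)..R, η s * (s ^ 2 * g s * uu g s ^ 2) := by
      apply intervalIntegral.integral_nonneg (by linarith)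
      intro s _
      have h4 := hg.pos s
      have h5 := hη0 s
      positivity
    linarith
  have hup : ∫ s in (0 : ℝ)..R, -(g s * (η' s * s ^ 2 * uu g s + 2 * (η s * s * uu g s)
      + η s * s ^ 2 * deriv (uu g) s)) ≤
      ∫ s in (0 : ℝ)..R, ((2 * K + 3) * |w| * (s ^ 2 * g s) +
      (s * g s) * ((2 * K + 2) * |uu g s - s * w| + s * |deriv (uu g) s - w|)) := by
    apply intervalIntegral.integral_mono_on hR.le
    · exact hA.neg.intervalIntegrable _ _
    · apply Continuous.intervalIntegrable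
      fun_prop
    · intro s hs
      have h4 := hg.pos s
      have h5 := hη0 s
      have h6 := hη1 s
      have h7 : |η' s * s| ≤ 2 * K := by
        simp only [hη']
        rw [abs_mul, abs_neg, abs_mul, abs_of_pos (show (0 : ℝ) < 2 / R by positivity),
          abs_of_nonneg hs.1]
        have h8 := hK (2 * s / R)
        have h9 : 0 ≤ |deriv up (2 * s / R)| := abs_nonneg _
        have h10 : 2 / R * s ≤ 2 := by
          rw [div_mul_eq_mul_div, div_le_iff₀ hR]
          linarith [hs.2]
        have h11 : 0 ≤ 2 / R * s := mul_nonneg (by positivity) hs.1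
        calc |deriv up (2 * s / R)| * (2 / R) * s = |deriv up (2 * s / R)| * (2 / R * s) := by ring
          _ ≤ K * 2 := mul_le_mul h8 h10 h11 (by linarith)
          _ = 2 * K := by ring
      set v := uu g s - s * w with hv
      set v' := deriv (uu g) s - w with hv'
      set e := η' s * s with he
      have hu : uu g s = v + s * w := by rw [hv]; ring
      have hu' : deriv (uu g) s = v' + w := by rw [hv']; ring
      have h12 : -(g s * (η' s * s ^ 2 * uu g s + 2 * (η s * s * uu g s)
          + η s * s ^ 2 * deriv (uu g) s)) =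
          (s * g s) * (-((e + 2 * η s) * v) - η s * (s * v') - (e + 3 * η s) * (s * w)) := by
        rw [hu, hu', he]
        ring
      rw [h12]
      have h13 : -((e + 2 * η s) * v) ≤ (2 * K + 2) * |v| := by
        have h14 : |(e + 2 * η s) * v| ≤ (2 * K + 2) * |v| := by
          rw [abs_mul]
          apply mul_le_mul_of_nonneg_right _ (abs_nonneg _)
          have := abs_le.1 h7
          rw [abs_le]
          constructor <;> linarith
        have := neg_abs_le ((e + 2 * η s) * v)
        linarith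
      have h15 : -(η s * (s * v')) ≤ s * |v'| := by
        have h16 : |η s * (s * v')| ≤ s * |v'| := by
          rw [abs_mul, abs_mul, abs_of_nonneg h5, abs_of_nonneg hs.1]
          have : 0 ≤ s * |v'| := mul_nonneg hs.1 (abs_nonneg _)
          nlinarith
        have := neg_abs_le (η s * (s * v'))
        linarith
      have h17 : -((e + 3 * η s) * (s * w)) ≤ (2 * K + 3) * (s * |w|) := by
        have h18 : |(e + 3 * η s) * (s * w)| ≤ (2 * K + 3) * (s * |w|) := by
          rw [abs_mul, abs_mul s w, abs_of_nonneg hs.1]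
          apply mul_le_mul_of_nonneg_right _ (mul_nonneg hs.1 (abs_nonneg _))
          have := abs_le.1 h7
          rw [abs_le]
          constructor <;> linarith
        have := neg_abs_le ((e + 3 * η s) * (s * w))
        linarith
      have h19 : 0 ≤ s * g s := mul_nonneg hs.1 h4.le
      calc (s * g s) * (-((e + 2 * η s) * v) - η s * (s * v') - (e + 3 * η s) * (s * w))
          ≤ (s * g s) * ((2 * K + 2) * |v| + s * |v'| + (2 * K + 3) * (s * |w|)) := by
            apply mul_le_mul_of_nonneg_left _ h19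
            linarith
        _ = _ := by ring
  have hfin : ∫ s in (0 : ℝ)..R, ((2 * K + 3) * |w| * (s ^ 2 * g s) +
      (s * g s) * ((2 * K + 2) * |uu g s - s * w| + s * |deriv (uu g) s - w|)) =
      (2 * K + 3) * |w| * NN g R +
      ∫ s in (0 : ℝ)..R, (s * g s) * ((2 * K + 2) * |uu g s - s * w|
        + s * |deriv (uu g) s - w|) := by
    rw [intervalIntegral.integral_add]
    · rw [intervalIntegral.integral_const_mul]
      rfl
    · apply Continuous.intervalIntegrable
      fun_prop
    · apply Continuous.intervalIntegrable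
      fun_prop
  calc Fi g 0 (R / 2) ≤ _ := hlow
    _ = _ := hJ
    _ ≤ _ := hup
    _ = _ := hfin

theorem fric_pt : ∃ C : ℝ, 0 < C ∧ ∀ g : ℝ → ℝ, Prof g → ∀ R r : ℝ, 0 < R → R < r →
    Fi g 0 (R / 2) ^ 2 ≤ C * (NN g R * BtR g R r + om g r ^ 2 * NN g R ^ 2) := by
  obtain ⟨K, hK1, hK⟩ := up_bd
  refine ⟨4 * (2 * K + 3) ^ 2, by positivity, ?_⟩
  intro g hg R r hR hr
  have hgc : Continuous g := rc_cont hg
  have huc := RFric_uc hg
  have hu'c := RFric_u'c hg
  set w := om g r with hw
  have h1 := RFric_J hg hK1 (fun x => (hK x).1) hR w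
  set b := ∫ s in (0 : ℝ)..R, (s * g s) * ((2 * K + 2) * |uu g s - s * w|
        + s * |deriv (uu g) s - w|) with hb
  have h2 : b ^ 2 ≤ NN g R * (2 * (2 * K + 2) ^ 2 * BtR g R r) := by
    set f : ℝ → ℝ := fun s => s * Real.sqrt (g s) with hf
    set h : ℝ → ℝ := fun s => Real.sqrt (g s) * ((2 * K + 2) * |uu g s - s * w|
        + s * |deriv (uu g) s - w|) with hh
    have hfc : Continuous f := by
      simp only [hf]
      fun_prop
    have hhc : Continuous h := by
      simp only [hh]
      fun_prop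
    have h3 := RFric_cs f h hfc hhc hR
    have h4 : ∫ s in (0 : ℝ)..R, f s * h s = b := by
      rw [hb]
      congr 1
      funext s
      simp only [hf, hh]
      have := Real.mul_self_sqrt (hg.pos s).le
      calc s * Real.sqrt (g s) * (Real.sqrt (g s) * ((2 * K + 2) * |uu g s - s * w|
        + s * |deriv (uu g) s - w|)) = s * (Real.sqrt (g s) * Real.sqrt (g s)) *
          ((2 * K + 2) * |uu g s - s * w| + s * |deriv (uu g) s - w|) := by ring
        _ = _ := by rw [this]
    have h5 : ∫ s in (0 : ℝ)..R, f s ^ 2 = NN g R := by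
      unfold NN
      congr 1
      funext s
      simp only [hf]
      rw [mul_pow, Real.sq_sqrt (hg.pos s).le]
    have h6 : ∫ s in (0 : ℝ)..R, h s ^ 2 ≤ 2 * (2 * K + 2) ^ 2 * BtR g R r := by
      rw [RFric_btr hg hR r, ← intervalIntegral.integral_const_mul]
      apply intervalIntegral.integral_mono_on hR.le
      · exact (hhc.pow 2).intervalIntegrable _ _
      · apply Continuous.intervalIntegrable
        fun_prop
      · intro s hs
        simp only [hh]
        rw [mul_pow, Real.sq_sqrt (hg.pos s).le, ← hw]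
        have h7 := hg.pos s
        have h8 : ((2 * K + 2) * |uu g s - s * w| + s * |deriv (uu g) s - w|) ^ 2 ≤
            2 * (2 * K + 2) ^ 2 * (s ^ 2 * (deriv (uu g) s - w) ^ 2
              + 7 / 4 * (uu g s - s * w) ^ 2) := by
          rw [← sq_abs (deriv (uu g) s - w), ← sq_abs (uu g s - s * w)]
          generalize |uu g s - s * w| = x
          generalize |deriv (uu g) s - w| = y
          have h9 : ((2 * K + 2) * x + s * y) ^ 2 ≤ 2 * ((2 * K + 2) * x) ^ 2 + 2 * (s * y) ^ 2 := by
            nlinarith [sq_nonneg ((2 * K + 2) * x - s * y)]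
          have h10 : 2 * (s * y) ^ 2 ≤ 2 * (2 * K + 2) ^ 2 * (s ^ 2 * y ^ 2) := by
            have : (1 : ℝ) ≤ (2 * K + 2) ^ 2 := by nlinarith
            have h11 : 0 ≤ s ^ 2 * y ^ 2 := by positivity
            nlinarith
          have h12 : 0 ≤ (2 * K + 2) ^ 2 * x ^ 2 := by positivity
          nlinarith
        calc g s * ((2 * K + 2) * |uu g s - s * w| + s * |deriv (uu g) s - w|) ^ 2
            ≤ g s * (2 * (2 * K + 2) ^ 2 * (s ^ 2 * (deriv (uu g) s - w) ^ 2
              + 7 / 4 * (uu g s - s * w) ^ 2)) := mul_le_mul_of_nonneg_left h8 h7.le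
          _ = _ := by ring
    rw [h4, h5] at h3
    exact h3.trans (mul_le_mul_of_nonneg_left h6 (NN_nonneg hg hR.le))
  have hFi : 0 ≤ Fi g 0 (R / 2) := by
    unfold Fi
    apply intervalIntegral.integral_nonneg (by positivity)
    intro s _
    have := hg.pos s
    positivity
  have hN := NN_nonneg hg hR.le
  have hB : 0 ≤ BtR g R r := by
    rw [RFric_btr hg hR r]
    apply intervalIntegral.integral_nonneg hR.le
    intro s _
    have := hg.pos s
    positivity
  have h20 : Fi g 0 (R / 2) ^ 2 ≤ ((2 * K + 3) * |w| * NN g R + b) ^ 2 :=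
    pow_le_pow_left₀ hFi h1 2
  have h21 : ((2 * K + 3) * |w| * NN g R + b) ^ 2 ≤
      2 * ((2 * K + 3) * |w| * NN g R) ^ 2 + 2 * b ^ 2 := by
    nlinarith [sq_nonneg ((2 * K + 3) * |w| * NN g R - b)]
  have h22 : 2 * ((2 * K + 3) * |w| * NN g R) ^ 2 ≤
      4 * (2 * K + 3) ^ 2 * (w ^ 2 * NN g R ^ 2) := by
    rw [mul_pow, mul_pow, sq_abs]
    have : 0 ≤ (2 * K + 3) ^ 2 * (w ^ 2 * NN g R ^ 2) := by positivity
    nlinarith
  have h23 : 2 * b ^ 2 ≤ 4 * (2 * K + 3) ^ 2 * (NN g R * BtR g R r) := by
    have h24 : 0 ≤ NN g R * BtR g R r := mul_nonneg hN hB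
    have h25 : (2 * K + 2) ^ 2 ≤ (2 * K + 3) ^ 2 := by nlinarith
    have h26 : 2 * b ^ 2 ≤ 4 * (2 * K + 2) ^ 2 * (NN g R * BtR g R r) := by nlinarith
    refine h26.trans ?_
    apply mul_le_mul_of_nonneg_right _ h24
    linarith
  calc Fi g 0 (R / 2) ^ 2 ≤ _ := h20
    _ ≤ _ := h21
    _ ≤ 4 * (2 * K + 3) ^ 2 * (w ^ 2 * NN g R ^ 2)
        + 4 * (2 * K + 3) ^ 2 * (NN g R * BtR g R r) := add_le_add h22 h23
    _ = _ := by ring

theorem RFric_btrc {g : ℝ → ℝ} (hg : Prof g) {R K : ℝ} (hR : 0 < R) (hRK : R < K) :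
    ContinuousOn (fun r => BtR g R r) (uIcc R K) := by
  have hgc : Continuous g := rc_cont hg
  have huc := RFric_uc hg
  have hu'c := RFric_u'c hg
  have hom : ContinuousOn (om g) (uIcc R K) := by
    apply ContinuousOn.div huc.continuousOn continuousOn_id
    intro x hx
    rw [uIcc_of_le hRK.le] at hx
    have : 0 < x := lt_of_lt_of_le hR hx.1
    exact this.ne'
  have h1 : ∀ r, BtR g R r =
      (∫ s in (0 : ℝ)..R, g s * (s ^ 2 * deriv (uu g) s ^ 2 + 7 / 4 * uu g s ^ 2))
      + (-2 * om g r) * (∫ s in (0 : ℝ)..R, g s * (s ^ 2 * deriv (uu g) s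
        + 7 / 4 * (uu g s * s)))
      + om g r ^ 2 * (∫ s in (0 : ℝ)..R, g s * (11 / 4 * s ^ 2)) := by
    intro r
    rw [RFric_btr hg hR r]
    have c1 : Continuous (fun s => g s * (s ^ 2 * deriv (uu g) s ^ 2 + 7 / 4 * uu g s ^ 2)) := by
      fun_prop
    have c2 : Continuous (fun s => g s * (s ^ 2 * deriv (uu g) s + 7 / 4 * (uu g s * s))) := by
      fun_prop
    have c3 : Continuous (fun s => g s * (11 / 4 * s ^ 2)) := by
      fun_prop
    rw [← intervalIntegral.integral_const_mul, ← intervalIntegral.integral_const_mul,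
      ← intervalIntegral.integral_add (c1.intervalIntegrable _ _)
        ((c2.intervalIntegrable _ _).const_mul _),
      ← intervalIntegral.integral_add
        ((c1.intervalIntegrable _ _).add ((c2.intervalIntegrable _ _).const_mul _))
        ((c3.intervalIntegrable _ _).const_mul _)]
    congr 1
    funext s
    ring
  simp only [h1]
  fun_prop

theorem fric_int : ∃ C : ℝ, 0 < C ∧ ∀ g : ℝ → ℝ, Prof g → ∀ R K : ℝ, 0 < R → R < K →
    (PP g R - PP g K) * Fi g 0 (R / 2) ^ 2 ≤
      C * (NN g R * Frr g R K + NN g R ^ 2 / R ^ 3 * Fi g R K) := by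
  obtain ⟨C, hC, hpt⟩ := fric_pt
  refine ⟨C, hC, ?_⟩
  intro g hg R K hR hRK
  have hgc : Continuous g := rc_cont hg
  have huc := RFric_uc hg
  have hom : ContinuousOn (om g) (uIcc R K) := by
    apply ContinuousOn.div huc.continuousOn continuousOn_id
    intro x hx
    rw [uIcc_of_le hRK.le] at hx
    have : 0 < x := lt_of_lt_of_le hR hx.1
    exact this.ne'
  have hbt := RFric_btrc hg hR hRK
  have h1 : PP g R - PP g K = ∫ s in R..K, s * g s := by
    have := rc_PP_sub hg R K
    linarith
  rw [h1, ← intervalIntegral.integral_mul_const]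
  have i1 : IntervalIntegrable (fun r => r * g r * BtR g R r) volume R K := by
    apply ContinuousOn.intervalIntegrable
    fun_prop
  have i2 : IntervalIntegrable (fun r => r * g r * om g r ^ 2) volume R K := by
    apply ContinuousOn.intervalIntegrable
    fun_prop
  have h2 : ∫ s in R..K, s * g s * Fi g 0 (R / 2) ^ 2 ≤
      ∫ r in R..K, (C * NN g R * (r * g r * BtR g R r)
        + C * NN g R ^ 2 * (r * g r * om g r ^ 2)) := by
    apply intervalIntegral.integral_mono_on_of_le_Ioo hRK.le
    · apply Continuous.intervalIntegrable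
      fun_prop
    · exact (i1.const_mul _).add (i2.const_mul _)
    · intro r hr
      have h3 := hpt g hg R r hR hr.1
      have h4 := hg.pos r
      have h5 : 0 ≤ r * g r := mul_nonneg (hR.trans hr.1).le h4.le
      calc r * g r * Fi g 0 (R / 2) ^ 2
          ≤ r * g r * (C * (NN g R * BtR g R r + om g r ^ 2 * NN g R ^ 2)) :=
            mul_le_mul_of_nonneg_left h3 h5
        _ = _ := by ring
  refine h2.trans ?_
  rw [intervalIntegral.integral_add (i1.const_mul _) (i2.const_mul _),
    intervalIntegral.integral_const_mul, intervalIntegral.integral_const_mul]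
  have h6 : ∫ r in R..K, r * g r * om g r ^ 2 ≤ 1 / R ^ 3 * Fi g R K := by
    unfold Fi
    rw [← intervalIntegral.integral_const_mul]
    apply intervalIntegral.integral_mono_on hRK.le i2
    · apply Continuous.intervalIntegrable
      fun_prop
    · intro r hr
      have hr0 : 0 < r := lt_of_lt_of_le hR hr.1
      have h7 : om g r = uu g r / r := rfl
      have h8 := hg.pos r
      rw [h7]
      have h9 : r * g r * (uu g r / r) ^ 2 = 1 / r ^ 3 * (r ^ 2 * g r * uu g r ^ 2) := by
        field_simp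
      rw [h9]
      apply mul_le_mul_of_nonneg_right _ (by positivity)
      apply one_div_le_one_div_of_le (by positivity)
      exact pow_le_pow_left₀ hR.le hr.1 3
  have h10 : 0 ≤ C * NN g R ^ 2 := by positivity
  have h11 : Frr g R K = ∫ r in R..K, r * g r * BtR g R r := rfl
  rw [h11]
  have h12 := mul_le_mul_of_nonneg_left h6 h10
  calc C * NN g R * (∫ r in R..K, r * g r * BtR g R r)
        + C * NN g R ^ 2 * ∫ r in R..K, r * g r * om g r ^ 2
      ≤ C * NN g R * (∫ r in R..K, r * g r * BtR g R r)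
        + C * NN g R ^ 2 * (1 / R ^ 3 * Fi g R K) := by linarith
    _ = _ := by ring

end Pool.Agent.LandauR
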