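import Pool.Agent.LandauR.RContP

/-!
# LandauR, module RFrozen: the potential at radius `R` is frozen on time scales `R² / aa`

Let `Y(t) = ∫_0^∞ Phi(r/R)/R · r² g dr`.  By `Phi_low`, `Phi_up`:
`aa (g t) R = ∫ min(1/R, 1/r) r² g ≤ Y(t) ≤ 2 aa (g t) R`.
`Y` is the limit of `mom (phiY R n) (g t)` as `n → ∞` (dominated by `2 · min(1/R, 1/r) r² g`).  By `mom_diff`
and `weak_bd1`, `|Y(t2) - Y(t1)| ≤ (4 B / R²) ∫_{t1}^{t2} aa · PP ≤ (4 B / R²) ∫_{t1}^{t2} Y²`
(`PP ≤ aa ≤ Y`; use `∫ aa · PP`, which is continuous in time by `cont_aa`, `cont_PP`; pass to the limit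
`n → ∞` on the left only).  So `Y` is continuous (locally Lipschitz) and positive, and for `t1 ≤ t2`
`|1/Y(t2) - 1/Y(t1)| ≤ (4 B / R²)(t2 - t1)` (for instance: on a fine partition of `[t1, t2]` the ratio of
values of `Y` on each cell tends to `1`; or: `Y` is locally Lipschitz, hence so is `1/Y`; an alternative is a
comparison argument with the solutions of `y' = ± k y²`).
If `(t - s) aa (g t) R ≤ c R²` with `c = 1/(16 B)` (`Y(t) ≤ 2 aa`), then
`1/Y(s) ≥ 1/Y(t) - 4B(t-s)/R² ≥ 1/(2 Y(t))` and `1/Y(s) ≤ 1/Y(t) + 1/(2 Y(t))`, so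
`Y(s) ≤ 2 Y(t)`, `Y(t) ≤ 2 Y(s)`, hence the claim with the factor `4`.  (Enlarge `B` so that `c ≤ 1`.)
-/

set_option autoImplicit false

namespace Pool.Agent.LandauR

open MeasureTheory Set Filter Topology

private noncomputable def fzF (R : ℝ) (g : ℝ → ℝ) (r : ℝ) : ℝ := Phi (r / R) / R * (r ^ 2 * g r)

private theorem fz_up_meas : Measurable up := up_smooth.continuous.measurable

private theorem fz_Phi_meas : Measurable Phi := by
  unfold Phi dn
  exact (measurable_const.sub fz_up_meas).add (fz_up_meas.div measurable_id)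

private theorem fzF_meas {g : ℝ → ℝ} (hg : Prof g) (R : ℝ) : Measurable (fzF R g) := by
  unfold fzF
  have h1 : Measurable g := hg.smooth.continuous.measurable
  have h2 : Measurable fun r : ℝ => Phi (r / R) := fz_Phi_meas.comp (measurable_id.div_const R)
  exact (h2.div_const R).mul ((measurable_id.pow_const 2).mul h1)

private theorem fz_in {g : ℝ → ℝ} (hg : Prof g) {R r : ℝ} (hR : 0 < R) (hr : 0 < r) (h : r ≤ R) :
    r ^ 2 * g r / R ≤ fzF R g r ∧ fzF R g r ≤ 2 * (r ^ 2 * g r / R) := by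
  have hx : 0 < r / R := div_pos hr hR
  have hx1 : r / R ≤ 1 := (div_le_one hR).2 h
  have h1 := Phi_low hx
  have h2 := Phi_up hx
  have h3 : min 1 (1 / (r / R)) = 1 := min_eq_left (by rw [le_div_iff₀ hx]; linarith)
  rw [h3] at h1 h2
  have h4 : 0 ≤ r ^ 2 * g r / R := by
    have := hg.pos r
    positivity
  have e : fzF R g r = Phi (r / R) * (r ^ 2 * g r / R) := by
    unfold fzF
    ring
  rw [e]
  constructor
  · nlinarith
  · nlinarith

private theorem fz_out {g : ℝ → ℝ} (hg : Prof g) {R r : ℝ} (hR : 0 < R) (h : R < r) :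
    r * g r ≤ fzF R g r ∧ fzF R g r ≤ 2 * (r * g r) := by
  have hr : 0 < r := hR.trans h
  have hx : 0 < r / R := div_pos hr hR
  have hx1 : 1 ≤ r / R := (one_le_div hR).2 h.le
  have h1 := Phi_low hx
  have h2 := Phi_up hx
  have h3 : min 1 (1 / (r / R)) = 1 / (r / R) :=
    min_eq_right (by rw [div_le_iff₀ hx]; linarith)
  rw [h3] at h1 h2
  have h4 : 0 ≤ r ^ 2 * g r / R := by
    have := hg.pos r
    positivity
  have e : fzF R g r = Phi (r / R) * (r ^ 2 * g r / R) := by
    unfold fzF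
    ring
  have e2 : r * g r = 1 / (r / R) * (r ^ 2 * g r / R) := by
    field_simp
  rw [e, e2]
  constructor
  · exact mul_le_mul_of_nonneg_right h1 h4
  · have := mul_le_mul_of_nonneg_right h2 h4
    linarith

private theorem fz_nonneg {g : ℝ → ℝ} (hg : Prof g) {R r : ℝ} (hR : 0 < R) (hr : 0 < r) :
    0 ≤ fzF R g r := by
  have h0 := hg.pos r
  rcases le_or_gt r R with h | h
  · exact le_trans (by positivity) (fz_in hg hR hr h).1
  · exact le_trans (by positivity) (fz_out hg hR h).1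

private theorem fz_ioc {g : ℝ → ℝ} (hg : Prof g) (R : ℝ) :
    IntegrableOn (fun r => r ^ 2 * g r / R) (Ioc 0 R) := by
  have h1 : Continuous g := hg.smooth.continuous
  have h2 : Continuous fun r => r ^ 2 * g r / R := by fun_prop
  exact h2.integrableOn_Ioc

private theorem fz_int1 {g : ℝ → ℝ} (hg : Prof g) {R : ℝ} (hR : 0 < R) :
    IntegrableOn (fzF R g) (Ioc 0 R) := by
  refine Integrable.mono' ((fz_ioc hg R).const_mul 2) (fzF_meas hg R).aestronglyMeasurable ?_
  refine (ae_restrict_iff' measurableSet_Ioc).2 (Eventually.of_forall fun r hr => ?_)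
  rw [Real.norm_of_nonneg (fz_nonneg hg hR hr.1)]
  exact (fz_in hg hR hr.1 hr.2).2

private theorem fz_int2 {g : ℝ → ℝ} (hg : Prof g) {R : ℝ} (hR : 0 < R) :
    IntegrableOn (fzF R g) (Ioi R) := by
  refine Integrable.mono' ((int_Ioi hg R).const_mul 2) (fzF_meas hg R).aestronglyMeasurable ?_
  refine (ae_restrict_iff' measurableSet_Ioi).2 (Eventually.of_forall fun r hr => ?_)
  have hr' : R < r := hr
  rw [Real.norm_of_nonneg (fz_nonneg hg hR (hR.trans hr'))]
  exact (fz_out hg hR hr').2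

private theorem fz_int {g : ℝ → ℝ} (hg : Prof g) {R : ℝ} (hR : 0 < R) :
    IntegrableOn (fzF R g) (Ioi 0) := by
  rw [← Ioc_union_Ioi_eq_Ioi hR.le]
  exact (fz_int1 hg hR).union (fz_int2 hg hR)

private noncomputable def fzY (R : ℝ) (g : ℝ → ℝ) : ℝ := ∫ r in Ioi (0 : ℝ), fzF R g r

private theorem fz_split {g : ℝ → ℝ} (hg : Prof g) {R : ℝ} (hR : 0 < R) :
    fzY R g = (∫ r in Ioc (0 : ℝ) R, fzF R g r) + ∫ r in Ioi R, fzF R g r := by
  unfold fzY
  rw [← Ioc_union_Ioi_eq_Ioi hR.le, setIntegral_union (Ioc_disjoint_Ioi le_rfl) measurableSet_Ioi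
    (fz_int1 hg hR) (fz_int2 hg hR)]

private theorem fz_aa (g : ℝ → ℝ) {R : ℝ} (hR : 0 < R) :
    aa g R = (∫ r in Ioc (0 : ℝ) R, r ^ 2 * g r / R) + ∫ r in Ioi R, r * g r := by
  unfold aa NN PP
  rw [intervalIntegral.integral_of_le hR.le, integral_div]

private theorem fz_low {g : ℝ → ℝ} (hg : Prof g) {R : ℝ} (hR : 0 < R) : aa g R ≤ fzY R g := by
  rw [fz_aa g hR, fz_split hg hR]
  refine add_le_add ?_ ?_
  · exact setIntegral_mono_on (fz_ioc hg R) (fz_int1 hg hR) measurableSet_Ioc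
      (fun r hr => (fz_in hg hR hr.1 hr.2).1)
  · exact setIntegral_mono_on (int_Ioi hg R) (fz_int2 hg hR) measurableSet_Ioi
      (fun r hr => (fz_out hg hR hr).1)

private theorem fz_upp {g : ℝ → ℝ} (hg : Prof g) {R : ℝ} (hR : 0 < R) :
    fzY R g ≤ 2 * aa g R := by
  rw [fz_aa g hR, fz_split hg hR, mul_add, ← integral_const_mul, ← integral_const_mul]
  refine add_le_add ?_ ?_
  · exact setIntegral_mono_on (fz_int1 hg hR) ((fz_ioc hg R).const_mul 2) measurableSet_Ioc
      (fun r hr => (fz_in hg hR hr.1 hr.2).2)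
  · exact setIntegral_mono_on (fz_int2 hg hR) ((int_Ioi hg R).const_mul 2) measurableSet_Ioi
      (fun r hr => (fz_out hg hR hr).2)

private theorem fz_tendsto {g : ℝ → ℝ} (hg : Prof g) {R : ℝ} (hR : 0 < R) :
    Tendsto (fun n : ℕ => mom (phiY R n) g) atTop (𝓝 (fzY R g)) := by
  unfold mom fzY
  refine tendsto_integral_of_dominated_convergence (fzF R g) ?_ (fz_int hg hR) ?_ ?_
  · intro n
    have h1 : (fun r => phiY R n r * (r ^ 2 * g r)) = fun r => dn (r / n) * fzF R g r := by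
      funext r
      unfold phiY fzF
      ring
    rw [h1]
    have h2 : Measurable dn := measurable_const.sub fz_up_meas
    exact ((h2.comp (measurable_id.div_const (n : ℝ))).mul (fzF_meas hg R)).aestronglyMeasurable
  · intro n
    refine (ae_restrict_iff' measurableSet_Ioi).2 (Eventually.of_forall fun r hr => ?_)
    have h1 : phiY R n r * (r ^ 2 * g r) = dn (r / n) * fzF R g r := by
      unfold phiY fzF
      ring
    rw [h1, norm_mul, Real.norm_of_nonneg (fz_nonneg hg hR hr)]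
    have h3 : ‖dn (r / n)‖ ≤ 1 := by
      unfold dn
      rw [Real.norm_eq_abs, abs_le]
      have a1 := up_nonneg (r / n)
      have a2 := up_le_one (r / n)
      constructor <;> linarith
    exact mul_le_of_le_one_left (fz_nonneg hg hR hr) h3
  · refine (ae_restrict_iff' measurableSet_Ioi).2 (Eventually.of_forall fun r hr => ?_)
    have hr' : 0 < r := hr
    refine tendsto_const_nhds.congr' ?_
    obtain ⟨N, hN⟩ := exists_nat_ge r
    filter_upwards [eventually_ge_atTop N] with n hn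
    have h1 : phiY R n r * (r ^ 2 * g r) = dn (r / n) * fzF R g r := by
      unfold phiY fzF
      ring
    have hnr : r ≤ n := hN.trans (by exact_mod_cast hn)
    have hn0 : (0 : ℝ) < n := hr'.trans_le hnr
    have h2 : dn (r / n) = 1 := by
      unfold dn
      rw [up_zero ((div_le_one hn0).2 hnr), sub_zero]
    rw [h1, h2, one_mul]

theorem frozen : ∃ c : ℝ, 0 < c ∧ c ≤ 1 ∧ ∀ g : ℝ → ℝ → ℝ, RSol g → ∀ R : ℝ, 0 < R →
    ∀ s t : ℝ, s ≤ t → t < 0 → (t - s) * aa (g t) R ≤ c * R ^ 2 →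
      aa (g s) R ≤ 4 * aa (g t) R ∧ aa (g t) R ≤ 4 * aa (g s) R := by
  obtain ⟨B, hB, hphi⟩ := phiY_tst
  refine ⟨min 1 (1 / (128 * B)), lt_min one_pos (by positivity), min_le_left _ _, ?_⟩
  intro g hg R hR s t hst ht hc
  have hR2 : 0 < R ^ 2 := by positivity
  -- Lipschitz estimate
  have key : ∀ s', s' ≤ t →
      |fzY R (g t) - fzY R (g s')| ≤ 4 * B / R ^ 2 * ∫ τ in s'..t, aa (g τ) R * PP (g τ) R := by
    intro s' hs'
    have hs0 : s' < 0 := hs'.trans_lt ht
    have hlim : Tendsto (fun n : ℕ => |mom (phiY R n) (g t) - mom (phiY R n) (g s')|) atTop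
        (𝓝 |fzY R (g t) - fzY R (g s')|) :=
      ((fz_tendsto (hg.prof t ht) hR).sub (fz_tendsto (hg.prof s' hs0) hR)).abs
    have hcont : IntervalIntegrable (fun τ => aa (g τ) R * PP (g τ) R) volume s' t := by
      refine ContinuousOn.intervalIntegrable ?_
      rw [uIcc_of_le hs']
      refine ((cont_aa hg hR).mul (cont_PP hg hR.le)).mono fun τ hτ => ?_
      exact hτ.2.trans_lt ht
    refine le_of_tendsto hlim ?_
    obtain ⟨N, hN⟩ := exists_nat_ge (2 * R)
    filter_upwards [eventually_ge_atTop N] with n hn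
    have hnR : 2 * R ≤ n := hN.trans (by exact_mod_cast hn)
    obtain ⟨h1, h2, h3⟩ := hphi R n hR hnR
    rw [mom_diff hg h1 hs' ht]
    have h4 : ‖∫ τ in s'..t, dmom (phiY R n) (g τ)‖ ≤
        ∫ τ in s'..t, 4 * B / R ^ 2 * (aa (g τ) R * PP (g τ) R) := by
      refine intervalIntegral.norm_integral_le_of_norm_le hs' ?_ (hcont.const_mul _)
      refine Eventually.of_forall fun τ hτ => ?_
      have h5 := weak_bd1 (hg.prof τ (hτ.2.trans_lt ht)) h1 hR hB.le h2 (fun r hr => (h3 r hr).1)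
        (fun r hr => (h3 r hr).2)
      rw [Real.norm_eq_abs]
      refine h5.trans (le_of_eq ?_)
      ring
    rw [intervalIntegral.integral_const_mul, Real.norm_eq_abs] at h4
    exact h4
  -- integrals of bounded potentials
  have hat : 0 < aa (g t) R := aa_pos (hg.prof t ht) hR
  have hcB : (t - s) * aa (g t) R ≤ 1 / (128 * B) * R ^ 2 :=
    hc.trans (mul_le_mul_of_nonneg_right (min_le_right _ _) hR2.le)
  have hint : ∀ s', s ≤ s' → s' ≤ t → (∀ τ, s' < τ → τ ≤ t → aa (g τ) R ≤ 3 * aa (g t) R) →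
      |fzY R (g t) - fzY R (g s')| ≤ 9 / 32 * aa (g t) R := by
    intro s' hss hs' hb
    have h1 : ∫ τ in s'..t, aa (g τ) R * PP (g τ) R ≤ (t - s') * (3 * aa (g t) R) ^ 2 := by
      have h2 : ‖∫ τ in s'..t, aa (g τ) R * PP (g τ) R‖ ≤ (3 * aa (g t) R) ^ 2 * |t - s'| := by
        refine intervalIntegral.norm_integral_le_of_norm_le_const fun τ hτ => ?_
        rw [uIoc_of_le hs'] at hτ
        have hτ0 : τ < 0 := hτ.2.trans_lt ht
        have a1 := hb τ hτ.1 hτ.2
        have a2 := PP_le_aa (hg.prof τ hτ0) hR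
        have a3 := PP_pos (hg.prof τ hτ0) hR.le
        have a4 := aa_pos (hg.prof τ hτ0) hR
        rw [Real.norm_of_nonneg (mul_nonneg a4.le a3.le), sq]
        exact mul_le_mul a1 (a2.trans a1) a3.le (by linarith)
      rw [abs_of_nonneg (by linarith)] at h2
      have h3 := (Real.le_norm_self _).trans h2
      linarith
    have h4 : (t - s') * (3 * aa (g t) R) ^ 2 ≤ 9 * aa (g t) R * (1 / (128 * B) * R ^ 2) := by
      have h5 : (t - s') * aa (g t) R ≤ (t - s) * aa (g t) R :=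
        mul_le_mul_of_nonneg_right (by linarith) hat.le
      have h6 := mul_le_mul_of_nonneg_left (h5.trans hcB) (by linarith : 0 ≤ 9 * aa (g t) R)
      calc (t - s') * (3 * aa (g t) R) ^ 2 = 9 * aa (g t) R * ((t - s') * aa (g t) R) := by ring
        _ ≤ _ := h6
    refine (key s' hs').trans ?_
    have h7 : 0 ≤ 4 * B / R ^ 2 := by positivity
    refine (mul_le_mul_of_nonneg_left (h1.trans h4) h7).trans (le_of_eq ?_)
    field_simp
    norm_num
  -- continuity argument
  have hall : ∀ τ, s ≤ τ → τ ≤ t → aa (g τ) R ≤ 3 * aa (g t) R := by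
    by_contra hcon
    push Not at hcon
    obtain ⟨τ0, h1, h2, h3⟩ := hcon
    set S : Set ℝ := Icc s t ∩ (fun τ => aa (g τ) R) ⁻¹' Ici (3 * aa (g t) R) with hS
    have hSc : IsClosed S := by
      refine ContinuousOn.preimage_isClosed_of_isClosed ?_ isClosed_Icc isClosed_Ici
      exact (cont_aa hg hR).mono fun τ hτ => hτ.2.trans_lt ht
    have hSn : S.Nonempty := ⟨τ0, ⟨h1, h2⟩, h3.le⟩
    have hSb : BddAbove S := ⟨t, fun τ hτ => hτ.1.2⟩
    have hmem := hSc.csSup_mem hSn hSb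
    set σ := sSup S with hσ
    have h4 : ∀ τ, σ < τ → τ ≤ t → aa (g τ) R ≤ 3 * aa (g t) R := by
      intro τ a1 a2
      by_contra a3
      push Not at a3
      have : τ ∈ S := ⟨⟨hmem.1.1.trans a1.le, a2⟩, a3.le⟩
      exact absurd (le_csSup hSb this) (not_le.2 a1)
    have h5 := hint σ hmem.1.1 hmem.1.2 h4
    have h6 : 3 * aa (g t) R ≤ aa (g σ) R := hmem.2
    have h7 := fz_low (hg.prof σ (hmem.1.2.trans_lt ht)) hR
    have h8 := fz_upp (hg.prof t ht) hR
    have h9 := neg_abs_le (fzY R (g t) - fzY R (g σ))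
    linarith
  have hs0 : s < 0 := hst.trans_lt ht
  have h1 := hint s le_rfl hst (fun τ a1 a2 => hall τ a1.le a2)
  have h2 := hall s le_rfl hst
  refine ⟨by linarith, ?_⟩
  have h3 := fz_upp (hg.prof s hs0) hR
  have h4 := fz_low (hg.prof t ht) hR
  have h5 := le_abs_self (fzY R (g t) - fzY R (g s))
  linarith

end Pool.Agent.LandauR
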