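import Pool.Agent.LandauR.RSmooth

/-!
# LandauR, module RTailF: total Fisher information

`fisher_tail`: sum `smooth_ann` over `ρ, 2ρ, 4ρ, ...`: `aa (2^k ρ)/(2^k ρ) ≤ 2^{-k} aa ρ / ρ`, so
`∫_ρ^{2^n ρ} ≤ 2 C aa ρ / ρ` for all `n`; the integrand is nonnegative, so it is integrable on `(ρ, ∞)`, and on
`(0, ρ]` it is continuous and bounded.

`Fit_pos`: if `Fit (g t) 0 = 0` the integrand vanishes on `(0, ∞)`, so `g t` is constant there, positive, and
`s g s` is not integrable: contradiction.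

`cont_Fit`: on a compact time interval `Fi (g t) a n` is continuous in `t` and
`0 ≤ Fit (g t) a - Fi (g t) a n = Fit (g t) n ≤ C aa (g t) n / n ≤ C PP (g t) 0 / n` tends to `0` uniformly.
-/

set_option autoImplicit false

namespace Pool.Agent.LandauR

open MeasureTheory Set Filter Topology

theorem RTailF_cont {g : ℝ → ℝ} (hg : Prof g) :
    Continuous (fun r => r ^ 2 * g r * uu g r ^ 2) :=
  ((continuous_id.pow 2).mul hg.smooth.continuous).mul ((uu_smooth hg).continuous.pow 2)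

theorem RTailF_nonneg {g : ℝ → ℝ} (hg : Prof g) (r : ℝ) : 0 ≤ r ^ 2 * g r * uu g r ^ 2 :=
  mul_nonneg (mul_nonneg (sq_nonneg _) (hg.pos r).le) (sq_nonneg _)

theorem RTailF_sum {g : ℝ → ℝ → ℝ} (hg : RSol g) {C : ℝ} (hC : 0 < C)
    (h : ∀ ρ : ℝ, 0 < ρ → ∀ t < 0, Fi (g t) ρ (2 * ρ) ≤ C * (aa (g t) ρ / ρ)) {t : ℝ}
    (ht : t < 0) {ρ : ℝ} (hρ : 0 < ρ) (n : ℕ) :
    Fi (g t) ρ (2 ^ n * ρ) ≤ 2 * C * (aa (g t) ρ / ρ) * (1 - (1 / 2) ^ n) := by
  have hp := hg.prof t ht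
  have haa : 0 < aa (g t) ρ := aa_pos hp hρ
  induction n with
  | zero =>
    unfold Fi
    simp
  | succ n ih =>
    have h1 : Fi (g t) ρ (2 ^ (n + 1) * ρ) =
        Fi (g t) ρ (2 ^ n * ρ) + Fi (g t) (2 ^ n * ρ) (2 ^ (n + 1) * ρ) := by
      unfold Fi
      rw [intervalIntegral.integral_add_adjacent_intervals
        ((RTailF_cont hp).intervalIntegrable _ _) ((RTailF_cont hp).intervalIntegrable _ _)]
    have h2 : (2 : ℝ) ^ (n + 1) * ρ = 2 * (2 ^ n * ρ) := by ring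
    have hpow : (1 : ℝ) ≤ 2 ^ n := one_le_pow₀ (by norm_num)
    have hpos : 0 < 2 ^ n * ρ := by positivity
    have h3 := h (2 ^ n * ρ) hpos t ht
    have h4 : aa (g t) (2 ^ n * ρ) ≤ aa (g t) ρ := aa_anti hp hρ (by nlinarith)
    have h5 : aa (g t) (2 ^ n * ρ) / (2 ^ n * ρ) ≤ aa (g t) ρ / ρ * (1 / 2) ^ n := by
      have h6 : aa (g t) ρ / ρ * (1 / 2) ^ n = aa (g t) ρ / (2 ^ n * ρ) := by
        rw [one_div, inv_pow]
        field_simp
      rw [h6]
      exact div_le_div_of_nonneg_right h4 hpos.le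
    have h7 : C * (aa (g t) (2 ^ n * ρ) / (2 ^ n * ρ)) ≤ C * (aa (g t) ρ / ρ * (1 / 2) ^ n) :=
      mul_le_mul_of_nonneg_left h5 hC.le
    rw [h1]
    rw [h2]
    have e : 2 * C * (aa (g t) ρ / ρ) * (1 - (1 / 2) ^ (n + 1)) =
        2 * C * (aa (g t) ρ / ρ) * (1 - (1 / 2) ^ n) + C * (aa (g t) ρ / ρ * (1 / 2) ^ n) := by
      rw [pow_succ]
      ring
    rw [e]
    linarith

theorem fisher_tail : ∃ C : ℝ, 0 < C ∧ ∀ g : ℝ → ℝ → ℝ, RSol g → ∀ t < 0,
    IntegrableOn (fun r => r ^ 2 * g t r * uu (g t) r ^ 2) (Ioi 0) ∧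
      ∀ ρ : ℝ, 0 < ρ → Fit (g t) ρ ≤ C * (aa (g t) ρ / ρ) := by
  obtain ⟨C, hC, h⟩ := smooth_ann
  refine ⟨2 * C, by positivity, ?_⟩
  intro g hg t ht
  have hp := hg.prof t ht
  have hcont := RTailF_cont hp
  have hb : ∀ ρ : ℝ, 0 < ρ → Tendsto (fun n : ℕ => (2 : ℝ) ^ n * ρ) atTop atTop := fun ρ hρ =>
    (tendsto_pow_atTop_atTop_of_one_lt (by norm_num : (1 : ℝ) < 2)).atTop_mul_const hρ
  have hbd : ∀ ρ : ℝ, 0 < ρ → ∀ n : ℕ,
      Fi (g t) ρ (2 ^ n * ρ) ≤ 2 * C * (aa (g t) ρ / ρ) := by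
    intro ρ hρ n
    refine (RTailF_sum hg hC (fun ρ hρ t ht => h g hg ρ hρ t ht) ht hρ n).trans ?_
    have haa : 0 < aa (g t) ρ := aa_pos hp hρ
    have h1 : (0 : ℝ) ≤ (1 / 2) ^ n := by positivity
    have h2 : 0 ≤ 2 * C * (aa (g t) ρ / ρ) := by positivity
    nlinarith
  have hint : ∀ ρ : ℝ, 0 < ρ →
      IntegrableOn (fun r => r ^ 2 * g t r * uu (g t) r ^ 2) (Ioi ρ) := by
    intro ρ hρ
    refine integrableOn_Ioi_of_intervalIntegral_norm_bounded (2 * C * (aa (g t) ρ / ρ)) ρ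
      (fun n : ℕ => ?_) (hb ρ hρ) (Eventually.of_forall fun n => ?_)
    · exact (hcont.integrableOn_Icc).mono_set Ioc_subset_Icc_self
    · refine le_trans (le_of_eq ?_) (hbd ρ hρ n)
      unfold Fi
      refine intervalIntegral.integral_congr fun r _ => ?_
      exact Real.norm_of_nonneg (RTailF_nonneg hp r)
  refine ⟨?_, ?_⟩
  · have h1 : Ioi (0 : ℝ) = Ioc 0 1 ∪ Ioi 1 := (Ioc_union_Ioi_eq_Ioi zero_le_one).symm
    rw [h1]
    exact ((hcont.integrableOn_Icc).mono_set Ioc_subset_Icc_self).union (hint 1 one_pos)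
  · intro ρ hρ
    exact le_of_tendsto (intervalIntegral_tendsto_integral_Ioi ρ (hint ρ hρ) (hb ρ hρ))
      (Eventually.of_forall fun n => hbd ρ hρ n)

theorem Fit_split {g : ℝ → ℝ}
    (h : IntegrableOn (fun r => r ^ 2 * g r * uu g r ^ 2) (Ioi 0)) {a b : ℝ} (ha : 0 ≤ a)
    (hab : a ≤ b) : Fit g a = Fi g a b + Fit g b := by
  unfold Fit Fi
  exact (intervalIntegral.integral_interval_add_Ioi (h.mono_set (Ioi_subset_Ioi ha))
    (h.mono_set (Ioi_subset_Ioi (ha.trans hab)))).symm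

theorem Fit_nonneg {g : ℝ → ℝ} (hg : Prof g) (a : ℝ) : 0 ≤ Fit g a := by
  unfold Fit
  exact setIntegral_nonneg measurableSet_Ioi fun r _ => RTailF_nonneg hg r

theorem Fi_nonneg {g : ℝ → ℝ} (hg : Prof g) {a b : ℝ} (h : a ≤ b) : 0 ≤ Fi g a b := by
  unfold Fi
  exact intervalIntegral.integral_nonneg h fun r _ => RTailF_nonneg hg r

theorem Fit_pos {g : ℝ → ℝ → ℝ} (hg : RSol g) {t : ℝ} (ht : t < 0) : 0 < Fit (g t) 0 := by
  have hp := hg.prof t ht
  obtain ⟨C, hC, h⟩ := fisher_tail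
  have hint := (h g hg t ht).1
  by_cases hex : ∃ r : ℝ, 0 < r ∧ uu (g t) r ≠ 0
  · obtain ⟨r, hr, hne⟩ := hex
    rw [Fit_split hint le_rfl (by linarith : (0 : ℝ) ≤ r + 1)]
    have h1 : 0 < Fi (g t) 0 (r + 1) := by
      unfold Fi
      refine intervalIntegral.integral_pos (by linarith) (RTailF_cont hp).continuousOn
        (fun x _ => RTailF_nonneg hp x) ⟨r, ⟨hr.le, by linarith⟩, ?_⟩
      have := hp.pos r
      positivity
    have h2 := Fit_nonneg hp (r + 1)
    linarith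
  · exfalso
    push Not at hex
    have hu : ∀ r : ℝ, uu (g t) r = 0 := by
      intro r
      rcases lt_trichotomy r 0 with hr | hr | hr
      · have h1 := uu_odd hp r
        rw [hex (-r) (by linarith)] at h1
        linarith
      · rw [hr]
        exact uu_zero hp
      · exact hex r hr
    have hd : ∀ r : ℝ, deriv (g t) r = 0 := by
      intro r
      have h1 := hu r
      unfold uu at h1
      rcases div_eq_zero_iff.1 h1 with h2 | h2
      · exact h2
      · exact absurd h2 (hp.pos r).ne'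
    have hconst : ∀ r : ℝ, g t r = g t 0 := fun r =>
      is_const_of_deriv_eq_zero (hp.smooth.differentiable (by simp)) hd r 0
    have hi := hp.int
    have h2 : (fun s : ℝ => s * g t s) = fun s : ℝ => s * g t 0 := by
      funext s
      rw [hconst s]
    rw [h2] at hi
    have h3 : IntegrableOn (fun s : ℝ => s * g t 0 * (g t 0)⁻¹) (Ioi 0) := hi.mul_const _
    have h4 : (fun s : ℝ => s * g t 0 * (g t 0)⁻¹) = fun s : ℝ => s ^ (1 : ℝ) := by
      funext s
      rw [Real.rpow_one, mul_inv_cancel_right₀ (hp.pos 0).ne']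
    rw [h4] at h3
    exact not_integrableOn_Ioi_rpow 1 h3

theorem RTailF_joint {g : ℝ → ℝ → ℝ} (hg : RSol g) :
    ContinuousOn (fun p : ℝ × ℝ => p.2 ^ 2 * g p.1 p.2 * uu (g p.1) p.2 ^ 2)
      (Iio (0 : ℝ) ×ˢ univ) := by
  obtain ⟨h1, h2, -⟩ := joint_g hg
  unfold uu
  refine ContinuousOn.mul ((continuous_snd.pow 2).continuousOn.mul h1) ?_
  refine (h2.continuousOn.div h1 ?_).pow 2
  intro p hp
  exact ((hg.prof p.1 hp.1).pos p.2).ne'

theorem cont_Fi {g : ℝ → ℝ → ℝ} (hg : RSol g) (a b : ℝ) :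
    ContinuousOn (fun t => Fi (g t) a b) (Iio (0 : ℝ)) := by
  have hj := RTailF_joint hg
  intro t0 ht0
  have ht0' : t0 < 0 := ht0
  set c : ℝ := t0 / 2 with hc
  have hc0 : c < 0 := by rw [hc]; linarith
  have hF : Continuous (Function.uncurry fun t r : ℝ =>
      r ^ 2 * g (min t c) r * uu (g (min t c)) r ^ 2) := by
    have hmap : Continuous (fun p : ℝ × ℝ => ((min p.1 c, p.2) : ℝ × ℝ)) :=
      (continuous_fst.min continuous_const).prodMk continuous_snd
    exact hj.comp_continuous hmap fun p =>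
      ⟨lt_of_le_of_lt (min_le_right _ _) hc0, mem_univ _⟩
  have h1 := intervalIntegral.continuous_parametric_intervalIntegral_of_continuous'
    (μ := volume) hF a b
  refine ContinuousAt.continuousWithinAt ?_
  refine h1.continuousAt.congr ?_
  have h2 : ∀ᶠ t in 𝓝 t0, t < c := gt_mem_nhds (by rw [hc]; linarith)
  filter_upwards [h2] with t ht
  unfold Fi
  rw [min_eq_left ht.le]

theorem cont_Fit {g : ℝ → ℝ → ℝ} (hg : RSol g) {a : ℝ} (ha : 0 ≤ a) :
    ContinuousOn (fun t => Fit (g t) a) (Iio (0 : ℝ)) := by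
  obtain ⟨C, hC, h⟩ := fisher_tail
  intro t0 ht0
  have ht0' : t0 < 0 := ht0
  obtain ⟨P, hP⟩ := hg.bdd (t0 - 1) (t0 / 2) (by linarith) (by linarith)
  have hkey : ContinuousOn (fun t => Fit (g t) a) (Ioo (t0 - 1) (t0 / 2)) := by
    refine continuousOn_of_uniform_approx_of_continuousOn fun u hu => ?_
    obtain ⟨ε, hε, hεu⟩ := Metric.mem_uniformity_dist.1 hu
    obtain ⟨n, hn⟩ := exists_nat_gt (max a (C * |P| / ε))
    have hna : a < (n : ℝ) := (le_max_left _ _).trans_lt hn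
    have hnC : C * |P| / ε < (n : ℝ) := (le_max_right _ _).trans_lt hn
    have hn0 : (0 : ℝ) < n := ha.trans_lt hna
    refine ⟨fun t => Fi (g t) a n, (cont_Fi hg a n).mono fun t ht => ?_, fun t ht => ?_⟩
    · have := ht.2
      rw [mem_Iio]
      linarith
    · have ht2 : t < 0 := by
        have := ht.2
        linarith
      apply hεu
      have hp := hg.prof t ht2
      have h1 := Fit_split (h g hg t ht2).1 ha hna.le
      have h2 := (h g hg t ht2).2 n hn0
      have h3 : aa (g t) n ≤ P := (aa_le_PP0 hp hn0).trans (hP t ⟨ht.1.le, ht.2.le⟩)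
      have h4 : C * (aa (g t) n / n) < ε := by
        have h5 : C * |P| < n * ε := by rwa [div_lt_iff₀ hε] at hnC
        have h6 : C * aa (g t) n ≤ C * |P| :=
          mul_le_mul_of_nonneg_left (h3.trans (le_abs_self P)) hC.le
        rw [← mul_div_assoc, div_lt_iff₀ hn0]
        linarith
      rw [Real.dist_eq]
      change |Fit (g t) a - Fi (g t) a n| < ε
      rw [h1, add_sub_cancel_left, abs_of_nonneg (Fit_nonneg hp _)]
      linarith
  refine ContinuousAt.continuousWithinAt ?_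
  exact hkey.continuousAt (Ioo_mem_nhds (by linarith) (by linarith))

end Pool.Agent.LandauR
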