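import Pool.Agent.LandauR.RPairC
import Pool.Agent.LandauR.RErr
import Pool.Agent.LandauR.RTailF

/-!
# LandauR, module RGlobal: the Fisher information is nonincreasing, with dissipation

`cont_Frr`: `Frr (g t) R K` is an integral over the compact set `[R, K] × [0, R]` of a function which is jointly
continuous in `(t, r, s)` (near `s = 0`: with `v s = uu g s - s om g r`, the inner integrand is
`g s (s² (uu' s - om g r)² + (7/4) v²)` for `s > 0`, which is jointly continuous; `uu (g t) s`, `uu' (g t) s` are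
jointly continuous by `joint_g` and positivity).

`global_ineq`: take `θ = dn (· / n)`, `n ≥ K`, `n ≥ 1`.  `FI_diff`, `pair_ineq_R` and `err_bd` give
`FI θ (g t) - FI θ (g s) ≤ ∫_s^t (-(2/3) Frr (g τ) R K + C S/√n) dτ`, where `S` bounds
`(1 + aa (g τ) 1)² (1 + Fit (g τ) 0)` on `[s, t]` (continuity: `cont_aa`, `cont_Fit`; integrability in time of
`dFI` by `dFI_cont`).  Let `n → ∞`: `FI θ (g τ) → Fit (g τ) 0` (dominated convergence, `fisher_tail`).
-/

set_option autoImplicit false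

namespace Pool.Agent.LandauR

open MeasureTheory Set Filter Topology

/-- the inner integrand without the singular factor -/
noncomputable def rglG (g : ℝ → ℝ) (R r s : ℝ) : ℝ :=
  g s * (s ^ 2 * (deriv (uu g) s - uu g r / max r R) ^ 2
    + 7 / 4 * (s * (uu g r / max r R) - uu g s) ^ 2)

theorem rgl_point {g : ℝ → ℝ} (hg : Prof g) {R r s : ℝ} (h : R ≤ r) (hs : 0 < s) :
    s ^ 2 * g s *
      ((s * deriv (om g) s - (om g r - om g s)) ^ 2 + 7 / 4 * (om g r - om g s) ^ 2) =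
      rglG g R r s := by
  have hu : HasDerivAt (uu g) (deriv (uu g) s) s :=
    ((contDiff_infty_iff_deriv.1 (uu_smooth hg)).1 s).hasDerivAt
  have h1 : HasDerivAt (om g) ((deriv (uu g) s * s - uu g s * 1) / s ^ 2) s :=
    hu.div (hasDerivAt_id s) hs.ne'
  unfold rglG
  rw [h1.deriv, max_eq_left h]
  unfold om
  generalize deriv (uu g) s = a
  generalize uu g s = b
  generalize uu g r / r = c
  have hs' := hs.ne'
  have e1 : s * ((a * s - b * 1) / s ^ 2) - (c - b / s) = a - c := by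
    field_simp
    ring
  have e2 : s ^ 2 * (c - b / s) ^ 2 = (s * c - b) ^ 2 := by
    field_simp
  rw [e1]
  calc s ^ 2 * g s * ((a - c) ^ 2 + 7 / 4 * (c - b / s) ^ 2)
      = g s * (s ^ 2 * (a - c) ^ 2 + 7 / 4 * (s ^ 2 * (c - b / s) ^ 2)) := by ring
    _ = _ := by rw [e2]

theorem rgl_BtR {g : ℝ → ℝ} (hg : Prof g) {R r : ℝ} (hR : 0 < R) (h : R ≤ r) :
    BtR g R r = ∫ s in (0 : ℝ)..R, rglG g R r s := by
  unfold BtR
  refine intervalIntegral.integral_congr_ae ?_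
  refine Filter.Eventually.of_forall fun s hs => ?_
  rw [uIoc_of_le hR.le] at hs
  exact rgl_point hg h hs.1

theorem rgl_Frr {g : ℝ → ℝ} (hg : Prof g) {R K : ℝ} (hR : 0 < R) (hK : R ≤ K) :
    Frr g R K = ∫ r in R..K, r * g r * ∫ s in (0 : ℝ)..R, rglG g R r s := by
  unfold Frr
  refine intervalIntegral.integral_congr_ae ?_
  refine Filter.Eventually.of_forall fun r hr => ?_
  rw [uIoc_of_le hK] at hr
  rw [rgl_BtR hg hR hr.1.le]

theorem rgl_joint_uu {g : ℝ → ℝ → ℝ} (hg : RSol g) :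
    ContDiffOn ℝ (⊤ : ℕ∞) (fun p : ℝ × ℝ => uu (g p.1) p.2) (Iio (0 : ℝ) ×ˢ univ) ∧
      ContDiffOn ℝ (⊤ : ℕ∞) (fun p : ℝ × ℝ => deriv (uu (g p.1)) p.2)
        (Iio (0 : ℝ) ×ˢ univ) := by
  have h1 : ContDiffOn ℝ (⊤ : ℕ∞) (fun p : ℝ × ℝ => uu (g p.1) p.2)
      (Iio (0 : ℝ) ×ˢ univ) := by
    refine (joint_g hg).2.1.div hg.smooth ?_
    rintro ⟨t, r⟩ ⟨ht, -⟩
    exact ((hg.prof t ht).pos r).ne'
  exact ⟨h1, rtime_partial2 h1⟩

theorem rgl_cont {g : ℝ → ℝ → ℝ} (hg : RSol g) {R : ℝ} (hR : 0 < R) :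
    Continuous (fun q : (Iio (0 : ℝ) × ℝ) × ℝ => rglG (g (q.1.1 : ℝ)) R q.1.2 q.2) := by
  obtain ⟨hu, hu'⟩ := rgl_joint_uu hg
  have c1 : Continuous (fun q : (Iio (0 : ℝ) × ℝ) × ℝ => g (q.1.1 : ℝ) q.2) :=
    hg.smooth.continuousOn.comp_continuous (f := fun q : (Iio (0 : ℝ) × ℝ) × ℝ =>
      ((q.1.1 : ℝ), q.2)) (by fun_prop) (fun q => ⟨q.1.1.2, mem_univ _⟩)
  have c2 : Continuous (fun q : (Iio (0 : ℝ) × ℝ) × ℝ => deriv (uu (g (q.1.1 : ℝ))) q.2) :=
    hu'.continuousOn.comp_continuous (f := fun q : (Iio (0 : ℝ) × ℝ) × ℝ =>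
      ((q.1.1 : ℝ), q.2)) (by fun_prop) (fun q => ⟨q.1.1.2, mem_univ _⟩)
  have c3 : Continuous (fun q : (Iio (0 : ℝ) × ℝ) × ℝ => uu (g (q.1.1 : ℝ)) q.2) :=
    hu.continuousOn.comp_continuous (f := fun q : (Iio (0 : ℝ) × ℝ) × ℝ =>
      ((q.1.1 : ℝ), q.2)) (by fun_prop) (fun q => ⟨q.1.1.2, mem_univ _⟩)
  have c4 : Continuous (fun q : (Iio (0 : ℝ) × ℝ) × ℝ => uu (g (q.1.1 : ℝ)) q.1.2) :=
    hu.continuousOn.comp_continuous (f := fun q : (Iio (0 : ℝ) × ℝ) × ℝ =>
      ((q.1.1 : ℝ), q.1.2)) (by fun_prop) (fun q => ⟨q.1.1.2, mem_univ _⟩)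
  have c5 : Continuous (fun q : (Iio (0 : ℝ) × ℝ) × ℝ =>
      uu (g (q.1.1 : ℝ)) q.1.2 / max q.1.2 R) :=
    c4.div (by fun_prop) fun q => (lt_of_lt_of_le hR (le_max_right _ _)).ne'
  unfold rglG
  exact c1.mul ((((continuous_snd.pow 2).mul ((c2.sub c5).pow 2))).add
    (continuous_const.mul (((continuous_snd.mul c5).sub c3).pow 2)))

theorem cont_Frr {g : ℝ → ℝ → ℝ} (hg : RSol g) {R K : ℝ} (hR : 0 < R) (hK : R ≤ K) :
    ContinuousOn (fun t => Frr (g t) R K) (Iio (0 : ℝ)) := by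
  have h1 : ContinuousOn (fun t => ∫ r in R..K, r * g t r * ∫ s in (0 : ℝ)..R, rglG (g t) R r s)
      (Iio (0 : ℝ)) := by
    rw [continuousOn_iff_continuous_domRestrict]
    have h2 : Continuous (fun p : Iio (0 : ℝ) × ℝ =>
        ∫ s in (0 : ℝ)..R, rglG (g (p.1 : ℝ)) R p.2 s) :=
      intervalIntegral.continuous_parametric_intervalIntegral_of_continuous'
        (f := fun (p : Iio (0 : ℝ) × ℝ) (s : ℝ) => rglG (g (p.1 : ℝ)) R p.2 s)
        (rgl_cont hg hR) 0 R
    have h3 : Continuous (fun p : Iio (0 : ℝ) × ℝ => g (p.1 : ℝ) p.2) :=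
      hg.smooth.continuousOn.comp_continuous (f := fun p : Iio (0 : ℝ) × ℝ =>
        ((p.1 : ℝ), p.2)) (by fun_prop) (fun p => ⟨p.1.2, mem_univ _⟩)
    have h4 : Continuous (Function.uncurry (fun (x : Iio (0 : ℝ)) (r : ℝ) =>
        r * g (x : ℝ) r * ∫ s in (0 : ℝ)..R, rglG (g (x : ℝ)) R r s)) :=
      (continuous_snd.mul h3).mul h2
    exact intervalIntegral.continuous_parametric_intervalIntegral_of_continuous' h4 R K
  exact h1.congr fun t ht => rgl_Frr (hg.prof t ht) hR hK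

theorem Frr_nonneg {g : ℝ → ℝ} (hg : Prof g) {R K : ℝ} (hR : 0 < R) (hK : R ≤ K) :
    0 ≤ Frr g R K := by
  unfold Frr
  refine intervalIntegral.integral_nonneg hK fun r hr => ?_
  have h1 : 0 ≤ BtR g R r := by
    unfold BtR
    refine intervalIntegral.integral_nonneg hR.le fun s _ => ?_
    have := (hg.pos s).le
    positivity
  have h2 := (hg.pos r).le
  have h3 : 0 ≤ r := hR.le.trans hr.1
  positivity

/-- the localised Fisher information tends to the total one -/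
theorem rgl_lim {g : ℝ → ℝ} (hg : Prof g)
    (hi : IntegrableOn (fun r => r ^ 2 * g r * uu g r ^ 2) (Ioi 0)) :
    Tendsto (fun n : ℝ => FI (fun r => dn (r / n)) g) atTop (𝓝 (Fit g 0)) := by
  unfold FI Fit
  refine tendsto_integral_filter_of_dominated_convergence
    (fun r => r ^ 2 * g r * uu g r ^ 2) ?_ ?_ hi ?_
  · filter_upwards [eventually_gt_atTop (0 : ℝ)] with n hn
    have h1 : Continuous (fun r => dn (r / n)) := (dn_tst hn).1.smooth.continuous
    exact (h1.mul (((continuous_id.pow 2).mul hg.smooth.continuous).mul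
      ((uu_smooth hg).continuous.pow 2))).aestronglyMeasurable
  · filter_upwards [eventually_gt_atTop (0 : ℝ)] with n hn
    refine Filter.Eventually.of_forall fun r => ?_
    obtain ⟨-, -, h0, h1, -⟩ := dn_tst hn
    have h2 : 0 ≤ r ^ 2 * g r * uu g r ^ 2 := by
      have := (hg.pos r).le
      positivity
    rw [Real.norm_of_nonneg (mul_nonneg (h0 r) h2)]
    exact mul_le_of_le_one_left h2 (h1 r)
  · refine Filter.Eventually.of_forall fun r => ?_
    refine tendsto_const_nhds.congr' ?_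
    filter_upwards [eventually_gt_atTop (0 : ℝ), eventually_ge_atTop r] with n hn hr
    rw [(dn_tst hn).2.2.2.2 r hr, one_mul]

theorem rgl_step {g : ℝ → ℝ → ℝ} (hg : RSol g) {R K s t : ℝ} (hR : 0 < R) (hK : R < K)
    (hst : s ≤ t) (ht : t < 0) : ∃ D : ℝ, ∀ n : ℝ, 1 ≤ n → K ≤ n →
      FI (fun r => dn (r / n)) (g t) + 2 / 3 * (∫ τ in s..t, Frr (g τ) R K) ≤
        FI (fun r => dn (r / n)) (g s) + D / Real.sqrt n := by
  obtain ⟨C, hC, herr⟩ := err_bd
  obtain ⟨_, -, hfish⟩ := fisher_tail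
  have hsub : Icc s t ⊆ Iio (0 : ℝ) := fun x hx => lt_of_le_of_lt hx.2 ht
  have hcS : ContinuousOn (fun τ => (1 + aa (g τ) 1) ^ 2 * (1 + Fit (g τ) 0)) (Icc s t) :=
    ((continuousOn_const.add ((cont_aa hg one_pos).mono hsub)).pow 2).mul
      (continuousOn_const.add ((cont_Fit hg le_rfl).mono hsub))
  obtain ⟨S, hS⟩ := isCompact_Icc.exists_bound_of_continuousOn hcS
  refine ⟨C * S * (t - s), fun n hn hKn => ?_⟩
  have hn0 : 0 < n := by linarith
  obtain ⟨hT, hanti, hnn, hle1, hone⟩ := dn_tst hn0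
  have hsq : 0 < Real.sqrt n := Real.sqrt_pos.2 hn0
  have hbd : ∀ τ ∈ Icc s t, dFI (fun r => dn (r / n)) (g τ) ≤
      -(2 / 3) * Frr (g τ) R K + C / Real.sqrt n * S := by
    intro τ hτ
    have hτ0 : τ < 0 := hsub hτ
    have hgτ := hg.prof τ hτ0
    have h1 := pair_ineq_R hgτ hT (fun r s _ h => hanti r s h) hnn hR hK.le
      (fun r hr => hone r (hr.trans hKn))
    have h2 := herr (g τ) hgτ (hfish g hg τ hτ0).1 n hn
    have h3 : (1 + aa (g τ) 1) ^ 2 * (1 + Fit (g τ) 0) ≤ S :=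
      (le_abs_self _).trans (hS τ hτ)
    have h4 : C / Real.sqrt n * ((1 + aa (g τ) 1) ^ 2 * (1 + Fit (g τ) 0)) ≤
        C / Real.sqrt n * S := mul_le_mul_of_nonneg_left h3 (by positivity)
    have h5 := le_abs_self (ErrT (fun r => dn (r / n)) (g τ))
    linarith
  have hci : IntervalIntegrable (fun τ => Frr (g τ) R K) volume s t := by
    refine ContinuousOn.intervalIntegrable ?_
    rw [uIcc_of_le hst]
    exact (cont_Frr hg hR hK.le).mono hsub
  have hdi : IntervalIntegrable (fun τ => dFI (fun r => dn (r / n)) (g τ)) volume s t := by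
    refine ContinuousOn.intervalIntegrable ?_
    rw [uIcc_of_le hst]
    exact (dFI_cont hg hT).mono hsub
  have hmono : ∫ τ in s..t, dFI (fun r => dn (r / n)) (g τ) ≤
      ∫ τ in s..t, (-(2 / 3) * Frr (g τ) R K + C / Real.sqrt n * S) :=
    intervalIntegral.integral_mono_on hst hdi
      ((hci.const_mul _).add intervalIntegrable_const) hbd
  have hdiff := FI_diff hg hT hst ht
  rw [intervalIntegral.integral_add (hci.const_mul _) intervalIntegrable_const,
    intervalIntegral.integral_const_mul, intervalIntegral.integral_const, smul_eq_mul] at hmono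
  have he : C * S * (t - s) / Real.sqrt n = (t - s) * (C / Real.sqrt n * S) := by
    field_simp
  rw [he]
  linarith

theorem global_ineq {g : ℝ → ℝ → ℝ} (hg : RSol g) {R K s t : ℝ} (hR : 0 < R) (hK : R < K)
    (hst : s ≤ t) (ht : t < 0) :
    Fit (g t) 0 + 2 / 3 * (∫ τ in s..t, Frr (g τ) R K) ≤ Fit (g s) 0 := by
  obtain ⟨D, hD⟩ := rgl_step hg hR hK hst ht
  obtain ⟨_, -, hfish⟩ := fisher_tail
  have hs : s < 0 := lt_of_le_of_lt hst ht
  have l1 := rgl_lim (hg.prof t ht) (hfish g hg t ht).1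
  have l2 := rgl_lim (hg.prof s hs) (hfish g hg s hs).1
  have l3 : Tendsto (fun n : ℝ => D / Real.sqrt n) atTop (𝓝 0) :=
    Tendsto.div_atTop tendsto_const_nhds Real.tendsto_sqrt_atTop
  have l4 := l1.add_const (2 / 3 * (∫ τ in s..t, Frr (g τ) R K))
  have l5 := l2.add l3
  rw [add_zero] at l5
  refine le_of_tendsto_of_tendsto l4 l5 ?_
  filter_upwards [eventually_ge_atTop (1 : ℝ), eventually_ge_atTop K] with n h1 h2
  exact hD n h1 h2

theorem Fit_anti {g : ℝ → ℝ → ℝ} (hg : RSol g) {s t : ℝ} (hst : s ≤ t) (ht : t < 0) :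
    Fit (g t) 0 ≤ Fit (g s) 0 := by
  have h1 := global_ineq hg (R := 1) (K := 2) one_pos (by norm_num) hst ht
  have h2 : 0 ≤ ∫ τ in s..t, Frr (g τ) 1 2 :=
    intervalIntegral.integral_nonneg hst fun τ hτ =>
      Frr_nonneg (hg.prof τ (lt_of_le_of_lt hτ.2 ht)) one_pos (by norm_num)
  linarith

end Pool.Agent.LandauR
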