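import Pool.Agent.LandauR.RLim

/-!
# LandauR, module RGron: the tail estimate implies finite mass

`D R = R aa g R` is monotone, `D' = PP g`, `D R / R = aa g R → 0`.  Choose `R₁ ≥ R₀`, `R₁ ≥ 1`, with
`aa g R ≤ 1/(4 C + 4)` for `R ≥ R₁`... precisely: for `x ≥ R₁`,
`D (2x) = D (2 R₁) + ∫_{2R₁}^{2x} PP = D (2R₁) + 2 ∫_{R₁}^{x} PP (2R) dR ≤ D (2R₁) + 2 C ∫_{R₁}^x D(R)²/R³ dR`
`≤ D (2R₁) + 2 C ε D(2x) ∫_{R₁}^∞ dR/R² = D (2R₁) + (2 C ε/R₁) D (2x)`, where `D R ≤ ε R` and
`D R ≤ D (2x)`.  With `ε = 1` and `R₁` large (`2C/R₁ ≤ 1/2`): `D (2x) ≤ 2 D (2R₁)`.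
As `D` is monotone this bounds `D` on `(0, ∞)`.
-/

set_option autoImplicit false

namespace Pool.Agent.LandauR

open MeasureTheory Set Filter Topology

theorem gron {g : ℝ → ℝ} (hg : Prof g) (C R₀ : ℝ) (hC : 0 < C) (hR₀ : 0 < R₀)
    (h : ∀ R, R₀ ≤ R → PP g (2 * R) ≤ C * (R * aa g R) ^ 2 / R ^ 3) :
    ∃ M : ℝ, 0 < M ∧ ∀ r, 0 < r → r * aa g r ≤ M := by
  have hlim : ∀ᶠ r in atTop, aa g r ≤ 1 :=
    (tendsto_aa hg).eventually (eventually_le_nhds zero_lt_one)
  obtain ⟨R₂, hR₂⟩ := eventually_atTop.1 hlim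
  obtain ⟨R₁, hR₁⟩ : ∃ R₁ : ℝ, R₁ = max R₂ (R₀ + 4 * C) := ⟨_, rfl⟩
  have h10 : R₀ ≤ R₁ := by
    rw [hR₁]
    exact le_trans (by linarith) (le_max_right _ _)
  have h12 : R₂ ≤ R₁ := by
    rw [hR₁]
    exact le_max_left _ _
  have h1C : 4 * C ≤ R₁ := by
    rw [hR₁]
    exact le_trans (by linarith) (le_max_right _ _)
  have h1pos : 0 < R₁ := by linarith
  have hD1 : 0 < 2 * R₁ * aa g (2 * R₁) := by
    have := aa_pos hg (show 0 < 2 * R₁ by positivity)
    positivity
  have key : ∀ x, R₁ ≤ x → 2 * x * aa g (2 * x) ≤ 2 * (2 * R₁ * aa g (2 * R₁)) := by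
    intro x hx
    have hxpos : 0 < x := by linarith
    obtain ⟨K, hK⟩ : ∃ K : ℝ, K = 2 * x * aa g (2 * x) := ⟨_, rfl⟩
    have hKpos : 0 < K := by
      rw [hK]
      have := aa_pos hg (show 0 < 2 * x by positivity)
      positivity
    have hderiv : ∀ y, 0 < y → HasDerivAt (fun y : ℝ => 2 * y * aa g (2 * y) + 2 * C * K * y⁻¹)
        (PP g (2 * y) * 2 + 2 * C * K * (-(y ^ 2)⁻¹)) y := by
      intro y hy
      have h1 : HasDerivAt (fun x => x * aa g x) (PP g (2 * y)) (2 * y) :=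
        hasDerivAt_raa hg (show 0 < 2 * y by positivity)
      have h2 : HasDerivAt (fun y : ℝ => 2 * y) 2 y := by
        simpa using (hasDerivAt_id y).const_mul (2 : ℝ)
      have h3 := h1.comp y h2
      have h4 := (hasDerivAt_inv hy.ne').const_mul (2 * C * K)
      exact h3.add h4
    have hanti : AntitoneOn (fun y : ℝ => 2 * y * aa g (2 * y) + 2 * C * K * y⁻¹) (Icc R₁ x) := by
      apply antitoneOn_of_deriv_nonpos (convex_Icc R₁ x)
      · intro y hy
        exact (hderiv y (lt_of_lt_of_le h1pos hy.1)).continuousAt.continuousWithinAt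
      · intro y hy
        rw [interior_Icc] at hy
        exact (hderiv y (lt_trans h1pos hy.1)).differentiableAt.differentiableWithinAt
      · intro y hy
        rw [interior_Icc] at hy
        have hy0 : 0 < y := lt_trans h1pos hy.1
        rw [(hderiv y hy0).deriv]
        have e1 := h y (h10.trans hy.1.le)
        have e2 : aa g y ≤ 1 := hR₂ y (h12.trans hy.1.le)
        have e3 : 0 < aa g y := aa_pos hg hy0
        have e4 : y * aa g y ≤ K := by
          rw [hK]
          exact raa_mono hg hy0 (by linarith [hy.2])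
        have e5 : C * (y * aa g y) ^ 2 / y ^ 3 ≤ C * K * (y ^ 2)⁻¹ := by
          have : C * (y * aa g y) ^ 2 / y ^ 3 = C * (aa g y * (y * aa g y)) * (y ^ 2)⁻¹ := by
            field_simp
          rw [this]
          apply mul_le_mul_of_nonneg_right _ (by positivity)
          apply mul_le_mul_of_nonneg_left _ hC.le
          have : aa g y * (y * aa g y) ≤ 1 * (y * aa g y) :=
            mul_le_mul_of_nonneg_right e2 (by positivity)
          linarith
        have : 2 * C * K * (-(y ^ 2)⁻¹) = -(2 * (C * K * (y ^ 2)⁻¹)) := by ring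
        rw [this]
        linarith
    have h5 := hanti (left_mem_Icc.2 hx) (right_mem_Icc.2 hx) hx
    simp only at h5
    rw [← hK] at h5 ⊢
    have h6 : 0 ≤ 2 * C * K * x⁻¹ := by positivity
    have h7 : 2 * C * K * R₁⁻¹ ≤ K / 2 := by
      rw [← div_eq_mul_inv, div_le_div_iff₀ h1pos (by norm_num)]
      nlinarith
    linarith
  refine ⟨2 * (2 * R₁ * aa g (2 * R₁)), by positivity, ?_⟩
  intro r hr
  rcases le_total r (2 * R₁) with hle | hge
  · have := raa_mono hg hr hle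
    linarith
  · have h8 := key (r / 2) (by linarith)
    have h9 : 2 * (r / 2) = r := by ring
    rw [h9] at h8
    exact h8

end Pool.Agent.LandauR
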