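import Pool.Agent.LandauR.RRad

/-!
# LandauR, module RHess: derivatives of a smooth radial function on the axis

`u = prof g`, `r > 0`: at the point `r e₀`
* `∂₀ ∂₀ g = u''(r)` (here `g` need not be radial),
* `∂ᵢ ∂ᵢ g = u'(r) / r` for `i ≠ 0`,
* `∂ᵢ ∂ⱼ g = 0` for `i ≠ j`.

Proof.  Off the origin `g v = u(‖v‖)` and `‖·‖` is smooth, `∂ⱼ ‖v‖ = v j / ‖v‖`
(for instance from `‖v‖ = √(‖v‖²)` and `wt_pd_normsq` in `LandauG/WTest.lean`), so
`∂ⱼ g v = u'(‖v‖) v j / ‖v‖` for `v ≠ 0` (`pd_comp`), an open condition, and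
`∂ᵢ ∂ⱼ g v = u''(‖v‖) v i v j / ‖v‖² + u'(‖v‖) (δᵢⱼ / ‖v‖ - v i v j / ‖v‖³)`
(`pd_mul`, `pd_comp`; `pd i (fun x => x j) = δᵢⱼ`: `wt_pd_coord`).  Put `v = r e₀`:
`‖v‖ = r`, `v 0 = r`, `v i = 0` for `i ≠ 0` (`e0_coord`, `norm_smul_e0`).
-/

set_option autoImplicit false

namespace Pool.Agent.LandauR

open MeasureTheory Set Filter Topology Pool.Agent.Landau

theorem rh_norm {v : V} (hv : v ≠ 0) :
    HasFDerivAt (fun w : V => ‖w‖) (‖v‖⁻¹ • (innerSL ℝ v : V →L[ℝ] ℝ)) v := by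
  have h0 : 0 < ‖v‖ := norm_pos_iff.mpr hv
  have h1 : HasFDerivAt (fun w : V => ‖w‖ ^ 2) (2 • (innerSL ℝ v : V →L[ℝ] ℝ)) v :=
    (hasStrictFDerivAt_norm_sq v).hasFDerivAt
  have h2 : HasDerivAt Real.sqrt (1 / (2 * √(‖v‖ ^ 2))) (‖v‖ ^ 2) :=
    Real.hasDerivAt_sqrt (by positivity)
  have h3 := h2.comp_hasFDerivAt v h1
  have h4 : (Real.sqrt ∘ fun w : V => ‖w‖ ^ 2) = fun w : V => ‖w‖ := by
    funext w
    exact Real.sqrt_sq (norm_nonneg w)
  rw [h4, Real.sqrt_sq h0.le] at h3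
  refine h3.congr_fderiv ?_
  ext w
  simp only [smul_apply, smul_eq_mul, nsmul_eq_mul]
  push_cast
  field_simp

theorem rh_inner (v : V) (i : Fin 3) :
    (innerSL ℝ v : V →L[ℝ] ℝ) (EuclideanSpace.single i 1) = v i := by
  rw [innerSL_apply_apply, EuclideanSpace.inner_single_right]
  simp

theorem rh_comp {φ : ℝ → ℝ} {φ' : ℝ} {v : V} (hv : v ≠ 0) (h : HasDerivAt φ φ' ‖v‖) :
    HasFDerivAt (fun w : V => φ ‖w‖) (φ' • (‖v‖⁻¹ • (innerSL ℝ v : V →L[ℝ] ℝ))) v :=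
  HasDerivAt.comp_hasFDerivAt (h₂ := φ) v h (rh_norm hv)

theorem pd_rad (g : V → ℝ) (hg : ContDiff ℝ (⊤ : ℕ∞) g) (hR : Rad g) (v : V) (hv : v ≠ 0)
    (j : Fin 3) : pd j g v = deriv (prof g) ‖v‖ * (v j / ‖v‖) := by
  have h1 : HasDerivAt (prof g) (deriv (prof g) ‖v‖) ‖v‖ :=
    ((prof_smooth hg).differentiable (by simp) _).hasDerivAt
  have h2 := rh_comp hv h1
  have h3 : (fun w : V => prof g ‖w‖) = g := funext fun w => (hR.eq_prof w).symm
  rw [h3] at h2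
  unfold pd
  rw [h2.fderiv]
  simp only [smul_apply, smul_eq_mul, rh_inner]
  ring

theorem pd2_rad (g : V → ℝ) (hg : ContDiff ℝ (⊤ : ℕ∞) g) (hR : Rad g) (v : V) (hv : v ≠ 0)
    (i j : Fin 3) : pd i (pd j g) v =
      deriv (deriv (prof g)) ‖v‖ * (v i * v j / ‖v‖ ^ 2)
        + deriv (prof g) ‖v‖ * ((if i = j then (1 : ℝ) else 0) / ‖v‖ - v i * v j / ‖v‖ ^ 3) := by
  have h0 : 0 < ‖v‖ := norm_pos_iff.mpr hv
  have hd : ContDiff ℝ (⊤ : ℕ∞) (deriv (prof g)) := by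
    have h := (prof_smooth hg).iterate_deriv 1
    simpa using h
  have h1 : HasDerivAt (deriv (prof g)) (deriv (deriv (prof g)) ‖v‖) ‖v‖ :=
    (hd.differentiable (by simp) _).hasDerivAt
  have h2 := rh_comp hv h1
  have h3 : HasDerivAt (fun x : ℝ => x⁻¹) (-(‖v‖ ^ 2)⁻¹) ‖v‖ := hasDerivAt_inv h0.ne'
  have h4 := rh_comp hv h3
  have h5 : HasFDerivAt (fun w : V => w j) (EuclideanSpace.proj j : V →L[ℝ] ℝ) v :=
    (EuclideanSpace.proj j : V →L[ℝ] ℝ).hasFDerivAt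
  have h6 : HasFDerivAt (fun w : V => deriv (prof g) ‖w‖ * (w j * ‖w‖⁻¹)) _ v :=
    h2.mul (h5.mul h4)
  have h7 : pd j g =ᶠ[𝓝 v] fun w : V => deriv (prof g) ‖w‖ * (w j * ‖w‖⁻¹) := by
    filter_upwards [isOpen_ne.mem_nhds hv] with w hw
    rw [pd_rad g hg hR w hw j, div_eq_mul_inv]
  have h8 : pd i (pd j g) v = fderiv ℝ (fun w : V => deriv (prof g) ‖w‖ * (w j * ‖w‖⁻¹)) v
      (EuclideanSpace.single i 1) := by
    unfold pd
    exact congrArg (fun L : V →L[ℝ] ℝ => L (EuclideanSpace.single i 1)) h7.fderiv_eq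
  rw [h8, h6.fderiv]
  have h9 : (EuclideanSpace.proj j : V →L[ℝ] ℝ) (EuclideanSpace.single i 1) =
      if i = j then (1 : ℝ) else 0 := by
    fin_cases i <;> fin_cases j <;> simp
  simp only [add_apply, smul_apply, smul_eq_mul, rh_inner, h9, Pi.mul_apply]
  field_simp
  ring

theorem hess_axis (g : V → ℝ) (hg : ContDiff ℝ (⊤ : ℕ∞) g) (hR : Rad g) (r : ℝ) (hr : 0 < r)
    (i j : Fin 3) : pd i (pd j g) (r • e0) =
      if i = j then (if i = 0 then deriv (deriv (prof g)) r else deriv (prof g) r / r) else 0 := by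
  have hn : ‖r • e0‖ = r := by rw [norm_smul_e0, abs_of_pos hr]
  have hv : r • e0 ≠ 0 := by
    rw [← norm_pos_iff, hn]
    exact hr
  have hc : ∀ k : Fin 3, (r • e0 : V) k = if k = 0 then r else 0 := by
    intro k
    rw [PiLp.smul_apply, e0_coord, smul_eq_mul]
    split_ifs <;> simp
  rw [pd2_rad g hg hR _ hv i j, hn, hc, hc]
  by_cases hij : i = j
  · subst hij
    rw [if_pos rfl, if_pos rfl]
    by_cases hi : i = 0
    · rw [if_pos hi, if_pos hi]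
      field_simp
      ring
    · rw [if_neg hi, if_neg hi]
      field_simp
      ring
  · rw [if_neg hij, if_neg hij]
    by_cases hi : i = 0
    · have hj : j ≠ 0 := fun h => hij (hi.trans h.symm)
      rw [if_neg hj]
      simp
    · rw [if_neg hi]
      simp

end Pool.Agent.LandauR
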