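import Pool.Agent.LandauR.RCalc

/-!
# LandauR, module RLim: limits at infinity

`PP g r → 0` (tail of a convergent integral).  `aa g r → 0`: `NN g r / r = ∫_0^r (s / r) s g s ds`
tends to `0` by dominated convergence (the integrand `1_{s ≤ r} (s / r) (s g s)` is at most `s g s` and
tends to `0` pointwise).
-/

set_option autoImplicit false

namespace Pool.Agent.LandauR

open MeasureTheory Set Filter Topology

theorem tendsto_PP {g : ℝ → ℝ} (hg : Prof g) : Tendsto (PP g) atTop (𝓝 0) := by
  have h1 : Tendsto (fun r : ℝ => ∫ s in (0 : ℝ)..r, s * g s) atTop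
      (𝓝 (∫ s in Ioi (0 : ℝ), s * g s)) :=
    intervalIntegral_tendsto_integral_Ioi 0 hg.int tendsto_id
  have h2 : Tendsto (fun r : ℝ => (∫ s in Ioi (0 : ℝ), s * g s) - ∫ s in (0 : ℝ)..r, s * g s)
      atTop (𝓝 0) := by
    have := (tendsto_const_nhds (x := ∫ s in Ioi (0 : ℝ), s * g s) (f := atTop)).sub h1
    simpa using this
  refine h2.congr' ?_
  filter_upwards [eventually_ge_atTop (0 : ℝ)] with r hr
  have h3 := intervalIntegral.integral_interval_add_Ioi (a := 0) (b := r)
    (f := fun s => s * g s) (μ := volume) hg.int (hg.int.mono_set (Ioi_subset_Ioi hr))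
  unfold PP
  linarith

private theorem NN_div {g : ℝ → ℝ} {r : ℝ} (hr : 0 < r) :
    NN g r / r = ∫ s in Ioi (0 : ℝ), (Iic r).indicator (fun s => s / r * (s * g s)) s := by
  rw [integral_indicator measurableSet_Iic, Measure.restrict_restrict measurableSet_Iic,
    Iic_inter_Ioi, ← intervalIntegral.integral_of_le hr.le]
  unfold NN
  rw [← intervalIntegral.integral_div]
  apply intervalIntegral.integral_congr
  intro s _
  field_simp

private theorem tendsto_NN_div {g : ℝ → ℝ} (hg : Prof g) :
    Tendsto (fun r => NN g r / r) atTop (𝓝 0) := by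
  have hcont : Continuous g := hg.smooth.continuous
  have h1 : Tendsto (fun r : ℝ => ∫ s in Ioi (0 : ℝ),
      (Iic r).indicator (fun s => s / r * (s * g s)) s) atTop
      (𝓝 (∫ _ in Ioi (0 : ℝ), (0 : ℝ))) := by
    apply tendsto_integral_filter_of_dominated_convergence (fun s => s * g s)
    · filter_upwards with r
      apply AEStronglyMeasurable.indicator _ measurableSet_Iic
      apply Continuous.aestronglyMeasurable
      fun_prop
    · filter_upwards [eventually_gt_atTop (0 : ℝ)] with r hr
      filter_upwards [ae_restrict_mem measurableSet_Ioi] with s hs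
      have hs : 0 < s := hs
      have hgs := (hg.pos s).le
      by_cases h : s ∈ Iic r
      · rw [indicator_of_mem h]
        have h2 : s / r ≤ 1 := (div_le_one hr).2 h
        have h3 : 0 ≤ s / r := by positivity
        rw [Real.norm_of_nonneg (by positivity)]
        calc s / r * (s * g s) ≤ 1 * (s * g s) := by gcongr
          _ = s * g s := one_mul _
      · rw [indicator_of_notMem h, norm_zero]
        positivity
    · exact hg.int
    · filter_upwards with s
      have h2 : Tendsto (fun r : ℝ => s / r * (s * g s)) atTop (𝓝 0) := by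
        have := (tendsto_const_nhds (x := s) (f := (atTop : Filter ℝ))).div_atTop tendsto_id
        simpa using this.mul_const (s * g s)
      refine h2.congr' ?_
      filter_upwards [eventually_ge_atTop s] with r hr
      rw [indicator_of_mem (show s ∈ Iic r from hr)]
  rw [integral_zero] at h1
  refine h1.congr' ?_
  filter_upwards [eventually_gt_atTop (0 : ℝ)] with r hr
  exact (NN_div hr).symm

theorem tendsto_aa {g : ℝ → ℝ} (hg : Prof g) : Tendsto (aa g) atTop (𝓝 0) := by
  have h := (tendsto_NN_div hg).add (tendsto_PP hg)
  rw [add_zero] at h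
  exact h

end Pool.Agent.LandauR
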