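import Pool.Agent.LandauR.RStep1
import Pool.Agent.LandauR.RGron
import Pool.Agent.LandauR.RFrozen

/-!
# LandauR, module RMass: bounded mass at all earlier times

`step1` and `gron` at the time `t` give `M₀` with `r aa (g t) r ≤ M₀` for all `r > 0`.  Let `s ≤ t` and `c₀` the
constant of `frozen`.  For `R ≥ 1` with `c₀ R³ ≥ (t - s) M₀`: `(t - s) aa (g t) R ≤ (t - s) M₀/R ≤ c₀ R²`, so
`aa (g s) R ≤ 4 aa (g t) R ≤ 4 M₀/R`, that is `R aa (g s) R ≤ 4 M₀` for all large `R`, and by monotonicity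
(`raa_mono`) for all `R > 0`.  `M = 4 M₀`.
-/

set_option autoImplicit false

namespace Pool.Agent.LandauR

open MeasureTheory Set Filter Topology

theorem mass_all {g : ℝ → ℝ → ℝ} (hg : RSol g) {t : ℝ} (ht : t < 0) :
    ∃ M : ℝ, 0 < M ∧ ∀ s, s ≤ t → ∀ r, 0 < r → r * aa (g s) r ≤ M := by
  obtain ⟨C, R₀, hC, hR₀, h1⟩ := step1 hg ht
  obtain ⟨M₀, hM₀, h2⟩ := gron (hg.prof t ht) C R₀ hC hR₀ h1
  obtain ⟨c, hc, hc1, h3⟩ := frozen
  refine ⟨4 * M₀, by positivity, fun s hs r hr => ?_⟩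
  set R : ℝ := max r (max 1 ((t - s) * M₀ / c)) with hR
  have hrR : r ≤ R := le_max_left _ _
  have hR1 : 1 ≤ R := le_trans (le_max_left _ _) (le_max_right _ _)
  have hR2 : (t - s) * M₀ / c ≤ R := le_trans (le_max_right _ _) (le_max_right _ _)
  have hR0 : 0 < R := by linarith
  have h4 : R * aa (g t) R ≤ M₀ := h2 R hR0
  have hcR : (t - s) * M₀ ≤ R * c := (div_le_iff₀ hc).1 hR2
  have h5 : (t - s) * aa (g t) R ≤ c * R ^ 2 := by
    have h6 : 0 ≤ t - s := by linarith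
    have h7 : (t - s) * (R * aa (g t) R) ≤ (t - s) * M₀ := mul_le_mul_of_nonneg_left h4 h6
    have h8 : R * ((t - s) * aa (g t) R) ≤ R * (c * R ^ 2) := by
      calc R * ((t - s) * aa (g t) R) = (t - s) * (R * aa (g t) R) := by ring
        _ ≤ (t - s) * M₀ := h7
        _ ≤ R * c := hcR
        _ ≤ R * (c * R ^ 2) := by
          apply mul_le_mul_of_nonneg_left _ hR0.le
          have : 1 ≤ R ^ 2 := one_le_pow₀ hR1
          nlinarith
    exact le_of_mul_le_mul_left h8 hR0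
  have h9 := (h3 g hg R hR0 s t hs ht h5).1
  have h10 : r * aa (g s) r ≤ R * aa (g s) R := raa_mono (hg.prof s (lt_of_le_of_lt hs ht)) hr hrR
  have h11 : R * aa (g s) R ≤ R * (4 * aa (g t) R) := mul_le_mul_of_nonneg_left h9 hR0.le
  linarith

end Pool.Agent.LandauR
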