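import Mathlib

/-!
# LandauR, module ROde: a Riccati inequality with source

Put `z τ = y τ - b - B (τ - s)`.  Then `z' ≤ -k (max (y - b) 0)² ≤ -k (max z 0)²`, since `y - b ≥ z`.
So `z` is antitone.  If `z t ≤ 0` we are done.  Otherwise `z > 0` on `[s, t]`, `(1/z)' = -z'/z² ≥ k`, so
`1/z(t) ≥ k (t - s)`, that is `z t ≤ 1 / (k (t - s))`.
-/

set_option autoImplicit false

namespace Pool.Agent.LandauR

open MeasureTheory Set Filter Topology

theorem ode_bd (y y' : ℝ → ℝ) (s t k b B : ℝ) (hst : s < t) (hk : 0 < k) (hB : 0 ≤ B)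
    (hy : ∀ τ ∈ Icc s t, HasDerivAt y (y' τ) τ)
    (h : ∀ τ ∈ Icc s t, y' τ ≤ -k * (max (y τ - b) 0) ^ 2 + B) :
    y t ≤ b + B * (t - s) + 1 / (k * (t - s)) := by
  have hts : 0 < t - s := sub_pos.2 hst
  have hz : ∀ τ ∈ Icc s t, HasDerivAt (fun τ => y τ - b - B * (τ - s)) (y' τ - B) τ := by
    intro τ hτ
    have h1 : HasDerivAt (fun τ => y τ - b - B * (τ - s)) (y' τ - B * 1) τ :=
      ((hy τ hτ).sub_const b).sub (((hasDerivAt_id τ).sub_const s).const_mul B)
    rwa [mul_one] at h1
  have hzle : ∀ τ ∈ Icc s t,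
      y' τ - B ≤ -k * (max (y τ - b - B * (τ - s)) 0) ^ 2 := by
    intro τ hτ
    have h1 := h τ hτ
    have h2 : max (y τ - b - B * (τ - s)) 0 ≤ max (y τ - b) 0 := by
      apply max_le_max _ le_rfl
      have : 0 ≤ B * (τ - s) := mul_nonneg hB (sub_nonneg.2 hτ.1)
      linarith
    have h3 : (0 : ℝ) ≤ max (y τ - b - B * (τ - s)) 0 := le_max_right _ _
    have h4 : (max (y τ - b - B * (τ - s)) 0) ^ 2 ≤ (max (y τ - b) 0) ^ 2 :=
      pow_le_pow_left₀ h3 h2 2
    nlinarith
  have hanti : AntitoneOn (fun τ => y τ - b - B * (τ - s)) (Icc s t) := by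
    apply antitoneOn_of_deriv_nonpos (convex_Icc s t)
    · exact fun τ hτ => (hz τ hτ).continuousAt.continuousWithinAt
    · exact fun τ hτ => (hz τ (interior_subset hτ)).differentiableAt.differentiableWithinAt
    · intro τ hτ
      have hτ' := interior_subset hτ
      rw [(hz τ hτ').deriv]
      refine (hzle τ hτ').trans ?_
      have : 0 ≤ (max (y τ - b - B * (τ - s)) 0) ^ 2 := sq_nonneg _
      nlinarith
  have hpos1 : 0 < 1 / (k * (t - s)) := by positivity
  have ht : t ∈ Icc s t := ⟨hst.le, le_rfl⟩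
  have hs : s ∈ Icc s t := ⟨le_rfl, hst.le⟩
  by_cases hzt : y t - b - B * (t - s) ≤ 0
  · linarith
  · push Not at hzt
    have hzpos : ∀ τ ∈ Icc s t, 0 < y τ - b - B * (τ - s) := fun τ hτ =>
      lt_of_lt_of_le hzt (hanti hτ ht hτ.2)
    have hw : ∀ τ ∈ Icc s t, HasDerivAt (fun τ => (y τ - b - B * (τ - s))⁻¹ - k * τ)
        (-(y' τ - B) / (y τ - b - B * (τ - s)) ^ 2 - k) τ := by
      intro τ hτ
      have h1 : HasDerivAt (fun τ => (y τ - b - B * (τ - s))⁻¹ - k * τ)
          (-(y' τ - B) / (y τ - b - B * (τ - s)) ^ 2 - k * 1) τ :=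
        ((hz τ hτ).fun_inv (hzpos τ hτ).ne').sub ((hasDerivAt_id τ).const_mul k)
      rwa [mul_one] at h1
    have hmono : MonotoneOn (fun τ => (y τ - b - B * (τ - s))⁻¹ - k * τ) (Icc s t) := by
      apply monotoneOn_of_deriv_nonneg (convex_Icc s t)
      · exact fun τ hτ => (hw τ hτ).continuousAt.continuousWithinAt
      · exact fun τ hτ => (hw τ (interior_subset hτ)).differentiableAt.differentiableWithinAt
      · intro τ hτ
        have hτ' := interior_subset hτ
        rw [(hw τ hτ').deriv]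
        have h1 := hzle τ hτ'
        have h2 := hzpos τ hτ'
        rw [max_eq_left h2.le] at h1
        have h3 : k ≤ -(y' τ - B) / (y τ - b - B * (τ - s)) ^ 2 := by
          rw [le_div_iff₀ (by positivity)]
          linarith
        linarith
    have h5 := hmono hs ht hst.le
    have h6 : 0 < (y s - b - B * (s - s))⁻¹ := inv_pos.2 (hzpos s hs)
    have h7 : k * (t - s) ≤ (y t - b - B * (t - s))⁻¹ := by
      simp only at h5
      nlinarith
    have h8 : y t - b - B * (t - s) ≤ 1 / (k * (t - s)) := by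
      rw [le_div_iff₀ (by positivity)]
      have h9 := mul_le_mul_of_nonneg_left h7 hzt.le
      rw [mul_inv_cancel₀ hzt.ne'] at h9
      exact h9
    linarith

theorem riccati_cont (y p : ℝ → ℝ) (s t : ℝ) (hst : s ≤ t) (hy : Continuous y)
    (hpos : ∀ τ ∈ Icc s t, 0 < y τ) (hp : Continuous p)
    (hp0 : ∀ τ ∈ Icc s t, 0 ≤ p τ)
    (h : ∀ a ∈ Icc s t, ∀ b ∈ Icc s t, a ≤ b → y b + ∫ τ in a..b, p τ * y τ ^ 2 ≤ y a) :
    ∫ τ in s..t, p τ ≤ 1 / y t - 1 / y s := by
  have hanti : ∀ a ∈ Icc s t, ∀ b ∈ Icc s t, a ≤ b → y b ≤ y a := by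
    intro a ha b hb hab
    have h1 := h a ha b hb hab
    have h2 : 0 ≤ ∫ τ in a..b, p τ * y τ ^ 2 := by
      apply intervalIntegral.integral_nonneg hab
      intro u hu
      exact mul_nonneg (hp0 u ⟨ha.1.trans hu.1, hu.2.trans hb.2⟩) (sq_nonneg _)
    linarith
  have hkey : ∀ a ∈ Icc s t, ∀ b ∈ Icc s t, a ≤ b →
      -(y b)⁻¹ - -(y a)⁻¹ ≤ -(y b / y a * ∫ τ in a..b, p τ) := by
    intro a ha b hb hab
    have hya := hpos a ha
    have hyb := hpos b hb
    have h1 := h a ha b hb hab
    have h2 : y b ^ 2 * ∫ τ in a..b, p τ ≤ ∫ τ in a..b, p τ * y τ ^ 2 := by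
      rw [← intervalIntegral.integral_const_mul]
      apply intervalIntegral.integral_mono_on hab
      · exact (continuous_const.mul hp).intervalIntegrable _ _
      · exact (hp.mul (hy.pow 2)).intervalIntegrable _ _
      · intro u hu
        have hu' : u ∈ Icc s t := ⟨ha.1.trans hu.1, hu.2.trans hb.2⟩
        have h3 := hanti u hu' b hb hu.2
        have h4 : y b ^ 2 ≤ y u ^ 2 := pow_le_pow_left₀ hyb.le h3 2
        have h5 := mul_le_mul_of_nonneg_left h4 (hp0 u hu')
        linarith
    have h6 : y b ^ 2 * ∫ τ in a..b, p τ ≤ y a - y b := by linarith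
    have h7 : -(y b)⁻¹ - -(y a)⁻¹ = -((y a - y b) / (y a * y b)) := by
      field_simp
      ring
    have h8 : y b / y a * (∫ τ in a..b, p τ) = (y b ^ 2 * ∫ τ in a..b, p τ) / (y a * y b) := by
      field_simp
    rw [h7, h8]
    apply neg_le_neg
    exact div_le_div_of_nonneg_right h6 (by positivity)
  have hB : ∀ x, HasDerivAt (fun x => -(y s)⁻¹ - ∫ τ in s..x, p τ) (-p x) x := by
    intro x
    have h1 := (hp.integral_hasStrictDerivAt s x).hasDerivAt
    have h2 : HasDerivAt (fun x => -(y s)⁻¹ - ∫ τ in s..x, p τ) (0 - p x) x :=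
      (hasDerivAt_const x (-(y s)⁻¹)).sub h1
    rwa [zero_sub] at h2
  have hmain := image_le_of_liminf_slope_right_le_deriv_boundary (f := fun x => -(y x)⁻¹)
    (a := s) (b := t) (B := fun x => -(y s)⁻¹ - ∫ τ in s..x, p τ) (B' := fun x => -p x)
    (by
      apply ContinuousOn.neg
      exact hy.continuousOn.inv₀ (fun x hx => (hpos x hx).ne'))
    (by simp)
    (fun x _ => (hB x).continuousAt.continuousWithinAt)
    (fun x _ => (hB x).hasDerivWithinAt)
    (by
      intro x hx r hr
      have hxI : x ∈ Icc s t := ⟨hx.1, hx.2.le⟩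
      have hyx := hpos x hxI
      -- the upper bound of the slope tends to `-p x`
      have hlim : Tendsto (fun z => -(y z / y x * (slope (fun u => ∫ τ in s..u, p τ) x z)))
          (𝓝[>] x) (𝓝 (-(y x / y x * p x))) := by
        apply Tendsto.neg
        apply Tendsto.mul
        · exact ((hy.tendsto x).mono_left nhdsWithin_le_nhds).div_const _
        · have h1 := (hp.integral_hasStrictDerivAt s x).hasDerivAt
          have h2 := hasDerivAt_iff_tendsto_slope.1 h1
          exact h2.mono_left (nhdsWithin_mono x (fun z hz => ne_of_gt hz))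
      rw [div_self hyx.ne', one_mul] at hlim
      have hev : ∀ᶠ z in 𝓝[>] x, -(y z / y x * (slope (fun u => ∫ τ in s..u, p τ) x z)) < r :=
        hlim.eventually_lt_const hr
      have hev2 : ∀ᶠ z in 𝓝[>] x, z ∈ Ioc x t := Ioc_mem_nhdsGT hx.2
      apply Filter.Eventually.frequently
      filter_upwards [hev, hev2] with z hz hz2
      have hzI : z ∈ Icc s t := ⟨hx.1.trans hz2.1.le, hz2.2⟩
      have h1 := hkey x hxI z hzI hz2.1.le
      have hzx : 0 < z - x := sub_pos.2 hz2.1
      refine lt_of_le_of_lt ?_ hz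
      rw [slope_def_field, slope_def_field]
      have h3 : (∫ τ in s..z, p τ) - ∫ τ in s..x, p τ = ∫ τ in x..z, p τ :=
        intervalIntegral.integral_interval_sub_left (hp.intervalIntegrable _ _)
          (hp.intervalIntegrable _ _)
      rw [h3]
      have h4 : -(y z / y x * ((∫ τ in x..z, p τ) / (z - x)))
          = (-(y z / y x * ∫ τ in x..z, p τ)) / (z - x) := by
        field_simp
      rw [h4]
      exact div_le_div_of_nonneg_right h1 hzx.le)
  have hfin := hmain (right_mem_Icc.2 hst)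
  rw [one_div, one_div]
  linarith

/-- the second Riccati lemma: for `a ≤ b` close to each other the ratio of the values of `y` on
`[a, b]` is close to `1`, and `1/y b - 1/y a = (y a - y b)/(y a y b) ≥ ∫_a^b p y²/(y a y b)`; sum over
a fine partition (uniform continuity of `y`, positive minimum of `y`) -/
theorem riccati (y p : ℝ → ℝ) (s t : ℝ) (hst : s ≤ t) (hy : ContinuousOn y (Icc s t))
    (hpos : ∀ τ ∈ Icc s t, 0 < y τ) (hp : ContinuousOn p (Icc s t))
    (hp0 : ∀ τ ∈ Icc s t, 0 ≤ p τ)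
    (h : ∀ a ∈ Icc s t, ∀ b ∈ Icc s t, a ≤ b → y b + ∫ τ in a..b, p τ * y τ ^ 2 ≤ y a) :
    ∫ τ in s..t, p τ ≤ 1 / y t - 1 / y s := by
  have hpr : ∀ τ ∈ Icc s t, ((projIcc s t hst τ : Icc s t) : ℝ) = τ := by
    intro τ hτ
    rw [projIcc_of_mem hst hτ]
  have hY : Continuous (fun τ => y (projIcc s t hst τ)) :=
    hy.comp_continuous (continuous_subtype_val.comp continuous_projIcc)
      (fun τ => (projIcc s t hst τ).2)
  have hP : Continuous (fun τ => p (projIcc s t hst τ)) :=
    hp.comp_continuous (continuous_subtype_val.comp continuous_projIcc)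
      (fun τ => (projIcc s t hst τ).2)
  have hres := riccati_cont (fun τ => y (projIcc s t hst τ)) (fun τ => p (projIcc s t hst τ))
    s t hst hY (fun τ _ => hpos _ (projIcc s t hst τ).2) hP
    (fun τ _ => hp0 _ (projIcc s t hst τ).2)
    (by
      intro a ha b hb hab
      have h1 := h a ha b hb hab
      have h2 : ∫ τ in a..b, p (projIcc s t hst τ) * y (projIcc s t hst τ) ^ 2
          = ∫ τ in a..b, p τ * y τ ^ 2 := by
        apply intervalIntegral.integral_congr
        intro u hu
        rw [uIcc_of_le hab] at hu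
        have hu' : u ∈ Icc s t := ⟨ha.1.trans hu.1, hu.2.trans hb.2⟩
        simp only [hpr u hu']
      simp only [hpr a ha, hpr b hb]
      rw [h2]
      exact h1)
  simp only [hpr s (left_mem_Icc.2 hst), hpr t (right_mem_Icc.2 hst)] at hres
  have h3 : ∫ τ in s..t, p (projIcc s t hst τ) = ∫ τ in s..t, p τ := by
    apply intervalIntegral.integral_congr
    intro u hu
    rw [uIcc_of_le hst] at hu
    simp only [hpr u hu]
  rw [h3] at hres
  exact hres

end Pool.Agent.LandauR
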