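import Pool.Agent.LandauR.RWeak
import Pool.Agent.LandauR.ROm

/-!
# LandauR, module RPairA: `dFI` in divergence form

For `r > 0`, with `ω = om g`, `a = ω'`, `e = ω''`, `F = r² AA g' + NN g = g ((EE + r³ PP)/3 · ω + NN)`
(`g' = r ω g`), and `F' = r² QQ` (`flux`).  The integrand of `dFI θ g` is
`θ (2 r² u Q' - r² u² Q)`, `u = r ω`, `Q = QQ g`.  Put
`U = 2 θ' r ω + θ (6 ω + 2 r ω') + θ r² ω²`.  Then
`(2 θ r² u (Q/g) · g)' ...`: since `2 θ r² u Q' = (2 θ r² u Q)' - (2 θ r² u)' Q`, hence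
`θ (2 r² u Q' - r² u² Q) = (2 θ r² u Q)' - ((2 θ r² u)' + θ r² u²) Q = (2 θ r² u Q)' - r² U Q`
(check: `(2 θ r³ ω)' + θ r⁴ ω² = r² (2 θ' r ω + 6 θ ω + 2 θ r ω' + θ r² ω²)`), and
`- U r² Q = -(U F)' + U' F`.  All boundary terms vanish: at infinity by the cutoff, at `0` since
`ω`, `ω'`, `Q` are bounded near `0` (`om_smooth`, `Prof.qsm`) and `F → 0`.
`U' = 2 θ'' r ω + 8 θ' ω + 4 θ' r ω' + θ (8 ω' + 2 r ω'') + θ' r² ω² + 2 θ r ω² + 2 θ r² ω ω'`.
-/

set_option autoImplicit false

namespace Pool.Agent.LandauR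

open MeasureTheory Set Filter Topology

/-- the integrand of the divergence form -/
noncomputable def W1 (θ g : ℝ → ℝ) (r : ℝ) : ℝ :=
  (2 * deriv (deriv θ) r * r * om g r + 8 * deriv θ r * om g r
      + 4 * deriv θ r * r * deriv (om g) r
      + θ r * (8 * deriv (om g) r + 2 * r * deriv (deriv (om g)) r)
      + deriv θ r * r ^ 2 * om g r ^ 2 + 2 * θ r * r * om g r ^ 2
      + 2 * θ r * r ^ 2 * om g r * deriv (om g) r)
    * (g r * ((EE g r + r ^ 3 * PP g r) / 3 * om g r + NN g r))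

/-- a continuous function which vanishes for large radii -/
theorem rpairA_int {f : ℝ → ℝ} (hf : Continuous f) {K : ℝ} (hK : 0 < K)
    (h0 : ∀ r, K < r → f r = 0) :
    IntegrableOn f (Ioi 0) ∧ ∫ r in Ioi (0 : ℝ), f r = ∫ r in (0 : ℝ)..K, f r := by
  have h1 : IntegrableOn f (Ioc 0 K) := hf.integrableOn_Ioc
  have h2 : IntegrableOn f (Ioi K) := by
    have h3 : IntegrableOn (fun _ : ℝ => (0 : ℝ)) (Ioi K) := integrableOn_zero
    refine h3.congr_fun (fun r hr => ?_) measurableSet_Ioi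
    exact (h0 r hr).symm
  have h4 : Ioc 0 K ∪ Ioi K = Ioi (0 : ℝ) := Ioc_union_Ioi_eq_Ioi hK.le
  have h5 : ∫ r in Ioi K, f r = 0 := by
    rw [setIntegral_congr_fun measurableSet_Ioi (g := fun _ => (0 : ℝ)) (fun r hr => h0 r hr)]
    simp
  constructor
  · rw [← h4]
    exact h1.union h2
  · rw [← h4, setIntegral_union (Ioc_disjoint_Ioi le_rfl) measurableSet_Ioi h1 h2, h5, add_zero,
      intervalIntegral.integral_of_le hK.le]

theorem rpairA_far {φ : ℝ → ℝ} {δ K : ℝ} (hφ : Tst φ δ K) {r : ℝ} (hr : K < r) :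
    φ r = 0 ∧ deriv φ r = 0 ∧ deriv (deriv φ) r = 0 := by
  have h1 : ∀ x, K < x → φ x = 0 := fun x hx => hφ.far x hx.le
  have h2 : ∀ x, K < x → deriv φ x = 0 := by
    intro x hx
    have h3 : φ =ᶠ[𝓝 x] fun _ => (0 : ℝ) := by
      filter_upwards [Ioi_mem_nhds hx] with y hy
      exact h1 y hy
    rw [h3.deriv_eq]
    simp
  have h3 : deriv φ =ᶠ[𝓝 r] fun _ => (0 : ℝ) := by
    filter_upwards [Ioi_mem_nhds hr] with y hy
    exact h2 y hy
  refine ⟨h1 r hr, h2 r hr, ?_⟩
  rw [h3.deriv_eq]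
  simp

/-- the continuous form of `W1` -/
noncomputable def W1c (θ W g : ℝ → ℝ) (r : ℝ) : ℝ :=
  (2 * deriv (deriv θ) r * r * W r + 8 * deriv θ r * W r
      + 4 * deriv θ r * r * deriv W r
      + θ r * (8 * deriv W r + 2 * r * deriv (deriv W) r)
      + deriv θ r * r ^ 2 * W r ^ 2 + 2 * θ r * r * W r ^ 2
      + 2 * θ r * r ^ 2 * W r * deriv W r)
    * (g r * ((EE g r + r ^ 3 * PP g r) / 3 * W r + NN g r))

theorem rpairA_W1 {g θ W : ℝ → ℝ} (h1 : ∀ r, r ≠ 0 → om g r = W r)
    (h2 : ∀ r, r ≠ 0 → deriv (om g) r = deriv W r) {r : ℝ} (hr : 0 < r) :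
    W1 θ g r = W1c θ W g r := by
  have h3 : deriv (om g) =ᶠ[𝓝 r] deriv W := by
    filter_upwards [Ioi_mem_nhds hr] with y hy
    exact h2 y (ne_of_gt hy)
  unfold W1 W1c
  rw [h1 r hr.ne', h2 r hr.ne', h3.deriv_eq]

theorem rpairA_cont {g θ W : ℝ → ℝ} (hg : Prof g) (hθ : ContDiff ℝ (⊤ : ℕ∞) θ)
    (hW : ContDiff ℝ (⊤ : ℕ∞) W) : Continuous (W1c θ W g) := by
  have e1 : Continuous θ := hθ.continuous
  have e2 : Continuous (deriv θ) := hθ.continuous_deriv (by simp)
  have hθ2 : ContDiff ℝ (⊤ : ℕ∞) (deriv θ) := ContDiff.deriv' (by simpa using hθ)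
  have e3 : Continuous (deriv (deriv θ)) := hθ2.continuous_deriv (by simp)
  have f1 : Continuous W := hW.continuous
  have f2 : Continuous (deriv W) := hW.continuous_deriv (by simp)
  have hW2 : ContDiff ℝ (⊤ : ℕ∞) (deriv W) := ContDiff.deriv' (by simpa using hW)
  have f3 : Continuous (deriv (deriv W)) := hW2.continuous_deriv (by simp)
  have k1 : Continuous g := hg.smooth.continuous
  have k2 : Continuous (EE g) := continuous_iff_continuousAt.2 (fun r => (hasDerivAt_EE hg r).continuousAt)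
  have k3 : Continuous (NN g) := continuous_iff_continuousAt.2 (fun r => (hasDerivAt_NN hg r).continuousAt)
  have k4 : Continuous (PP g) := continuous_iff_continuousAt.2 (fun r => (hasDerivAt_PP hg r).continuousAt)
  unfold W1c
  fun_prop

theorem W1_int {g θ : ℝ → ℝ} {δ K : ℝ} (hg : Prof g) (hθ : Tst θ δ K) :
    IntegrableOn (W1 θ g) (Ioi 0) := by
  obtain ⟨W, hW, h1, h2⟩ := om_smooth hg
  have hK : 0 < K := hθ.dpos.trans hθ.dK
  have h3 := (rpairA_int (rpairA_cont hg hθ.smooth hW) hK (fun r hr => by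
    obtain ⟨a1, a2, a3⟩ := rpairA_far hθ hr
    unfold W1c
    rw [a1, a2, a3]
    ring)).1
  refine h3.congr_fun (fun r hr => ?_) measurableSet_Ioi
  exact (rpairA_W1 h1 h2 hr).symm

theorem dFI_eq {g θ : ℝ → ℝ} {δ K : ℝ} (hg : Prof g) (hθ : Tst θ δ K) :
    dFI θ g = ∫ r in Ioi (0 : ℝ), W1 θ g r := by
  obtain ⟨W, hW, h1, h2⟩ := om_smooth hg
  obtain ⟨q, hq, hq1⟩ := hg.qsm
  have hK : 0 < K := hθ.dpos.trans hθ.dK
  have hWd : ∀ r, HasDerivAt W (deriv W r) r := fun r =>
    ((hW.differentiable (by simp)) r).hasDerivAt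
  have hW2 : ContDiff ℝ (⊤ : ℕ∞) (deriv W) := ContDiff.deriv' (by simpa using hW)
  have hWd2 : ∀ r, HasDerivAt (deriv W) (deriv (deriv W) r) r := fun r =>
    ((hW2.differentiable (by simp)) r).hasDerivAt
  have hθd : ∀ r, HasDerivAt θ (deriv θ r) r := fun r =>
    ((hθ.smooth.differentiable (by simp)) r).hasDerivAt
  have hθ2 : ContDiff ℝ (⊤ : ℕ∞) (deriv θ) := ContDiff.deriv' (by simpa using hθ.smooth)
  have hθd2 : ∀ r, HasDerivAt (deriv θ) (deriv (deriv θ) r) r := fun r =>
    ((hθ2.differentiable (by simp)) r).hasDerivAt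
  have hqd : ∀ r, HasDerivAt q (deriv q r) r := fun r =>
    ((hq.differentiable (by simp)) r).hasDerivAt
  have k2 : Continuous (EE g) := continuous_iff_continuousAt.2 (fun r => (hasDerivAt_EE hg r).continuousAt)
  have k3 : Continuous (NN g) := continuous_iff_continuousAt.2 (fun r => (hasDerivAt_NN hg r).continuousAt)
  have k4 : Continuous (PP g) := continuous_iff_continuousAt.2 (fun r => (hasDerivAt_PP hg r).continuousAt)
  set F : ℝ → ℝ := fun r => g r * ((EE g r + r ^ 3 * PP g r) / 3 * W r + NN g r) with hF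
  set U : ℝ → ℝ := fun r => 2 * deriv θ r * r * W r + θ r * (6 * W r + 2 * r * deriv W r)
    + θ r * r ^ 2 * W r ^ 2 with hU
  set G : ℝ → ℝ := fun r => 2 * θ r * r ^ 3 * W r * q r - U r * F r with hG
  set J : ℝ → ℝ := fun r => θ r * (2 * r ^ 3 * W r * deriv q r - r ^ 4 * W r ^ 2 * q r) with hJ
  have hFd : ∀ r, 0 < r → HasDerivAt F (r ^ 2 * q r) r := by
    intro r hr
    have h4 := flux hg hr
    rw [hq1 r hr] at h4
    refine h4.congr_of_eventuallyEq ?_
    filter_upwards [Ioi_mem_nhds hr] with x hx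
    have hx' : (0 : ℝ) < x := hx
    have h5 : deriv g x = x * W x * g x := by
      have h6 := h1 x hx'.ne'
      unfold om uu at h6
      have h7 := (hg.pos x).ne'
      rw [← h6]
      field_simp
    simp only [hF]
    rw [h5]
    unfold AA
    field_simp
  have hUd : ∀ r, HasDerivAt U (2 * deriv (deriv θ) r * r * W r + 8 * deriv θ r * W r
      + 4 * deriv θ r * r * deriv W r
      + θ r * (8 * deriv W r + 2 * r * deriv (deriv W) r)
      + deriv θ r * r ^ 2 * W r ^ 2 + 2 * θ r * r * W r ^ 2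
      + 2 * θ r * r ^ 2 * W r * deriv W r) r := by
    intro r
    have hid : HasDerivAt (fun x : ℝ => x) 1 r := hasDerivAt_id r
    have a1 := (((hθd2 r).const_mul 2).mul hid).mul (hWd r)
    have a2 := (hθd r).mul (((hWd r).const_mul 6).add ((hid.const_mul 2).mul (hWd2 r)))
    have a3 := ((hθd r).mul (hid.pow 2)).mul ((hWd r).pow 2)
    have a4 := (a1.add a2).add a3
    refine (a4.congr_deriv ?_)
    simp only [Pi.mul_apply, Pi.add_apply, Pi.pow_apply]
    push_cast
    ring
  have hGd : ∀ r, 0 < r → HasDerivAt G (J r - W1c θ W g r) r := by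
    intro r hr
    have hid : HasDerivAt (fun x : ℝ => x) 1 r := hasDerivAt_id r
    have a1 := ((((hθd r).const_mul 2).mul (hid.pow 3)).mul (hWd r)).mul (hqd r)
    have a2 := (hUd r).mul (hFd r hr)
    have a3 := a1.sub a2
    refine (a3.congr_deriv ?_)
    simp only [Pi.mul_apply, Pi.pow_apply, hJ, W1c, hF, hU]
    push_cast
    ring
  have hJc : Continuous J := by
    have f1 : Continuous W := hW.continuous
    have f2 : Continuous q := hq.continuous
    have f3 : Continuous (deriv q) := hq.continuous_deriv (by simp)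
    have f4 : Continuous θ := hθ.smooth.continuous
    simp only [hJ]
    fun_prop
  have hGc : Continuous G := by
    have f1 : Continuous W := hW.continuous
    have f2 : Continuous q := hq.continuous
    have f3 : Continuous (deriv W) := hW.continuous_deriv (by simp)
    have f4 : Continuous θ := hθ.smooth.continuous
    have f5 : Continuous (deriv θ) := hθ.smooth.continuous_deriv (by simp)
    have f6 : Continuous g := hg.smooth.continuous
    simp only [hG, hU, hF]
    fun_prop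
  have hWc := rpairA_cont hg hθ.smooth hW
  have hfar1 : ∀ r, K < r → W1c θ W g r = 0 := fun r hr => by
    obtain ⟨a1, a2, a3⟩ := rpairA_far hθ hr
    unfold W1c
    rw [a1, a2, a3]
    ring
  have hfar2 : ∀ r, K < r → J r = 0 := fun r hr => by
    obtain ⟨a1, a2, a3⟩ := rpairA_far hθ hr
    simp only [hJ]
    rw [a1]
    ring
  have e1 : dFI θ g = ∫ r in Ioi (0 : ℝ), J r := by
    unfold dFI
    refine setIntegral_congr_fun measurableSet_Ioi (fun r hr => ?_)
    have hr' : (0 : ℝ) < r := hr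
    have h5 : uu g r = r * W r := by
      have h6 := h1 r hr'.ne'
      unfold om at h6
      rw [← h6]
      field_simp
    have h7 : deriv (QQ g) r = deriv q r := by
      have h8 : QQ g =ᶠ[𝓝 r] q := by
        filter_upwards [Ioi_mem_nhds hr'] with x hx
        exact hq1 x hx
      exact h8.deriv_eq
    simp only [hJ]
    rw [h5, h7, hq1 r hr']
    ring
  have e2 : ∫ r in Ioi (0 : ℝ), W1 θ g r = ∫ r in Ioi (0 : ℝ), W1c θ W g r :=
    setIntegral_congr_fun measurableSet_Ioi (fun r hr => rpairA_W1 h1 h2 hr)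
  rw [e1, e2, (rpairA_int hJc hK hfar2).2, (rpairA_int hWc hK hfar1).2]
  have e3 : ∫ r in (0 : ℝ)..K, (J r - W1c θ W g r) = G K - G 0 := by
    refine intervalIntegral.integral_eq_sub_of_hasDerivAt_of_le hK.le hGc.continuousOn
      (fun x hx => hGd x hx.1) ?_
    exact (hJc.sub hWc).intervalIntegrable _ _
  rw [intervalIntegral.integral_sub (hJc.intervalIntegrable _ _) (hWc.intervalIntegrable _ _)] at e3
  have e4 : G K = 0 := by
    have h8 : ∀ r, K < r → G r = 0 := fun r hr => by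
      obtain ⟨a1, a2, a3⟩ := rpairA_far hθ hr
      simp only [hG, hU]
      rw [a1, a2]
      ring
    have h9 : Tendsto G (𝓝[>] K) (𝓝 (G K)) := (hGc.tendsto K).mono_left nhdsWithin_le_nhds
    have h10 : Tendsto G (𝓝[>] K) (𝓝 0) := by
      refine tendsto_const_nhds.congr' ?_
      filter_upwards [self_mem_nhdsWithin] with x hx
      exact (h8 x hx).symm
    exact tendsto_nhds_unique h9 h10
  have e5 : G 0 = 0 := by
    simp only [hG, hF]
    unfold EE NN
    simp
  rw [e4, e5] at e3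
  linarith

end Pool.Agent.LandauR
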