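import Pool.Agent.LandauR.RPairA
import Pool.Agent.LandauR.FishId

/-!
# LandauR, module RPairB: the localised Fisher inequality, inner integrals in expanded form

Apply `fish_id` (file FishId) at each `r > 0` with `f = g`, `ω = om g`, `a = deriv (om g)`, `θ1 = deriv θ`,
`N = NN g`, `K = EE g`, `P = PP g`, `V r = ∫_0^r s⁴ ω² g = Fi g 0 r`, `C1 r = ∫_0^r s⁴ g a²`,
`C3 r = ∫_0^r s³ g a ω`, `S2 r = ∫_0^r s² ω² g`, `PT r = ∫_r^∞ θ s g`.
The left side of the derivative is `W1 θ g r + (2/3) θ r g Form + (2/3) r² g (...) (θ PP - PT) - err`.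
Integrate over `(0, ∞)`: `Btot → 0` at `0` (each term contains a factor which tends to `0`: `r`, `NN`, `EE`,
`V`, `C1`, `C3`, `S2`; `ω`, `a` are bounded near `0`) and `Btot = 0` for `r ≥ K`.
As `θ` is antitone and nonnegative, `PT r = ∫_r^∞ θ s g ≤ θ r · PP g r`, so the third term is `≥ 0`.  With
`dFI_eq` this gives the claim; `Form` is `FormF` below.
-/

set_option autoImplicit false

namespace Pool.Agent.LandauR

open MeasureTheory Set Filter Topology

/-- the pair form, inner integrals expanded -/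
noncomputable def FormF (g : ℝ → ℝ) (r : ℝ) : ℝ :=
  deriv (om g) r ^ 2 * EE g r
    - deriv (om g) r / r * (om g r * EE g r - (r ^ 3 * g r - 3 * NN g r))
    + (∫ s in (0 : ℝ)..r, s ^ 4 * g s * deriv (om g) s ^ 2)
    + 2 * (∫ s in (0 : ℝ)..r, s ^ 3 * g s * deriv (om g) s * om g s)
    - 2 * r ^ 3 * g r * om g r ^ 2 + 2 * om g r * Fi g 0 r + 3 * om g r ^ 2 * NN g r
    + 3 * (∫ s in (0 : ℝ)..r, s ^ 2 * om g s ^ 2 * g s)

theorem pb_left {h : ℝ → ℝ} (hc : Continuous h) (x : ℝ) :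
    HasDerivAt (fun x => ∫ s in (0 : ℝ)..x, h s) (h x) x :=
  intervalIntegral.integral_hasDerivAt_right (hc.intervalIntegrable _ _)
    (hc.stronglyMeasurableAtFilter _ _) hc.continuousAt

theorem pb_right {h : ℝ → ℝ} (hc : Continuous h) (K x : ℝ) :
    HasDerivAt (fun x => ∫ s in x..K, h s) (-(h x)) x :=
  intervalIntegral.integral_hasDerivAt_left (hc.intervalIntegrable _ _)
    (hc.stronglyMeasurableAtFilter _ _) hc.continuousAt

/-- the inner Fisher information -/
noncomputable def pbV (g W : ℝ → ℝ) (x : ℝ) : ℝ := ∫ s in (0 : ℝ)..x, s ^ 4 * W s ^ 2 * g s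

/-- first inner integral -/
noncomputable def pbC1 (g W : ℝ → ℝ) (x : ℝ) : ℝ :=
  ∫ s in (0 : ℝ)..x, s ^ 4 * g s * deriv W s ^ 2

/-- second inner integral -/
noncomputable def pbC3 (g W : ℝ → ℝ) (x : ℝ) : ℝ :=
  ∫ s in (0 : ℝ)..x, s ^ 3 * g s * deriv W s * W s

/-- third inner integral -/
noncomputable def pbS2 (g W : ℝ → ℝ) (x : ℝ) : ℝ :=
  ∫ s in (0 : ℝ)..x, s ^ 2 * W s ^ 2 * g s

/-- the outer integral -/
noncomputable def pbPT (θ g : ℝ → ℝ) (K : ℝ) (x : ℝ) : ℝ := ∫ s in x..K, θ s * s * g s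

/-- integrability of a function which is continuous on `[a, K]`, zero elsewhere -/
theorem pb_int {f : ℝ → ℝ} {a K : ℝ} (h1 : ContinuousOn f (Icc a K))
    (h2 : ∀ r, 0 < r → r < a → f r = 0) (h3 : ∀ r, K < r → f r = 0) :
    IntegrableOn f (Ioi 0) := by
  refine (h1.integrableOn_compact isCompact_Icc).of_forall_sdiff_eq_zero measurableSet_Ioi ?_
  rintro x ⟨hx, hx2⟩
  have hx0 : 0 < x := hx
  rcases lt_or_ge x a with h | h
  · exact h2 x hx0 h
  · refine h3 x ?_
    by_contra hh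
    exact hx2 ⟨h, not_lt.1 hh⟩

/-- the third term of the derivative -/
noncomputable def pbT3 (g W θ : ℝ → ℝ) (K r : ℝ) : ℝ :=
  2 / 3 * (r ^ 2 * g r * ((r * deriv W r + W r) ^ 2 + 2 * W r ^ 2) *
    (θ r * PP g r - pbPT θ g K r))

/-- the integrand of `ErrT` -/
noncomputable def pbErr (θ g : ℝ → ℝ) (r : ℝ) : ℝ :=
  r ^ 2 * g r * uu g r ^ 2 * (deriv (deriv θ) r * AA g r
        + deriv θ r / r * (5 * AA g r - aa g r))
      + 4 / 3 * (deriv θ r * g r * (om g r * (r ^ 3 * g r - 3 * NN g r) - Fi g 0 r))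
      + g r ^ 2 * (r ^ 2 * deriv (deriv θ) r - 4 * r * deriv θ r)
      - 6 * g r * (deriv (deriv θ) r / r - deriv θ r / r ^ 2) * NN g r

/-- the boundary term for the profile -/
noncomputable def pbB (g W θ : ℝ → ℝ) (K : ℝ) : ℝ → ℝ :=
  Btot g W (deriv W) θ (deriv θ) (NN g) (EE g) (PP g) (pbV g W) (pbC1 g W) (pbC3 g W) (pbS2 g W)
    (pbPT θ g K)

theorem pb_uu {g W : ℝ → ℝ} (h0 : ∀ r, r ≠ 0 → om g r = W r) {r : ℝ} (hr : r ≠ 0) :
    uu g r = r * W r := by
  rw [← h0 r hr]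
  unfold om
  field_simp

theorem pb_congr {f h : ℝ → ℝ} {x : ℝ} (hx : 0 < x) (hfh : ∀ s, s ≠ 0 → f s = h s) :
    ∫ s in (0 : ℝ)..x, f s = ∫ s in (0 : ℝ)..x, h s := by
  refine intervalIntegral.integral_congr_ae (Eventually.of_forall fun s hs => ?_)
  rw [uIoc_of_le hx.le] at hs
  exact hfh s hs.1.ne'

theorem pb_Fi {g W : ℝ → ℝ} (h0 : ∀ r, r ≠ 0 → om g r = W r) {r : ℝ} (hr : 0 < r) :
    Fi g 0 r = pbV g W r := by
  unfold Fi pbV
  refine pb_congr hr fun s hs => ?_
  rw [pb_uu h0 hs]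
  ring

theorem pb_dd {g W : ℝ → ℝ} (h1 : ∀ r, r ≠ 0 → deriv (om g) r = deriv W r) {r : ℝ} (hr : r ≠ 0) :
    deriv (deriv (om g)) r = deriv (deriv W) r := by
  refine Filter.EventuallyEq.deriv_eq ?_
  filter_upwards [isOpen_ne.mem_nhds hr] with s hs
  exact h1 s hs

/-- the expanded form, in terms of `W` -/
theorem pb_form {g W : ℝ → ℝ} (h0 : ∀ r, r ≠ 0 → om g r = W r)
    (h1 : ∀ r, r ≠ 0 → deriv (om g) r = deriv W r) {r : ℝ} (hr : 0 < r) :
    FormF g r = deriv W r ^ 2 * EE g r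
      - deriv W r / r * (W r * EE g r - (r ^ 3 * g r - 3 * NN g r))
      + pbC1 g W r + 2 * pbC3 g W r
      - 2 * r ^ 3 * g r * W r ^ 2 + 2 * W r * pbV g W r + 3 * W r ^ 2 * NN g r
      + 3 * pbS2 g W r := by
  unfold FormF
  rw [pb_Fi h0 hr, h0 r hr.ne', h1 r hr.ne']
  have e1 : (∫ s in (0 : ℝ)..r, s ^ 4 * g s * deriv (om g) s ^ 2) = pbC1 g W r := by
    unfold pbC1
    refine pb_congr hr fun s hs => ?_
    rw [h1 s hs]
  have e2 : (∫ s in (0 : ℝ)..r, s ^ 3 * g s * deriv (om g) s * om g s) = pbC3 g W r := by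
    unfold pbC3
    refine pb_congr hr fun s hs => ?_
    rw [h1 s hs, h0 s hs]
  have e3 : (∫ s in (0 : ℝ)..r, s ^ 2 * om g s ^ 2 * g s) = pbS2 g W r := by
    unfold pbS2
    refine pb_congr hr fun s hs => ?_
    rw [h0 s hs]
  rw [e1, e2, e3]

theorem pb_deriv {g θ W : ℝ → ℝ} {δ K : ℝ} (hg : Prof g) (hθ : Tst θ δ K)
    (hW : ContDiff ℝ (⊤ : ℕ∞) W) (h0 : ∀ r, r ≠ 0 → om g r = W r)
    (h1 : ∀ r, r ≠ 0 → deriv (om g) r = deriv W r) {r : ℝ} (hr : 0 < r) :
    HasDerivAt (pbB g W θ K) (W1 θ g r + 2 / 3 * (θ r * (r * g r * FormF g r))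
      + pbT3 g W θ K r - pbErr θ g r) r := by
  have hW1 := (contDiff_infty_iff_deriv.1 hW)
  have hW2 := (contDiff_infty_iff_deriv.1 hW1.2)
  have hT1 := (contDiff_infty_iff_deriv.1 hθ.smooth)
  have hT2 := (contDiff_infty_iff_deriv.1 hT1.2)
  have hG1 := (contDiff_infty_iff_deriv.1 hg.smooth)
  have cW : Continuous W := hW.continuous
  have cW' : Continuous (deriv W) := hW1.2.continuous
  have cg : Continuous g := hg.smooth.continuous
  have cθ : Continuous θ := hθ.smooth.continuous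
  have hf : HasDerivAt g (r * W r * g r) r := by
    refine (hG1.1 r).hasDerivAt.congr_deriv ?_
    have h2 := pb_uu h0 hr.ne'
    have h3 : deriv g r = uu g r * g r := by
      unfold uu
      rw [div_mul_cancel₀]
      exact (hg.pos r).ne'
    rw [h3, h2]
  have h := fish_id g W (deriv W) θ (deriv θ) (NN g) (EE g) (PP g) (pbV g W) (pbC1 g W)
    (pbC3 g W) (pbS2 g W) (pbPT θ g K) r (deriv (deriv W) r) (deriv (deriv θ) r) hr hf
    (hW1.1 r).hasDerivAt (hW2.1 r).hasDerivAt (hT1.1 r).hasDerivAt (hT2.1 r).hasDerivAt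
    (hasDerivAt_NN hg r) (hasDerivAt_EE hg r) (hasDerivAt_PP hg r)
    (pb_left (h := fun s => s ^ 4 * W s ^ 2 * g s) (by fun_prop) r)
    (pb_left (h := fun s => s ^ 4 * g s * deriv W s ^ 2) (by fun_prop) r)
    (pb_left (h := fun s => s ^ 3 * g s * deriv W s * W s) (by fun_prop) r)
    (pb_left (h := fun s => s ^ 2 * W s ^ 2 * g s) (by fun_prop) r)
    (pb_right (h := fun s => θ s * s * g s) (by fun_prop) K r)
  refine h.congr_deriv ?_
  unfold W1 pbT3 pbErr
  rw [pb_form h0 h1 hr, pb_dd h1 hr.ne', h1 r hr.ne', h0 r hr.ne', pb_uu h0 hr.ne', pb_Fi h0 hr]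
  unfold AA aa
  ring

theorem pb_dθ_near {θ : ℝ → ℝ} {δ K : ℝ} (hθ : Tst θ δ K) {r : ℝ} (hr : r < δ) :
    deriv θ r = 0 := by
  have h : θ =ᶠ[𝓝 r] fun _ => θ 0 := by
    filter_upwards [isOpen_Iio.mem_nhds hr] with s hs
    exact hθ.near s (le_of_lt hs)
  rw [h.deriv_eq, deriv_const]

theorem pb_ddθ_near {θ : ℝ → ℝ} {δ K : ℝ} (hθ : Tst θ δ K) {r : ℝ} (hr : r < δ) :
    deriv (deriv θ) r = 0 := by
  have h : deriv θ =ᶠ[𝓝 r] fun _ => 0 := by
    filter_upwards [isOpen_Iio.mem_nhds hr] with s hs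
    exact pb_dθ_near hθ hs
  rw [h.deriv_eq, deriv_const]

theorem pb_dθ_far {θ : ℝ → ℝ} {δ K : ℝ} (hθ : Tst θ δ K) {r : ℝ} (hr : K < r) :
    deriv θ r = 0 := by
  have h : θ =ᶠ[𝓝 r] fun _ => 0 := by
    filter_upwards [isOpen_Ioi.mem_nhds hr] with s hs
    exact hθ.far s (le_of_lt hs)
  rw [h.deriv_eq, deriv_const]

theorem pb_ddθ_far {θ : ℝ → ℝ} {δ K : ℝ} (hθ : Tst θ δ K) {r : ℝ} (hr : K < r) :
    deriv (deriv θ) r = 0 := by
  have h : deriv θ =ᶠ[𝓝 r] fun _ => 0 := by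
    filter_upwards [isOpen_Ioi.mem_nhds hr] with s hs
    exact pb_dθ_far hθ hs
  rw [h.deriv_eq, deriv_const]

theorem pb_PT_far {g θ : ℝ → ℝ} {δ K : ℝ} (hθ : Tst θ δ K) {r : ℝ} (hr : K ≤ r) :
    pbPT θ g K r = 0 := by
  unfold pbPT
  refine intervalIntegral.integral_zero_ae (Eventually.of_forall fun s hs => ?_)
  rw [uIoc_comm, uIoc_of_le hr] at hs
  rw [hθ.far s hs.1.le, zero_mul, zero_mul]

theorem pb_PT_le {g θ : ℝ → ℝ} {δ K : ℝ} (hg : Prof g) (hθ : Tst θ δ K)
    (hanti : ∀ r s, 0 ≤ r → r ≤ s → θ s ≤ θ r) (hnn : ∀ r, 0 ≤ θ r) {r : ℝ} (hr : 0 < r) :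
    pbPT θ g K r ≤ θ r * PP g r := by
  rcases le_or_gt K r with h | h
  · rw [pb_PT_far hθ h]
    exact mul_nonneg (hnn r) (PP_pos hg hr.le).le
  · have cg : Continuous g := hg.smooth.continuous
    have cθ : Continuous θ := hθ.smooth.continuous
    have h1 : pbPT θ g K r ≤ ∫ s in r..K, θ r * (s * g s) := by
      unfold pbPT
      refine intervalIntegral.integral_mono_on h.le
        ((by fun_prop : Continuous fun s => θ s * s * g s).intervalIntegrable _ _)
        ((by fun_prop : Continuous fun s => θ r * (s * g s)).intervalIntegrable _ _) ?_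
      intro s hs
      have h2 := hanti r s hr.le hs.1
      have h3 : 0 ≤ s * g s := mul_nonneg (hr.le.trans hs.1) (hg.pos s).le
      rw [mul_assoc]
      exact mul_le_mul_of_nonneg_right h2 h3
    refine h1.trans ?_
    rw [intervalIntegral.integral_const_mul]
    refine mul_le_mul_of_nonneg_left ?_ (hnn r)
    rw [intervalIntegral.integral_of_le h.le]
    unfold PP
    refine setIntegral_mono_set (int_Ioi hg r) ?_ (LE.le.eventuallyLE ?_)
    · refine (ae_restrict_iff' measurableSet_Ioi).2 (Eventually.of_forall fun s hs => ?_)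
      have hs0 : r < s := hs
      exact mul_nonneg (hr.trans hs0).le (hg.pos s).le
    · exact Ioc_subset_Ioi_self

theorem pb_cont {g W : ℝ → ℝ} (hg : Prof g) (hW : ContDiff ℝ (⊤ : ℕ∞) W) :
    Continuous (pbV g W) ∧ Continuous (pbC1 g W) ∧ Continuous (pbC3 g W) ∧
      Continuous (pbS2 g W) := by
  have hW1 := (contDiff_infty_iff_deriv.1 hW)
  have cW : Continuous W := hW.continuous
  have cW' : Continuous (deriv W) := hW1.2.continuous
  have cg : Continuous g := hg.smooth.continuous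
  refine ⟨?_, ?_, ?_, ?_⟩
  · exact continuous_iff_continuousAt.2 fun r =>
      (pb_left (h := fun s => s ^ 4 * W s ^ 2 * g s) (by fun_prop) r).continuousAt
  · exact continuous_iff_continuousAt.2 fun r =>
      (pb_left (h := fun s => s ^ 4 * g s * deriv W s ^ 2) (by fun_prop) r).continuousAt
  · exact continuous_iff_continuousAt.2 fun r =>
      (pb_left (h := fun s => s ^ 3 * g s * deriv W s * W s) (by fun_prop) r).continuousAt
  · exact continuous_iff_continuousAt.2 fun r =>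
      (pb_left (h := fun s => s ^ 2 * W s ^ 2 * g s) (by fun_prop) r).continuousAt

theorem pb_cont2 {g : ℝ → ℝ} (hg : Prof g) :
    Continuous (NN g) ∧ Continuous (EE g) ∧ Continuous (PP g) :=
  ⟨continuous_iff_continuousAt.2 fun r => (hasDerivAt_NN hg r).continuousAt,
    continuous_iff_continuousAt.2 fun r => (hasDerivAt_EE hg r).continuousAt,
    continuous_iff_continuousAt.2 fun r => (hasDerivAt_PP hg r).continuousAt⟩

theorem pb_cont_PT {g θ : ℝ → ℝ} {δ K : ℝ} (hg : Prof g) (hθ : Tst θ δ K) :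
    Continuous (pbPT θ g K) := by
  have cg : Continuous g := hg.smooth.continuous
  have cθ : Continuous θ := hθ.smooth.continuous
  exact continuous_iff_continuousAt.2 fun r =>
      (pb_right (h := fun s => θ s * s * g s) (by fun_prop) K r).continuousAt

theorem pb_div_cont {θ : ℝ → ℝ} {δ K : ℝ} (hθ : Tst θ δ K) :
    Continuous fun x => deriv θ x / x := by
  have hT1 := (contDiff_infty_iff_deriv.1 hθ.smooth)
  have c1 : Continuous (deriv θ) := hT1.2.continuous
  rw [continuous_iff_continuousAt]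
  intro x
  rcases lt_or_ge x δ with h | h
  · have h2 : (fun x => deriv θ x / x) =ᶠ[𝓝 x] fun _ => (0 : ℝ) := by
      filter_upwards [isOpen_Iio.mem_nhds h] with s hs
      rw [pb_dθ_near hθ hs, zero_div]
    exact continuousAt_const.congr h2.symm
  · have hx : x ≠ 0 := (hθ.dpos.trans_le h).ne'
    exact c1.continuousAt.div continuousAt_id hx

theorem pb_B_cont {g θ W : ℝ → ℝ} {δ K : ℝ} (hg : Prof g) (hθ : Tst θ δ K)
    (hW : ContDiff ℝ (⊤ : ℕ∞) W) : Continuous (pbB g W θ K) := by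
  have hT1 := (contDiff_infty_iff_deriv.1 hθ.smooth)
  have hW1 := (contDiff_infty_iff_deriv.1 hW)
  have c1 : Continuous (deriv θ) := hT1.2.continuous
  have cW : Continuous W := hW.continuous
  have cW' : Continuous (deriv W) := hW1.2.continuous
  have cg : Continuous g := hg.smooth.continuous
  have cθ : Continuous θ := hθ.smooth.continuous
  obtain ⟨c2, c3, c4⟩ := pb_cont2 hg
  obtain ⟨c5, c6, c7, c8⟩ := pb_cont hg hW
  have c9 := pb_cont_PT hg hθ
  have c10 := pb_div_cont hθ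
  unfold pbB Btot
  fun_prop

theorem pb_B_zero (g θ W : ℝ → ℝ) (K : ℝ) : pbB g W θ K 0 = 0 := by
  unfold pbB Btot
  have e1 : NN g 0 = 0 := by
    unfold NN
    exact intervalIntegral.integral_same
  have e2 : EE g 0 = 0 := by
    unfold EE
    exact intervalIntegral.integral_same
  have e3 : pbV g W 0 = 0 := by
    unfold pbV
    exact intervalIntegral.integral_same
  have e4 : pbC1 g W 0 = 0 := by
    unfold pbC1
    exact intervalIntegral.integral_same
  have e5 : pbC3 g W 0 = 0 := by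
    unfold pbC3
    exact intervalIntegral.integral_same
  have e6 : pbS2 g W 0 = 0 := by
    unfold pbS2
    exact intervalIntegral.integral_same
  rw [e1, e2, e3, e4, e5, e6]
  simp

theorem pb_B_far (g W : ℝ → ℝ) {θ : ℝ → ℝ} {δ K : ℝ} (hθ : Tst θ δ K) {r : ℝ} (hr : K < r) :
    pbB g W θ K r = 0 := by
  unfold pbB Btot
  rw [pb_PT_far hθ hr.le, pb_dθ_far hθ hr, hθ.far r hr.le]
  simp

theorem pb_T2_int {g θ W : ℝ → ℝ} {δ K : ℝ} (hg : Prof g) (hθ : Tst θ δ K)
    (hW : ContDiff ℝ (⊤ : ℕ∞) W) (h0 : ∀ r, r ≠ 0 → om g r = W r)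
    (h1 : ∀ r, r ≠ 0 → deriv (om g) r = deriv W r) :
    IntegrableOn (fun r => θ r * (r * g r * FormF g r)) (Ioi 0) := by
  have hW1 := (contDiff_infty_iff_deriv.1 hW)
  have cW : Continuous W := hW.continuous
  have cW' : Continuous (deriv W) := hW1.2.continuous
  have cg : Continuous g := hg.smooth.continuous
  have cθ : Continuous θ := hθ.smooth.continuous
  obtain ⟨c2, c3, c4⟩ := pb_cont2 hg
  obtain ⟨c5, c6, c7, c8⟩ := pb_cont hg hW
  have h2 : IntegrableOn (fun r => θ r * g r * (r * (deriv W r ^ 2 * EE g r)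
      - deriv W r * (W r * EE g r - (r ^ 3 * g r - 3 * NN g r))
      + r * (pbC1 g W r + 2 * pbC3 g W r
      - 2 * r ^ 3 * g r * W r ^ 2 + 2 * W r * pbV g W r + 3 * W r ^ 2 * NN g r
      + 3 * pbS2 g W r))) (Ioi 0) := by
    refine pb_int (a := 0) (K := K) ?_ (fun r hr hr2 => absurd hr (not_lt.2 hr2.le)) ?_
    · refine Continuous.continuousOn ?_
      fun_prop
    · intro r hr
      rw [hθ.far r hr.le]
      ring
  refine h2.congr_fun ?_ measurableSet_Ioi
  intro r hr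
  have hr0 : (0 : ℝ) < r := hr
  have hne : r ≠ 0 := hr0.ne'
  simp only []
  rw [pb_form h0 h1 hr0]
  field_simp
  ring

theorem pb_T3_int {g θ W : ℝ → ℝ} {δ K : ℝ} (hg : Prof g) (hθ : Tst θ δ K)
    (hW : ContDiff ℝ (⊤ : ℕ∞) W) : IntegrableOn (pbT3 g W θ K) (Ioi 0) := by
  have hW1 := (contDiff_infty_iff_deriv.1 hW)
  have cW : Continuous W := hW.continuous
  have cW' : Continuous (deriv W) := hW1.2.continuous
  have cg : Continuous g := hg.smooth.continuous
  have cθ : Continuous θ := hθ.smooth.continuous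
  obtain ⟨c2, c3, c4⟩ := pb_cont2 hg
  have c9 := pb_cont_PT hg hθ
  refine pb_int (a := 0) (K := K) ?_ (fun r hr hr2 => absurd hr (not_lt.2 hr2.le)) ?_
  · refine Continuous.continuousOn ?_
    unfold pbT3
    fun_prop
  · intro r hr
    unfold pbT3
    rw [hθ.far r hr.le, pb_PT_far hθ hr.le]
    ring

theorem pb_Err_int {g θ W : ℝ → ℝ} {δ K : ℝ} (hg : Prof g) (hθ : Tst θ δ K)
    (hW : ContDiff ℝ (⊤ : ℕ∞) W) (h0 : ∀ r, r ≠ 0 → om g r = W r) :
    IntegrableOn (pbErr θ g) (Ioi 0) := by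
  have hT1 := (contDiff_infty_iff_deriv.1 hθ.smooth)
  have hT2 := (contDiff_infty_iff_deriv.1 hT1.2)
  have cW : Continuous W := hW.continuous
  have cg : Continuous g := hg.smooth.continuous
  have c1 : Continuous (deriv θ) := hT1.2.continuous
  have c1' : Continuous (deriv (deriv θ)) := hT2.2.continuous
  obtain ⟨c2, c3, c4⟩ := pb_cont2 hg
  obtain ⟨c5, c6, c7, c8⟩ := pb_cont hg hW
  refine pb_int (a := δ) (K := K) ?_ ?_ ?_
  · have hne : ∀ r ∈ Icc δ K, r ≠ 0 := fun r hr => (hθ.dpos.trans_le hr.1).ne'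
    have h2 : ContinuousOn (fun r => r ^ 2 * g r * (r * W r) ^ 2 *
        (deriv (deriv θ) r * ((EE g r / r ^ 3 + PP g r) / 3)
        + deriv θ r / r * (5 * ((EE g r / r ^ 3 + PP g r) / 3) - (NN g r / r + PP g r)))
      + 4 / 3 * (deriv θ r * g r * (W r * (r ^ 3 * g r - 3 * NN g r) - pbV g W r))
      + g r ^ 2 * (r ^ 2 * deriv (deriv θ) r - 4 * r * deriv θ r)
      - 6 * g r * (deriv (deriv θ) r / r - deriv θ r / r ^ 2) * NN g r) (Icc δ K) := by
      have d1 : ContinuousOn (fun r => EE g r / r ^ 3) (Icc δ K) :=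
        c3.continuousOn.div (continuous_pow 3).continuousOn fun r hr => pow_ne_zero 3 (hne r hr)
      have d2 : ContinuousOn (fun r => deriv θ r / r) (Icc δ K) :=
        c1.continuousOn.div continuous_id.continuousOn hne
      have d3 : ContinuousOn (fun r => NN g r / r) (Icc δ K) :=
        c2.continuousOn.div continuous_id.continuousOn hne
      have d4 : ContinuousOn (fun r => deriv (deriv θ) r / r) (Icc δ K) :=
        c1'.continuousOn.div continuous_id.continuousOn hne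
      have d5 : ContinuousOn (fun r => deriv θ r / r ^ 2) (Icc δ K) :=
        c1.continuousOn.div (continuous_pow 2).continuousOn fun r hr => pow_ne_zero 2 (hne r hr)
      have b1 := cW.continuousOn (s := Icc δ K)
      have b2 := cg.continuousOn (s := Icc δ K)
      have b3 := c1.continuousOn (s := Icc δ K)
      have b4 := c1'.continuousOn (s := Icc δ K)
      have b5 := c2.continuousOn (s := Icc δ K)
      have b6 := c3.continuousOn (s := Icc δ K)
      have b7 := c4.continuousOn (s := Icc δ K)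
      have b8 := c5.continuousOn (s := Icc δ K)
      fun_prop
    refine h2.congr fun r hr => ?_
    unfold pbErr
    have hr0 : 0 < r := hθ.dpos.trans_le hr.1
    rw [h0 r hr0.ne', pb_uu h0 hr0.ne', pb_Fi h0 hr0]
    rfl
  · intro r hr hr2
    unfold pbErr
    rw [pb_dθ_near hθ hr2, pb_ddθ_near hθ hr2]
    simp
  · intro r hr
    unfold pbErr
    rw [pb_dθ_far hθ hr, pb_ddθ_far hθ hr]
    simp

theorem form_ineq {g θ : ℝ → ℝ} {δ K : ℝ} (hg : Prof g) (hθ : Tst θ δ K)
    (hanti : ∀ r s, 0 ≤ r → r ≤ s → θ s ≤ θ r) (hnn : ∀ r, 0 ≤ θ r) :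
    dFI θ g ≤ -(2 / 3) * (∫ r in Ioi (0 : ℝ), θ r * (r * g r * FormF g r)) + ErrT θ g := by
  obtain ⟨W, hW, h0, h1⟩ := om_smooth hg
  have i1 := W1_int hg hθ
  have i2 := pb_T2_int hg hθ hW h0 h1
  have i3 := pb_T3_int hg hθ hW
  have i4 := pb_Err_int hg hθ hW h0
  have hB := integral_Ioi_of_hasDerivAt_of_tendsto (f := pbB g W θ K)
    (f' := fun r => W1 θ g r + 2 / 3 * (θ r * (r * g r * FormF g r))
      + pbT3 g W θ K r - pbErr θ g r) (a := 0) (m := 0)
    (pb_B_cont hg hθ hW).continuousAt.continuousWithinAt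
    (fun r hr => pb_deriv hg hθ hW h0 h1 hr)
    (((i1.add (i2.const_mul (2 / 3))).add i3).sub i4) (by
      refine tendsto_const_nhds.congr' ?_
      filter_upwards [eventually_gt_atTop K] with r hr
      exact (pb_B_far g W hθ hr).symm)
  rw [pb_B_zero, sub_zero] at hB
  have hs1 : ∫ r in Ioi (0 : ℝ), (W1 θ g r + 2 / 3 * (θ r * (r * g r * FormF g r))
      + pbT3 g W θ K r - pbErr θ g r) = (∫ r in Ioi (0 : ℝ), W1 θ g r)
      + 2 / 3 * (∫ r in Ioi (0 : ℝ), θ r * (r * g r * FormF g r))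
      + (∫ r in Ioi (0 : ℝ), pbT3 g W θ K r) - ∫ r in Ioi (0 : ℝ), pbErr θ g r := by
    have j2 : IntegrableOn (fun r => 2 / 3 * (θ r * (r * g r * FormF g r))) (Ioi 0) :=
      i2.const_mul (2 / 3)
    have j12 : IntegrableOn (fun r => W1 θ g r + 2 / 3 * (θ r * (r * g r * FormF g r)))
        (Ioi 0) := i1.add j2
    have j123 : IntegrableOn (fun r => W1 θ g r + 2 / 3 * (θ r * (r * g r * FormF g r))
        + pbT3 g W θ K r) (Ioi 0) := j12.add i3
    rw [integral_sub j123 i4, integral_add j12 i3, integral_add i1 j2, integral_const_mul]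
  have h3 : 0 ≤ ∫ r in Ioi (0 : ℝ), pbT3 g W θ K r := by
    refine setIntegral_nonneg measurableSet_Ioi fun r hr => ?_
    have hr0 : (0 : ℝ) < r := hr
    unfold pbT3
    have h4 := pb_PT_le hg hθ hanti hnn hr0
    have h5 := (hg.pos r).le
    have h6 : 0 ≤ θ r * PP g r - pbPT θ g K r := by linarith
    positivity
  have h4 : ErrT θ g = ∫ r in Ioi (0 : ℝ), pbErr θ g r := rfl
  rw [dFI_eq hg hθ, h4]
  linarith

end Pool.Agent.LandauR
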