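import Pool.Agent.LandauR.RPairB

/-!
# LandauR, module RPairC: the expanded form is the pair form, and its lower bound

`form_eq`: for `r > 0`, expand, with `d = om g r - om g s`, `a = deriv (om g) r`, `b = deriv (om g) s`:
`(s a - s/(2r) d)² + (s b - d)² + (2 - s²/(4r²)) d² = s² a² + s² b² - (s²/r) a d - 2 s b d + 3 d²`, and use
`∫_0^r s⁴ g ω = ∫_0^r s³ g' = r³ g - 3 NN` (`g' = s ω g`),
`∫_0^r s³ g b = r³ g ω - 3 ∫_0^r s² g ω - ∫_0^r s⁴ g ω²` (integration by parts, `ω` smooth after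
`om_smooth`).  The terms with `∫ s² g ω` cancel.  (`Fi g 0 r = ∫_0^r s⁴ ω² g` as `uu = s ω`.)

`BtR_le`: for `0 < R ≤ r`, drop the first square, use `2 - s²/(4r²) ≥ 7/4` for `0 ≤ s ≤ r`, and restrict
the integral of a nonnegative function from `[0, r]` to `[0, R]`.
-/

set_option autoImplicit false

namespace Pool.Agent.LandauR

open MeasureTheory Set Filter Topology

theorem pairC_W {g : ℝ → ℝ} (hg : Prof g) :
    ∃ W : ℝ → ℝ, Continuous W ∧ Continuous (deriv W) ∧ Differentiable ℝ W ∧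
      (∀ r, r ≠ 0 → om g r = W r) ∧ (∀ r, r ≠ 0 → deriv (om g) r = deriv W r) ∧
      ∀ r, deriv g r = r * W r * g r := by
  obtain ⟨W, hW, h1, h2⟩ := om_smooth hg
  refine ⟨W, hW.continuous, hW.continuous_deriv (by simp), hW.differentiable (by simp),
    h1, h2, fun r => ?_⟩
  by_cases hr : r = 0
  · subst hr
    have h := uu_zero hg
    unfold uu at h
    have hp := hg.pos 0
    rw [div_eq_zero_iff] at h
    rcases h with h | h
    · simp [h]
    · exact absurd h hp.ne'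
  · have h := h1 r hr
    unfold om uu at h
    have hp := hg.pos r
    rw [← h]
    field_simp

theorem pairC_cg {g : ℝ → ℝ} (hg : Prof g) : Continuous g := hg.smooth.continuous

theorem pairC_dg {g : ℝ → ℝ} (hg : Prof g) (r : ℝ) : HasDerivAt g (deriv g r) r :=
  ((hg.smooth.differentiable (by simp)) r).hasDerivAt

theorem pairC_lin {f h : ℝ → ℝ} (c a b : ℝ) (hf : Continuous f) (hh : Continuous h) :
    ∫ s in a..b, (c * f s + h s) = c * (∫ s in a..b, f s) + ∫ s in a..b, h s := by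
  rw [intervalIntegral.integral_add
    ((show Continuous fun s => c * f s by fun_prop).intervalIntegrable _ _)
    (hh.intervalIntegrable _ _), intervalIntegral.integral_const_mul]

theorem pairC_congr {f h : ℝ → ℝ} {r : ℝ} (hr : 0 ≤ r) (hfh : ∀ s, 0 < s → f s = h s) :
    ∫ s in (0 : ℝ)..r, f s = ∫ s in (0 : ℝ)..r, h s := by
  rw [intervalIntegral.integral_of_le hr, intervalIntegral.integral_of_le hr]
  exact setIntegral_congr_fun measurableSet_Ioc fun s hs => hfh s hs.1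

theorem pairC_I4 {g W : ℝ → ℝ} (hg : Prof g) (hW : Continuous W)
    (h3 : ∀ r, deriv g r = r * W r * g r) (r : ℝ) :
    ∫ s in (0 : ℝ)..r, s ^ 4 * g s * W s = r ^ 3 * g r - 3 * NN g r := by
  have hgc := pairC_cg hg
  have h := intervalIntegral.integral_eq_sub_of_hasDerivAt (a := (0 : ℝ)) (b := r)
    (f := fun s => s ^ 3 * g s) (f' := fun s => 3 * (s ^ 2 * g s) + s ^ 4 * g s * W s)
    (fun s _ => by
      have h1 := ((hasDerivAt_id s).pow 3).mul (pairC_dg hg s)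
      rw [h3 s] at h1
      refine (h1.congr_deriv ?_)
      simp
      ring)
    (Continuous.intervalIntegrable (by fun_prop) _ _)
  rw [pairC_lin _ _ _ (by fun_prop) (by fun_prop)] at h
  simp only [NN]
  linarith [h, show (0 : ℝ) ^ 3 * g 0 = 0 by ring]

theorem pairC_I5 {g W : ℝ → ℝ} (hg : Prof g) (hW : Continuous W) (hW' : Continuous (deriv W))
    (hWd : Differentiable ℝ W) (h3 : ∀ r, deriv g r = r * W r * g r) (r : ℝ) :
    ∫ s in (0 : ℝ)..r, s ^ 3 * g s * deriv W s = r ^ 3 * g r * W r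
      - 3 * (∫ s in (0 : ℝ)..r, s ^ 2 * g s * W s) - ∫ s in (0 : ℝ)..r, s ^ 4 * g s * W s ^ 2 := by
  have hgc := pairC_cg hg
  have h := intervalIntegral.integral_eq_sub_of_hasDerivAt (a := (0 : ℝ)) (b := r)
    (f := fun s => s ^ 3 * g s * W s)
    (f' := fun s => 3 * (s ^ 2 * g s * W s) + (1 * (s ^ 4 * g s * W s ^ 2)
      + s ^ 3 * g s * deriv W s))
    (fun s _ => by
      have h1 := (((hasDerivAt_id s).pow 3).mul (pairC_dg hg s)).mul (hWd s).hasDerivAt
      rw [h3 s] at h1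
      refine (h1.congr_deriv ?_)
      simp
      ring)
    (Continuous.intervalIntegrable (by fun_prop) _ _)
  rw [pairC_lin _ _ _ (by fun_prop) (by fun_prop), pairC_lin _ _ _ (by fun_prop) (by fun_prop)] at h
  linarith [h, show (0 : ℝ) ^ 3 * g 0 * W 0 = 0 by ring]

/-- the pair form with a continuous extension of `om g` -/
theorem pairC_Bt {g W : ℝ → ℝ} (h1 : ∀ r, r ≠ 0 → om g r = W r)
    (h2 : ∀ r, r ≠ 0 → deriv (om g) r = deriv W r) {r : ℝ} (hr : 0 < r) :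
    Bt g r = ∫ s in (0 : ℝ)..r, s ^ 2 * g s *
    ((s * deriv W r - s / (2 * r) * (W r - W s)) ^ 2
      + (s * deriv W s - (W r - W s)) ^ 2
      + (2 - s ^ 2 / (4 * r ^ 2)) * (W r - W s) ^ 2) := by
  unfold Bt
  refine pairC_congr hr.le fun s hs => ?_
  rw [h1 r hr.ne', h1 s hs.ne', h2 r hr.ne', h2 s hs.ne']

theorem pairC_BtR {g W : ℝ → ℝ} (h1 : ∀ r, r ≠ 0 → om g r = W r)
    (h2 : ∀ r, r ≠ 0 → deriv (om g) r = deriv W r) {R r : ℝ} (hR : 0 < R) (hr : 0 < r) :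
    BtR g R r = ∫ s in (0 : ℝ)..R, s ^ 2 * g s *
    ((s * deriv W s - (W r - W s)) ^ 2 + 7 / 4 * (W r - W s) ^ 2) := by
  unfold BtR
  refine pairC_congr hR.le fun s hs => ?_
  rw [h1 r hr.ne', h1 s hs.ne', h2 s hs.ne']

/-- the expanded form with a continuous extension of `om g` -/
theorem pairC_FormF {g W : ℝ → ℝ} (h1 : ∀ r, r ≠ 0 → om g r = W r)
    (h2 : ∀ r, r ≠ 0 → deriv (om g) r = deriv W r) {r : ℝ} (hr : 0 < r) :
    FormF g r = deriv W r ^ 2 * EE g r
    - deriv W r / r * (W r * EE g r - (r ^ 3 * g r - 3 * NN g r))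
    + (∫ s in (0 : ℝ)..r, s ^ 4 * g s * deriv W s ^ 2)
    + 2 * (∫ s in (0 : ℝ)..r, s ^ 3 * g s * deriv W s * W s)
    - 2 * r ^ 3 * g r * W r ^ 2 + 2 * W r * (∫ s in (0 : ℝ)..r, s ^ 4 * g s * W s ^ 2)
    + 3 * W r ^ 2 * NN g r
    + 3 * (∫ s in (0 : ℝ)..r, s ^ 2 * g s * W s ^ 2) := by
  have e1 : (∫ s in (0 : ℝ)..r, s ^ 4 * g s * deriv (om g) s ^ 2)
      = ∫ s in (0 : ℝ)..r, s ^ 4 * g s * deriv W s ^ 2 :=
    pairC_congr hr.le fun s hs => by rw [h2 s hs.ne']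
  have e2 : (∫ s in (0 : ℝ)..r, s ^ 3 * g s * deriv (om g) s * om g s)
      = ∫ s in (0 : ℝ)..r, s ^ 3 * g s * deriv W s * W s :=
    pairC_congr hr.le fun s hs => by rw [h2 s hs.ne', h1 s hs.ne']
  have e3 : Fi g 0 r = ∫ s in (0 : ℝ)..r, s ^ 4 * g s * W s ^ 2 := by
    unfold Fi
    refine pairC_congr hr.le fun s hs => ?_
    rw [← h1 s hs.ne']
    unfold om
    have := hs.ne'
    field_simp
  have e4 : (∫ s in (0 : ℝ)..r, s ^ 2 * om g s ^ 2 * g s)
      = ∫ s in (0 : ℝ)..r, s ^ 2 * g s * W s ^ 2 :=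
    pairC_congr hr.le fun s hs => by rw [h1 s hs.ne']; ring
  unfold FormF
  rw [e1, e2, e3, e4, h1 r hr.ne', h2 r hr.ne']

theorem form_eq {g : ℝ → ℝ} (hg : Prof g) {r : ℝ} (hr : 0 < r) : FormF g r = Bt g r := by
  obtain ⟨W, hW, hW', hWd, h1, h2, h3⟩ := pairC_W hg
  have hgc := pairC_cg hg
  rw [pairC_FormF h1 h2 hr, pairC_Bt h1 h2 hr]
  have I4 := pairC_I4 hg hW h3 r
  have I5 := pairC_I5 hg hW hW' hWd h3 r
  have e : (∫ s in (0 : ℝ)..r, s ^ 2 * g s *
    ((s * deriv W r - s / (2 * r) * (W r - W s)) ^ 2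
      + (s * deriv W s - (W r - W s)) ^ 2
      + (2 - s ^ 2 / (4 * r ^ 2)) * (W r - W s) ^ 2))
      = ∫ s in (0 : ℝ)..r, ((deriv W r ^ 2 - deriv W r / r * W r) * (s ^ 4 * g s)
        + (1 * (s ^ 4 * g s * deriv W s ^ 2)
        + ((deriv W r / r) * (s ^ 4 * g s * W s)
        + ((-2 * W r) * (s ^ 3 * g s * deriv W s)
        + (2 * (s ^ 3 * g s * deriv W s * W s)
        + ((3 * W r ^ 2) * (s ^ 2 * g s)
        + ((-6 * W r) * (s ^ 2 * g s * W s)
        + (3 * (s ^ 2 * g s * W s ^ 2) + 0)))))))) := by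
    refine intervalIntegral.integral_congr fun s _ => ?_
    have := hr.ne'
    field_simp
    ring
  rw [e, pairC_lin _ _ _ (by fun_prop) (by fun_prop), pairC_lin _ _ _ (by fun_prop) (by fun_prop),
    pairC_lin _ _ _ (by fun_prop) (by fun_prop), pairC_lin _ _ _ (by fun_prop) (by fun_prop),
    pairC_lin _ _ _ (by fun_prop) (by fun_prop), pairC_lin _ _ _ (by fun_prop) (by fun_prop),
    pairC_lin _ _ _ (by fun_prop) (by fun_prop), pairC_lin _ _ _ (by fun_prop) (by fun_prop),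
    I4, I5, intervalIntegral.integral_zero]
  simp only [NN, EE]
  ring

theorem pairC_fac {s r : ℝ} (hs : 0 ≤ s) (hr : 0 < r) (h : s ≤ r) :
    7 / 4 ≤ 2 - s ^ 2 / (4 * r ^ 2) := by
  have h1 : s ^ 2 ≤ r ^ 2 := pow_le_pow_left₀ hs h 2
  have h2 : s ^ 2 / (4 * r ^ 2) ≤ 1 / 4 := by
    rw [div_le_iff₀ (by positivity)]
    linarith
  linarith

theorem Bt_nonneg {g : ℝ → ℝ} (hg : Prof g) {r : ℝ} (hr : 0 < r) : 0 ≤ Bt g r := by
  unfold Bt
  refine intervalIntegral.integral_nonneg hr.le fun s hs => ?_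
  have h1 := pairC_fac hs.1 hr hs.2
  have h2 := (hg.pos s).le
  have h3 : 0 ≤ 2 - s ^ 2 / (4 * r ^ 2) := by linarith
  positivity

theorem pairC_BtR_nonneg {g : ℝ → ℝ} (hg : Prof g) {R : ℝ} (hR : 0 ≤ R) (r : ℝ) :
    0 ≤ BtR g R r := by
  unfold BtR
  refine intervalIntegral.integral_nonneg hR fun s hs => ?_
  have h2 := (hg.pos s).le
  positivity

theorem BtR_le {g : ℝ → ℝ} (hg : Prof g) {R r : ℝ} (hR : 0 < R) (h : R ≤ r) :
    BtR g R r ≤ Bt g r := by
  obtain ⟨W, hW, hW', hWd, h1, h2, h3⟩ := pairC_W hg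
  have hgc := pairC_cg hg
  have hr : 0 < r := lt_of_lt_of_le hR h
  rw [pairC_BtR h1 h2 hR hr, pairC_Bt h1 h2 hr]
  have c1 : Continuous fun s : ℝ => s ^ 2 * g s *
    ((s * deriv W s - (W r - W s)) ^ 2 + 7 / 4 * (W r - W s) ^ 2) := by fun_prop
  have c2 : Continuous fun s : ℝ => s ^ 2 * g s *
    ((s * deriv W r - s / (2 * r) * (W r - W s)) ^ 2
      + (s * deriv W s - (W r - W s)) ^ 2
      + (2 - s ^ 2 / (4 * r ^ 2)) * (W r - W s) ^ 2) := by fun_prop
  have hnn : ∀ s, 0 ≤ s → s ≤ r → 0 ≤ s ^ 2 * g s *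
    ((s * deriv W r - s / (2 * r) * (W r - W s)) ^ 2
      + (s * deriv W s - (W r - W s)) ^ 2
      + (2 - s ^ 2 / (4 * r ^ 2)) * (W r - W s) ^ 2) := fun s hs0 hsr => by
    have h1 := pairC_fac hs0 hr hsr
    have h2 := (hg.pos s).le
    have h3 : 0 ≤ 2 - s ^ 2 / (4 * r ^ 2) := by linarith
    positivity
  rw [← intervalIntegral.integral_add_adjacent_intervals (c2.intervalIntegrable 0 R)
    (c2.intervalIntegrable R r)]
  have h4 : 0 ≤ ∫ s in R..r, s ^ 2 * g s *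
    ((s * deriv W r - s / (2 * r) * (W r - W s)) ^ 2
      + (s * deriv W s - (W r - W s)) ^ 2
      + (2 - s ^ 2 / (4 * r ^ 2)) * (W r - W s) ^ 2) :=
    intervalIntegral.integral_nonneg h fun s hs => hnn s (hR.le.trans hs.1) hs.2
  have h5 : (∫ s in (0 : ℝ)..R, s ^ 2 * g s *
    ((s * deriv W s - (W r - W s)) ^ 2 + 7 / 4 * (W r - W s) ^ 2))
      ≤ ∫ s in (0 : ℝ)..R, s ^ 2 * g s *
    ((s * deriv W r - s / (2 * r) * (W r - W s)) ^ 2
      + (s * deriv W s - (W r - W s)) ^ 2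
      + (2 - s ^ 2 / (4 * r ^ 2)) * (W r - W s) ^ 2) := by
    refine intervalIntegral.integral_mono_on hR.le (c1.intervalIntegrable _ _)
      (c2.intervalIntegrable _ _) fun s hs => ?_
    have h6 := pairC_fac hs.1 hr (hs.2.trans h)
    have h7 := (hg.pos s).le
    refine mul_le_mul_of_nonneg_left ?_ (by positivity)
    have h8 : 7 / 4 * (W r - W s) ^ 2 ≤ (2 - s ^ 2 / (4 * r ^ 2)) * (W r - W s) ^ 2 :=
      mul_le_mul_of_nonneg_right h6 (sq_nonneg _)
    have h9 := sq_nonneg (s * deriv W r - s / (2 * r) * (W r - W s))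
    linarith
  linarith

theorem pair_ineq {g θ : ℝ → ℝ} {δ K : ℝ} (hg : Prof g) (hθ : Tst θ δ K)
    (hanti : ∀ r s, 0 ≤ r → r ≤ s → θ s ≤ θ r) (hnn : ∀ r, 0 ≤ θ r) :
    dFI θ g ≤ -(2 / 3) * (∫ r in Ioi (0 : ℝ), θ r * (r * g r * Bt g r)) + ErrT θ g := by
  have h := form_ineq hg hθ hanti hnn
  have e : (∫ r in Ioi (0 : ℝ), θ r * (r * g r * FormF g r))
      = ∫ r in Ioi (0 : ℝ), θ r * (r * g r * Bt g r) :=
    setIntegral_congr_fun measurableSet_Ioi fun r hr => by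
      simp only [form_eq hg (show 0 < r from hr)]
  rwa [e] at h

theorem pairC_int {g θ : ℝ → ℝ} {δ K : ℝ} (hg : Prof g) (hθ : Tst θ δ K) :
    IntegrableOn (fun r => θ r * (r * g r * Bt g r)) (Ioi 0) := by
  obtain ⟨W, hW, hW', hWd, h1, h2, h3⟩ := pairC_W hg
  have hgc := pairC_cg hg
  have hθc : Continuous θ := hθ.smooth.continuous
  have hprim : ∀ f : ℝ → ℝ, Continuous f → Continuous fun r => ∫ s in (0 : ℝ)..r, f s :=
    fun f hf => intervalIntegral.continuous_primitive (fun a b => hf.intervalIntegrable a b) 0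
  have cN : Continuous (NN g) := hprim _ (by fun_prop)
  have cE : Continuous (EE g) := hprim _ (by fun_prop)
  have c1 := hprim (fun s => s ^ 4 * g s * deriv W s ^ 2) (by fun_prop)
  have c2 := hprim (fun s => s ^ 3 * g s * deriv W s * W s) (by fun_prop)
  have c3 := hprim (fun s => s ^ 4 * g s * W s ^ 2) (by fun_prop)
  have c4 := hprim (fun s => s ^ 2 * g s * W s ^ 2) (by fun_prop)
  set G : ℝ → ℝ := fun r => θ r * (g r * (r * deriv W r ^ 2 * EE g r
    - deriv W r * (W r * EE g r - (r ^ 3 * g r - 3 * NN g r))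
    + r * ((∫ s in (0 : ℝ)..r, s ^ 4 * g s * deriv W s ^ 2)
    + 2 * (∫ s in (0 : ℝ)..r, s ^ 3 * g s * deriv W s * W s)
    - 2 * r ^ 3 * g r * W r ^ 2 + 2 * W r * (∫ s in (0 : ℝ)..r, s ^ 4 * g s * W s ^ 2)
    + 3 * W r ^ 2 * NN g r
    + 3 * (∫ s in (0 : ℝ)..r, s ^ 2 * g s * W s ^ 2)))) with hG
  have cG : Continuous G := by
    rw [hG]
    fun_prop
  have hK : 0 < K := hθ.dpos.trans hθ.dK
  have i1 : IntegrableOn G (Ioc 0 K) := cG.integrableOn_Ioc
  have i2 : IntegrableOn G (Ioi K) := by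
    have hz : IntegrableOn (fun _ : ℝ => (0 : ℝ)) (Ioi K) := integrableOn_zero
    refine hz.congr_fun (fun r hr => ?_) measurableSet_Ioi
    simp only [hG, hθ.far r (le_of_lt hr), zero_mul]
  have i3 : IntegrableOn G (Ioi 0) := by
    rw [← Ioc_union_Ioi_eq_Ioi hK.le]
    exact i1.union i2
  refine i3.congr_fun (fun r hr => ?_) measurableSet_Ioi
  have hr0 : (0 : ℝ) < r := hr
  simp only [hG]
  rw [← form_eq hg hr0, pairC_FormF h1 h2 hr0]
  have := hr0.ne'
  field_simp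
  ring

/-- restriction to an annulus on which `θ = 1` -/
theorem pair_ineq_R {g θ : ℝ → ℝ} {δ K : ℝ} (hg : Prof g) (hθ : Tst θ δ K)
    (hanti : ∀ r s, 0 ≤ r → r ≤ s → θ s ≤ θ r) (hnn : ∀ r, 0 ≤ θ r) {R L : ℝ} (hR : 0 < R)
    (hRL : R ≤ L) (h1 : ∀ r, r ≤ L → θ r = 1) :
    dFI θ g ≤ -(2 / 3) * Frr g R L + ErrT θ g := by
  have h := pair_ineq hg hθ hanti hnn
  have hi := pairC_int hg hθ
  have h2 : Frr g R L ≤ ∫ r in Ioi (0 : ℝ), θ r * (r * g r * Bt g r) := by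
    unfold Frr
    rw [intervalIntegral.integral_of_le hRL]
    have hsub : Ioc R L ⊆ Ioi (0 : ℝ) := fun r hr => hR.trans hr.1
    refine le_trans ?_ (setIntegral_mono_set hi ?_ (Filter.Eventually.of_forall hsub))
    · refine integral_mono_of_nonneg ?_ (hi.mono_set hsub) ?_
      · filter_upwards [ae_restrict_mem measurableSet_Ioc] with r hr
        have a1 : 0 ≤ r := (hR.trans hr.1).le
        have a2 := (hg.pos r).le
        have a3 := pairC_BtR_nonneg hg hR.le r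
        simp only [Pi.zero_apply]
        positivity
      · filter_upwards [ae_restrict_mem measurableSet_Ioc] with r hr
        have a1 : 0 ≤ r := (hR.trans hr.1).le
        have a2 := (hg.pos r).le
        rw [h1 r hr.2, one_mul]
        exact mul_le_mul_of_nonneg_left (BtR_le hg hR hr.1.le) (by positivity)
    · filter_upwards [ae_restrict_mem measurableSet_Ioi] with r hr
      have a1 : (0 : ℝ) < r := hr
      have a2 := (hg.pos r).le
      have a3 := Bt_nonneg hg a1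
      have a4 := hnn r
      simp only [Pi.zero_apply]
      positivity
  linarith

end Pool.Agent.LandauR
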