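import Pool.Agent.LandauR.RCoef
import Pool.Agent.LandauR.RHess

/-!
# LandauR, module RPde: the radial equation

For a radial solution `f` (class `SolW`), `t < 0`, `r > 0`, `u = prof (f t)`:
`∂ₜ u = A u'' + (h - A) u' / r + u²` with `A = (K / r³ + P) / 3`, `h = N / r + P`.

Proof.  `SolW.pde` at `v = r e₀`: `QL (f t) v = ∑ᵢⱼ abar (f t) i j v · ∂ᵢ∂ⱼ (f t) v + f²`.  By
`hess_axis` only the diagonal terms remain (`Fin.sum_univ_three`):
`abar₀₀ u'' + (abar₁₁ + abar₂₂) u' / r`, and `abar₁₁ + abar₂₂ = h - A` by `abar_tr` and `abar_00`.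
-/

set_option autoImplicit false

namespace Pool.Agent.LandauR

open MeasureTheory Set Filter Topology Pool.Agent.Landau

theorem rad_pde (f : ℝ → V → ℝ) (hf : SolW f) (hR : ∀ t ≤ 0, Rad (f t)) (t : ℝ) (ht : t < 0)
    (r : ℝ) (hr : 0 < r) :
    HasDerivAt (fun τ => prof (f τ) r)
      ((qK (prof (f t)) r / r ^ 3 + qP (prof (f t)) r) / 3 * deriv (deriv (prof (f t))) r
        + ((qN (prof (f t)) r / r + qP (prof (f t)) r)
            - (qK (prof (f t)) r / r ^ 3 + qP (prof (f t)) r) / 3) * deriv (prof (f t)) r / r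
        + prof (f t) r ^ 2) t := by
  have hC : Clw (f t) := hf.cls t ht.le
  have hRt : Rad (f t) := hR t ht.le
  have h := hf.pde t ht (r • e0)
  have h00 := abar_00 (f t) hC hRt r hr
  have htr := abar_tr (f t) hC hRt r hr
  rw [Fin.sum_univ_three, h00] at htr
  have hH := fun i j => hess_axis (f t) hC.smooth hRt r hr i j
  have hQ : QL (f t) (r • e0) =
      ((qK (prof (f t)) r / r ^ 3 + qP (prof (f t)) r) / 3 * deriv (deriv (prof (f t))) r
        + ((qN (prof (f t)) r / r + qP (prof (f t)) r)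
            - (qK (prof (f t)) r / r ^ 3 + qP (prof (f t)) r) / 3) * deriv (prof (f t)) r / r
        + prof (f t) r ^ 2) := by
    have hp : f t (r • e0) = prof (f t) r := rfl
    unfold QL
    rw [hp]
    simp only [hH, Fin.sum_univ_three, h00]
    have e1 : abar (f t) 1 1 (r • e0) + abar (f t) 2 2 (r • e0) =
        (qN (prof (f t)) r / r + qP (prof (f t)) r)
            - (qK (prof (f t)) r / r ^ 3 + qP (prof (f t)) r) / 3 := by linarith
    rw [← e1]
    simp
    ring
  rw [hQ] at h
  exact h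

end Pool.Agent.LandauR
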