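import Pool.Agent.LandauR.RRad

/-!
# LandauR, module RPsd: the operator `∑ abar i j ∂ᵢ∂ⱼ` is degenerate elliptic

Proof of `aK_psd`.  `z = 0`: all `aK i j 0 = 0`.  `z ≠ 0`, `n = z / ‖z‖`, `∑ n_k² = 1`:
`∑ᵢⱼ aK i j z H i j = (1 / (8 π ‖z‖)) ∑ᵢⱼ H i j (δᵢⱼ - nᵢ nⱼ)` and the last sum equals
`∑ₖ ∑ᵢⱼ H i j pₖᵢ pₖⱼ` with `pₖᵢ = δᵢₖ - nᵢ nₖ` (because `∑ₖ pₖᵢ pₖⱼ = δᵢⱼ - nᵢ nⱼ`), a sum of three
nonnegative values of the quadratic form of `H` (apply `hH` to the vector with coordinates `pₖᵢ`).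

Proof of `abar_psd`.  `abar g i j v = ∫ aK i j (v - w) g w dw` with integrable integrands
(`|aK i j z| ≤ 1 / (4 π ‖z‖)`, see `Landau/KBd.lean`, and `pot_int`): `integral_finset_sum`,
`integral_nonneg`, `g ≥ 0`.

Proof of `abar_tr_le`.  `∑ᵢ aK i i z = (1/(8π)) (3/‖z‖ - ‖z‖²/‖z‖³) = 1/(4π‖z‖)`, `pot_bound` with
`r = 1`, and `ang v ≤ 1 + R`, `4 π ≥ 1`.
-/

set_option autoImplicit false

namespace Pool.Agent.LandauR

open MeasureTheory Set Filter Topology Pool.Agent.Landau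

theorem RPsd_key (N z0 z1 z2 : ℝ) (hN : N = z0 ^ 2 + z1 ^ 2 + z2 ^ 2) (H : Fin 3 → Fin 3 → ℝ)
    (z : Fin 3 → ℝ) (h0 : z 0 = z0) (h1 : z 1 = z1) (h2 : z 2 = z2) :
    ∑ k : Fin 3, ∑ i : Fin 3, ∑ j : Fin 3,
      H i j * (((if i = k then (1 : ℝ) else 0) * N - z i * z k) *
        ((if j = k then (1 : ℝ) else 0) * N - z j * z k)) =
      N * ∑ i : Fin 3, ∑ j : Fin 3, ((if i = j then (1 : ℝ) else 0) * N - z i * z j) * H i j := by
  subst h0 h1 h2 hN
  simp only [Fin.sum_univ_three, Fin.isValue, if_true, Fin.reduceEq, if_false]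
  ring

theorem aK_psd (z : V) (H : Fin 3 → Fin 3 → ℝ)
    (hH : ∀ y : V, 0 ≤ ∑ i : Fin 3, ∑ j : Fin 3, H i j * (y i * y j)) :
    0 ≤ ∑ i : Fin 3, ∑ j : Fin 3, aK i j z * H i j := by
  by_cases hz : z = 0
  · subst hz
    simp [aK]
  have hr : 0 < ‖z‖ := norm_pos_iff.2 hz
  have hpi := Real.pi_pos
  have hN : 0 < ‖z‖ ^ 2 := by positivity
  have h1 := RPsd_key (‖z‖ ^ 2) (z 0) (z 1) (z 2) (nsq z) H (fun i => z i) rfl rfl rfl
  have h2 : 0 ≤ ∑ k : Fin 3, ∑ i : Fin 3, ∑ j : Fin 3,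
      H i j * (((if i = k then (1 : ℝ) else 0) * ‖z‖ ^ 2 - z i * z k) *
        ((if j = k then (1 : ℝ) else 0) * ‖z‖ ^ 2 - z j * z k)) := by
    refine Finset.sum_nonneg fun k _ => ?_
    exact hH (WithLp.toLp 2 (fun i : Fin 3 => (if i = k then (1 : ℝ) else 0) * ‖z‖ ^ 2 - z i * z k))
  have h3 : 0 ≤ ∑ i : Fin 3, ∑ j : Fin 3,
      ((if i = j then (1 : ℝ) else 0) * ‖z‖ ^ 2 - z i * z j) * H i j := by
    rw [h1] at h2
    exact nonneg_of_mul_nonneg_right h2 hN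
  have h4 : ∀ i j : Fin 3, aK i j z * H i j = (1 / (8 * Real.pi) / ‖z‖ ^ 3) *
      (((if i = j then (1 : ℝ) else 0) * ‖z‖ ^ 2 - z i * z j) * H i j) := by
    intro i j
    unfold aK
    field_simp
  simp only [h4, ← Finset.mul_sum]
  exact mul_nonneg (by positivity) h3

theorem RPsd_int (g : V → ℝ) (hg : Clw g) (v : V) (i j : Fin 3) :
    Integrable (fun w => aK i j (v - w) * g w) := by
  refine (pot_int g hg v).mono' ?_ (Eventually.of_forall fun w => ?_)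
  · exact (((aK_measurable i j).comp (measurable_const.sub measurable_id)).mul
      hg.smooth.continuous.measurable).aestronglyMeasurable
  · rw [Real.norm_eq_abs, abs_mul, abs_of_nonneg (hg.nonneg w)]
    have h := mul_le_mul_of_nonneg_right (aK_abs i j (v - w)) (hg.nonneg w)
    calc |aK i j (v - w)| * g w ≤ 1 / ‖v - w‖ * g w := h
      _ = g w / ‖v - w‖ := by ring

theorem abar_psd (g : V → ℝ) (hg : Clw g) (v : V) (H : Fin 3 → Fin 3 → ℝ)
    (hH : ∀ y : V, 0 ≤ ∑ i : Fin 3, ∑ j : Fin 3, H i j * (y i * y j)) :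
    0 ≤ ∑ i : Fin 3, ∑ j : Fin 3, abar g i j v * H i j := by
  have h1 : ∑ i : Fin 3, ∑ j : Fin 3, abar g i j v * H i j =
      ∫ w, ∑ i : Fin 3, ∑ j : Fin 3, aK i j (v - w) * g w * H i j := by
    rw [integral_finsetSum]
    · refine Finset.sum_congr rfl fun i _ => ?_
      rw [integral_finsetSum]
      · refine Finset.sum_congr rfl fun j _ => ?_
        unfold abar
        exact (integral_mul_const (H i j) (fun w => aK i j (v - w) * g w)).symm
      · intro j _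
        exact (RPsd_int g hg v i j).mul_const _
    · intro i _
      exact integrable_finsetSum _ fun j _ => (RPsd_int g hg v i j).mul_const _
  rw [h1]
  refine integral_nonneg fun w => ?_
  have h2 : ∑ i : Fin 3, ∑ j : Fin 3, aK i j (v - w) * g w * H i j =
      g w * ∑ i : Fin 3, ∑ j : Fin 3, aK i j (v - w) * H i j := by
    rw [Finset.mul_sum]
    refine Finset.sum_congr rfl fun i _ => ?_
    rw [Finset.mul_sum]
    refine Finset.sum_congr rfl fun j _ => ?_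
    ring
  show (0 : ℝ) ≤ ∑ i : Fin 3, ∑ j : Fin 3, aK i j (v - w) * g w * H i j
  rw [h2]
  exact mul_nonneg (hg.nonneg w) (aK_psd (v - w) H hH)

theorem RPsd_trace (z : V) : ∑ i : Fin 3, aK i i z = 1 / (4 * Real.pi) * (1 / ‖z‖) := by
  by_cases hz : z = 0
  · subst hz
    simp [aK]
  have hr : 0 < ‖z‖ := norm_pos_iff.2 hz
  have hpi := Real.pi_pos
  have h1 : ∀ i, aK i i z = (1 / (8 * Real.pi)) * ((‖z‖ ^ 2 - z i ^ 2) / ‖z‖ ^ 3) := by
    intro i
    unfold aK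
    rw [if_pos rfl]
    field_simp
  simp only [h1, Fin.sum_univ_three]
  have h2 := nsq z
  have h3 : z 0 ^ 2 = ‖z‖ ^ 2 - z 1 ^ 2 - z 2 ^ 2 := by linarith
  rw [h3]
  field_simp
  ring

theorem abar_tr_le (g : V → ℝ) (hg : Clw g) (R : ℝ) (hR : 0 ≤ R) (v : V) (hv : ‖v‖ ≤ R) :
    ∑ i : Fin 3, abar g i i v ≤ 7 + 3 * (2 + R) * Kw g := by
  have hK := hg.Kw_nonneg
  have hpi := Real.pi_gt_three
  have h1 : ∑ i : Fin 3, abar g i i v = 1 / (4 * Real.pi) * ∫ w, g w / ‖v - w‖ := by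
    unfold abar
    rw [← integral_finsetSum _ (fun i _ => RPsd_int g hg v i i), ← integral_const_mul]
    refine integral_congr_ae (Eventually.of_forall fun w => ?_)
    show ∑ i : Fin 3, aK i i (v - w) * g w = 1 / (4 * Real.pi) * (g w / ‖v - w‖)
    rw [← Finset.sum_mul, RPsd_trace]
    ring
  have h2 := pot_bound g hg v 1 one_pos
  have h3 : 0 ≤ ∫ w, g w / ‖v - w‖ :=
    integral_nonneg fun w => div_nonneg (hg.nonneg w) (norm_nonneg _)
  have h4 : 1 / (4 * Real.pi) ≤ 1 := by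
    rw [div_le_one (by positivity)]
    linarith
  have h5 : ang v ≤ 1 + R := (ang_le v).trans (by linarith)
  rw [h1]
  calc 1 / (4 * Real.pi) * ∫ w, g w / ‖v - w‖ ≤ 1 * ∫ w, g w / ‖v - w‖ :=
        mul_le_mul_of_nonneg_right h4 h3
    _ ≤ 7 * 1 ^ 2 + 3 * ang v * Kw g / 1 + 3 * Kw g := by rw [one_mul]; exact h2
    _ ≤ 7 + 3 * (2 + R) * Kw g := by
        have h6 := mul_le_mul_of_nonneg_right h5 hK
        nlinarith

end Pool.Agent.LandauR
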