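import Pool.Agent.LandauG.WToSol

/-!
# LandauR, module RRad: radial functions on velocity space and their profiles

`Rad g`: the value `g v` depends only on `‖v‖`; `prof g r = g (r e₀)` the profile, an even function
of `r : ℝ`; `qN, qK, qP` the three integrals of a profile.
-/

set_option autoImplicit false

namespace Pool.Agent.LandauR

open MeasureTheory Set Filter Topology Pool.Agent.Landau

/-- the first unit vector -/
noncomputable def e0 : V := EuclideanSpace.single 0 1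

/-- radial functions -/
def Rad (g : V → ℝ) : Prop := ∀ v w : V, ‖v‖ = ‖w‖ → g v = g w

/-- the profile of a radial function -/
noncomputable def prof (g : V → ℝ) (r : ℝ) : ℝ := g (r • e0)

/-- `N(r) = ∫₀^r s² u(s) ds` -/
noncomputable def qN (u : ℝ → ℝ) (r : ℝ) : ℝ := ∫ s in (0 : ℝ)..r, s ^ 2 * u s

/-- `K(r) = ∫₀^r s⁴ u(s) ds` -/
noncomputable def qK (u : ℝ → ℝ) (r : ℝ) : ℝ := ∫ s in (0 : ℝ)..r, s ^ 4 * u s

/-- `P(r) = ∫_r^∞ s u(s) ds` -/
noncomputable def qP (u : ℝ → ℝ) (r : ℝ) : ℝ := ∫ s in Ioi r, s * u s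

theorem norm_e0 : ‖e0‖ = 1 := by
  unfold e0
  simp

theorem norm_smul_e0 (r : ℝ) : ‖r • e0‖ = |r| := by
  rw [norm_smul, norm_e0, mul_one, Real.norm_eq_abs]

theorem e0_coord (i : Fin 3) : e0 i = if i = 0 then (1 : ℝ) else 0 := by
  unfold e0
  simp

theorem Rad.eq_prof {g : V → ℝ} (hg : Rad g) (v : V) : g v = prof g ‖v‖ := by
  unfold prof
  refine hg _ _ ?_
  rw [norm_smul_e0, abs_norm]

theorem Rad.prof_even {g : V → ℝ} (hg : Rad g) (r : ℝ) : prof g (-r) = prof g r := by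
  unfold prof
  refine hg _ _ ?_
  rw [norm_smul_e0, norm_smul_e0, abs_neg]

theorem prof_smooth {g : V → ℝ} (hg : ContDiff ℝ (⊤ : ℕ∞) g) : ContDiff ℝ (⊤ : ℕ∞) (prof g) := by
  unfold prof
  exact hg.comp (contDiff_id.smul contDiff_const)

theorem prof_nonneg {g : V → ℝ} (hg : Clw g) (r : ℝ) : 0 ≤ prof g r := hg.nonneg _

theorem prof_le_one {g : V → ℝ} (hg : Clw g) (r : ℝ) : prof g r ≤ 1 := hg.le_one _

/-- joint smoothness of the profile -/
theorem prof_joint {f : ℝ → V → ℝ} (hf : SolW f) :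
    ContDiffOn ℝ (⊤ : ℕ∞) (fun p : ℝ × ℝ => prof (f p.1) p.2) (Iio (0 : ℝ) ×ˢ univ) := by
  have h1 : ContDiff ℝ (⊤ : ℕ∞) (fun p : ℝ × ℝ => ((p.1, p.2 • e0) : ℝ × V)) :=
    contDiff_fst.prodMk (contDiff_snd.smul contDiff_const)
  exact hf.smooth.comp (s := Iio (0 : ℝ) ×ˢ univ) h1.contDiffOn (fun p hp => ⟨hp.1, mem_univ _⟩)

end Pool.Agent.LandauR
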