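import Pool.Agent.LandauR.RFishT
import Pool.Agent.LandauR.RAnnD
import Pool.Agent.LandauR.ROde
import Pool.Agent.LandauR.RFrozen

/-!
# LandauR, module RSmooth: ancient solutions have little Fisher information in `[ρ, 2ρ]`

Let `c₀` be the constant of `frozen`, `α = aa (g t) ρ > 0`, `τ = c₀ ρ² / α`, `s = t - τ`.  For
`σ ∈ [s, t]`: `aa (g σ) (ρ/2) ≤ 2 aa (g σ) ρ ≤ 8 α` (`aa_half`, `frozen`).  `y σ = FI (kap ρ ^ 4) (g σ)`
satisfies, by `FI_hasDeriv` and `ann_ineq`, `y' ≤ -(c/ρ)(max (y - 8 C α/ρ) 0)² + 64 C α²/ρ³` on `[s, t]`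
(monotonicity of `x ↦ (max (y - x) 0)²`).  `ode_bd`:
`y t ≤ 8 C α/ρ + 64 C (α²/ρ³) τ + ρ/(c τ) = (8 C + 64 C c₀ + 1/(c c₀)) α/ρ`.
Finally `Fi (g t) ρ (2ρ) ≤ y t` since `kap ρ = 1` on `[ρ, 2ρ]`.
-/

set_option autoImplicit false

namespace Pool.Agent.LandauR

open MeasureTheory Set Filter Topology

/-- the Fisher information of `[ρ, 2ρ]` is at most the localised one -/
theorem rsmooth_Fi_le {g : ℝ → ℝ} (hg : Prof g) {ρ : ℝ} (hρ : 0 < ρ) :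
    Fi g ρ (2 * ρ) ≤ FI (fun r => kap ρ r ^ 4) g := by
  obtain ⟨C, -, hk⟩ := kap_tst
  obtain ⟨-, -, -, hone, -, -⟩ := hk ρ hρ
  obtain ⟨hT, -⟩ := kap4_tst hρ
  have hcont : Continuous fun r => kap ρ r ^ 4 * (r ^ 2 * g r * uu g r ^ 2) :=
    hT.smooth.continuous.mul (((continuous_id.pow 2).mul hg.smooth.continuous).mul
      ((uu_smooth hg).continuous.pow 2))
  have hnn : ∀ r, 0 ≤ kap ρ r ^ 4 * (r ^ 2 * g r * uu g r ^ 2) := by
    intro r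
    have h1 := (hg.pos r).le
    have h2 : 0 ≤ kap ρ r ^ 4 := by
      have : kap ρ r ^ 4 = (kap ρ r ^ 2) ^ 2 := by ring
      rw [this]
      positivity
    positivity
  have hint : IntegrableOn (fun r => kap ρ r ^ 4 * (r ^ 2 * g r * uu g r ^ 2)) (Ioi (0 : ℝ)) := by
    have h1 : IntegrableOn (fun r => kap ρ r ^ 4 * (r ^ 2 * g r * uu g r ^ 2))
        (Icc (0 : ℝ) (4 * ρ)) := hcont.continuousOn.integrableOn_compact isCompact_Icc
    have h2 : IntegrableOn (fun r => kap ρ r ^ 4 * (r ^ 2 * g r * uu g r ^ 2))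
        (Ioi (4 * ρ)) := by
      have h0 : IntegrableOn (fun _ : ℝ => (0 : ℝ)) (Ioi (4 * ρ)) := integrableOn_zero
      refine h0.congr_fun (fun r hr => ?_) measurableSet_Ioi
      have h3 : kap ρ r ^ 4 = 0 := hT.far r (le_of_lt hr)
      change (0 : ℝ) = kap ρ r ^ 4 * (r ^ 2 * g r * uu g r ^ 2)
      rw [h3, zero_mul]
    refine (h1.union h2).mono_set fun r hr => ?_
    rcases le_or_gt r (4 * ρ) with h | h
    · exact Or.inl ⟨le_of_lt hr, h⟩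
    · exact Or.inr h
  unfold Fi FI
  rw [intervalIntegral.integral_of_le (by linarith)]
  have h4 : ∫ r in Ioc ρ (2 * ρ), r ^ 2 * g r * uu g r ^ 2 =
      ∫ r in Ioc ρ (2 * ρ), kap ρ r ^ 4 * (r ^ 2 * g r * uu g r ^ 2) := by
    refine setIntegral_congr_fun measurableSet_Ioc fun r hr => ?_
    change r ^ 2 * g r * uu g r ^ 2 = kap ρ r ^ 4 * (r ^ 2 * g r * uu g r ^ 2)
    rw [hone r hr.1.le hr.2, one_pow, one_mul]
  rw [h4]
  exact setIntegral_mono_set hint (Eventually.of_forall hnn)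
    (Filter.Eventually.of_forall fun r hr => lt_trans hρ hr.1)

theorem smooth_ann : ∃ C : ℝ, 0 < C ∧ ∀ g : ℝ → ℝ → ℝ, RSol g → ∀ ρ : ℝ, 0 < ρ → ∀ t < 0,
    Fi (g t) ρ (2 * ρ) ≤ C * (aa (g t) ρ / ρ) := by
  obtain ⟨c₀, hc0, -, hfro⟩ := frozen
  obtain ⟨c, C, hc, hC, hann⟩ := ann_ineq
  refine ⟨8 * C + 64 * C * c₀ + 1 / (c * c₀), by positivity, ?_⟩
  intro g hg ρ hρ t ht
  have hα : 0 < aa (g t) ρ := aa_pos (hg.prof t ht) hρ
  have hτ : 0 < c₀ * ρ ^ 2 / aa (g t) ρ := by positivity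
  have hder : ∀ σ ∈ Icc (t - c₀ * ρ ^ 2 / aa (g t) ρ) t,
      HasDerivAt (fun s => FI (fun r => kap ρ r ^ 4) (g s))
        (dFI (fun r => kap ρ r ^ 4) (g σ)) σ := fun σ hσ =>
    FI_hasDeriv hg (kap4_tst hρ).1 (hσ.2.trans_lt ht)
  have hin : ∀ σ ∈ Icc (t - c₀ * ρ ^ 2 / aa (g t) ρ) t,
      dFI (fun r => kap ρ r ^ 4) (g σ) ≤
        -(c / ρ) * (max (FI (fun r => kap ρ r ^ 4) (g σ) - C * (8 * aa (g t) ρ / ρ)) 0) ^ 2
          + C * ((8 * aa (g t) ρ) ^ 2 / ρ ^ 3) := by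
    intro σ hσ
    have hσ0 : σ < 0 := hσ.2.trans_lt ht
    have hgσ := hg.prof σ hσ0
    have h1 : (t - σ) * aa (g t) ρ ≤ c₀ * ρ ^ 2 := by
      have h2 : t - σ ≤ c₀ * ρ ^ 2 / aa (g t) ρ := by linarith [hσ.1]
      exact (le_div_iff₀ hα).1 h2
    have h3 : aa (g σ) (ρ / 2) ≤ 8 * aa (g t) ρ := by
      have h4 := (hfro g hg ρ hρ σ t hσ.2 ht h1).1
      have h5 := aa_half hgσ hρ
      linarith
    have h6 : 0 < aa (g σ) (ρ / 2) := aa_pos hgσ (by positivity)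
    refine (hann (g σ) hgσ ρ hρ).trans ?_
    have h7 : C * (aa (g σ) (ρ / 2) / ρ) ≤ C * (8 * aa (g t) ρ / ρ) :=
      mul_le_mul_of_nonneg_left (div_le_div_of_nonneg_right h3 hρ.le) hC.le
    have h8 : C * (aa (g σ) (ρ / 2) ^ 2 / ρ ^ 3) ≤ C * ((8 * aa (g t) ρ) ^ 2 / ρ ^ 3) :=
      mul_le_mul_of_nonneg_left (div_le_div_of_nonneg_right
        (pow_le_pow_left₀ h6.le h3 2) (by positivity)) hC.le
    have h9 : (max (FI (fun r => kap ρ r ^ 4) (g σ) - C * (8 * aa (g t) ρ / ρ)) 0) ^ 2 ≤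
        (max (FI (fun r => kap ρ r ^ 4) (g σ) - C * (aa (g σ) (ρ / 2) / ρ)) 0) ^ 2 :=
      pow_le_pow_left₀ (le_max_right _ _) (max_le_max (by linarith) le_rfl) 2
    have h10 := mul_le_mul_of_nonneg_left h9 (show 0 ≤ c / ρ by positivity)
    linarith
  have hode := ode_bd (fun s => FI (fun r => kap ρ r ^ 4) (g s))
    (fun s => dFI (fun r => kap ρ r ^ 4) (g s)) (t - c₀ * ρ ^ 2 / aa (g t) ρ) t (c / ρ)
    (C * (8 * aa (g t) ρ / ρ)) (C * ((8 * aa (g t) ρ) ^ 2 / ρ ^ 3)) (by linarith)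
    (by positivity) (by positivity) hder hin
  have hts : t - (t - c₀ * ρ ^ 2 / aa (g t) ρ) = c₀ * ρ ^ 2 / aa (g t) ρ := by ring
  rw [hts] at hode
  refine (rsmooth_Fi_le (hg.prof t ht) hρ).trans (hode.trans (le_of_eq ?_))
  have hα' := hα.ne'
  field_simp
  ring

end Pool.Agent.LandauR
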