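import Pool.Agent.LandauR.RPde
import Pool.Agent.LandauR.RDefs
import Pool.Agent.LandauG.WBaire

/-!
# LandauR, module RSolOf: the profile of a positive radial solution is a radial solution `RSol`
-/

set_option autoImplicit false

namespace Pool.Agent.LandauR

open MeasureTheory Set Filter Topology Pool.Agent.Landau

theorem rad_QQ (f : ℝ → V → ℝ) (hf : SolW f) (hR : ∀ t ≤ 0, Rad (f t)) (t : ℝ) (ht : t < 0)
    (r : ℝ) (hr : 0 < r) :
    HasDerivAt (fun τ => prof (f τ) r) (QQ (prof (f t)) r) t := by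
  refine (rad_pde f hf hR t ht r hr).congr_deriv ?_
  unfold QQ AA aa NN EE PP qN qK qP
  ring

theorem rad_qsm (f : ℝ → V → ℝ) (hf : SolW f) (hR : ∀ t ≤ 0, Rad (f t)) (t : ℝ) (ht : t < 0) :
    ∃ q : ℝ → ℝ, ContDiff ℝ (⊤ : ℕ∞) q ∧ ∀ r, 0 < r → QQ (prof (f t)) r = q r := by
  have hopen : IsOpen (Iio (0 : ℝ) ×ˢ (univ : Set ℝ)) := isOpen_Iio.prod isOpen_univ
  have hs := prof_joint hf
  have hsd : ∀ r : ℝ, ContDiffAt ℝ (⊤ : ℕ∞) (fun p : ℝ × ℝ => prof (f p.1) p.2) (t, r) :=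
    fun r => hs.contDiffAt (hopen.mem_nhds ⟨ht, mem_univ _⟩)
  refine ⟨fun r => fderiv ℝ (fun p : ℝ × ℝ => prof (f p.1) p.2) (t, r) (1, 0), ?_, ?_⟩
  · rw [contDiff_iff_contDiffAt]
    intro r
    have h1 : ContDiffAt ℝ (⊤ : ℕ∞) (fderiv ℝ (fun p : ℝ × ℝ => prof (f p.1) p.2)) (t, r) :=
      (hsd r).fderiv_right (m := (⊤ : ℕ∞)) (by simp)
    have h2 : ContDiffAt ℝ (⊤ : ℕ∞) (fun r : ℝ => ((t, r) : ℝ × ℝ)) r :=
      contDiffAt_const.prodMk contDiffAt_id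
    exact (h1.comp r h2).clm_apply contDiffAt_const
  · intro r hr
    have h1 := rad_QQ f hf hR t ht r hr
    have hd : DifferentiableAt ℝ (fun p : ℝ × ℝ => prof (f p.1) p.2) (t, r) :=
      (hsd r).differentiableAt (by simp)
    have h2 : HasDerivAt (fun τ : ℝ => ((τ, r) : ℝ × ℝ)) (1, 0) t :=
      (hasDerivAt_id t).prodMk (hasDerivAt_const t r)
    have h3 := hd.hasFDerivAt.comp_hasDerivAt t h2
    exact h1.unique h3

theorem rsol_of (f : ℝ → V → ℝ) (hf : SolW f) (hR : ∀ t ≤ 0, Rad (f t))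
    (hpos : ∀ t < 0, ∀ v, 0 < f t v) : RSol (fun t r => prof (f t) r) := by
  refine ⟨prof_joint hf, fun t ht => ⟨prof_smooth (hf.cls t ht.le).smooth,
    (hR t ht.le).prof_even, fun r => hpos t ht _, prof_le_one (hf.cls t ht.le),
    int_prof (f t) (hf.cls t ht.le) (hR t ht.le), rad_qsm f hf hR t ht⟩,
    fun t ht r hr => rad_QQ f hf hR t ht r hr, fun a b _ hb => ?_⟩
  obtain ⟨B, hB⟩ := Kw_bdd f hf a
  refine ⟨1 + B, fun t ht => ?_⟩
  have ht0 : t ≤ 0 := ht.2.trans hb.le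
  have h1 := int_prof_le (f t) (hf.cls t ht0) (hR t ht0)
  have h2 := hB t ⟨ht.1, ht0⟩
  change ∫ s in Ioi (0 : ℝ), s * prof (f t) s ≤ 1 + B
  linarith

end Pool.Agent.LandauR
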