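import Pool.Agent.LandauR.RContP

/-!
# LandauR, module RTail: growth of the tail

`n ≥ 2R`.  `mom (phiP R n) g = ∫ up(r/R) dn(r/n) r g`, so
`∫_{2R}^{n} r g ≤ mom (phiP R n) g ≤ PP g R`.  By `mom_diff`, `phiP_tst`, `weak_bd1`:
`mom (phiP R n) (g t) ≤ mom (phiP R n) (g s) + (4B/R²) ∫_s^t aa (g τ) R · PP (g τ) R dτ`.
Let `n → ∞` on the left side (`∫_{2R}^n r g → PP (g t) (2R)`).
-/

set_option autoImplicit false

namespace Pool.Agent.LandauR

open MeasureTheory Set Filter Topology

theorem rtail_dn_nonneg (x : ℝ) : 0 ≤ dn x := by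
  unfold dn
  linarith [up_le_one x]

theorem rtail_dn_le_one (x : ℝ) : dn x ≤ 1 := by
  unfold dn
  linarith [up_nonneg x]

theorem rtail_cont (g : ℝ → ℝ) (hg : Prof g) (R n : ℝ) :
    Continuous (fun r => up (r / R) * dn (r / n) * (r * g r)) := by
  have h1 : Continuous up := up_smooth.continuous
  have h2 : Continuous dn := continuous_const.sub h1
  have h3 : Continuous g := hg.smooth.continuous
  exact ((h1.comp (continuous_id.div_const R)).mul (h2.comp (continuous_id.div_const n))).mul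
    (continuous_id.mul h3)

theorem rtail_int (g : ℝ → ℝ) (hg : Prof g) (R n : ℝ) :
    IntegrableOn (fun r => up (r / R) * dn (r / n) * (r * g r)) (Ioi (0 : ℝ)) := by
  refine (hg.int).mono' (rtail_cont g hg R n).aestronglyMeasurable ?_
  refine (ae_restrict_mem measurableSet_Ioi).mono fun r hr => ?_
  have hr0 : (0 : ℝ) < r := hr
  have h1 := up_nonneg (r / R)
  have h2 := up_le_one (r / R)
  have h3 := rtail_dn_nonneg (r / n)
  have h4 := rtail_dn_le_one (r / n)
  have h5 : 0 ≤ r * g r := mul_nonneg hr0.le (hg.pos r).le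
  rw [Real.norm_of_nonneg (mul_nonneg (mul_nonneg h1 h3) h5)]
  have h6 : up (r / R) * dn (r / n) ≤ 1 := by nlinarith
  nlinarith

theorem rtail_mom (g : ℝ → ℝ) (R n : ℝ) :
    mom (phiP R n) g = ∫ r in Ioi (0 : ℝ), up (r / R) * dn (r / n) * (r * g r) := by
  unfold mom
  refine setIntegral_congr_fun measurableSet_Ioi fun r hr => ?_
  have hr0 : (0 : ℝ) < r := hr
  simp only [phiP]
  field_simp

theorem rtail_mom_le (g : ℝ → ℝ) (hg : Prof g) {R n : ℝ} (hR : 0 < R) :
    mom (phiP R n) g ≤ PP g R := by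
  rw [rtail_mom]
  unfold PP
  have h0 : ∫ r in Ioi (0 : ℝ), up (r / R) * dn (r / n) * (r * g r)
      = ∫ r in Ioi R, up (r / R) * dn (r / n) * (r * g r) := by
    refine setIntegral_eq_of_subset_of_forall_sdiff_eq_zero measurableSet_Ioi
      (Ioi_subset_Ioi hR.le) ?_
    intro r hr
    have hr1 : r ≤ R := by
      have := hr.2
      simpa using this
    have : up (r / R) = 0 := up_zero (by rw [div_le_one hR]; exact hr1)
    rw [this]
    ring
  rw [h0]
  refine setIntegral_mono_on ((rtail_int g hg R n).mono_set (Ioi_subset_Ioi hR.le))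
    (int_Ioi hg R) measurableSet_Ioi ?_
  intro r hr
  have hr0 : (0 : ℝ) < r := lt_trans hR hr
  have h1 := up_nonneg (r / R)
  have h2 := up_le_one (r / R)
  have h3 := rtail_dn_nonneg (r / n)
  have h4 := rtail_dn_le_one (r / n)
  have h5 : 0 ≤ r * g r := mul_nonneg hr0.le (hg.pos r).le
  have h6 : up (r / R) * dn (r / n) ≤ 1 := by nlinarith
  nlinarith

theorem rtail_le_mom (g : ℝ → ℝ) (hg : Prof g) {R n : ℝ} (hR : 0 < R) (hn : 2 * R ≤ n) :
    ∫ r in (2 * R)..n, r * g r ≤ mom (phiP R n) g := by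
  rw [rtail_mom, intervalIntegral.integral_of_le hn]
  have hn0 : 0 < n := by linarith
  have hsub : Ioc (2 * R) n ⊆ Ioi (0 : ℝ) := fun r hr => lt_trans (by linarith) hr.1
  have h1 : ∫ r in Ioc (2 * R) n, r * g r
      = ∫ r in Ioc (2 * R) n, up (r / R) * dn (r / n) * (r * g r) := by
    refine setIntegral_congr_fun measurableSet_Ioc fun r hr => ?_
    have ha : up (r / R) = 1 := up_one (by rw [le_div_iff₀ hR]; exact hr.1.le)
    have hb : up (r / n) = 0 := up_zero (by rw [div_le_one hn0]; exact hr.2)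
    simp only [dn, ha, hb]
    ring
  rw [h1]
  refine setIntegral_mono_set (rtail_int g hg R n) ?_ hsub.eventuallyLE
  refine (ae_restrict_mem measurableSet_Ioi).mono fun r hr => ?_
  have hr0 : (0 : ℝ) < r := hr
  exact mul_nonneg (mul_nonneg (up_nonneg _) (rtail_dn_nonneg _))
    (mul_nonneg hr0.le (hg.pos r).le)

theorem tail_growth : ∃ C : ℝ, 0 < C ∧ ∀ g : ℝ → ℝ → ℝ, RSol g → ∀ R s t : ℝ, 0 < R → s ≤ t →
    t < 0 → PP (g t) (2 * R) ≤
      PP (g s) R + C / R ^ 2 * ∫ τ in s..t, aa (g τ) R * PP (g τ) R := by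
  obtain ⟨B, hB, hT⟩ := phiP_tst
  refine ⟨4 * B, by positivity, ?_⟩
  intro g hg R s t hR hst ht
  have hs : s < 0 := lt_of_le_of_lt hst ht
  have hpt := hg.prof t ht
  have hps := hg.prof s hs
  have hsubI : uIcc s t ⊆ Iio (0 : ℝ) := by
    rw [uIcc_of_le hst]
    intro τ hτ
    exact lt_of_le_of_lt hτ.2 ht
  have hcont : ContinuousOn (fun τ => aa (g τ) R * PP (g τ) R) (uIcc s t) :=
    ((cont_aa hg hR).mul (cont_PP hg hR.le)).mono hsubI
  have key : ∀ n : ℝ, 2 * R ≤ n → ∫ r in (2 * R)..n, r * g t r ≤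
      PP (g s) R + 4 * B / R ^ 2 * ∫ τ in s..t, aa (g τ) R * PP (g τ) R := by
    intro n hn
    obtain ⟨htst, hz, hb⟩ := hT R n hR hn
    have h1 := rtail_le_mom (g t) hpt hR hn
    have h2 := rtail_mom_le (g s) hps (n := n) hR
    have h3 := mom_diff hg htst hst ht
    have h4 : ∫ τ in s..t, dmom (phiP R n) (g τ)
        ≤ ∫ τ in s..t, 4 * B / R ^ 2 * (aa (g τ) R * PP (g τ) R) := by
      refine intervalIntegral.integral_mono_on hst
        ((dmom_cont hg htst).mono hsubI).intervalIntegrable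
        (hcont.intervalIntegrable.const_mul _) ?_
      intro τ hτ
      have hτ0 : τ < 0 := lt_of_le_of_lt hτ.2 ht
      have h5 := weak_bd1 (hg.prof τ hτ0) htst hR hB.le hz (fun r hr => (hb r hr).1)
        (fun r hr => (hb r hr).2)
      have h6 := (abs_le.1 h5).2
      calc dmom (phiP R n) (g τ) ≤ 4 * B * (aa (g τ) R * PP (g τ) R) / R ^ 2 := h6
        _ = 4 * B / R ^ 2 * (aa (g τ) R * PP (g τ) R) := by ring
    rw [intervalIntegral.integral_const_mul] at h4
    linarith
  have hlim : Tendsto (fun n : ℝ => ∫ r in (2 * R)..n, r * g t r) atTop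
      (𝓝 (∫ r in Ioi (2 * R), r * g t r)) :=
    intervalIntegral_tendsto_integral_Ioi (2 * R) (int_Ioi hpt (2 * R)) tendsto_id
  have := le_of_tendsto hlim ((eventually_ge_atTop (2 * R)).mono key)
  exact this

end Pool.Agent.LandauR
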