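import Pool.Agent.LandauR.RWin
import Pool.Agent.LandauR.RTail

/-!
# LandauR, module RStep1: the tail estimate at one time

Fix `t < 0`, `i₀ = Fit (g t) 0 > 0`, and let `c₀` be the constant of `frozen`, `C₂` of `fisher_tail`, `c₁` of
`window`, `C₃` of `tail_growth`.  For `R > 0` put `α = aa (g t) R`, `T = c₀ R²/α`, `s₀ = t - T`.
For `τ ∈ [s₀, t]`: `aa (g τ) R ≤ 4 α` (`frozen`), `aa (g τ) (R/2) ≤ 8 α`,
`Fit (g τ) (R/2) ≤ C₂ · 8 α/(R/2) = 16 C₂ α/R =: δ`,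
`NN (g τ) R ≤ R aa (g τ) R ≤ 4 R α`, `NN/R³ · Fit R ≤ (4 α/R²)(4 C₂ α/R) = 16 C₂ α²/R³ =: e`, `e T = 16 C₂ c₀ α/R`.
For `R ≥ R₀`, `δ + e T ≤ i₀/4` (`α → 0` as `R → ∞`: `tendsto_aa`; `α/R → 0`).  `window` (with `E = 0`):
`c₁ ∫_{s₀}^t PP/NN ≤ 1/i₀`, so `∫_{s₀}^t PP (g τ) R dτ ≤ 4 R α/(c₁ i₀)`.
`tail_growth` from `s` to `t` for every `s ∈ [s₀, t]` gives
`PP (g t) (2R) ≤ PP (g s) R + (C₃/R²) 4 α ∫_{s₀}^t PP (g τ) R dτ`; average over `s ∈ [s₀, t]`: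
`PP (g t) (2R) ≤ (1/T + 4 C₃ α/R²) ∫_{s₀}^t PP = (1/c₀ + 4 C₃)(α/R²) · 4 R α/(c₁ i₀) = C (R α)²/R³`.
-/

set_option autoImplicit false

namespace Pool.Agent.LandauR

open MeasureTheory Set Filter Topology

theorem NN_le_raa {g : ℝ → ℝ} (hg : Prof g) {r : ℝ} (hr : 0 < r) : NN g r ≤ r * aa g r := by
  rw [raa_eq g hr]
  have := PP_pos hg hr.le
  nlinarith

theorem step1_core {g : ℝ → ℝ → ℝ} (hg : RSol g) {t : ℝ} (ht : t < 0) {c₀ C₂ c₁ C₃ R : ℝ}
    (hc₀ : 0 < c₀) (hC₂ : 0 < C₂) (hc₁ : 0 < c₁) (hC₃ : 0 < C₃) (hR : 0 < R)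
    (hfro : ∀ s t : ℝ, s ≤ t → t < 0 → (t - s) * aa (g t) R ≤ c₀ * R ^ 2 →
      aa (g s) R ≤ 4 * aa (g t) R ∧ aa (g t) R ≤ 4 * aa (g s) R)
    (hfis : ∀ t < 0, ∀ ρ : ℝ, 0 < ρ → Fit (g t) ρ ≤ C₂ * (aa (g t) ρ / ρ))
    (hwin : ∀ R s t δ e E : ℝ, 0 < R → s ≤ t → t < 0 → 0 ≤ δ → 0 ≤ e → 0 ≤ E →
      (∀ τ ∈ Icc s t, Fit (g τ) (R / 2) ≤ δ) →
      (∀ τ ∈ Icc s t, NN (g τ) R / R ^ 3 * Fit (g τ) R ≤ e) →
      δ + E + e * (t - s) ≤ Fit (g t) 0 / 4 →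
      c₁ * (∫ τ in s..t, PP (g τ) R / NN (g τ) R) ≤
        1 / (Fit (g t) 0 + E) - 1 / (Fit (g s) 0 + E + e * (t - s)))
    (htail : ∀ R s t : ℝ, 0 < R → s ≤ t → t < 0 → PP (g t) (2 * R) ≤
      PP (g s) R + C₃ / R ^ 2 * ∫ τ in s..t, aa (g τ) R * PP (g τ) R)
    (hsmall : (16 * C₂ + 16 * C₂ * c₀) * (aa (g t) R / R) ≤ Fit (g t) 0 / 4) :
    PP (g t) (2 * R) ≤ (1 / c₀ + 4 * C₃) * (4 / (c₁ * Fit (g t) 0)) *
      (R * aa (g t) R) ^ 2 / R ^ 3 := by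
  have hi₀ : 0 < Fit (g t) 0 := Fit_pos hg ht
  set i₀ := Fit (g t) 0 with hi₀def
  have hα : 0 < aa (g t) R := aa_pos (hg.prof t ht) hR
  set α := aa (g t) R with hαdef
  set T := c₀ * R ^ 2 / α with hTdef
  have hT : 0 < T := by positivity
  have hTα : T * α = c₀ * R ^ 2 := by rw [hTdef]; field_simp
  set s₀ := t - T with hs₀def
  have hs₀t : s₀ ≤ t := by linarith
  have hneg : ∀ τ ∈ Icc s₀ t, τ < 0 := fun τ hτ => lt_of_le_of_lt hτ.2 ht
  have hprof : ∀ τ ∈ Icc s₀ t, Prof (g τ) := fun τ hτ => hg.prof τ (hneg τ hτ)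
  have haR : ∀ τ ∈ Icc s₀ t, aa (g τ) R ≤ 4 * α := by
    intro τ hτ
    refine (hfro τ t hτ.2 ht ?_).1
    calc (t - τ) * α ≤ T * α := by
          have := hτ.1
          gcongr
          linarith
      _ = _ := hTα
  have hFR : ∀ τ ∈ Icc s₀ t, Fit (g τ) R ≤ 4 * C₂ * (α / R) := by
    intro τ hτ
    calc Fit (g τ) R ≤ C₂ * (aa (g τ) R / R) := hfis τ (hneg τ hτ) R hR
      _ ≤ C₂ * (4 * α / R) := by
          gcongr
          exact haR τ hτ
      _ = _ := by ring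
  have hFR2 : ∀ τ ∈ Icc s₀ t, Fit (g τ) (R / 2) ≤ 16 * C₂ * (α / R) := by
    intro τ hτ
    calc Fit (g τ) (R / 2) ≤ C₂ * (aa (g τ) (R / 2) / (R / 2)) := hfis τ (hneg τ hτ) _ (by positivity)
      _ ≤ C₂ * (2 * (4 * α) / (R / 2)) := by
          gcongr
          exact (aa_half (hprof τ hτ) hR).trans (by gcongr; exact haR τ hτ)
      _ = _ := by field_simp; ring
  have hNR : ∀ τ ∈ Icc s₀ t, NN (g τ) R ≤ 4 * R * α := by
    intro τ hτ
    calc NN (g τ) R ≤ R * aa (g τ) R := NN_le_raa (hprof τ hτ) hR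
      _ ≤ R * (4 * α) := by
          gcongr
          exact haR τ hτ
      _ = _ := by ring
  have hFnn : ∀ τ ∈ Icc s₀ t, 0 ≤ Fit (g τ) R := fun τ hτ => Fit_nonneg (hprof τ hτ) R
  have hwin' := hwin R s₀ t (16 * C₂ * (α / R)) (16 * C₂ * α ^ 2 / R ^ 3) 0 hR hs₀t ht
    (by positivity) (by positivity) le_rfl hFR2
    (by
      intro τ hτ
      calc NN (g τ) R / R ^ 3 * Fit (g τ) R ≤ (4 * R * α) / R ^ 3 * (4 * C₂ * (α / R)) := by
            gcongr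
            · exact hFnn τ hτ
            · exact hNR τ hτ
            · exact hFR τ hτ
        _ = _ := by field_simp; ring)
    (by
      have e1 : 16 * C₂ * α ^ 2 / R ^ 3 * (t - s₀) = 16 * C₂ * c₀ * (α / R) := by
        have : t - s₀ = T := by rw [hs₀def]; ring
        rw [this, hTdef]
        field_simp
      rw [e1]
      linarith)
  have hI : c₁ * (∫ τ in s₀..t, PP (g τ) R / NN (g τ) R) ≤ 1 / i₀ := by
    refine hwin'.trans ?_
    have h1 : 0 ≤ 1 / (Fit (g s₀) 0 + 0 + 16 * C₂ * α ^ 2 / R ^ 3 * (t - s₀)) := by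
      have h2 : 0 ≤ Fit (g s₀) 0 := Fit_nonneg (hprof s₀ (left_mem_Icc.2 hs₀t)) 0
      have h3 : 0 ≤ t - s₀ := by linarith
      positivity
    rw [add_zero]
    linarith
  have hsub : Icc s₀ t ⊆ Iio (0 : ℝ) := fun τ hτ => hneg τ hτ
  have huIcc : uIcc s₀ t = Icc s₀ t := uIcc_of_le hs₀t
  have cPP : ContinuousOn (fun τ => PP (g τ) R) (Icc s₀ t) := (cont_PP hg hR.le).mono hsub
  have cNN : ContinuousOn (fun τ => NN (g τ) R) (Icc s₀ t) := (cont_NN hg R).mono hsub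
  have caa : ContinuousOn (fun τ => aa (g τ) R) (Icc s₀ t) := (cont_aa hg hR).mono hsub
  have cq : ContinuousOn (fun τ => PP (g τ) R / NN (g τ) R) (Icc s₀ t) :=
    cPP.div cNN fun τ hτ => (NN_pos (hprof τ hτ) hR).ne'
  have iPP : IntervalIntegrable (fun τ => PP (g τ) R) volume s₀ t :=
    (huIcc ▸ cPP).intervalIntegrable
  have iq : IntervalIntegrable (fun τ => PP (g τ) R / NN (g τ) R) volume s₀ t :=
    (huIcc ▸ cq).intervalIntegrable
  set I := ∫ τ in s₀..t, PP (g τ) R with hIdef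
  have hIle : I ≤ 4 * R * α / (c₁ * i₀) := by
    have h1 : I ≤ ∫ τ in s₀..t, 4 * R * α * (PP (g τ) R / NN (g τ) R) := by
      refine intervalIntegral.integral_mono_on hs₀t iPP (iq.const_mul _) fun τ hτ => ?_
      have hN := NN_pos (hprof τ hτ) hR
      have hP := PP_pos (hprof τ hτ) hR.le
      calc PP (g τ) R = NN (g τ) R * (PP (g τ) R / NN (g τ) R) := by field_simp
        _ ≤ 4 * R * α * (PP (g τ) R / NN (g τ) R) := by
            gcongr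
            exact hNR τ hτ
    rw [intervalIntegral.integral_const_mul] at h1
    refine h1.trans ?_
    have h2 : (∫ τ in s₀..t, PP (g τ) R / NN (g τ) R) ≤ 1 / (c₁ * i₀) := by
      rw [le_div_iff₀ (by positivity)]
      rw [le_div_iff₀ hi₀] at hI
      linarith
    calc 4 * R * α * (∫ τ in s₀..t, PP (g τ) R / NN (g τ) R)
        ≤ 4 * R * α * (1 / (c₁ * i₀)) := by gcongr
      _ = _ := by ring
  have hPnn : ∀ τ ∈ Icc s₀ t, 0 ≤ PP (g τ) R := fun τ hτ => (PP_pos (hprof τ hτ) hR.le).le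
  have hgrow : ∀ s ∈ Icc s₀ t, PP (g t) (2 * R) ≤ PP (g s) R + C₃ / R ^ 2 * (4 * α * I) := by
    intro s hs
    refine (htail R s t hR hs.2 ht).trans ?_
    have hsubs : Icc s t ⊆ Icc s₀ t := Icc_subset_Icc hs.1 le_rfl
    have hu : uIcc s t = Icc s t := uIcc_of_le hs.2
    have i1 : IntervalIntegrable (fun τ => aa (g τ) R * PP (g τ) R) volume s t :=
      (hu ▸ ((caa.mul cPP).mono hsubs) :
        ContinuousOn (fun τ => aa (g τ) R * PP (g τ) R) (uIcc s t)).intervalIntegrable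
    have i2 : IntervalIntegrable (fun τ => PP (g τ) R) volume s t :=
      (hu ▸ (cPP.mono hsubs) : ContinuousOn (fun τ => PP (g τ) R) (uIcc s t)).intervalIntegrable
    have i3 : IntervalIntegrable (fun τ => PP (g τ) R) volume s₀ s := by
      have hsub' : Icc s₀ s ⊆ Icc s₀ t := Icc_subset_Icc le_rfl hs.2
      have hu' : uIcc s₀ s = Icc s₀ s := uIcc_of_le hs.1
      exact (hu' ▸ (cPP.mono hsub') :
        ContinuousOn (fun τ => PP (g τ) R) (uIcc s₀ s)).intervalIntegrable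
    have h1 : (∫ τ in s..t, aa (g τ) R * PP (g τ) R) ≤ ∫ τ in s..t, 4 * α * PP (g τ) R := by
      refine intervalIntegral.integral_mono_on hs.2 i1 (i2.const_mul _) fun τ hτ => ?_
      have := hPnn τ (hsubs hτ)
      gcongr
      exact haR τ (hsubs hτ)
    rw [intervalIntegral.integral_const_mul] at h1
    have h2 : (∫ τ in s..t, PP (g τ) R) ≤ I := by
      have e : (∫ τ in s₀..s, PP (g τ) R) + (∫ τ in s..t, PP (g τ) R) = I :=
        intervalIntegral.integral_add_adjacent_intervals i3 i2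
      have h3 : 0 ≤ ∫ τ in s₀..s, PP (g τ) R := by
        refine intervalIntegral.integral_nonneg hs.1 fun τ hτ => hPnn τ ⟨hτ.1, hτ.2.trans hs.2⟩
      linarith
    have h4 : (∫ τ in s..t, aa (g τ) R * PP (g τ) R) ≤ 4 * α * I :=
      h1.trans (by gcongr)
    gcongr
  have hT2 : T * PP (g t) (2 * R) ≤ I + T * (C₃ / R ^ 2 * (4 * α * I)) := by
    have h1 : (∫ s in s₀..t, PP (g t) (2 * R)) ≤
        ∫ s in s₀..t, (PP (g s) R + C₃ / R ^ 2 * (4 * α * I)) :=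
      intervalIntegral.integral_mono_on hs₀t intervalIntegrable_const
        (iPP.add intervalIntegrable_const) hgrow
    rw [intervalIntegral.integral_add iPP intervalIntegrable_const,
      intervalIntegral.integral_const, intervalIntegral.integral_const] at h1
    have e : t - s₀ = T := by rw [hs₀def]; ring
    rw [e, smul_eq_mul, smul_eq_mul] at h1
    exact h1
  have hInn : 0 ≤ I := intervalIntegral.integral_nonneg hs₀t hPnn
  have hfin : PP (g t) (2 * R) ≤ (1 / c₀ + 4 * C₃) * (α / R ^ 2) * I := by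
    have h1 : PP (g t) (2 * R) ≤ I / T + C₃ / R ^ 2 * (4 * α * I) := by
      rw [← mul_le_mul_iff_right₀ hT]
      refine hT2.trans (le_of_eq ?_)
      field_simp
    refine h1.trans (le_of_eq ?_)
    rw [hTdef]
    field_simp
  refine hfin.trans ?_
  calc (1 / c₀ + 4 * C₃) * (α / R ^ 2) * I
      ≤ (1 / c₀ + 4 * C₃) * (α / R ^ 2) * (4 * R * α / (c₁ * i₀)) := by gcongr
    _ = _ := by field_simp

theorem step1 {g : ℝ → ℝ → ℝ} (hg : RSol g) {t : ℝ} (ht : t < 0) :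
    ∃ C R₀ : ℝ, 0 < C ∧ 0 < R₀ ∧ ∀ R, R₀ ≤ R →
      PP (g t) (2 * R) ≤ C * (R * aa (g t) R) ^ 2 / R ^ 3 := by
  obtain ⟨c₀, hc₀, _, hfro⟩ := frozen
  obtain ⟨C₂, hC₂, hfis⟩ := fisher_tail
  obtain ⟨c₁, hc₁, hwin⟩ := window
  obtain ⟨C₃, hC₃, htail⟩ := tail_growth
  have hi₀ : 0 < Fit (g t) 0 := Fit_pos hg ht
  set κ := 16 * C₂ + 16 * C₂ * c₀ with hκ
  have hκpos : 0 < κ := by positivity
  have hev : ∀ᶠ R in atTop, aa (g t) R < Fit (g t) 0 / 4 / κ :=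
    (tendsto_aa (hg.prof t ht)).eventually_lt_const (by positivity)
  obtain ⟨R₁, hR₁⟩ := eventually_atTop.1 hev
  refine ⟨(1 / c₀ + 4 * C₃) * (4 / (c₁ * Fit (g t) 0)), max R₁ 1, by positivity, by positivity,
    fun R hR => ?_⟩
  have hR1 : 1 ≤ R := (le_max_right _ _).trans hR
  have hR0 : 0 < R := by linarith
  refine step1_core hg ht hc₀ hC₂ hc₁ hC₃ hR0 (fun s t => hfro g hg R hR0 s t)
    (fun t ht ρ hρ => (hfis g hg t ht).2 ρ hρ) (fun R s t δ e E => hwin g hg R s t δ e E)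
    (fun R s t => htail g hg R s t) ?_
  have h1 := hR₁ R ((le_max_left _ _).trans hR)
  have h2 : 0 < aa (g t) R := aa_pos (hg.prof t ht) hR0
  have h3 : aa (g t) R / R ≤ aa (g t) R := div_le_self h2.le hR1
  calc κ * (aa (g t) R / R) ≤ κ * (Fit (g t) 0 / 4 / κ) :=
        mul_le_mul_of_nonneg_left (h3.trans h1.le) hκpos.le
    _ = _ := by field_simp

end Pool.Agent.LandauR
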