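import Pool.Agent.LandauR.RWeak

/-!
# LandauR, module RTime: time derivatives of moments

For `t < 0` the function `(t, r) ↦ g t r` is smooth near `{t} × ℝ`, and for `r > 0` its time derivative is
`QQ (g t) r`; so `QQ (g t) r = D(t, r)` for `r > 0`, where `D` is the (smooth, hence locally bounded) time
derivative of `g`.  `φ` vanishes for `r ≥ K`, so differentiation under the integral sign on `(0, K)` gives
`mom_hasDeriv` (mathlib: `hasDerivAt_integral_of_dominated_loc_of_deriv_le`), the derivative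
`∫_0^K φ r² D(t, r) dr` is continuous in `t < 0`, and the fundamental theorem of calculus gives `mom_diff`.

`prof_joint`: joint continuity facts used in several modules: `g`, `∂_r g`, `∂_r² g` are jointly continuous
on `Iio 0 × ℝ` (they are iterated derivatives of a smooth function on an open set).
-/

set_option autoImplicit false

namespace Pool.Agent.LandauR

open MeasureTheory Set Filter Topology

theorem rtime_open : IsOpen (Iio (0 : ℝ) ×ˢ (univ : Set ℝ)) := isOpen_Iio.prod isOpen_univ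

theorem rtime_partial2 {F : ℝ × ℝ → ℝ}
    (hF : ContDiffOn ℝ (⊤ : ℕ∞) F (Iio (0 : ℝ) ×ˢ univ)) :
    ContDiffOn ℝ (⊤ : ℕ∞) (fun p : ℝ × ℝ => deriv (fun r => F (p.1, r)) p.2)
      (Iio (0 : ℝ) ×ˢ univ) := by
  have h1 : ContDiffOn ℝ (⊤ : ℕ∞) (fun p : ℝ × ℝ => fderiv ℝ F p ((0 : ℝ), (1 : ℝ)))
      (Iio (0 : ℝ) ×ˢ univ) := by
    refine ContDiffOn.clm_apply (hF.fderiv_of_isOpen rtime_open ?_) contDiffOn_const
    exact le_rfl
  refine h1.congr ?_
  rintro ⟨t, r⟩ hp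
  have hd : DifferentiableAt ℝ F (t, r) :=
    (hF.differentiableOn (by simp)).differentiableAt (rtime_open.mem_nhds hp)
  have h2 : HasDerivAt (fun x : ℝ => ((t, x) : ℝ × ℝ)) ((0 : ℝ), (1 : ℝ)) r :=
    (hasDerivAt_const r t).prodMk (hasDerivAt_id r)
  exact (hd.hasFDerivAt.comp_hasDerivAt r h2).deriv

theorem joint_g {g : ℝ → ℝ → ℝ} (hg : RSol g) :
    ContinuousOn (fun p : ℝ × ℝ => g p.1 p.2) (Iio (0 : ℝ) ×ˢ univ) ∧
    ContDiffOn ℝ (⊤ : ℕ∞) (fun p : ℝ × ℝ => deriv (g p.1) p.2) (Iio (0 : ℝ) ×ˢ univ) ∧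
    ContDiffOn ℝ (⊤ : ℕ∞) (fun p : ℝ × ℝ => deriv (deriv (g p.1)) p.2)
      (Iio (0 : ℝ) ×ˢ univ) := by
  have h1 := rtime_partial2 hg.smooth
  exact ⟨hg.smooth.continuousOn, h1, rtime_partial2 h1⟩

theorem joint_q {g : ℝ → ℝ → ℝ} (hg : RSol g) :
    ∃ D : ℝ × ℝ → ℝ, ContDiffOn ℝ (⊤ : ℕ∞) D (Iio (0 : ℝ) ×ˢ univ) ∧
      (∀ t < 0, ∀ r > 0, QQ (g t) r = D (t, r)) ∧
      ∀ t < 0, ∀ r : ℝ, HasDerivAt (fun s => g s r) (D (t, r)) t := by
  have h1 : ContDiffOn ℝ (⊤ : ℕ∞)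
      (fun p : ℝ × ℝ => fderiv ℝ (fun p : ℝ × ℝ => g p.1 p.2) p ((1 : ℝ), (0 : ℝ)))
      (Iio (0 : ℝ) ×ˢ univ) := by
    refine ContDiffOn.clm_apply (hg.smooth.fderiv_of_isOpen rtime_open ?_) contDiffOn_const
    exact le_rfl
  have h2 : ∀ t < 0, ∀ r : ℝ, HasDerivAt (fun s => g s r)
      (fderiv ℝ (fun p : ℝ × ℝ => g p.1 p.2) (t, r) ((1 : ℝ), (0 : ℝ))) t := by
    intro t ht r
    have hd : DifferentiableAt ℝ (fun p : ℝ × ℝ => g p.1 p.2) (t, r) :=
      (hg.smooth.differentiableOn (by simp)).differentiableAt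
        (rtime_open.mem_nhds ⟨ht, mem_univ _⟩)
    have h3 : HasDerivAt (fun x : ℝ => ((x, r) : ℝ × ℝ)) ((1 : ℝ), (0 : ℝ)) t :=
      (hasDerivAt_id t).prodMk (hasDerivAt_const t r)
    exact hd.hasFDerivAt.comp_hasDerivAt t h3
  exact ⟨_, h1, fun t ht r hr => (hg.eq t ht r hr).unique (h2 t ht r), h2⟩

theorem rtime_int {φ : ℝ → ℝ} {δ K : ℝ} (hφ : Tst φ δ K) (h : ℝ → ℝ) :
    ∫ r in Ioi (0 : ℝ), φ r * (r ^ 2 * h r) = ∫ r in (0 : ℝ)..K, φ r * (r ^ 2 * h r) := by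
  have hK : 0 < K := lt_trans hφ.dpos hφ.dK
  rw [intervalIntegral.integral_of_le hK.le]
  refine setIntegral_eq_of_subset_of_forall_diff_eq_zero measurableSet_Ioi
    Ioc_subset_Ioi_self ?_
  intro x hx
  have hx1 : K ≤ x := by
    by_contra hlt
    exact hx.2 ⟨hx.1, (not_le.1 hlt).le⟩
  simp [hφ.far x hx1]

theorem mom_hasDeriv {g : ℝ → ℝ → ℝ} {φ : ℝ → ℝ} {δ K : ℝ} (hg : RSol g) (hφ : Tst φ δ K)
    {t : ℝ} (ht : t < 0) : HasDerivAt (fun s => mom φ (g s)) (dmom φ (g t)) t := by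
  obtain ⟨D, hD, hDQ, hDd⟩ := joint_q hg
  have hK : 0 < K := lt_trans hφ.dpos hφ.dK
  have e1 : (fun s => mom φ (g s)) = fun s => ∫ r in (0 : ℝ)..K, φ r * (r ^ 2 * g s r) := by
    funext s
    exact rtime_int hφ (g s)
  have e2 : dmom φ (g t) = ∫ r in (0 : ℝ)..K, φ r * (r ^ 2 * D (t, r)) := by
    have : dmom φ (g t) = ∫ r in (0 : ℝ)..K, φ r * (r ^ 2 * QQ (g t) r) := rtime_int hφ _
    rw [this]
    refine intervalIntegral.integral_congr_ae ?_
    refine Filter.Eventually.of_forall fun r hr => ?_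
    rw [uIoc_of_le hK.le] at hr
    rw [hDQ t ht r hr.1]
  rw [e1, e2]
  -- the neighbourhood
  have hc : IsCompact (Icc (2 * t) (t / 2) ×ˢ Icc (0 : ℝ) K) := isCompact_Icc.prod isCompact_Icc
  have hsub : Icc (2 * t) (t / 2) ×ˢ Icc (0 : ℝ) K ⊆ Iio (0 : ℝ) ×ˢ univ := by
    rintro ⟨a, b⟩ ⟨h1, -⟩
    refine ⟨?_, mem_univ _⟩
    have := h1.2
    simp only [mem_Iio]
    linarith
  have hcont : ContinuousOn (fun p : ℝ × ℝ => φ p.2 * (p.2 ^ 2 * D p))
      (Icc (2 * t) (t / 2) ×ˢ Icc (0 : ℝ) K) := by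
    refine ContinuousOn.mul ?_ (ContinuousOn.mul ?_ (hD.continuousOn.mono hsub))
    · exact (hφ.smooth.continuous.comp continuous_snd).continuousOn
    · exact (continuous_snd.pow 2).continuousOn
  obtain ⟨C, hC⟩ := hc.exists_bound_of_continuousOn hcont
  have hnh : Ioo (2 * t) (t / 2) ∈ 𝓝 t := Ioo_mem_nhds (by linarith) (by linarith)
  have hgc : ∀ s < 0, Continuous (fun r => φ r * (r ^ 2 * g s r)) := fun s hs =>
    hφ.smooth.continuous.mul ((continuous_id.pow 2).mul (hg.prof s hs).smooth.continuous)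
  have hDc : Continuous (fun r => φ r * (r ^ 2 * D (t, r))) := by
    refine hφ.smooth.continuous.mul ((continuous_id.pow 2).mul ?_)
    exact hD.continuousOn.comp_continuous (by fun_prop) (fun r => ⟨ht, mem_univ _⟩)
  have key := intervalIntegral.hasDerivAt_integral_of_dominated_loc_of_deriv_le
    (μ := volume) (a := 0) (b := K) (𝕜 := ℝ)
    (F := fun s r => φ r * (r ^ 2 * g s r)) (F' := fun s r => φ r * (r ^ 2 * D (s, r)))
    (x₀ := t) (s := Ioo (2 * t) (t / 2)) (bound := fun _ => C) hnh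
    (by
      filter_upwards [hnh] with s hs
      exact (hgc s (by have := hs.2; linarith)).aestronglyMeasurable)
    ((hgc t ht).intervalIntegrable _ _)
    (hDc.aestronglyMeasurable)
    (by
      refine Filter.Eventually.of_forall fun r hr s hs => ?_
      rw [uIoc_of_le hK.le] at hr
      exact hC (s, r) ⟨⟨hs.1.le, hs.2.le⟩, ⟨hr.1.le, hr.2⟩⟩)
    (intervalIntegrable_const)
    (by
      refine Filter.Eventually.of_forall fun r hr s hs => ?_
      have hs0 : s < 0 := by have := hs.2; linarith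
      exact ((hDd s hs0 r).const_mul (r ^ 2)).const_mul (φ r))
  exact key.2

theorem dmom_cont {g : ℝ → ℝ → ℝ} {φ : ℝ → ℝ} {δ K : ℝ} (hg : RSol g) (hφ : Tst φ δ K) :
    ContinuousOn (fun t => dmom φ (g t)) (Iio (0 : ℝ)) := by
  obtain ⟨D, hD, hDQ, hDd⟩ := joint_q hg
  have hK : 0 < K := lt_trans hφ.dpos hφ.dK
  have h1 : ContinuousOn (fun t => ∫ r in (0 : ℝ)..K, φ r * (r ^ 2 * D (t, r)))
      (Iio (0 : ℝ)) := by
    rw [continuousOn_iff_continuous_restrict]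
    have hj : Continuous (Function.uncurry
        (fun (x : Iio (0 : ℝ)) (r : ℝ) => φ r * (r ^ 2 * D ((x : ℝ), r)))) := by
      have h2 : Continuous (fun p : Iio (0 : ℝ) × ℝ => D ((p.1 : ℝ), p.2)) :=
        hD.continuousOn.comp_continuous (by fun_prop) (fun p => ⟨p.1.2, mem_univ _⟩)
      exact (hφ.smooth.continuous.comp continuous_snd).mul ((continuous_snd.pow 2).mul h2)
    exact intervalIntegral.continuous_parametric_intervalIntegral_of_continuous' hj 0 K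
  refine h1.congr ?_
  intro t ht
  have e : dmom φ (g t) = ∫ r in (0 : ℝ)..K, φ r * (r ^ 2 * QQ (g t) r) := rtime_int hφ _
  show dmom φ (g t) = _
  rw [e]
  refine intervalIntegral.integral_congr_ae ?_
  refine Filter.Eventually.of_forall fun r hr => ?_
  rw [uIoc_of_le hK.le] at hr
  rw [hDQ t ht r hr.1]

theorem mom_diff {g : ℝ → ℝ → ℝ} {φ : ℝ → ℝ} {δ K : ℝ} (hg : RSol g) (hφ : Tst φ δ K)
    {s t : ℝ} (hst : s ≤ t) (ht : t < 0) :
    mom φ (g t) - mom φ (g s) = ∫ τ in s..t, dmom φ (g τ) := by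
  have hsub : uIcc s t ⊆ Iio (0 : ℝ) := by
    rw [uIcc_of_le hst]
    intro x hx
    exact lt_of_le_of_lt hx.2 ht
  symm
  exact intervalIntegral.integral_eq_sub_of_hasDerivAt (f := fun s => mom φ (g s))
    (fun x hx => mom_hasDeriv hg hφ (hsub hx))
    ((dmom_cont hg hφ).mono hsub).intervalIntegrable

end Pool.Agent.LandauR
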