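import Pool.Agent.LandauR.RCalc

/-!
# LandauR, module RWeak: flux form and weak form of the collision operator

`flux`: for `r > 0`, with `F r = r² AA g' + NN g`,
`F' = 2 r AA g' - (EE / r²) g' + r² AA g'' + r² g² + NN g'` and
`r² QQ = r² AA g'' + r (aa - AA) g' + r² g²`; these agree since `EE / r² = 3 r AA - r PP` and
`r aa = NN + r PP`.

`weak_id`: integrate by parts twice on `(0, ∞)`.  As `φ` vanishes for large `r` there is no boundary
term at infinity, and `F → 0`, `φ' = 0` near `0`.  So `∫ φ r² QQ = -∫ φ' F = -∫ (φ' r² AA) g' - ∫ φ' NN g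
= ∫ g ((φ' r² AA)' - φ' NN)`, where `(φ' r² AA)' = φ'' r² AA + φ' (2 r AA - EE / r²)
= φ'' r² AA + φ' (r PP - r AA)`.
(All integrands are supported in `[δ, K]` for the last two integrals; near `0` the first integrand is
`φ(0) F'`, with `F` continuous at `0`: `|EE| ≤ r⁵/5`, `0 ≤ PP ≤ PP 0`, so `r² AA → 0`.)
-/

set_option autoImplicit false

namespace Pool.Agent.LandauR

open MeasureTheory Set Filter Topology

theorem flux {g : ℝ → ℝ} (hg : Prof g) {r : ℝ} (hr : 0 < r) :
    HasDerivAt (fun x => x ^ 2 * AA g x * deriv g x + NN g x * g x) (r ^ 2 * QQ g r) r := by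
  have hd1 : HasDerivAt g (deriv g r) r := (hg.smooth.differentiable (by simp) r).hasDerivAt
  have hs2 : ContDiff ℝ (⊤ : ℕ∞) (deriv g) := (contDiff_infty_iff_deriv.1 hg.smooth).2
  have hd2 : HasDerivAt (deriv g) (deriv (deriv g) r) r :=
    (hs2.differentiable (by simp) r).hasDerivAt
  have h2 : HasDerivAt (fun x : ℝ => x ^ 2) (2 * r) r := by
    simpa using hasDerivAt_pow 2 r
  have h3 := ((h2.fun_mul (hasDerivAt_AA hg hr)).fun_mul hd2).fun_add
    ((hasDerivAt_NN hg r).fun_mul hd1)
  refine h3.congr_deriv ?_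
  unfold QQ aa AA
  have : r ≠ 0 := hr.ne'
  field_simp
  ring

theorem RWeak_cont {g : ℝ → ℝ} (hg : Prof g) {r : ℝ} (hr : 0 ≤ r) :
    ContinuousWithinAt (fun x => x ^ 2 * AA g x) (Ici 0) r := by
  rcases eq_or_lt_of_le hr with h | h
  · subst h
    have h0 : (fun x => x ^ 2 * AA g x) 0 = 0 := by simp
    have hle : ∀ x ∈ Ici (0 : ℝ), 0 ≤ x ^ 2 * AA g x ∧ x ^ 2 * AA g x ≤ x ^ 2 * PP g 0 := by
      intro x hx
      rcases eq_or_lt_of_le (mem_Ici.1 hx) with h1 | h1
      · subst h1
        simp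
      · have h2 := AA_pos hg h1
        have h3 := three_AA_le hg h1
        have h4 := aa_le_PP0 hg h1
        refine ⟨by positivity, mul_le_mul_of_nonneg_left (by linarith) (sq_nonneg x)⟩
    have h1 : Tendsto (fun x : ℝ => x ^ 2 * PP g 0) (𝓝[Ici 0] 0) (𝓝 0) := by
      have : ContinuousAt (fun x : ℝ => x ^ 2 * PP g 0) 0 := by fun_prop
      have h2 := this.tendsto
      simp only [ne_eq, OfNat.ofNat_ne_zero, not_false_eq_true, zero_pow, zero_mul] at h2
      exact h2.mono_left nhdsWithin_le_nhds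
    unfold ContinuousWithinAt
    rw [h0]
    refine tendsto_of_tendsto_of_tendsto_of_le_of_le' tendsto_const_nhds h1 ?_ ?_
    · filter_upwards [self_mem_nhdsWithin] with x hx using (hle x hx).1
    · filter_upwards [self_mem_nhdsWithin] with x hx using (hle x hx).2
  · have h1 : ContinuousAt (fun x => x ^ 2 * AA g x) r :=
      (continuousAt_id.pow 2).mul (hasDerivAt_AA hg h).continuousAt
    exact h1.continuousWithinAt

theorem RWeak_tst {φ : ℝ → ℝ} {δ K : ℝ} (hφ : Tst φ δ K) :
    Continuous (deriv φ) ∧ Continuous (deriv (deriv φ)) ∧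
      (∀ r, HasDerivAt φ (deriv φ r) r) ∧ (∀ r, HasDerivAt (deriv φ) (deriv (deriv φ) r) r) ∧
      (∀ r < δ, deriv φ r = 0 ∧ deriv (deriv φ) r = 0) ∧
      (∀ r, K ≤ r → deriv φ r = 0 ∧ deriv (deriv φ) r = 0) := by
  have hs1 : ContDiff ℝ (⊤ : ℕ∞) (deriv φ) := (contDiff_infty_iff_deriv.1 hφ.smooth).2
  have hs2 : ContDiff ℝ (⊤ : ℕ∞) (deriv (deriv φ)) := (contDiff_infty_iff_deriv.1 hs1).2
  have hn1 : ∀ r < δ, deriv φ r = 0 := by
    intro r hr
    have h1 : φ =ᶠ[𝓝 r] fun _ => φ 0 := by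
      filter_upwards [Iio_mem_nhds hr] with x hx using hφ.near x (le_of_lt hx)
    rw [h1.deriv_eq, deriv_const]
  have hn2 : ∀ r < δ, deriv (deriv φ) r = 0 := by
    intro r hr
    have h1 : deriv φ =ᶠ[𝓝 r] fun _ => (0 : ℝ) := by
      filter_upwards [Iio_mem_nhds hr] with x hx using hn1 x hx
    rw [h1.deriv_eq, deriv_const]
  have hf1 : ∀ r, K < r → deriv φ r = 0 := by
    intro r hr
    have h1 : φ =ᶠ[𝓝 r] fun _ => (0 : ℝ) := by
      filter_upwards [Ioi_mem_nhds hr] with x hx using hφ.far x (le_of_lt hx)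
    rw [h1.deriv_eq, deriv_const]
  have hf2 : ∀ r, K < r → deriv (deriv φ) r = 0 := by
    intro r hr
    have h1 : deriv φ =ᶠ[𝓝 r] fun _ => (0 : ℝ) := by
      filter_upwards [Ioi_mem_nhds hr] with x hx using hf1 x hx
    rw [h1.deriv_eq, deriv_const]
  have hcl : ∀ f : ℝ → ℝ, Continuous f → (∀ r, K < r → f r = 0) → ∀ r, K ≤ r → f r = 0 := by
    intro f hf h r hr
    have h1 : closure (Ioi K) ⊆ {x | f x = 0} :=
      (isClosed_eq hf continuous_const).closure_subset_iff.2 fun x hx => h x hx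
    rw [closure_Ioi] at h1
    exact h1 hr
  refine ⟨hs1.continuous, hs2.continuous,
    fun r => (hφ.smooth.differentiable (by simp) r).hasDerivAt,
    fun r => (hs1.differentiable (by simp) r).hasDerivAt,
    fun r hr => ⟨hn1 r hr, hn2 r hr⟩,
    fun r hr => ⟨hcl _ hs1.continuous hf1 r hr, hcl _ hs2.continuous hf2 r hr⟩⟩

theorem weak_id {g φ : ℝ → ℝ} {δ K : ℝ} (hg : Prof g) (hφ : Tst φ δ K) :
    dmom φ g = ∫ r in Ioi (0 : ℝ), g r * (deriv (deriv φ) r * (r ^ 2 * AA g r)
      + deriv φ r * (r * PP g r - r * AA g r - NN g r)) := by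
  obtain ⟨hc1, hc2, hd1, hd2, hn, hf⟩ := RWeak_tst hφ
  obtain ⟨q, hq, hq1⟩ := hg.qsm
  have hK : 0 < K := hφ.dpos.trans hφ.dK
  set W : ℝ → ℝ := fun r => g r * (deriv (deriv φ) r * (r ^ 2 * AA g r)
      + deriv φ r * (r * PP g r - r * AA g r - NN g r)) with hW
  have hWc : Continuous W := by
    rw [continuous_iff_continuousAt]
    intro r
    rcases lt_or_ge r δ with h | h
    · have h1 : W =ᶠ[𝓝 r] fun _ => (0 : ℝ) := by
        filter_upwards [Iio_mem_nhds h] with x hx
        have := hn x hx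
        simp only [hW, this.1, this.2, zero_mul, add_zero, mul_zero]
      exact (continuousAt_const (y := (0 : ℝ))).congr h1.symm
    · have hr : 0 < r := lt_of_lt_of_le hφ.dpos h
      have hA := (hasDerivAt_AA hg hr).continuousAt
      have hP := (hasDerivAt_PP hg r).continuousAt
      have hN := (hasDerivAt_NN hg r).continuousAt
      have hgc := (rc_cont hg).continuousAt (x := r)
      exact hgc.mul ((hc2.continuousAt.mul ((continuousAt_id.pow 2).mul hA)).add
        (hc1.continuousAt.mul (((continuousAt_id.mul hP).sub (continuousAt_id.mul hA)).sub hN)))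
  have hcut : ∀ f : ℝ → ℝ, (∀ r, K < r → f r = 0) →
      ∫ r in Ioi (0 : ℝ), f r = ∫ r in (0 : ℝ)..K, f r := by
    intro f hf0
    rw [intervalIntegral.integral_of_le hK.le]
    refine setIntegral_eq_of_subset_of_forall_sdiff_eq_zero measurableSet_Ioi Ioc_subset_Ioi_self ?_
    intro x hx
    refine hf0 x ?_
    by_contra h
    exact hx.2 ⟨hx.1, not_lt.1 h⟩
  have hL : dmom φ g = ∫ r in (0 : ℝ)..K, φ r * (r ^ 2 * QQ g r) := by
    unfold dmom
    exact hcut _ fun r hr => by rw [hφ.far r hr.le, zero_mul]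
  have hR : ∫ r in Ioi (0 : ℝ), W r = ∫ r in (0 : ℝ)..K, W r := by
    refine hcut _ fun r hr => ?_
    have := hf r hr.le
    simp only [hW, this.1, this.2, zero_mul, add_zero, mul_zero]
  rw [hL, hR]
  set H : ℝ → ℝ := fun r => φ r * (r ^ 2 * AA g r * deriv g r + NN g r * g r) -
    deriv φ r * (r ^ 2 * AA g r) * g r with hH
  have hgd : ∀ r, HasDerivAt g (deriv g r) r := fun r =>
    (hg.smooth.differentiable (by simp) r).hasDerivAt
  have hg1 : Continuous (deriv g) := (contDiff_infty_iff_deriv.1 hg.smooth).2.continuous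
  have hHc : ContinuousOn H (Icc 0 K) := by
    intro r hr
    have h1 := (RWeak_cont hg hr.1).mono (s := Icc 0 K) (fun x hx => hx.1)
    have hN : ContinuousWithinAt (NN g) (Icc 0 K) r :=
      (hasDerivAt_NN hg r).continuousAt.continuousWithinAt
    have hgw : ContinuousWithinAt g (Icc 0 K) r := (rc_cont hg).continuousWithinAt
    have hφc : Continuous φ := hφ.smooth.continuous
    exact (hφc.continuousWithinAt.mul ((h1.mul hg1.continuousWithinAt).add (hN.mul hgw))).sub
      ((hc1.continuousWithinAt.mul h1).mul hgw)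
  have hHd : ∀ r ∈ Ioo 0 K, HasDerivAt H (φ r * (r ^ 2 * QQ g r) - W r) r := by
    intro r hr
    have hr0 : 0 < r := hr.1
    have h2 : HasDerivAt (fun x : ℝ => x ^ 2) (2 * r) r := by
      simpa using hasDerivAt_pow 2 r
    have h3 := ((hd1 r).fun_mul (flux hg hr0)).fun_sub
      (((hd2 r).fun_mul (h2.fun_mul (hasDerivAt_AA hg hr0))).fun_mul (hgd r))
    refine h3.congr_deriv ?_
    simp only [hW]
    have hE : EE g r / r ^ 4 = (3 * AA g r - PP g r) / r := by
      unfold AA
      have : r ≠ 0 := hr0.ne'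
      field_simp
      ring
    rw [hE]
    have : r ≠ 0 := hr0.ne'
    field_simp
    ring
  have hI1 : IntervalIntegrable (fun r => φ r * (r ^ 2 * QQ g r)) volume 0 K := by
    have h1 : IntervalIntegrable (fun r => φ r * (r ^ 2 * q r)) volume 0 K :=
      (hφ.smooth.continuous.mul ((continuous_pow 2).mul hq.continuous)).intervalIntegrable 0 K
    refine h1.congr ?_
    intro r hr
    rw [uIoc_of_le hK.le] at hr
    simp only [hq1 r hr.1]
  have hI2 : IntervalIntegrable W volume 0 K := hWc.intervalIntegrable 0 K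
  have hftc := intervalIntegral.integral_eq_sub_of_hasDeriv_right_of_le hK.le hHc
    (fun r hr => (hHd r hr).hasDerivWithinAt) (hI1.sub hI2)
  rw [intervalIntegral.integral_sub hI1 hI2] at hftc
  have hHK : H K = 0 := by
    simp only [hH, hφ.far K le_rfl, (hf K le_rfl).1, zero_mul, sub_zero]
  have hH0 : H 0 = 0 := by
    have : NN g 0 = 0 := by
      unfold NN
      exact intervalIntegral.integral_same
    simp only [hH, this]
    simp
  rw [hHK, hH0, sub_zero] at hftc
  linarith

end Pool.Agent.LandauR
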