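import Pool.Agent.LandauR.RGlobal
import Pool.Agent.LandauR.RFric
import Pool.Agent.LandauR.RLim

/-!
# LandauR, module RWin: the friction estimate on a time window

Let `C` be the constant of `fric_int` and `C₁ = 1`.  Put `y τ = Fit (g τ) 0` (continuous, antitone in time),
`z τ = y τ + E + e (t - τ)`.  For `s ≤ a ≤ b ≤ t` and `K > R`, `global_ineq` and `fric_int` give
`y b + (2/(3C)) ∫_a^b (PP R - PP K) (Fi 0 (R/2))² / NN R ≤ y a + (2/3) ∫_a^b (NN R / R³) Fi R K`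
`≤ y a + e (b - a)` (`Fi R K ≤ Fit R`).  Let `K → ∞` (`PP (g τ) K ≤ aa (g τ) K ≤ ...` tends to `0` for each `τ`
(`tendsto_PP`), monotone/dominated convergence, everything is bounded by the continuous function
`PP (g τ) R`): `z b + (2/(3C)) ∫_a^b p (Fi 0 (R/2))² ≤ z a` with `p = PP R / NN R` (continuous, `≥ 0`).
Now `Fi 0 (R/2) = y - Fit (R/2) ≥ y - δ` (`Fit_split`), `z ≤ y + y(t)/4` on the window and `y ≥ y(t)`
(`Fit_anti`), `δ ≤ y(t)/4`; so `y - δ ≥ z/2`, and `z b + (1/(6C)) ∫_a^b p z² ≤ z a`.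
`riccati` (applied with `p/(6C)`) gives `(1/(6C)) ∫_s^t p ≤ 1/z(t) - 1/z(s)`.
-/

set_option autoImplicit false

namespace Pool.Agent.LandauR

open MeasureTheory Set Filter Topology

/-- the one step inequality before the limit `K → ∞` -/
private theorem RWin_step {C : ℝ} (hC : 0 < C)
    (hfric : ∀ g : ℝ → ℝ, Prof g → ∀ R K : ℝ, 0 < R → R < K →
      (PP g R - PP g K) * Fi g 0 (R / 2) ^ 2 ≤
        C * (NN g R * Frr g R K + NN g R ^ 2 / R ^ 3 * Fi g R K))
    {g : ℝ → ℝ → ℝ} (hg : RSol g) {R K a b e : ℝ} (hR : 0 < R) (hK : R < K) (hab : a ≤ b)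
    (hb : b < 0) (he : 0 ≤ e) (h2 : ∀ τ ∈ Icc a b, NN (g τ) R / R ^ 3 * Fit (g τ) R ≤ e) :
    Fit (g b) 0 + 2 / (3 * C) * (∫ τ in a..b,
      (PP (g τ) R - PP (g τ) K) / NN (g τ) R * Fi (g τ) 0 (R / 2) ^ 2) ≤
      Fit (g a) 0 + e * (b - a) := by
  obtain ⟨C', -, hft⟩ := fisher_tail
  have hsub : Icc a b ⊆ Iio (0 : ℝ) := fun τ hτ => lt_of_le_of_lt hτ.2 hb
  have hglob := global_ineq hg hR hK hab hb
  have cPR : ContinuousOn (fun τ => PP (g τ) R) (Icc a b) := (cont_PP hg hR.le).mono hsub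
  have cPK : ContinuousOn (fun τ => PP (g τ) K) (Icc a b) :=
    (cont_PP hg (hR.trans hK).le).mono hsub
  have cN : ContinuousOn (fun τ => NN (g τ) R) (Icc a b) := (cont_NN hg R).mono hsub
  have cF : ContinuousOn (fun τ => Fi (g τ) 0 (R / 2)) (Icc a b) :=
    (cont_Fi hg 0 (R / 2)).mono hsub
  have cFr : ContinuousOn (fun τ => Frr (g τ) R K) (Icc a b) :=
    (cont_Frr hg hR hK.le).mono hsub
  have hNpos : ∀ τ ∈ Icc a b, 0 < NN (g τ) R := fun τ hτ => NN_pos (hg.prof τ (hsub hτ)) hR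
  have cq : ContinuousOn (fun τ => (PP (g τ) R - PP (g τ) K) / NN (g τ) R *
      Fi (g τ) 0 (R / 2) ^ 2) (Icc a b) :=
    ((cPR.sub cPK).div cN (fun τ hτ => (hNpos τ hτ).ne')).mul (cF.pow 2)
  have hpt : ∀ τ ∈ Icc a b, 2 / (3 * C) * ((PP (g τ) R - PP (g τ) K) / NN (g τ) R *
      Fi (g τ) 0 (R / 2) ^ 2) ≤ 2 / 3 * Frr (g τ) R K + e := by
    intro τ hτ
    have hp := hg.prof τ (hsub hτ)
    have hN := hNpos τ hτ
    have hf := hfric (g τ) hp R K hR hK
    have hint := (hft g hg τ (hsub hτ)).1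
    have hFi : Fi (g τ) R K ≤ Fit (g τ) R := by
      have h := Fit_split hint hR.le hK.le
      have h' := Fit_nonneg hp K
      linarith
    have he2 := h2 τ hτ
    have hNR : 0 ≤ NN (g τ) R / R ^ 3 := by positivity
    have h5 : NN (g τ) R / R ^ 3 * Fi (g τ) R K ≤ e :=
      (mul_le_mul_of_nonneg_left hFi hNR).trans he2
    have h6 : (PP (g τ) R - PP (g τ) K) / NN (g τ) R * Fi (g τ) 0 (R / 2) ^ 2 ≤
        C * (Frr (g τ) R K + NN (g τ) R / R ^ 3 * Fi (g τ) R K) := by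
      rw [div_mul_eq_mul_div, div_le_iff₀ hN]
      refine hf.trans (le_of_eq ?_)
      field_simp
    have h7 : (PP (g τ) R - PP (g τ) K) / NN (g τ) R * Fi (g τ) 0 (R / 2) ^ 2 ≤
        C * (Frr (g τ) R K + e) :=
      h6.trans (mul_le_mul_of_nonneg_left (by linarith) hC.le)
    calc 2 / (3 * C) * ((PP (g τ) R - PP (g τ) K) / NN (g τ) R * Fi (g τ) 0 (R / 2) ^ 2)
        ≤ 2 / (3 * C) * (C * (Frr (g τ) R K + e)) :=
          mul_le_mul_of_nonneg_left h7 (by positivity)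
      _ = 2 / 3 * Frr (g τ) R K + 2 / 3 * e := by field_simp
      _ ≤ 2 / 3 * Frr (g τ) R K + e := by linarith
  have hmono : (∫ τ in a..b, 2 / (3 * C) * ((PP (g τ) R - PP (g τ) K) / NN (g τ) R *
      Fi (g τ) 0 (R / 2) ^ 2)) ≤ ∫ τ in a..b, (2 / 3 * Frr (g τ) R K + e) := by
    refine intervalIntegral.integral_mono_on hab ?_ ?_ hpt
    · exact ContinuousOn.intervalIntegrable (by
        rw [uIcc_of_le hab]; exact continuousOn_const.mul cq)
    · exact ContinuousOn.intervalIntegrable (by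
        rw [uIcc_of_le hab]; exact (continuousOn_const.mul cFr).add continuousOn_const)
  rw [intervalIntegral.integral_const_mul, intervalIntegral.integral_add
    (ContinuousOn.intervalIntegrable (by
        rw [uIcc_of_le hab]; exact continuousOn_const.mul cFr))
    (ContinuousOn.intervalIntegrable continuousOn_const), intervalIntegral.integral_const_mul,
    intervalIntegral.integral_const, smul_eq_mul] at hmono
  have hcomm : (b - a) * e = e * (b - a) := mul_comm _ _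
  linarith

/-- the limit `K → ∞` -/
private theorem RWin_lim {C : ℝ} (hC : 0 < C)
    (hfric : ∀ g : ℝ → ℝ, Prof g → ∀ R K : ℝ, 0 < R → R < K →
      (PP g R - PP g K) * Fi g 0 (R / 2) ^ 2 ≤
        C * (NN g R * Frr g R K + NN g R ^ 2 / R ^ 3 * Fi g R K))
    {g : ℝ → ℝ → ℝ} (hg : RSol g) {R a b e : ℝ} (hR : 0 < R) (hab : a ≤ b)
    (hb : b < 0) (he : 0 ≤ e) (h2 : ∀ τ ∈ Icc a b, NN (g τ) R / R ^ 3 * Fit (g τ) R ≤ e) :
    Fit (g b) 0 + 2 / (3 * C) * (∫ τ in a..b,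
      PP (g τ) R / NN (g τ) R * Fi (g τ) 0 (R / 2) ^ 2) ≤
      Fit (g a) 0 + e * (b - a) := by
  have hsub : Icc a b ⊆ Iio (0 : ℝ) := fun τ hτ => lt_of_le_of_lt hτ.2 hb
  have cPR : ContinuousOn (fun τ => PP (g τ) R) (Icc a b) := (cont_PP hg hR.le).mono hsub
  have cN : ContinuousOn (fun τ => NN (g τ) R) (Icc a b) := (cont_NN hg R).mono hsub
  have cF : ContinuousOn (fun τ => Fi (g τ) 0 (R / 2)) (Icc a b) :=
    (cont_Fi hg 0 (R / 2)).mono hsub
  have hNpos : ∀ τ ∈ Icc a b, 0 < NN (g τ) R := fun τ hτ => NN_pos (hg.prof τ (hsub hτ)) hR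
  have cq : ContinuousOn (fun τ => PP (g τ) R / NN (g τ) R *
      Fi (g τ) 0 (R / 2) ^ 2) (Icc a b) :=
    (cPR.div cN (fun τ hτ => (hNpos τ hτ).ne')).mul (cF.pow 2)
  have hioc : Set.uIoc a b ⊆ Icc a b := by
    rw [uIoc_of_le hab]; exact Ioc_subset_Icc_self
  have hlim : Tendsto (fun K => ∫ τ in a..b,
      (PP (g τ) R - PP (g τ) K) / NN (g τ) R * Fi (g τ) 0 (R / 2) ^ 2) atTop
      (𝓝 (∫ τ in a..b, PP (g τ) R / NN (g τ) R * Fi (g τ) 0 (R / 2) ^ 2)) := by
    refine intervalIntegral.tendsto_integral_filter_of_dominated_convergence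
      (fun τ => PP (g τ) R / NN (g τ) R * Fi (g τ) 0 (R / 2) ^ 2) ?_ ?_ ?_ ?_
    · filter_upwards [eventually_gt_atTop R] with K hK
      have cPK : ContinuousOn (fun τ => PP (g τ) K) (Icc a b) :=
        (cont_PP hg (hR.trans hK).le).mono hsub
      have cK : ContinuousOn (fun τ => (PP (g τ) R - PP (g τ) K) / NN (g τ) R *
          Fi (g τ) 0 (R / 2) ^ 2) (Icc a b) :=
        ((cPR.sub cPK).div cN (fun τ hτ => (hNpos τ hτ).ne')).mul (cF.pow 2)
      exact (cK.mono hioc).aestronglyMeasurable measurableSet_uIoc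
    · filter_upwards [eventually_gt_atTop R] with K hK
      refine ae_of_all _ fun τ hτ => ?_
      have hτ' := hioc hτ
      have hp := hg.prof τ (hsub hτ')
      have hN := hNpos τ hτ'
      have h1 : PP (g τ) K ≤ PP (g τ) R := PP_anti hp hR.le hK.le
      have h2 : 0 < PP (g τ) K := PP_pos hp (hR.trans hK).le
      have h3 : 0 ≤ (PP (g τ) R - PP (g τ) K) / NN (g τ) R * Fi (g τ) 0 (R / 2) ^ 2 :=
        mul_nonneg (div_nonneg (by linarith) hN.le) (sq_nonneg _)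
      rw [Real.norm_of_nonneg h3]
      exact mul_le_mul_of_nonneg_right (div_le_div_of_nonneg_right (by linarith) hN.le)
        (sq_nonneg _)
    · exact ContinuousOn.intervalIntegrable (by rw [uIcc_of_le hab]; exact cq)
    · refine ae_of_all _ fun τ hτ => ?_
      have hτ' := hioc hτ
      have hp := hg.prof τ (hsub hτ')
      have h0 := tendsto_PP hp
      have h1 : Tendsto (fun K => (PP (g τ) R - PP (g τ) K) / NN (g τ) R *
          Fi (g τ) 0 (R / 2) ^ 2) atTop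
          (𝓝 ((PP (g τ) R - 0) / NN (g τ) R * Fi (g τ) 0 (R / 2) ^ 2)) :=
        ((tendsto_const_nhds.sub h0).div_const _).mul_const _
      rwa [sub_zero] at h1
  have hlim2 : Tendsto (fun K => Fit (g b) 0 + 2 / (3 * C) * (∫ τ in a..b,
      (PP (g τ) R - PP (g τ) K) / NN (g τ) R * Fi (g τ) 0 (R / 2) ^ 2)) atTop
      (𝓝 (Fit (g b) 0 + 2 / (3 * C) * (∫ τ in a..b,
        PP (g τ) R / NN (g τ) R * Fi (g τ) 0 (R / 2) ^ 2))) :=
    tendsto_const_nhds.add (tendsto_const_nhds.mul hlim)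
  refine le_of_tendsto hlim2 ?_
  filter_upwards [eventually_gt_atTop R] with K hK
  exact RWin_step hC hfric hg hR hK hab hb he h2

theorem window : ∃ c : ℝ, 0 < c ∧ ∀ g : ℝ → ℝ → ℝ, RSol g → ∀ R s t δ e E : ℝ, 0 < R → s ≤ t →
    t < 0 → 0 ≤ δ → 0 ≤ e → 0 ≤ E →
    (∀ τ ∈ Icc s t, Fit (g τ) (R / 2) ≤ δ) →
    (∀ τ ∈ Icc s t, NN (g τ) R / R ^ 3 * Fit (g τ) R ≤ e) →
    δ + E + e * (t - s) ≤ Fit (g t) 0 / 4 →
    c * (∫ τ in s..t, PP (g τ) R / NN (g τ) R) ≤
      1 / (Fit (g t) 0 + E) - 1 / (Fit (g s) 0 + E + e * (t - s)) := by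
  obtain ⟨C, hC, hfric⟩ := fric_int
  obtain ⟨C', -, hft⟩ := fisher_tail
  refine ⟨1 / (6 * C), by positivity, ?_⟩
  intro g hg R s t δ e E hR hst ht hδ he hE h1 h2 h3
  have hsub : Icc s t ⊆ Iio (0 : ℝ) := fun τ hτ => lt_of_le_of_lt hτ.2 ht
  have cPR : ContinuousOn (fun τ => PP (g τ) R) (Icc s t) := (cont_PP hg hR.le).mono hsub
  have cN : ContinuousOn (fun τ => NN (g τ) R) (Icc s t) := (cont_NN hg R).mono hsub
  have cF : ContinuousOn (fun τ => Fi (g τ) 0 (R / 2)) (Icc s t) :=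
    (cont_Fi hg 0 (R / 2)).mono hsub
  have cy : ContinuousOn (fun τ => Fit (g τ) 0) (Icc s t) := (cont_Fit hg le_rfl).mono hsub
  have hNpos : ∀ τ ∈ Icc s t, 0 < NN (g τ) R := fun τ hτ => NN_pos (hg.prof τ (hsub hτ)) hR
  have hPpos : ∀ τ ∈ Icc s t, 0 < PP (g τ) R := fun τ hτ => PP_pos (hg.prof τ (hsub hτ)) hR.le
  have hy0 : ∀ τ ∈ Icc s t, 0 < Fit (g τ) 0 := fun τ hτ => Fit_pos hg (hsub hτ)
  have hyt : ∀ τ ∈ Icc s t, Fit (g t) 0 ≤ Fit (g τ) 0 := fun τ hτ => Fit_anti hg hτ.2 ht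
  have cp : ContinuousOn (fun τ => PP (g τ) R / NN (g τ) R) (Icc s t) :=
    cPR.div cN (fun τ hτ => (hNpos τ hτ).ne')
  have cz : ContinuousOn (fun τ => Fit (g τ) 0 + E + e * (t - τ)) (Icc s t) :=
    (cy.add continuousOn_const).add
      (continuousOn_const.mul (continuousOn_const.sub continuousOn_id))
  have hzpos : ∀ τ ∈ Icc s t, 0 < Fit (g τ) 0 + E + e * (t - τ) := by
    intro τ hτ
    have := hy0 τ hτ
    have h4 : 0 ≤ e * (t - τ) := mul_nonneg he (by linarith [hτ.2])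
    linarith
  have hFz : ∀ τ ∈ Icc s t, (Fit (g τ) 0 + E + e * (t - τ)) / 2 ≤ Fi (g τ) 0 (R / 2) := by
    intro τ hτ
    have hsp := Fit_split (hft g hg τ (hsub hτ)).1 le_rfl (by positivity : (0 : ℝ) ≤ R / 2)
    have h4 := h1 τ hτ
    have h5 := hyt τ hτ
    have h6 := hy0 t ⟨hst, le_rfl⟩
    have h7 : e * (t - τ) ≤ e * (t - s) := mul_le_mul_of_nonneg_left (by linarith [hτ.1]) he
    have h8 : 0 ≤ e * (t - s) := mul_nonneg he (by linarith)
    linarith
  have hric := riccati (fun τ => Fit (g τ) 0 + E + e * (t - τ))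
    (fun τ => 1 / (6 * C) * (PP (g τ) R / NN (g τ) R)) s t hst cz hzpos
    (continuousOn_const.mul cp)
    (fun τ hτ => mul_nonneg (by positivity) (div_nonneg (hPpos τ hτ).le (hNpos τ hτ).le)) ?_
  · rw [intervalIntegral.integral_const_mul] at hric
    simpa using hric
  · intro a ha b hb hab
    have hsab : Icc a b ⊆ Icc s t := Icc_subset_Icc ha.1 hb.2
    have hlim := RWin_lim hC hfric hg hR hab (hsub hb) he (fun τ hτ => h2 τ (hsab hτ))
    have hmono : (∫ τ in a..b, 1 / (6 * C) * (PP (g τ) R / NN (g τ) R) *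
        (Fit (g τ) 0 + E + e * (t - τ)) ^ 2) ≤
        ∫ τ in a..b, 2 / (3 * C) * (PP (g τ) R / NN (g τ) R * Fi (g τ) 0 (R / 2) ^ 2) := by
      refine intervalIntegral.integral_mono_on hab ?_ ?_ ?_
      · exact ContinuousOn.intervalIntegrable (by
          rw [uIcc_of_le hab]
          exact ((continuousOn_const.mul cp).mul (cz.pow 2)).mono hsab)
      · exact ContinuousOn.intervalIntegrable (by
          rw [uIcc_of_le hab]
          exact (continuousOn_const.mul (cp.mul (cF.pow 2))).mono hsab)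
      · intro τ hτ
        have hτ' := hsab hτ
        have h5 := hFz τ hτ'
        have h6 := hzpos τ hτ'
        have h7 : ((Fit (g τ) 0 + E + e * (t - τ)) / 2) ^ 2 ≤ Fi (g τ) 0 (R / 2) ^ 2 :=
          pow_le_pow_left₀ (by positivity) h5 2
        have h8 : 0 ≤ PP (g τ) R / NN (g τ) R :=
          div_nonneg (hPpos τ hτ').le (hNpos τ hτ').le
        calc 1 / (6 * C) * (PP (g τ) R / NN (g τ) R) * (Fit (g τ) 0 + E + e * (t - τ)) ^ 2
            = 2 / (3 * C) * (PP (g τ) R / NN (g τ) R *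
              ((Fit (g τ) 0 + E + e * (t - τ)) / 2) ^ 2) := by
              field_simp
              ring
          _ ≤ 2 / (3 * C) * (PP (g τ) R / NN (g τ) R * Fi (g τ) 0 (R / 2) ^ 2) :=
              mul_le_mul_of_nonneg_left (mul_le_mul_of_nonneg_left h7 h8) (by positivity)
    rw [intervalIntegral.integral_const_mul (2 / (3 * C))] at hmono
    have hexp : e * (t - b) + e * (b - a) = e * (t - a) := by ring
    show Fit (g b) 0 + E + e * (t - b) + _ ≤ Fit (g a) 0 + E + e * (t - a)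
    linarith

end Pool.Agent.LandauR
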